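import Pool.Agent.Lib.MP_0c2aee_an.Basic

/-! The quadratic form `En - Λ Ma` and its polar form. -/

set_option autoImplicit false

open MeasureTheory Set Metric Topology Filter

namespace Pool.Agent.MP0c2

/-- polar form -/
noncomputable def bil (Λ : ℝ) (u v : ℂ → ℝ) : ℝ :=
  (∫ x, (gx u x * gx v x + gy u x * gy v x)) - Λ * ∫ x, u x * v x

/-- the form -/
noncomputable def qf (Λ : ℝ) (u : ℂ → ℝ) : ℝ := En u - Λ * Ma u

variable {V : Set ℂ} {u v χ : ℂ → ℝ} {Λ : ℝ}

lemma IsT.int_grad (hu : IsT V u) (hv : IsT V v) :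
    Integrable (fun x => gx u x * gx v x + gy u x * gy v x) := by
  apply Integrable.add
  · exact (hu.cont_gx.mul hv.cont_gx).integrable_of_hasCompactSupport hu.cpt_gx.mul_right
  · exact (hu.cont_gy.mul hv.cont_gy).integrable_of_hasCompactSupport hu.cpt_gy.mul_right

lemma bil_self (Λ : ℝ) (u : ℂ → ℝ) : bil Λ u u = qf Λ u := by
  unfold bil qf En Ma
  congr 1
  · congr 1; ext x; rw [norm_fderiv_sq]; ring
  · congr 1; congr 1; ext x; ring

lemma bil_comm (Λ : ℝ) (u v : ℂ → ℝ) : bil Λ u v = bil Λ v u := by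
  unfold bil
  congr 1
  · congr 1; ext x; ring
  · congr 1; congr 1; ext x; ring

lemma IsT.gx_add (hu : IsT V u) (hv : IsT V v) (x : ℂ) :
    gx (fun x => u x + v x) x = gx u x + gx v x := by
  unfold gx
  rw [fderiv_fun_add (hu.differentiable x) (hv.differentiable x)]; simp

lemma IsT.gy_add (hu : IsT V u) (hv : IsT V v) (x : ℂ) :
    gy (fun x => u x + v x) x = gy u x + gy v x := by
  unfold gy
  rw [fderiv_fun_add (hu.differentiable x) (hv.differentiable x)]; simp

lemma gx_const_mul (c : ℝ) (hu : Differentiable ℝ u) (x : ℂ) :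
    gx (fun x => c * u x) x = c * gx u x := by
  unfold gx
  rw [fderiv_const_mul (hu x)]; simp

lemma gy_const_mul (c : ℝ) (hu : Differentiable ℝ u) (x : ℂ) :
    gy (fun x => c * u x) x = c * gy u x := by
  unfold gy
  rw [fderiv_const_mul (hu x)]; simp

lemma int_comb {f1 f2 f3 : ℂ → ℝ} (i1 : Integrable f1) (i2 : Integrable f2) (i3 : Integrable f3)
    (a b : ℝ) : ∫ x, (f1 x + a * f2 x + b * f3 x) = (∫ x, f1 x) + a * (∫ x, f2 x) + b * ∫ x, f3 x := by
  rw [← integral_const_mul, ← integral_const_mul]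
  have h1 : Integrable (fun x => f1 x + a * f2 x) := i1.add (i2.const_mul a)
  rw [integral_add h1 (i3.const_mul b), integral_add i1 (i2.const_mul a)]

lemma bil_add_mul (hu : IsT V u) (hv : IsT V v) (Λ t : ℝ) :
    qf Λ (fun x => u x + t * v x) = qf Λ u + 2 * t * bil Λ u v + t ^ 2 * qf Λ v := by
  have htv := hv.const_mul t
  rw [← bil_self, ← bil_self, ← bil_self]
  unfold bil
  have e1 : ∀ x, gx (fun x => u x + t * v x) x = gx u x + t * gx v x := fun x => by
    rw [hu.gx_add htv, gx_const_mul t hv.differentiable]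
  have e2 : ∀ x, gy (fun x => u x + t * v x) x = gy u x + t * gy v x := fun x => by
    rw [hu.gy_add htv, gy_const_mul t hv.differentiable]
  simp only [e1, e2]
  have i1 := hu.int_grad hu
  have i2 := hu.int_grad hv
  have i3 := hv.int_grad hv
  have j1 := hu.int_mul hu
  have j2 := hu.int_mul hv
  have j3 := hv.int_mul hv
  have f1 : ∫ x, ((gx u x + t * gx v x) * (gx u x + t * gx v x)
      + (gy u x + t * gy v x) * (gy u x + t * gy v x)) =
      (∫ x, (gx u x * gx u x + gy u x * gy u x)) + (2 * t) * (∫ x, (gx u x * gx v x + gy u x * gy v x))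
        + t ^ 2 * ∫ x, (gx v x * gx v x + gy v x * gy v x) := by
    rw [← int_comb i1 i2 i3]
    congr 1; ext x; ring
  have f2 : ∫ x, (u x + t * v x) * (u x + t * v x) =
      (∫ x, u x * u x) + (2 * t) * (∫ x, u x * v x) + t ^ 2 * ∫ x, v x * v x := by
    rw [← int_comb j1 j2 j3]
    congr 1; ext x; ring
  rw [f1, f2]; ring

/-- Cauchy–Schwarz for the (nonnegative) form -/
lemma bil_sq_le (hΛ : ∀ z, IsT V z → 0 ≤ qf Λ z) (hu : IsT V u) (hv : IsT V v) :
    bil Λ u v ^ 2 ≤ qf Λ u * qf Λ v := by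
  have h : ∀ t : ℝ, 0 ≤ qf Λ v * (t * t) + (2 * bil Λ u v) * t + qf Λ u := by
    intro t
    have := hΛ _ (hu.add (hv.const_mul t))
    rw [bil_add_mul hu hv] at this
    linarith
  have := discrim_le_zero h
  unfold discrim at this
  nlinarith

/-- the basic cutoff identity -/
lemma qf_mul (hu : IsT V u) (hV : IsOpen V) (hχ : ContDiffOn ℝ 1 χ V) (Λ : ℝ) :
    qf Λ (fun x => χ x * u x) = bil Λ u (fun x => χ x ^ 2 * u x)
      + ∫ x, (gx χ x ^ 2 + gy χ x ^ 2) * u x ^ 2 := by
  have hχ2 : ContDiffOn ℝ 1 (fun x => χ x ^ 2) V := hχ.pow 2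
  have h1 := hu.mul hV hχ
  have h2 := hu.mul hV hχ2
  have hsqx : ∀ x ∈ V, gx (fun x => χ x ^ 2) x = 2 * χ x * gx χ x := by
    intro x hx
    have := ((hχ.contDiffAt (hV.mem_nhds hx)).differentiableAt one_ne_zero).hasFDerivAt.pow 2
    unfold gx; rw [this.fderiv]; simp
  have hsqy : ∀ x ∈ V, gy (fun x => χ x ^ 2) x = 2 * χ x * gy χ x := by
    intro x hx
    have := ((hχ.contDiffAt (hV.mem_nhds hx)).differentiableAt one_ne_zero).hasFDerivAt.pow 2
    unfold gy; rw [this.fderiv]; simp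
  rw [← bil_self]
  unfold bil
  have i3 : Integrable (fun x => (gx χ x ^ 2 + gy χ x ^ 2) * u x ^ 2) :=
    integrable_mul hV (((contOn_gx hV hχ).pow 2).add ((contOn_gy hV hχ).pow 2)) hu.sq.continuous
      hu.sq.cpt hu.sq.supp
  have e1 : ∀ x, gx (fun x => χ x * u x) x * gx (fun x => χ x * u x) x
      + gy (fun x => χ x * u x) x * gy (fun x => χ x * u x) x
      = (gx u x * gx (fun x => χ x ^ 2 * u x) x + gy u x * gy (fun x => χ x ^ 2 * u x) x)
        + (gx χ x ^ 2 + gy χ x ^ 2) * u x ^ 2 := by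
    intro x
    rw [hu.gx_mul hV hχ, hu.gy_mul hV hχ, hu.gx_mul hV hχ2, hu.gy_mul hV hχ2]
    by_cases hx : x ∈ V
    · rw [hsqx x hx, hsqy x hx]; ring
    · have hx' : x ∉ tsupport u := fun h => hx (hu.supp h)
      rw [zero_of_notMem hx', gx_zero_of_notMem hx', gy_zero_of_notMem hx']; ring
  have e2 : ∀ x, χ x * u x * (χ x * u x) = u x * (χ x ^ 2 * u x) := fun x => by ring
  simp only [e1, e2]
  rw [integral_add (hu.int_grad h2) i3]
  ring

/-- integrability of a bounded-on-support coefficient times square -/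
lemma IsT.int_coef {f : ℂ → ℝ} (hu : IsT V u) (hV : IsOpen V) (hf : ContinuousOn f V) :
    Integrable (fun x => f x * u x ^ 2) :=
  integrable_mul hV hf hu.sq.continuous hu.sq.cpt hu.sq.supp

end Pool.Agent.MP0c2
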