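import Pool.Agent.Lib.MP_0c2aee_an.Tip

/-! Radial Hardy inequalities. -/

set_option autoImplicit false

open MeasureTheory Set Metric Topology Filter

namespace Pool.Agent.MP0c2

/-- divergence of a radial field -/
lemma radial_div {b : ℝ → ℝ} {b' : ℝ} {x : ℂ} (hb : HasDerivAt b b' (N2 x)) :
    gx (fun x => b (N2 x) * x.re) x + gy (fun x => b (N2 x) * x.im) x
      = 2 * b (N2 x) + 2 * N2 x * b' := by
  have hbN := comp_N2_hasFDerivAt hb
  have e1 : gx (fun x => b (N2 x) * x.re) x = (b (N2 x) + x.re * (b' * (2 * x.re))) := by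
    have := (hbN.mul (hasFDerivAt_re x))
    unfold gx
    erw [this.fderiv]; simp
  have e2 : gy (fun x => b (N2 x) * x.im) x = (b (N2 x) + x.im * (b' * (2 * x.im))) := by
    have := (hbN.mul (hasFDerivAt_im x))
    unfold gy
    erw [this.fderiv]; simp
  rw [e1, e2]
  have hN : N2 x = x.re ^ 2 + x.im ^ 2 := rfl
  linear_combination (2 * b') * (- hN)

lemma isOpen_N2_gt (c : ℝ) : IsOpen {x : ℂ | c < N2 x} :=
  isOpen_lt continuous_const N2_contDiff.continuous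

/-- Hardy inequality near the core. -/
theorem core_hardy {h ρ : ℝ} (hh : 0 < h) (hρ : h < ρ) (hT : 2 * (ρ ^ 2 - h ^ 2) ≤ h ^ 2)
    {V : Set ℂ} (hVh : ∀ x ∈ V, h < ‖x‖) {v : ℂ → ℝ} (hv : IsT V v) :
    ∫ x, (if ‖x‖ < ρ then h ^ 2 / (ρ ^ 2 - h ^ 2) ^ 2 else 0) * v x ^ 2 ≤ En v := by
  set T := 2 * (ρ ^ 2 - h ^ 2) with hTdef
  have hT0 : 0 < T := by
    have : h ^ 2 < ρ ^ 2 := by gcongr
    rw [hTdef]; linarith
  set U : Set ℂ := {x | h ^ 2 < N2 x} with hU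
  have hUo : IsOpen U := isOpen_N2_gt _
  have hvU : IsT U v := hv.mono (fun x hx => by
    change h ^ 2 < N2 x
    rw [N2_eq]
    have := hVh x hx
    gcongr)
  set b : ℝ → ℝ := fun t => - (p2 (1 - (t - h ^ 2) / T) / (t - h ^ 2)) with hb
  have hbd : ∀ t, h ^ 2 < t → HasDerivAt b
      (-((2 * max (1 - (t - h ^ 2) / T) 0 * (-(1 / T))) * (t - h ^ 2) - p2 (1 - (t - h ^ 2) / T) * 1)
        / (t - h ^ 2) ^ 2) t := by
    intro t ht
    have h1 : HasDerivAt (fun t : ℝ => 1 - (t - h ^ 2) / T) (-(1 / T)) t := by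
      simpa using (((hasDerivAt_id' t).sub_const (h ^ 2)).div_const T).const_sub 1
    have h2 := (p2_hasDerivAt (1 - (t - h ^ 2) / T)).comp t h1
    have h3 : HasDerivAt (fun t : ℝ => t - h ^ 2) 1 t := (hasDerivAt_id' t).sub_const _
    have h4 := (h2.div h3 (by linarith)).neg
    refine h4.congr_deriv ?_
    simp only [Function.comp]; ring
  have hbc : ∀ x ∈ U, ContDiffAt ℝ 1 (fun x => b (N2 x)) x := by
    intro x hx
    have hx' : N2 x - h ^ 2 ≠ 0 := ne_of_gt (sub_pos.2 hx)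
    have hN := N2_contDiff.contDiffAt (x := x)
    have a1 : ContDiffAt ℝ 1 (fun x => p2 (1 - (N2 x - h ^ 2) / T)) x :=
      (p2_contDiff.comp (contDiff_const.sub ((N2_contDiff.sub contDiff_const).div_const T))).contDiffAt
    exact (a1.div (hN.sub contDiffAt_const) hx').neg
  apply hvU.field_global hUo (X1 := fun x => b (N2 x) * x.re) (X2 := fun x => b (N2 x) * x.im)
  · exact fun x hx => ((hbc x hx).mul re_contDiff.contDiffAt).contDiffWithinAt
  · exact fun x hx => ((hbc x hx).mul im_contDiff.contDiffAt).contDiffWithinAt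
  intro x hx _
  change h ^ 2 < N2 x at hx
  rw [radial_div (hbd (N2 x) hx)]
  have hN : x.re ^ 2 + x.im ^ 2 = N2 x := rfl
  set t := N2 x with ht
  set u := t - h ^ 2 with hu
  have hu0 : 0 < u := by rw [hu]; linarith
  set S := max (1 - u / T) 0 with hS
  have hS0 : 0 ≤ S := le_max_right _ _
  have hS1 : S ≤ 1 := by
    apply max_le _ zero_le_one
    have : 0 ≤ u / T := by positivity
    linarith
  have hp : p2 (1 - u / T) = S ^ 2 := rfl
  have hbt : b t = - (S ^ 2 / u) := rfl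
  have e0 : (b t * x.re) ^ 2 + (b t * x.im) ^ 2 = b t ^ 2 * t := by rw [← hN]; ring
  have e : 2 * b t + 2 * t * (-((2 * S * (-(1 / T))) * u - p2 (1 - u / T) * 1) / u ^ 2)
      - (b t * x.re) ^ 2 - (b t * x.im) ^ 2 =
      S ^ 2 * (t - 2 * u) / u ^ 2 + 4 * t * S / (T * u) + t * S ^ 2 * (1 - S ^ 2) / u ^ 2 := by
    have e1 : - (b t * x.re) ^ 2 - (b t * x.im) ^ 2 = - (b t ^ 2 * t) := by rw [← e0]; ring
    have e2 : 2 * b t + 2 * t * (-((2 * S * (-(1 / T))) * u - p2 (1 - u / T) * 1) / u ^ 2)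
      - (b t * x.re) ^ 2 - (b t * x.im) ^ 2 = 2 * b t + 2 * t * (-((2 * S * (-(1 / T))) * u
        - p2 (1 - u / T) * 1) / u ^ 2) + (- (b t * x.re) ^ 2 - (b t * x.im) ^ 2) := by ring
    rw [e2, e1, hbt, hp]
    field_simp
    ring
  rw [e]
  have ht0 : 0 < t := by have := hx; nlinarith [sq_nonneg h]
  have hth : t = h ^ 2 + u := by rw [hu]; ring
  have hlast : 0 ≤ t * S ^ 2 * (1 - S ^ 2) / u ^ 2 := by
    have : 0 ≤ 1 - S ^ 2 := by nlinarith
    positivity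
  by_cases huT : T ≤ u
  · have hSz : S = 0 := by
      rw [hS]; apply max_eq_right
      have : 1 ≤ u / T := by rw [le_div_iff₀ hT0]; linarith
      linarith
    rw [hSz]
    have hρx : ¬ ‖x‖ < ρ := by
      intro hlt
      have h1 : ‖x‖ ^ 2 < ρ ^ 2 := by gcongr
      rw [← N2_eq, ← ht] at h1
      have : u < T / 2 := by rw [hu, hTdef]; linarith
      linarith
    rw [if_neg hρx]; simp
  · push Not at huT
    have h1 : 0 ≤ S ^ 2 * (t - 2 * u) / u ^ 2 := by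
      have : 0 ≤ t - 2 * u := by rw [hth]; linarith
      positivity
    by_cases hρx : ‖x‖ < ρ
    · rw [if_pos hρx]
      have h2 : ‖x‖ ^ 2 < ρ ^ 2 := by gcongr
      rw [← N2_eq, ← ht] at h2
      have hu2 : u < T / 2 := by rw [hu, hTdef]; linarith
      have hSh : 1 / 2 ≤ S := by
        rw [hS]; apply le_max_of_le_left
        have : u / T ≤ 1 / 2 := by rw [div_le_iff₀ hT0]; linarith
        linarith
      have h3 : h ^ 2 / (ρ ^ 2 - h ^ 2) ^ 2 ≤ 4 * t * S / (T * u) := by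
        have e5 : h ^ 2 / (ρ ^ 2 - h ^ 2) ^ 2 = (4 * h ^ 2 * (1 / 2)) / (T * (T / 2)) := by
          have : ρ ^ 2 - h ^ 2 = T / 2 := by rw [hTdef]; ring
          rw [this]; field_simp; norm_num
        rw [e5]
        have : h ^ 2 ≤ t := by rw [hth]; linarith
        gcongr
      linarith
    · rw [if_neg hρx]
      have : 0 ≤ 4 * t * S / (T * u) := by positivity
      linarith

/-- the ring of radii `1` and `1 + η` -/
def ring (η : ℝ) : Set ℂ := {x | 1 < ‖x‖ ∧ ‖x‖ < 1 + η}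

lemma isOpen_ring (η : ℝ) : IsOpen (ring η) :=
  (isOpen_lt continuous_const continuous_norm).inter (isOpen_lt continuous_norm continuous_const)

/-- radial derivative squared -/
noncomputable def Wr (y : ℂ → ℝ) (x : ℂ) : ℝ := (fderiv ℝ y x (x / (‖x‖ : ℂ))) ^ 2

lemma Wr_eq (y : ℂ → ℝ) (x : ℂ) :
    Wr y x = ((x.re / ‖x‖) * gx y x + (x.im / ‖x‖) * gy y x) ^ 2 := by
  unfold Wr
  rw [clm_apply]
  have e1 : (x / (‖x‖ : ℂ)).re = x.re / ‖x‖ := Complex.div_ofReal_re _ _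
  have e2 : (x / (‖x‖ : ℂ)).im = x.im / ‖x‖ := Complex.div_ofReal_im _ _
  rw [e1, e2]; rfl

lemma Wr_le (y : ℂ → ℝ) (x : ℂ) : Wr y x ≤ ‖fderiv ℝ y x‖ ^ 2 := by
  unfold Wr
  have h1 := (fderiv ℝ y x).le_opNorm (x / (‖x‖ : ℂ))
  have h2 : ‖x / (‖x‖ : ℂ)‖ ≤ 1 := by
    rw [norm_div, Complex.norm_real, norm_norm]; exact div_self_le_one _
  rw [← sq_abs, ← Real.norm_eq_abs]
  have h3 : ‖fderiv ℝ y x (x / (‖x‖ : ℂ))‖ ≤ ‖fderiv ℝ y x‖ :=
    h1.trans (mul_le_of_le_one_right (norm_nonneg _) h2)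
  gcongr

lemma Wr_cont {U : Set ℂ} {y : ℂ → ℝ} (hU : IsOpen U) (h0 : (0 : ℂ) ∉ U) (hy : IsT U y) :
    Continuous (Wr y) := by
  have hne : ∀ x ∈ U, ‖x‖ ≠ 0 := fun x hx h => h0 (by rw [norm_eq_zero.1 h] at hx; exact hx)
  have c1 : ContinuousOn (fun x : ℂ => x.re / ‖x‖) U :=
    Complex.continuous_re.continuousOn.div continuous_norm.continuousOn hne
  have c2 : ContinuousOn (fun x : ℂ => x.im / ‖x‖) U :=
    Complex.continuous_im.continuousOn.div continuous_norm.continuousOn hne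
  have e : Wr y = fun x => ((x.re / ‖x‖) * gx y x + (x.im / ‖x‖) * gy y x) ^ 2 := by
    ext x; exact Wr_eq y x
  rw [e]
  exact ((cont_mul hU c1 hy.cont_gx (tsupport_gx_subset.trans hy.supp)).add
    (cont_mul hU c2 hy.cont_gy (tsupport_gy_subset.trans hy.supp))).pow 2

lemma Wr_int {U : Set ℂ} {y : ℂ → ℝ} (hU : IsOpen U) (h0 : (0 : ℂ) ∉ U) (hy : IsT U y) :
    Integrable (Wr y) := by
  apply hy.int_norm_sq.mono' (Wr_cont hU h0 hy).aestronglyMeasurable
  filter_upwards with x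
  rw [Real.norm_eq_abs, abs_of_nonneg (sq_nonneg _)]
  exact Wr_le y x

/-- sharp radial inequality in the ring -/
theorem ring_lower {η : ℝ} (hη : 0 < η) {y : ℂ → ℝ} (hy : IsT (ring η) y) :
    (Real.pi ^ 2 / η ^ 2 - 1 / 4) * Ma y ≤ ∫ x, Wr y x := by
  set ω := Real.pi / η with hω
  have hω0 : 0 < ω := div_pos Real.pi_pos hη
  have h0 : (0 : ℂ) ∉ ring η := by
    intro h; have := h.1; rw [norm_zero] at this; linarith
  -- the radial profile
  set k : ℝ → ℝ := fun r => ω * (Real.cos (ω * (r - 1)) / Real.sin (ω * (r - 1))) - 1 / (2 * r) with hk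
  set b : ℝ → ℝ := fun t => - (k (√t) / √t) with hb
  have hsin : ∀ r, 1 < r → r < 1 + η → 0 < Real.sin (ω * (r - 1)) := by
    intro r h1 h2
    apply Real.sin_pos_of_pos_of_lt_pi
    · exact mul_pos hω0 (by linarith)
    · calc ω * (r - 1) < ω * η := by gcongr; linarith
        _ = Real.pi := by rw [hω]; field_simp
  have hkd : ∀ r, 1 < r → r < 1 + η → HasDerivAt k
      (ω * ((-Real.sin (ω * (r - 1)) * ω * Real.sin (ω * (r - 1))
        - Real.cos (ω * (r - 1)) * (Real.cos (ω * (r - 1)) * ω)) / Real.sin (ω * (r - 1)) ^ 2)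
        + 1 / (2 * r ^ 2)) r := by
    intro r h1 h2
    have hs := (hsin r h1 h2).ne'
    have a0 : HasDerivAt (fun r : ℝ => ω * (r - 1)) ω r := by
      simpa using ((hasDerivAt_id' r).sub_const 1).const_mul ω
    have a1 := (Real.hasDerivAt_cos (ω * (r - 1))).comp r a0
    have a2 := (Real.hasDerivAt_sin (ω * (r - 1))).comp r a0
    have a3 := (a1.div a2 hs).const_mul ω
    have a4 := (hasDerivAt_const r (1 : ℝ)).div ((hasDerivAt_id' r).const_mul 2) (by positivity)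
    have a5 := a3.sub a4
    refine a5.congr_deriv ?_
    simp only [Function.comp]
    field_simp
    ring
  have hmem : ∀ x ∈ ring η, 0 < N2 x ∧ √(N2 x) = ‖x‖ := by
    intro x hx
    rw [N2_eq]
    have : 0 < ‖x‖ := by have := hx.1; linarith
    exact ⟨by positivity, Real.sqrt_sq this.le⟩
  have hbd : ∀ x ∈ ring η, ∃ d, HasDerivAt b d (N2 x) ∧
      2 * b (N2 x) + 2 * N2 x * d - b (N2 x) ^ 2 * N2 x = ω ^ 2 - 1 / (4 * ‖x‖ ^ 2) := by
    intro x hx
    obtain ⟨hN0, hsq⟩ := hmem x hx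
    set r := ‖x‖ with hr
    have hr1 : 1 < r := hx.1
    have hr2 : r < 1 + η := hx.2
    have hNr : N2 x = r ^ 2 := N2_eq x
    have a1 := Real.hasDerivAt_sqrt hN0.ne'
    obtain ⟨kd, hkd1⟩ : ∃ kd, kd = ω * ((-Real.sin (ω * (r - 1)) * ω * Real.sin (ω * (r - 1))
        - Real.cos (ω * (r - 1)) * (Real.cos (ω * (r - 1)) * ω)) / Real.sin (ω * (r - 1)) ^ 2)
        + 1 / (2 * r ^ 2) := ⟨_, rfl⟩
    have a2 : HasDerivAt k kd (√(N2 x)) := by rw [hsq, hkd1]; exact hkd r hr1 hr2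
    have a3 := a2.comp (N2 x) a1
    have a4 := (a3.div a1 (by rw [hsq]; positivity)).neg
    refine ⟨_, a4, ?_⟩
    have hs := hsin r hr1 hr2
    have hcs := Real.sin_sq_add_cos_sq (ω * (r - 1))
    simp only [hb, Function.comp, hsq, hk]
    rw [hNr, hkd1]
    have hrp : r ≠ 0 := by positivity
    set S := Real.sin (ω * (r - 1))
    set C := Real.cos (ω * (r - 1))
    have hS : S ≠ 0 := hs.ne'
    have hC2 : C ^ 2 = 1 - S ^ 2 := by linarith
    field_simp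
    ring_nf
  have hbc : ∀ x ∈ ring η, ContDiffAt ℝ 1 (fun x => b (N2 x)) x := by
    intro x hx
    obtain ⟨hN0, hsq⟩ := hmem x hx
    have hn : ContDiffAt ℝ 1 (fun x : ℂ => ‖x‖) x := norm_contDiffAt (by
      intro h; rw [h] at hx; exact h0 hx)
    have hr1 : 1 < ‖x‖ := hx.1
    have hr2 : ‖x‖ < 1 + η := hx.2
    have hrep : (fun x => b (N2 x)) = fun x : ℂ => - ((ω * (Real.cos (ω * (‖x‖ - 1)) /
        Real.sin (ω * (‖x‖ - 1))) - 1 / (2 * ‖x‖)) / ‖x‖) := by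
      ext z
      simp only [hb, hk]
      rw [N2_eq, Real.sqrt_sq (norm_nonneg _)]
    rw [hrep]
    have hs := (hsin ‖x‖ hr1 hr2).ne'
    have harg : ContDiffAt ℝ 1 (fun x : ℂ => ω * (‖x‖ - 1)) x :=
      contDiffAt_const.mul (hn.sub contDiffAt_const)
    have hcos : ContDiffAt ℝ 1 (fun x : ℂ => Real.cos (ω * (‖x‖ - 1))) x :=
      Real.contDiff_cos.contDiffAt.comp x harg
    have hsin' : ContDiffAt ℝ 1 (fun x : ℂ => Real.sin (ω * (‖x‖ - 1))) x :=
      Real.contDiff_sin.contDiffAt.comp x harg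
    exact (((contDiffAt_const.mul (hcos.div hsin' hs)).sub
      (contDiffAt_const.div (contDiffAt_const.mul hn) (by positivity))).div hn (by positivity)).neg
  have key := hy.field_general (X1 := fun x => b (N2 x) * x.re) (X2 := fun x => b (N2 x) * x.im)
    (W := Wr y) (Q := fun _ => Real.pi ^ 2 / η ^ 2 - 1 / 4) (B := univ) (isOpen_ring η)
    (fun x hx => ((hbc x hx).mul re_contDiff.contDiffAt).contDiffWithinAt)
    (fun x hx => ((hbc x hx).mul im_contDiff.contDiffAt).contDiffWithinAt)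
    MeasurableSet.univ (Wr_int (isOpen_ring η) h0 hy).integrableOn (fun x _ => sq_nonneg _) ?_
    (fun x _ h => absurd (mem_univ x) h)
  · simp only [Measure.restrict_univ] at key
    unfold Ma
    rw [← integral_const_mul]
    exact key
  intro x hx _
  obtain ⟨hN0, hsq⟩ := hmem x hx
  obtain ⟨d, hd, hdd⟩ := hbd x hx
  rw [radial_div hd, Wr_eq]
  have hr1 : 1 < ‖x‖ := hx.1
  have hr0 : ‖x‖ ≠ 0 := (by linarith : (0:ℝ) < ‖x‖).ne'
  have hNr : N2 x = ‖x‖ ^ 2 := N2_eq x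
  have e1 : 2 * y x * (b (N2 x) * x.re * gx y x + b (N2 x) * x.im * gy y x) =
      2 * y x * (b (N2 x) * ‖x‖) * (x.re / ‖x‖ * gx y x + x.im / ‖x‖ * gy y x) := by
    field_simp
  rw [e1]
  set D := x.re / ‖x‖ * gx y x + x.im / ‖x‖ * gy y x
  have e2 : 2 * b (N2 x) + 2 * N2 x * d = ω ^ 2 - 1 / (4 * ‖x‖ ^ 2) + (b (N2 x) * ‖x‖) ^ 2 := by
    rw [← hdd, hNr]; ring
  rw [e2]
  have e3 : 1 / (4 * ‖x‖ ^ 2) ≤ 1 / 4 := by
    rw [div_le_div_iff₀ (by positivity) (by norm_num)]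
    nlinarith
  have e4 : ω ^ 2 = Real.pi ^ 2 / η ^ 2 := by rw [hω, div_pow]
  have e5 : D ^ 2 + 2 * y x * (b (N2 x) * ‖x‖) * D + (ω ^ 2 - 1 / (4 * ‖x‖ ^ 2)
      + (b (N2 x) * ‖x‖) ^ 2 - (Real.pi ^ 2 / η ^ 2 - 1 / 4)) * y x ^ 2 =
      (D + y x * (b (N2 x) * ‖x‖)) ^ 2 + (1 / 4 - 1 / (4 * ‖x‖ ^ 2)) * y x ^ 2 := by
    rw [e4]; ring
  rw [e5]
  have : 0 ≤ (1 / 4 - 1 / (4 * ‖x‖ ^ 2)) * y x ^ 2 := mul_nonneg (by linarith) (sq_nonneg _)
  positivity

end Pool.Agent.MP0c2
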