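import Pool.Agent.Lib.MP_0c2aee_an.Defs

/-! The domain `Om E η w` of the counterexample: a chamber near the unit disc, a thick zigzag wall
with tips at the points of `E`, doors of radius `w` at the tips, and a ring outside. -/

set_option autoImplicit false

open MeasureTheory Set Metric

namespace Pool.Agent.MP0c2

/-- outer side of the wall -/
def sideA (E : Finset ℂ) : Set ℂ :=
  {x | ∃ e ∈ E, |(x * (starRingEnd ℂ) e).im| < (x * (starRingEnd ℂ) e).re - 1}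

/-- the chamber -/
def cham (E : Finset ℂ) : Set ℂ :=
  {x | ∀ e ∈ E, (x * (starRingEnd ℂ) e).re - |(x * (starRingEnd ℂ) e).im| / 2 < 1}

/-- the doors -/
def doors (E : Finset ℂ) (w : ℝ) : Set ℂ := {x | ∃ e ∈ E, ‖x - e‖ < w}

/-- the domain -/
def Om (E : Finset ℂ) (η w : ℝ) : Set ℂ :=
  {x | ‖x‖ < 1 + η ∧ (x ∈ sideA E ∨ x ∈ cham E ∨ x ∈ doors E w)}

/-- the tips: unit complex numbers, `s`-dense, `d`-separated. -/
structure GoodE (E : Finset ℂ) (s d : ℝ) : Prop where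
  unit : ∀ e ∈ E, ‖e‖ = 1
  dense : ∀ u : ℂ, ‖u‖ = 1 → ∃ e ∈ E, ‖u - e‖ ≤ s
  sep : ∀ e ∈ E, ∀ e' ∈ E, e ≠ e' → d ≤ ‖e - e'‖

end Pool.Agent.MP0c2
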