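import Pool.Agent.Lib.MP_0c2aee_an.TipField
import Pool.Agent.Lib.MP_0c2aee_an.DomDefs

/-! Transport of the local Hardy inequality to all tips. -/

set_option autoImplicit false

open MeasureTheory Set Metric Topology Filter
open scoped ComplexConjugate

namespace Pool.Agent.MP0c2

/-- the map `ξ ↦ e (1 + ξ)` -/
noncomputable def tipH (e : ℂ) (he : ‖e‖ = 1) : ℂ ≃ₜ ℂ :=
  (Homeomorph.addLeft (1 : ℂ)).trans (Homeomorph.mulLeft₀ e (by intro h; rw [h] at he; simp at he))

lemma tipH_apply (e : ℂ) (he : ‖e‖ = 1) (ξ : ℂ) : tipH e he ξ = e * (1 + ξ) := rfl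

lemma conj_mul_self' {e : ℂ} (he : ‖e‖ = 1) : conj e * e = 1 := by
  rw [Complex.conj_mul', he]; simp

lemma mul_conj_self' {e : ℂ} (he : ‖e‖ = 1) : e * conj e = 1 := by
  rw [Complex.mul_conj', he]; simp

lemma tipH_symm (e : ℂ) (he : ‖e‖ = 1) (x : ℂ) : tipH e he (x * conj e - 1) = x := by
  rw [tipH_apply]
  have := mul_conj_self' he
  linear_combination x * this

lemma tipH_sub (e : ℂ) (he : ‖e‖ = 1) (ξ : ℂ) : ‖tipH e he ξ - e‖ = ‖ξ‖ := by
  rw [tipH_apply]
  have : e * (1 + ξ) - e = e * ξ := by ring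
  rw [this, norm_mul, he, one_mul]

lemma tipH_coord (e : ℂ) (he : ‖e‖ = 1) (ξ : ℂ) : tipH e he ξ * conj e - 1 = ξ := by
  rw [tipH_apply]
  have := mul_conj_self' he
  linear_combination (1 + ξ) * this

lemma tipH_measurePreserving (e : ℂ) (he : ‖e‖ = 1) : MeasurePreserving (tipH e he) := by
  have h1 : MeasurePreserving (fun x : ℂ => 1 + x) := measurePreserving_add_left volume 1
  have h2 : MeasurePreserving (fun x : ℂ => e * x) := by
    exact (rotation (⟨e, by rw [Submonoid.unitSphere]; simp [he]⟩ : Circle)).measurePreserving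
  exact h2.comp h1

lemma tipH_integral (e : ℂ) (he : ‖e‖ = 1) (f : ℂ → ℝ) (B : Set ℂ) :
    ∫ ξ in tipH e he ⁻¹' B, f (tipH e he ξ) = ∫ x in B, f x :=
  (tipH_measurePreserving e he).setIntegral_preimage_emb (tipH e he).measurableEmbedding f B

lemma tipH_preimage_ball (e : ℂ) (he : ‖e‖ = 1) (ρ : ℝ) : tipH e he ⁻¹' ball e ρ = ball 0 ρ := by
  ext ξ
  rw [mem_preimage, mem_ball_iff_norm, tipH_sub, mem_ball_zero_iff]

lemma tipH_hasFDerivAt (e : ℂ) (he : ‖e‖ = 1) (ξ : ℂ) :
    HasFDerivAt (fun ξ => tipH e he ξ) (ContinuousLinearMap.mul ℝ ℂ e) ξ := by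
  have h1 : HasFDerivAt (fun ξ : ℂ => ContinuousLinearMap.mul ℝ ℂ e ξ) (ContinuousLinearMap.mul ℝ ℂ e) ξ :=
    (ContinuousLinearMap.mul ℝ ℂ e).hasFDerivAt
  have h2 := h1.add_const e
  have : (fun ξ => tipH e he ξ) = fun ξ : ℂ => ContinuousLinearMap.mul ℝ ℂ e ξ + e := by
    ext z; simp [tipH_apply]; ring
  rw [this]; exact h2

lemma IsT.comp_tipH {U : Set ℂ} {v : ℂ → ℝ} (hv : IsT U v) (e : ℂ) (he : ‖e‖ = 1) :
    IsT (tipH e he ⁻¹' U) (fun ξ => v (tipH e he ξ)) where
  smooth := by
    refine hv.smooth.comp ?_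
    have : ContDiff ℝ 1 (fun ξ : ℂ => e * (1 + ξ)) := by fun_prop
    exact this
  cpt := hv.cpt.comp_homeomorph (tipH e he)
  supp := by
    have : tsupport (fun ξ => v (tipH e he ξ)) = tipH e he ⁻¹' tsupport v :=
      tsupport_comp_eq_preimage v (tipH e he)
    rw [this]; exact preimage_mono hv.supp

lemma IsT.norm_fderiv_comp_tipH {U : Set ℂ} {v : ℂ → ℝ} (hv : IsT U v) (e : ℂ) (he : ‖e‖ = 1)
    (ξ : ℂ) : ‖fderiv ℝ (fun ξ => v (tipH e he ξ)) ξ‖ ^ 2 = ‖fderiv ℝ v (tipH e he ξ)‖ ^ 2 := by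
  have h := ((hv.differentiable (tipH e he ξ)).hasFDerivAt.comp ξ (tipH_hasFDerivAt e he ξ)).fderiv
  have h' : fderiv ℝ (fun ξ => v (tipH e he ξ)) ξ =
      (fderiv ℝ v (tipH e he ξ)).comp (ContinuousLinearMap.mul ℝ ℂ e) := h
  rw [h', clm_norm_sq, clm_norm_sq' _ e he]
  simp [mul_comm]

lemma measurable_tq (w r : ℝ) : Measurable (tq w r) := by
  have hN : Measurable N2 := N2_contDiff.continuous.measurable
  unfold tq
  refine Measurable.ite (measurableSet_lt hN measurable_const) measurable_const ?_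
  refine Measurable.ite (measurableSet_le hN measurable_const) ?_ measurable_const
  refine Measurable.ite (measurableSet_lt ?_ Complex.measurable_re) ?_ ?_
  · exact Complex.continuous_im.abs.measurable
  · exact measurable_const.div hN
  · exact measurable_const.div (measurable_const.mul hN)

lemma tq_nonneg {w : ℝ} (r : ℝ) (x : ℂ) : 0 ≤ tq w r x := by
  have := N2_nonneg x
  unfold tq
  split_ifs <;> positivity

lemma tq_le {w : ℝ} (hw : 0 < w) (r : ℝ) (x : ℂ) : tq w r x ≤ 1 / w ^ 2 := by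
  unfold tq
  have hw2 : 0 < w ^ 2 := by positivity
  split_ifs with h1 h2 h3
  · rw [div_div, div_le_div_iff₀ (by positivity) hw2]; nlinarith
  · push Not at h1
    have : 0 < N2 x := by nlinarith
    rw [div_le_div_iff₀ this hw2]; nlinarith
  · push Not at h1
    have : 0 < N2 x := by nlinarith
    rw [div_le_div_iff₀ (by positivity) hw2]; nlinarith
  · positivity

lemma integrable_bdd_mul {U : Set ℂ} {v q : ℂ → ℝ} (hv : IsT U v) (hq : Measurable q) {C : ℝ}
    (hC : ∀ x, |q x| ≤ C) : Integrable (fun x => q x * v x ^ 2) :=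
  hv.int_sq.bdd_mul hq.aestronglyMeasurable (c := C) (by filter_upwards with x; exact hC x)

/-- the Hardy weight of all the tips -/
noncomputable def Qtip (E : Finset ℂ) (w r : ℝ) (x : ℂ) : ℝ :=
  ∑ e ∈ E, (ball e (2 * r)).indicator (fun x => tq w r (x * conj e - 1)) x

lemma measurable_tq_shift (w r : ℝ) (e : ℂ) : Measurable (fun x : ℂ => tq w r (x * conj e - 1)) :=
  (measurable_tq w r).comp (by fun_prop)

lemma measurable_Qtip (E : Finset ℂ) (w r : ℝ) : Measurable (Qtip E w r) := by
  unfold Qtip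
  exact Finset.measurable_fun_sum _ fun e _ => (measurable_tq_shift w r e).indicator measurableSet_ball

lemma Qtip_nonneg (E : Finset ℂ) (w r : ℝ) (x : ℂ) : 0 ≤ Qtip E w r x :=
  Finset.sum_nonneg fun e _ => indicator_nonneg (fun y _ => tq_nonneg r _) x

lemma Qtip_le (E : Finset ℂ) {w : ℝ} (hw : 0 < w) (r : ℝ) (x : ℂ) :
    Qtip E w r x ≤ E.card * (1 / w ^ 2) := by
  unfold Qtip
  have : ∑ e ∈ E, (ball e (2 * r)).indicator (fun x => tq w r (x * conj e - 1)) x ≤
      ∑ _e ∈ E, (1 / w ^ 2) := by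
    apply Finset.sum_le_sum
    intro e _
    unfold Set.indicator
    split_ifs
    · exact tq_le hw r _
    · positivity
  simpa using this

/-- Hardy inequality at all the tips. -/
theorem tips_hardy {E : Finset ℂ} {w r d : ℝ} (hw : 0 < w) (hwr : 2 * w ≤ r) (hd : 4 * r ≤ d)
    (hunit : ∀ e ∈ E, ‖e‖ = 1) (hsep : ∀ e ∈ E, ∀ e' ∈ E, e ≠ e' → d ≤ ‖e - e'‖)
    {V : Set ℂ} (hV : IsOpen V)
    (hwall : ∀ e ∈ E, ∀ x ∈ V, ‖x - e‖ < 2 * r → ‖x - e‖ < w ∨
      |(x * conj e).im| < (x * conj e).re - 1 ∨ (x * conj e).re - 1 < |(x * conj e).im|)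
    {v : ℂ → ℝ} (hv : IsT V v) :
    ∫ x, Qtip E w r x * v x ^ 2 ≤ En v := by
  have hr : 0 < r := by linarith
  -- one tip
  have one : ∀ e ∈ E, ∫ x in ball e (2 * r), tq w r (x * conj e - 1) * v x ^ 2 ≤
      ∫ x in ball e (2 * r), ‖fderiv ℝ v x‖ ^ 2 := by
    intro e he
    have he1 := hunit e he
    have hV' : IsOpen (tipH e he1 ⁻¹' V) := hV.preimage (tipH e he1).continuous
    have key := tip_local hw hwr hV' (hv.comp_tipH e he1) (by
      intro ξ hξ hξr
      have hx := hwall e he (tipH e he1 ξ) hξ (by rw [tipH_sub]; exact hξr)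
      rw [tipH_sub] at hx
      have hc := tipH_coord e he1 ξ
      have hre : (tipH e he1 ξ * conj e).re - 1 = ξ.re := by
        have := congrArg Complex.re hc; simpa using this
      have him : (tipH e he1 ξ * conj e).im = ξ.im := by
        have := congrArg Complex.im hc; simpa using this
      rw [hre, him] at hx
      rcases hx with h | h | h
      · left; rw [N2_eq]; gcongr
      · right; left; exact h
      · right; right; exact h)
    rw [← tipH_integral e he1 (fun x => tq w r (x * conj e - 1) * v x ^ 2),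
      ← tipH_integral e he1 (fun x => ‖fderiv ℝ v x‖ ^ 2), tipH_preimage_ball]
    refine le_trans (le_of_eq ?_) (key.trans (le_of_eq ?_))
    · apply integral_congr_ae
      filter_upwards with ξ
      simp only [tipH_coord e he1 ξ]
    · apply integral_congr_ae
      filter_upwards with ξ
      exact hv.norm_fderiv_comp_tipH e he1 ξ
  -- integrability
  have hint : ∀ e ∈ E, Integrable (fun x => (ball e (2 * r)).indicator
      (fun x => tq w r (x * conj e - 1)) x * v x ^ 2) := by
    intro e _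
    apply integrable_bdd_mul hv ((measurable_tq_shift w r e).indicator measurableSet_ball)
      (C := 1 / w ^ 2)
    intro x
    have h1 : 0 ≤ (ball e (2 * r)).indicator (fun x => tq w r (x * conj e - 1)) x :=
      indicator_nonneg (fun y _ => tq_nonneg r _) x
    rw [abs_of_nonneg h1]
    unfold Set.indicator
    split_ifs
    · exact tq_le hw r _
    · positivity
  have e1 : ∫ x, Qtip E w r x * v x ^ 2 =
      ∑ e ∈ E, ∫ x in ball e (2 * r), tq w r (x * conj e - 1) * v x ^ 2 := by
    unfold Qtip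
    simp_rw [Finset.sum_mul]
    rw [integral_finsetSum _ hint]
    apply Finset.sum_congr rfl
    intro e _
    rw [← integral_indicator measurableSet_ball]
    apply integral_congr_ae
    filter_upwards with x
    by_cases hx : x ∈ ball e (2 * r)
    · simp [indicator_of_mem hx]
    · simp [indicator_of_notMem hx]
  rw [e1]
  refine (Finset.sum_le_sum one).trans ?_
  have hdisj : Set.Pairwise (↑E : Set ℂ) (Function.onFun Disjoint fun e => ball e (2 * r)) := by
    intro e he e' he' hne
    apply ball_disjoint_ball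
    have := hsep e he e' he' hne
    rw [dist_eq_norm]; linarith
  rw [← integral_biUnion_finset E (fun e _ => measurableSet_ball) hdisj
    (fun e _ => hv.int_norm_sq.integrableOn)]
  unfold En
  exact setIntegral_le_integral hv.int_norm_sq (by filter_upwards with x; positivity)

end Pool.Agent.MP0c2
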