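import Pool.Agent.Lib.MP_0c2aee_an.Weight
import Pool.Agent.Lib.MP_0c2aee_an.TipSum
import Pool.Agent.Lib.MP_0c2aee_an.Radial
import Pool.Agent.Lib.MP_0c2aee_an.Form

/-! Agmon estimate. -/

set_option autoImplicit false

open MeasureTheory Set Metric Topology Filter
open scoped ComplexConjugate

namespace Pool.Agent.MP0c2

/-- standing assumptions on the parameters -/
structure Hyp (E : Finset ℂ) (η s d w r h ρ : ℝ) : Prop where
  good : GoodE E s d
  s0 : 0 < s
  s1 : s ≤ 1 / 10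
  w0 : 0 < w
  wr : 2 * w ≤ r
  rd : 4 * r ≤ d
  rd2 : 8 * r ≤ d ^ 2
  h0 : 0 < h
  h1 : h < 1
  ρs : 1 + s ≤ ρ
  ρr : 1 + r ≤ ρ
  hT : 2 * (ρ ^ 2 - h ^ 2) ≤ h ^ 2

/-- the domain minus the core -/
def Vs (E : Finset ℂ) (η w h : ℝ) : Set ℂ := Om E η w \ closedBall 0 h

lemma isOpen_Vs (E : Finset ℂ) (η w h : ℝ) : IsOpen (Vs E η w h) :=
  (isOpen_Om E η w).sdiff isClosed_closedBall

variable {E : Finset ℂ} {η s d w r h ρ a1 a2 Λ : ℝ}

lemma Hyp.r0 (H : Hyp E η s d w r h ρ) : 0 < r := by linarith [H.w0, H.wr]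

lemma Hyp.sep (H : Hyp E η s d w r h ρ) : Sep E r := fun e he e' he' hne =>
  H.rd.trans (H.good.sep e he e' he' hne)

lemma Hyp.hρ (H : Hyp E η s d w r h ρ) : h < ρ := by linarith [H.h1, H.ρs, H.s0]

/-- the core weight -/
noncomputable def q0 (h ρ : ℝ) : ℝ := h ^ 2 / (ρ ^ 2 - h ^ 2) ^ 2

lemma Hyp.q0_pos (H : Hyp E η s d w r h ρ) : 0 < q0 h ρ := by
  have h1 : h ^ 2 < ρ ^ 2 := by
    have := H.hρ; have := H.h0; gcongr
  have h2 := H.h0
  have h3 : 0 < ρ ^ 2 - h ^ 2 := by linarith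
  unfold q0; positivity

/-- the local side at a tip -/
lemma Hyp.side (H : Hyp E η s d w r h ρ) {e x : ℂ} (he : e ∈ E) (hx : ‖x - e‖ < 2 * r) :
    x ∈ sideA E ↔ |(x * conj e).im| < (x * conj e).re - 1 :=
  local_sideA H.good (by linarith [H.rd, H.r0]) he (by linarith [H.rd2])

lemma Hyp.wall (H : Hyp E η s d w r h ρ) : ∀ e ∈ E, ∀ x ∈ Vs E η w h, ‖x - e‖ < 2 * r → ‖x - e‖ < w ∨
      |(x * conj e).im| < (x * conj e).re - 1 ∨ (x * conj e).re - 1 < |(x * conj e).im| := by
  intro e he x hx hxe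
  rcases hx.1.2 with hA | hC | ⟨e', he', hD⟩
  · right; left; exact (H.side he hxe).1 hA
  · right; right
    have := hC e he
    have := abs_nonneg (x * conj e).im
    linarith
  · by_cases hee : e = e'
    · left; rw [hee]; exact hD
    · exfalso
      have := H.sep.far he he' hee hxe
      linarith [H.wr, H.w0]

/-- the combined Hardy inequality -/
theorem Hyp.hardy (H : Hyp E η s d w r h ρ) {v : ℂ → ℝ} (hv : IsT (Vs E η w h) v) :
    ∫ x, ((1 / 100) * (if ‖x‖ < ρ then q0 h ρ else 0) + (99 / 100) * Qtip E w r x) * v x ^ 2 ≤ En v := by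
  have k1 := core_hardy (v := v) H.h0 H.hρ H.hT (V := Vs E η w h) (fun x hx => by
    have := hx.2
    rw [mem_closedBall_zero_iff, not_le] at this; exact this) hv
  have k2 := tips_hardy H.w0 H.wr H.rd H.good.unit H.good.sep (isOpen_Vs E η w h) H.wall hv
  have i1 : Integrable (fun x => (if ‖x‖ < ρ then q0 h ρ else 0) * v x ^ 2) := by
    apply integrable_bdd_mul hv (C := q0 h ρ)
    · exact Measurable.ite (measurableSet_lt measurable_norm measurable_const) measurable_const
        measurable_const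
    · intro x
      have := H.q0_pos
      split_ifs
      · rw [abs_of_pos this]
      · rw [abs_zero]; exact this.le
  have i2 : Integrable (fun x => Qtip E w r x * v x ^ 2) := by
    apply integrable_bdd_mul hv (measurable_Qtip E w r) (C := E.card * (1 / w ^ 2))
    intro x
    rw [abs_of_nonneg (Qtip_nonneg E w r x)]
    exact Qtip_le E H.w0 r x
  have e : ∫ x, ((1 / 100) * (if ‖x‖ < ρ then q0 h ρ else 0) + (99 / 100) * Qtip E w r x) * v x ^ 2
      = (1 / 100) * (∫ x, (if ‖x‖ < ρ then q0 h ρ else 0) * v x ^ 2)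
        + (99 / 100) * ∫ x, Qtip E w r x * v x ^ 2 := by
    rw [← integral_const_mul, ← integral_const_mul, ← integral_add (i1.const_mul _) (i2.const_mul _)]
    congr 1; ext x; ring
  rw [e]
  unfold q0 at k1 ⊢
  linarith

lemma Hyp.hardy_int (H : Hyp E η s d w r h ρ) {v : ℂ → ℝ} (hv : IsT (Vs E η w h) v) :
    Integrable (fun x => ((1 / 100) * (if ‖x‖ < ρ then q0 h ρ else 0) + (99 / 100) * Qtip E w r x)
      * v x ^ 2) := by
  refine integrable_bdd_mul hv ?_ (C := (1 / 100) * q0 h ρ + (99 / 100) * (E.card * (1 / w ^ 2))) ?_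
  · exact (measurable_const.mul (Measurable.ite (measurableSet_lt measurable_norm measurable_const)
      measurable_const measurable_const)).add (measurable_const.mul (measurable_Qtip E w r))
  · intro x
    have h1 := H.q0_pos
    have h2 := Qtip_nonneg E w r x
    have h3 := Qtip_le E H.w0 r x
    have h4 : 0 ≤ (if ‖x‖ < ρ then q0 h ρ else 0) ∧ (if ‖x‖ < ρ then q0 h ρ else 0) ≤ q0 h ρ := by
      split_ifs
      · exact ⟨h1.le, le_rfl⟩
      · exact ⟨le_rfl, h1.le⟩
    rw [abs_of_nonneg (by linarith [h4.1])]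
    linarith [h4.2]

/-- lower bound for the tip weight -/
lemma Qtip_ge {e x : ℂ} (he : e ∈ E) (hx : ‖x - e‖ < 2 * r) :
    tq w r (x * conj e - 1) ≤ Qtip E w r x := by
  unfold Qtip
  have := Finset.single_le_sum (f := fun e => (ball e (2 * r)).indicator
    (fun x => tq w r (x * conj e - 1)) x) (fun e _ => indicator_nonneg (fun y _ => tq_nonneg r _) x) he
  refine le_trans (le_of_eq ?_) this
  rw [indicator_of_mem (by rw [mem_ball_iff_norm]; exact hx)]

lemma N2_shift {e : ℂ} (he : ‖e‖ = 1) (x : ℂ) : N2 (x * conj e - 1) = N2 (x - e) := by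
  rw [N2_eq, N2_eq]
  have : x * conj e - 1 = (x - e) * conj e := by
    have := mul_conj_self' he
    linear_combination this
  rw [this, norm_mul, Complex.norm_conj, he, mul_one]

/-- near a tip the tip weight dominates the gradient of the exponent -/
lemma Hyp.near (H : Hyp E η s d w r h ρ) (h1 : a1 = 39 / 20) (h2 : a2 = 1 / 10) {e x : ℂ}
    (he : e ∈ E) (hxe : ‖x - e‖ < r) (hx : x ∈ Om E η w) :
    gx (Lw E w r a1 a2) x ^ 2 + gy (Lw E w r a1 a2) x ^ 2 ≤ (99 / 100) * Qtip E w r x := by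
  have hr := H.r0
  have hx2 : ‖x - e‖ < 2 * r := by linarith
  have hQ := Qtip_ge (w := w) he hx2
  have hQ0 := Qtip_nonneg E w r x
  obtain ⟨g1, g2, g3⟩ := grad_Sf H.w0 hr H.sep he hx2
  obtain ⟨l1, l2⟩ := grad_Lw (a1 := a1) (a2 := a2) H.w0 H.wr H.sep hx
  have he1 := H.good.unit e he
  by_cases hN : N2 (x - e) ≤ 4 * w ^ 2
  · obtain ⟨z1, z2⟩ := g2 hN
    by_cases hA : x ∈ sideA E
    · obtain ⟨m1, m2⟩ := l1 hA
      rw [m1, m2, z1, z2]; simp; positivity
    · obtain ⟨m1, m2⟩ := l2 hA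
      rw [m1, m2, z1, z2]; simp; positivity
  push Not at hN
  have hNr : N2 (x - e) ≤ r ^ 2 := by rw [N2_eq]; gcongr
  have hNp : 0 < N2 (x - e) := by nlinarith [sq_nonneg w]
  have hre : (x * conj e - 1).re = (x * conj e).re - 1 := by simp
  have him : (x * conj e - 1).im = (x * conj e).im := by simp
  by_cases hA : x ∈ sideA E
  · have hA' := (H.side he hx2).1 hA
    have ht : tq w r (x * conj e - 1) = 4 / N2 (x - e) := by
      unfold tq
      rw [N2_shift he1, if_neg (not_lt.2 hN.le), if_pos hNr, if_pos (by rw [hre, him]; exact hA')]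
    obtain ⟨m1, m2⟩ := l1 hA
    rw [m1, m2]
    rw [ht] at hQ
    have h3 : gx (Sf E w r) x ^ 2 + gy (Sf E w r) x ^ 2 ≤ 1 / N2 (x - e) := by
      rw [le_div_iff₀ hNp]; exact g1
    have e4 : (4 : ℝ) / N2 (x - e) = 4 * (1 / N2 (x - e)) := by ring
    rw [e4] at hQ
    have h5 : 0 ≤ 1 / N2 (x - e) := by positivity
    have e5 : (a1 * gx (Sf E w r) x) ^ 2 + (a1 * gy (Sf E w r) x) ^ 2 =
        a1 ^ 2 * (gx (Sf E w r) x ^ 2 + gy (Sf E w r) x ^ 2) := by ring
    rw [e5, h1]
    have : ((39 : ℝ) / 20) ^ 2 * (gx (Sf E w r) x ^ 2 + gy (Sf E w r) x ^ 2) ≤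
        (39 / 20) ^ 2 * (1 / N2 (x - e)) := by gcongr
    norm_num at this ⊢
    nlinarith
  · have hA' : ¬ |(x * conj e).im| < (x * conj e).re - 1 := fun h => hA ((H.side he hx2).2 h)
    have ht : tq w r (x * conj e - 1) = 1 / (4 * N2 (x - e)) := by
      unfold tq
      rw [N2_shift he1, if_neg (not_lt.2 hN.le), if_pos hNr, if_neg (by rw [hre, him]; exact hA')]
    obtain ⟨m1, m2⟩ := l2 hA
    rw [m1, m2]
    rw [ht] at hQ
    have h3 : gx (Sf E w r) x ^ 2 + gy (Sf E w r) x ^ 2 ≤ 1 / N2 (x - e) := by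
      rw [le_div_iff₀ hNp]; exact g1
    have e4 : (1 : ℝ) / (4 * N2 (x - e)) = (1 / 4) * (1 / N2 (x - e)) := by
      field_simp
    rw [e4] at hQ
    have h5 : 0 ≤ 1 / N2 (x - e) := by positivity
    have e5 : (-(a2 * gx (Sf E w r) x)) ^ 2 + (-(a2 * gy (Sf E w r) x)) ^ 2 =
        a2 ^ 2 * (gx (Sf E w r) x ^ 2 + gy (Sf E w r) x ^ 2) := by ring
    rw [e5, h2]
    have : ((1 : ℝ) / 10) ^ 2 * (gx (Sf E w r) x ^ 2 + gy (Sf E w r) x ^ 2) ≤
        (1 / 10) ^ 2 * (1 / N2 (x - e)) := by gcongr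
    norm_num at this ⊢
    nlinarith

/-- the Agmon weight -/
noncomputable def GG (E : Finset ℂ) (w r a1 a2 : ℝ) (x : ℂ) : ℝ := Real.exp (Lw E w r a1 a2 x)

lemma Hyp.contG (H : Hyp E η s d w r h ρ) : ContDiffOn ℝ 1 (GG E w r a1 a2) (Om E η w) :=
  Real.contDiff_exp.comp_contDiffOn (Lw_contDiffOn H.w0 H.wr H.sep)

lemma Hyp.gradG (H : Hyp E η s d w r h ρ) {x : ℂ} (hx : x ∈ Om E η w) :
    gx (GG E w r a1 a2) x = GG E w r a1 a2 x * gx (Lw E w r a1 a2) x ∧
    gy (GG E w r a1 a2) x = GG E w r a1 a2 x * gy (Lw E w r a1 a2) x := by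
  have hL : DifferentiableAt ℝ (Lw E w r a1 a2) x :=
    ((Lw_contDiffOn H.w0 H.wr H.sep).contDiffAt ((isOpen_Om E η w).mem_nhds hx)).differentiableAt
      one_ne_zero
  have h1 := hL.hasFDerivAt.exp.fderiv
  unfold gx gy
  have h2 : fderiv ℝ (GG E w r a1 a2) x = Real.exp (Lw E w r a1 a2 x) • fderiv ℝ (Lw E w r a1 a2) x := h1
  rw [h2]
  constructor <;> simp [GG]

/-- Agmon estimate: the mass deep in the chamber is exponentially small in `MM`. -/
theorem Hyp.agmon (H : Hyp E η s d w r h ρ) (h1 : a1 = 39 / 20) (h2 : a2 = 1 / 10)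
    (hΛ0 : 0 ≤ Λ) (hq : Λ + 1 ≤ q0 h ρ / 100) {u : ℂ → ℝ} (hu : IsT (Vs E η w h) u) :
    Real.exp (2 * ((a1 + a2) * MM w r)) * (∫ x in ball (0 : ℂ) (1 - r), u x ^ 2) ≤
      bil Λ u (fun x => GG E w r a1 a2 x ^ 2 * u x) + Λ * Ma u := by
  have hVo := isOpen_Vs E η w h
  have hsub : Vs E η w h ⊆ Om E η w := sdiff_subset
  have hG : ContDiffOn ℝ 1 (GG E w r a1 a2) (Vs E η w h) := H.contG.mono hsub
  have hL : ContDiffOn ℝ 1 (Lw E w r a1 a2) (Vs E η w h) :=
    (Lw_contDiffOn H.w0 H.wr H.sep).mono hsub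
  set G := GG E w r a1 a2 with hGdef
  set L := Lw E w r a1 a2 with hLdef
  have hv := hu.mul hVo hG
  set v : ℂ → ℝ := fun x => G x * u x with hvdef
  have key := qf_mul hu hVo hG Λ
  have hP := H.hardy hv
  have iP := H.hardy_int hv
  set Wt : ℂ → ℝ := fun x => (1 / 100) * (if ‖x‖ < ρ then q0 h ρ else 0) + (99 / 100) * Qtip E w r x
    with hWt
  -- gradient term
  have e1 : ∫ x, (gx G x ^ 2 + gy G x ^ 2) * u x ^ 2 = ∫ x, (gx L x ^ 2 + gy L x ^ 2) * v x ^ 2 := by
    apply integral_congr_ae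
    filter_upwards with x
    by_cases hx : x ∈ Vs E η w h
    · obtain ⟨g1, g2⟩ := H.gradG (a1 := a1) (a2 := a2) (hsub hx)
      rw [← hGdef, ← hLdef] at g1 g2
      simp only [hvdef]
      rw [g1, g2]; ring
    · have hx' : x ∉ tsupport u := fun h => hx (hu.supp h)
      simp [hvdef, zero_of_notMem hx']
  have iL : Integrable (fun x => (gx L x ^ 2 + gy L x ^ 2) * v x ^ 2) :=
    hv.int_coef hVo (((contOn_gx hVo hL).pow 2).add ((contOn_gy hVo hL).pow 2))
  have iv := hv.int_sq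
  have iu := hu.int_sq
  -- total inequality
  have tot : ∫ x, (Wt x - Λ - (gx L x ^ 2 + gy L x ^ 2)) * v x ^ 2 ≤
      bil Λ u (fun x => G x ^ 2 * u x) := by
    have e2 : ∫ x, (Wt x - Λ - (gx L x ^ 2 + gy L x ^ 2)) * v x ^ 2 =
        (∫ x, Wt x * v x ^ 2) + (-Λ) * (∫ x, v x ^ 2)
          + (-1) * ∫ x, (gx L x ^ 2 + gy L x ^ 2) * v x ^ 2 := by
      rw [← int_comb iP iv iL]
      congr 1; ext x; ring
    rw [e2]
    have e3 : qf Λ v = En v - Λ * ∫ x, v x ^ 2 := rfl
    rw [e1] at key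
    linarith
  -- pointwise bound
  have hexp : ∀ x ∈ ball (0 : ℂ) (1 - r), u x ≠ 0 →
      v x ^ 2 = Real.exp (2 * ((a1 + a2) * MM w r)) * u x ^ 2 := by
    intro x hx hux
    rw [mem_ball_zero_iff] at hx
    have hr := H.r0
    have hxV : x ∈ Vs E η w h := by
      by_contra hcon
      exact hux (zero_of_notMem (fun h => hcon (hu.supp h)))
    have hA : x ∉ sideA E := fun hA => by
      have := sideA_norm H.good hA; linarith
    have hS : Sf E w r x = 0 := Sf_zero H.w0 hr (fun e he => by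
      have h3 := H.good.unit e he
      have h4 : ‖e‖ - ‖x‖ ≤ ‖x - e‖ := by rw [norm_sub_rev]; exact norm_sub_norm_le _ _
      linarith)
    simp only [hvdef, hGdef, GG]
    rw [Lw_C hA, hS, mul_pow, ← Real.exp_nat_mul]
    congr 2
    push_cast; ring
  have hpt : ∀ x, (ball (0 : ℂ) (1 - r)).indicator
      (fun x => Real.exp (2 * ((a1 + a2) * MM w r)) * u x ^ 2) x - Λ * u x ^ 2 ≤
      (Wt x - Λ - (gx L x ^ 2 + gy L x ^ 2)) * v x ^ 2 := by
    intro x
    by_cases hux : u x = 0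
    · have : v x = 0 := by simp [hvdef, hux]
      rw [this]
      by_cases hxb : x ∈ ball (0 : ℂ) (1 - r)
      · rw [indicator_of_mem hxb, hux]; simp
      · rw [indicator_of_notMem hxb, hux]; simp
    have hxV : x ∈ Vs E η w h := by
      by_contra hcon
      exact hux (zero_of_notMem (fun h => hcon (hu.supp h)))
    have hxO := hsub hxV
    have hr := H.r0
    have hQ0 := Qtip_nonneg E w r x
    have hu2 : 0 ≤ u x ^ 2 := sq_nonneg _
    have hv2 : 0 ≤ v x ^ 2 := sq_nonneg _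
    -- inner region
    have inner : ‖x‖ < ρ → (gx L x ^ 2 + gy L x ^ 2 ≤ (99 / 100) * Qtip E w r x) →
        (ball (0 : ℂ) (1 - r)).indicator
          (fun x => Real.exp (2 * ((a1 + a2) * MM w r)) * u x ^ 2) x - Λ * u x ^ 2 ≤
        (Wt x - Λ - (gx L x ^ 2 + gy L x ^ 2)) * v x ^ 2 := by
      intro hρx hgr
      have hW : 1 ≤ Wt x - Λ - (gx L x ^ 2 + gy L x ^ 2) := by
        simp only [hWt]; rw [if_pos hρx]
        linarith
      have h5 : v x ^ 2 ≤ (Wt x - Λ - (gx L x ^ 2 + gy L x ^ 2)) * v x ^ 2 := by nlinarith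
      refine le_trans ?_ h5
      by_cases hxb : x ∈ ball (0 : ℂ) (1 - r)
      · rw [indicator_of_mem hxb, hexp x hxb hux]
        have : 0 ≤ Λ * u x ^ 2 := by positivity
        linarith
      · rw [indicator_of_notMem hxb]
        have : 0 ≤ Λ * u x ^ 2 := by positivity
        linarith
    by_cases hnear : ∃ e ∈ E, ‖x - e‖ < r
    · obtain ⟨e, he, hxe⟩ := hnear
      apply inner
      · have h3 := H.good.unit e he
        have h4 : ‖x‖ ≤ ‖x - e‖ + ‖e‖ := by
          have := norm_add_le (x - e) e; simpa using this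
        linarith [H.ρr]
      · exact H.near h1 h2 he hxe hxO
    push Not at hnear
    by_cases hA : x ∈ sideA E
    · -- bulk
      have hS : Sf E w r x = 0 := Sf_zero H.w0 hr hnear
      have hLz : L x = 0 := by rw [hLdef, Lw_A hA, hS]; ring
      have hGz : G x = 1 := by rw [hGdef]; unfold GG; rw [← hLdef, hLz, Real.exp_zero]
      have hvu : v x = u x := by simp only [hvdef]; rw [hGz, one_mul]
      have hgz : gx L x = 0 ∧ gy L x = 0 := by
        obtain ⟨m1, m2⟩ := (grad_Lw (a1 := a1) (a2 := a2) H.w0 H.wr H.sep hxO).1 hA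
        rw [hLdef, m1, m2]
        by_cases hn2 : ∃ e ∈ E, ‖x - e‖ < 2 * r
        · obtain ⟨e, he, hxe⟩ := hn2
          have := (grad_Sf H.w0 hr H.sep he hxe).2.2 (by
            rw [N2_eq]; have := hnear e he; gcongr)
          rw [this.1, this.2]; simp
        · push Not at hn2
          have := grad_Sf_zero (E := E) H.w0 hr (x := x) (fun e he => by
            have := hn2 e he; linarith)
          rw [this.1, this.2]; simp
      have hxb : x ∉ ball (0 : ℂ) (1 - r) := by
        rw [mem_ball_zero_iff, not_lt]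
        have := sideA_norm H.good hA; linarith
      rw [indicator_of_notMem hxb, hgz.1, hgz.2, hvu]
      have hW : 0 ≤ Wt x := by
        simp only [hWt]
        have := H.q0_pos
        split_ifs <;> positivity
      nlinarith
    · -- chamber, away from the tips
      have hρx : ‖x‖ < ρ := by
        rcases hxO.2 with h' | h' | ⟨e, he, h'⟩
        · exact absurd h' hA
        · have := cham_norm H.good H.s0 H.s1 h'
          linarith [H.ρs]
        · have := hnear e he
          linarith [H.wr, H.w0]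
      apply inner hρx
      have hgz : gx L x = 0 ∧ gy L x = 0 := by
        obtain ⟨m1, m2⟩ := (grad_Lw (a1 := a1) (a2 := a2) H.w0 H.wr H.sep hxO).2 hA
        rw [hLdef, m1, m2]
        by_cases hn2 : ∃ e ∈ E, ‖x - e‖ < 2 * r
        · obtain ⟨e, he, hxe⟩ := hn2
          have := (grad_Sf H.w0 hr H.sep he hxe).2.2 (by
            rw [N2_eq]; have := hnear e he; gcongr)
          rw [this.1, this.2]; simp
        · push Not at hn2
          have := grad_Sf_zero (E := E) H.w0 hr (x := x) (fun e he => by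
            have := hn2 e he; linarith)
          rw [this.1, this.2]; simp
      rw [hgz.1, hgz.2]; simp; positivity
  -- integrate
  have iI : Integrable ((ball (0 : ℂ) (1 - r)).indicator
      (fun x => Real.exp (2 * ((a1 + a2) * MM w r)) * u x ^ 2)) :=
    (iu.const_mul _).indicator measurableSet_ball
  have iW : Integrable (fun x => (Wt x - Λ - (gx L x ^ 2 + gy L x ^ 2)) * v x ^ 2) := by
    have := (iP.sub (iv.const_mul Λ)).sub iL
    refine this.congr ?_
    filter_upwards with x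
    simp only [Pi.sub_apply]; ring
  have hmono := integral_mono (iI.sub (iu.const_mul Λ)) iW hpt
  have e4 : ∫ x, ((ball (0 : ℂ) (1 - r)).indicator
      (fun x => Real.exp (2 * ((a1 + a2) * MM w r)) * u x ^ 2) x - Λ * u x ^ 2) =
      Real.exp (2 * ((a1 + a2) * MM w r)) * (∫ x in ball (0 : ℂ) (1 - r), u x ^ 2) - Λ * Ma u := by
    rw [integral_sub iI (iu.const_mul Λ), integral_indicator measurableSet_ball,
      integral_const_mul, integral_const_mul]
    rfl
  have e5 : (∫ x, ((ball (0 : ℂ) (1 - r)).indicator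
      (fun x => Real.exp (2 * ((a1 + a2) * MM w r)) * u x ^ 2) - fun x => Λ * u x ^ 2) x) =
      ∫ x, ((ball (0 : ℂ) (1 - r)).indicator
      (fun x => Real.exp (2 * ((a1 + a2) * MM w r)) * u x ^ 2) x - Λ * u x ^ 2) := rfl
  rw [e5, e4] at hmono
  linarith

end Pool.Agent.MP0c2
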