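import Pool.Agent.Lib.MP_0c2aee_an.Defs

/-! Calculus of `C¹` compactly supported functions on `ℂ`, integration by parts, vector fields. -/

set_option autoImplicit false

open MeasureTheory Set Metric Topology Filter

namespace Pool.Agent.MP0c2

noncomputable def gx (u : ℂ → ℝ) (x : ℂ) : ℝ := fderiv ℝ u x 1
noncomputable def gy (u : ℂ → ℝ) (x : ℂ) : ℝ := fderiv ℝ u x Complex.I

lemma clm_apply (f : ℂ →L[ℝ] ℝ) (z : ℂ) : f z = z.re * f 1 + z.im * f Complex.I := by
  have : z = z.re • (1 : ℂ) + z.im • Complex.I := by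
    apply Complex.ext <;> simp
  conv_lhs => rw [this]
  rw [map_add, map_smul, map_smul]; simp

lemma clm_norm_sq (f : ℂ →L[ℝ] ℝ) : ‖f‖ ^ 2 = f 1 ^ 2 + f Complex.I ^ 2 := by
  set a := f 1; set b := f Complex.I
  have h0 : 0 ≤ a ^ 2 + b ^ 2 := by positivity
  apply le_antisymm
  · have h1 : ‖f‖ ≤ √(a ^ 2 + b ^ 2) := by
      apply f.opNorm_le_bound (Real.sqrt_nonneg _)
      intro z
      rw [clm_apply f z, Real.norm_eq_abs]
      have hz : ‖z‖ = √(z.re ^ 2 + z.im ^ 2) := by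
        rw [Complex.norm_def, Complex.normSq_apply]; congr 1; ring
      rw [hz, ← Real.sqrt_mul h0]
      apply Real.abs_le_sqrt
      nlinarith [sq_nonneg (z.re * b - z.im * a)]
    calc ‖f‖ ^ 2 ≤ √(a ^ 2 + b ^ 2) ^ 2 := by gcongr
      _ = _ := Real.sq_sqrt h0
  · by_cases h : a ^ 2 + b ^ 2 = 0
    · rw [h]; positivity
    have h2 := f.le_opNorm (⟨a, b⟩ : ℂ)
    rw [clm_apply f] at h2
    have hz : ‖(⟨a, b⟩ : ℂ)‖ = √(a ^ 2 + b ^ 2) := by
      rw [Complex.norm_def, Complex.normSq_apply]; congr 1; ring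
    rw [hz, Real.norm_eq_abs] at h2
    have h3 : (a ^ 2 + b ^ 2) ≤ ‖f‖ * √(a ^ 2 + b ^ 2) := by
      refine le_trans (le_trans (le_of_eq ?_) (le_abs_self _)) h2
      change a ^ 2 + b ^ 2 = a * a + b * b
      ring
    have h4 : 0 < √(a ^ 2 + b ^ 2) := Real.sqrt_pos.2 (lt_of_le_of_ne h0 (Ne.symm h))
    have h5 : √(a ^ 2 + b ^ 2) ≤ ‖f‖ := by
      have h6 : √(a ^ 2 + b ^ 2) * √(a ^ 2 + b ^ 2) ≤ ‖f‖ * √(a ^ 2 + b ^ 2) := by
        rw [Real.mul_self_sqrt h0]; exact h3
      exact le_of_mul_le_mul_right h6 h4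
    calc a ^ 2 + b ^ 2 = √(a ^ 2 + b ^ 2) ^ 2 := (Real.sq_sqrt h0).symm
      _ ≤ ‖f‖ ^ 2 := by gcongr

lemma norm_fderiv_sq (u : ℂ → ℝ) (x : ℂ) : ‖fderiv ℝ u x‖ ^ 2 = gx u x ^ 2 + gy u x ^ 2 :=
  clm_norm_sq _

/-- rotated version -/
lemma clm_norm_sq' (f : ℂ →L[ℝ] ℝ) (u : ℂ) (hu : ‖u‖ = 1) :
    ‖f‖ ^ 2 = f u ^ 2 + f (Complex.I * u) ^ 2 := by
  rw [clm_norm_sq, clm_apply f u, clm_apply f (Complex.I * u)]
  have h : u.re ^ 2 + u.im ^ 2 = 1 := by
    have := Complex.sq_norm u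
    rw [hu, Complex.normSq_apply] at this; nlinarith
  simp only [Complex.mul_re, Complex.mul_im, Complex.I_re, Complex.I_im]
  linear_combination (-(f 1 ^ 2) - f Complex.I ^ 2) * h

section IsT
variable {U V : Set ℂ} {u v χ : ℂ → ℝ}

lemma IsT.mono (h : IsT U u) (hUV : U ⊆ V) : IsT V u := ⟨h.smooth, h.cpt, h.supp.trans hUV⟩

lemma IsT.continuous (h : IsT U u) : Continuous u := h.smooth.continuous

lemma IsT.differentiable (h : IsT U u) : Differentiable ℝ u := h.smooth.differentiable one_ne_zero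

lemma cont_gx_of (h : ContDiff ℝ 1 u) : Continuous (gx u) :=
  (h.continuous_fderiv one_ne_zero).clm_apply continuous_const
lemma cont_gy_of (h : ContDiff ℝ 1 u) : Continuous (gy u) :=
  (h.continuous_fderiv one_ne_zero).clm_apply continuous_const

lemma IsT.cont_gx (h : IsT U u) : Continuous (gx u) := cont_gx_of h.smooth
lemma IsT.cont_gy (h : IsT U u) : Continuous (gy u) := cont_gy_of h.smooth

lemma tsupport_gx_subset : tsupport (gx u) ⊆ tsupport u := by
  apply closure_minimal _ (isClosed_tsupport u)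
  intro x hx
  by_contra h
  apply hx
  have : fderiv ℝ u x = 0 := by
    have h2 : u =ᶠ[𝓝 x] 0 := notMem_tsupport_iff_eventuallyEq.1 h
    rw [h2.fderiv_eq]; simp
  simp [gx, this]

lemma tsupport_gy_subset : tsupport (gy u) ⊆ tsupport u := by
  apply closure_minimal _ (isClosed_tsupport u)
  intro x hx
  by_contra h
  apply hx
  have : fderiv ℝ u x = 0 := by
    have h2 : u =ᶠ[𝓝 x] 0 := notMem_tsupport_iff_eventuallyEq.1 h
    rw [h2.fderiv_eq]; simp
  simp [gy, this]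

lemma fderiv_zero_of_notMem {x : ℂ} (h : x ∉ tsupport u) : fderiv ℝ u x = 0 := by
  have h2 : u =ᶠ[𝓝 x] 0 := notMem_tsupport_iff_eventuallyEq.1 h
  rw [h2.fderiv_eq]; simp

lemma zero_of_notMem {x : ℂ} (h : x ∉ tsupport u) : u x = 0 := image_eq_zero_of_notMem_tsupport h

lemma gx_zero_of_notMem {x : ℂ} (h : x ∉ tsupport u) : gx u x = 0 := by
  simp [gx, fderiv_zero_of_notMem h]
lemma gy_zero_of_notMem {x : ℂ} (h : x ∉ tsupport u) : gy u x = 0 := by
  simp [gy, fderiv_zero_of_notMem h]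

lemma IsT.cpt_gx (h : IsT U u) : HasCompactSupport (gx u) :=
  h.cpt.mono' (subset_closure.trans tsupport_gx_subset)
lemma IsT.cpt_gy (h : IsT U u) : HasCompactSupport (gy u) :=
  h.cpt.mono' (subset_closure.trans tsupport_gy_subset)

/-- a function continuous on `V` times a continuous one supported in `V`. -/
lemma cont_mul {f g : ℂ → ℝ} (hV : IsOpen V) (hf : ContinuousOn f V) (hg : Continuous g)
    (hs : tsupport g ⊆ V) : Continuous (fun x => f x * g x) := by
  apply continuous_of_tsupport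
  intro x hx
  have hx2 : x ∈ V := hs ((tsupport_mul_subset_right) hx)
  exact (hf.continuousAt (hV.mem_nhds hx2)).mul hg.continuousAt

lemma integrable_mul {f g : ℂ → ℝ} (hV : IsOpen V) (hf : ContinuousOn f V) (hg : Continuous g)
    (hgc : HasCompactSupport g) (hs : tsupport g ⊆ V) : Integrable (fun x => f x * g x) :=
  (cont_mul hV hf hg hs).integrable_of_hasCompactSupport hgc.mul_left

lemma IsT.mul (hu : IsT V u) (hV : IsOpen V) (hχ : ContDiffOn ℝ 1 χ V) :
    IsT V (fun x => χ x * u x) where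
  smooth := by
    rw [contDiff_iff_contDiffAt]
    intro x
    by_cases hx : x ∈ tsupport u
    · exact (hχ.contDiffAt (hV.mem_nhds (hu.supp hx))).mul hu.smooth.contDiffAt
    · have h2 : u =ᶠ[𝓝 x] 0 := notMem_tsupport_iff_eventuallyEq.1 hx
      have h3 : (fun x => χ x * u x) =ᶠ[𝓝 x] fun _ => 0 := by
        filter_upwards [h2] with y hy
        rw [hy]; simp
      exact contDiffAt_const.congr_of_eventuallyEq h3
  cpt := hu.cpt.mul_left
  supp := (tsupport_mul_subset_right).trans hu.supp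

lemma IsT.fderiv_mul (hu : IsT V u) (hV : IsOpen V) (hχ : ContDiffOn ℝ 1 χ V) (x : ℂ) :
    fderiv ℝ (fun x => χ x * u x) x = χ x • fderiv ℝ u x + u x • fderiv ℝ χ x := by
  by_cases hx : x ∈ V
  · exact _root_.fderiv_fun_mul ((hχ.contDiffAt (hV.mem_nhds hx)).differentiableAt one_ne_zero)
      hu.differentiable.differentiableAt
  · have h1 : x ∉ tsupport u := fun h => hx (hu.supp h)
    have h2 : x ∉ tsupport (fun x => χ x * u x) := fun h => h1 ((tsupport_mul_subset_right) h)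
    rw [fderiv_zero_of_notMem h2, fderiv_zero_of_notMem h1, zero_of_notMem h1]; simp

lemma IsT.gx_mul (hu : IsT V u) (hV : IsOpen V) (hχ : ContDiffOn ℝ 1 χ V) (x : ℂ) :
    gx (fun x => χ x * u x) x = χ x * gx u x + u x * gx χ x := by
  simp [gx, hu.fderiv_mul hV hχ x]

lemma IsT.gy_mul (hu : IsT V u) (hV : IsOpen V) (hχ : ContDiffOn ℝ 1 χ V) (x : ℂ) :
    gy (fun x => χ x * u x) x = χ x * gy u x + u x * gy χ x := by
  simp [gy, hu.fderiv_mul hV hχ x]

lemma IsT.add (hu : IsT V u) (hv : IsT V v) : IsT V (fun x => u x + v x) where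
  smooth := hu.smooth.add hv.smooth
  cpt := hu.cpt.add hv.cpt
  supp := by
    refine (tsupport_add u v).trans ?_
    exact union_subset hu.supp hv.supp

lemma IsT.const_mul (c : ℝ) (hu : IsT V u) : IsT V (fun x => c * u x) where
  smooth := contDiff_const.mul hu.smooth
  cpt := hu.cpt.mul_left
  supp := (tsupport_mul_subset_right).trans hu.supp

lemma IsT.sq (hu : IsT V u) : IsT V (fun x => u x ^ 2) where
  smooth := hu.smooth.pow 2
  cpt := by
    have : (fun x => u x ^ 2) = (fun x => u x * u x) := by ext x; ring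
    rw [this]; exact hu.cpt.mul_left
  supp := by
    have : (fun x => u x ^ 2) = (fun x => u x * u x) := by ext x; ring
    rw [this]; exact (tsupport_mul_subset_right).trans hu.supp

lemma IsT.fderiv_sq (hu : IsT V u) (x : ℂ) : fderiv ℝ (fun x => u x ^ 2) x = (2 * u x) • fderiv ℝ u x := by
  have := (hu.differentiable x).hasFDerivAt.pow 2
  rw [this.fderiv]; simp

lemma IsT.gx_sq (hu : IsT V u) (x : ℂ) : gx (fun x => u x ^ 2) x = 2 * u x * gx u x := by
  simp [gx, hu.fderiv_sq x]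
lemma IsT.gy_sq (hu : IsT V u) (x : ℂ) : gy (fun x => u x ^ 2) x = 2 * u x * gy u x := by
  simp [gy, hu.fderiv_sq x]

lemma contOn_gx {X : ℂ → ℝ} (hV : IsOpen V) (h : ContDiffOn ℝ 1 X V) : ContinuousOn (gx X) V :=
  (h.continuousOn_fderiv_of_isOpen hV le_rfl).clm_apply continuousOn_const
lemma contOn_gy {X : ℂ → ℝ} (hV : IsOpen V) (h : ContDiffOn ℝ 1 X V) : ContinuousOn (gy X) V :=
  (h.continuousOn_fderiv_of_isOpen hV le_rfl).clm_apply continuousOn_const

/-- integration by parts with a vector field -/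
lemma IsT.ibp {X1 X2 : ℂ → ℝ} (hu : IsT V u) (hV : IsOpen V) (h1 : ContDiffOn ℝ 1 X1 V)
    (h2 : ContDiffOn ℝ 1 X2 V) :
    ∫ x, (X1 x * gx u x + X2 x * gy u x) = - ∫ x, (gx X1 x + gy X2 x) * u x := by
  have i1 := integrable_mul hV h1.continuousOn hu.cont_gx hu.cpt_gx (tsupport_gx_subset.trans hu.supp)
  have i2 := integrable_mul hV h2.continuousOn hu.cont_gy hu.cpt_gy (tsupport_gy_subset.trans hu.supp)
  have i3 := integrable_mul hV h1.continuousOn hu.continuous hu.cpt hu.supp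
  have i4 := integrable_mul hV h2.continuousOn hu.continuous hu.cpt hu.supp
  have i5 := integrable_mul hV (contOn_gx hV h1) hu.continuous hu.cpt hu.supp
  have i6 := integrable_mul hV (contOn_gy hV h2) hu.continuous hu.cpt hu.supp
  have e1 := integral_mul_fderiv_eq_neg_fderiv_mul_of_integrable (μ := volume) (f := X1) (g := u)
    (v := (1 : ℂ)) i5 i1 i3
    (fun x hx => (h1.contDiffAt (hV.mem_nhds (hu.supp hx))).differentiableAt one_ne_zero)
    (fun x _ => hu.differentiable x)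
  have e2 := integral_mul_fderiv_eq_neg_fderiv_mul_of_integrable (μ := volume) (f := X2) (g := u)
    (v := Complex.I) i6 i2 i4
    (fun x hx => (h2.contDiffAt (hV.mem_nhds (hu.supp hx))).differentiableAt one_ne_zero)
    (fun x _ => hu.differentiable x)
  rw [integral_add i1 i2]
  have e3 : ∫ x, (gx X1 x + gy X2 x) * u x = (∫ x, gx X1 x * u x) + ∫ x, gy X2 x * u x := by
    rw [← integral_add i5 i6]; congr 1; ext x; ring
  rw [e3]
  unfold gx gy at *
  rw [e1, e2]; ring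

/-- General inequality obtained from a vector field. -/
lemma IsT.field_general {X1 X2 W Q : ℂ → ℝ} {B : Set ℂ} (hv : IsT V v) (hV : IsOpen V)
    (h1 : ContDiffOn ℝ 1 X1 V) (h2 : ContDiffOn ℝ 1 X2 V) (hB : MeasurableSet B)
    (hW : IntegrableOn W B) (hW0 : ∀ x ∈ B, 0 ≤ W x)
    (hpt : ∀ x ∈ V, x ∈ B → 0 ≤ W x + 2 * v x * (X1 x * gx v x + X2 x * gy v x)
      + (gx X1 x + gy X2 x - Q x) * v x ^ 2)
    (hout : ∀ x ∈ V, x ∉ B → X1 =ᶠ[𝓝 x] 0 ∧ X2 =ᶠ[𝓝 x] 0) :
    ∫ x in B, Q x * v x ^ 2 ≤ ∫ x in B, W x := by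
  by_cases hQ : IntegrableOn (fun x => Q x * v x ^ 2) B
  swap
  · rw [integral_undef hQ]
    exact setIntegral_nonneg hB hW0
  have hsq := hv.sq
  have key := hsq.ibp hV h1 h2
  have i1 := integrable_mul hV h1.continuousOn hsq.cont_gx hsq.cpt_gx (tsupport_gx_subset.trans hsq.supp)
  have i2 := integrable_mul hV h2.continuousOn hsq.cont_gy hsq.cpt_gy (tsupport_gy_subset.trans hsq.supp)
  have i5 := integrable_mul hV (contOn_gx hV h1) hsq.continuous hsq.cpt hsq.supp
  have i6 := integrable_mul hV (contOn_gy hV h2) hsq.continuous hsq.cpt hsq.supp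
  set G : ℂ → ℝ := fun x => 2 * v x * (X1 x * gx v x + X2 x * gy v x)
    + (gx X1 x + gy X2 x) * v x ^ 2 with hG
  have hGe : G = fun x => (X1 x * gx (fun x => v x ^ 2) x + X2 x * gy (fun x => v x ^ 2) x)
      + (gx X1 x * v x ^ 2 + gy X2 x * v x ^ 2) := by
    ext x; rw [hG]; simp only [hv.gx_sq, hv.gy_sq]; ring
  have hGi : Integrable G := by rw [hGe]; exact (i1.add i2).add (i5.add i6)
  have hG0 : ∫ x, G x = 0 := by
    have e0 : ∫ x, G x = (∫ x, (X1 x * gx (fun x => v x ^ 2) x + X2 x * gy (fun x => v x ^ 2) x))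
        + ∫ x, (gx X1 x * v x ^ 2 + gy X2 x * v x ^ 2) := by
      rw [hGe]; exact integral_add (i1.add i2) (i5.add i6)
    rw [e0, key]
    have : ∀ x, (gx X1 x + gy X2 x) * v x ^ 2 = gx X1 x * v x ^ 2 + gy X2 x * v x ^ 2 := by
      intro x; ring
    simp only [this]; ring
  have hGB : ∫ x in B, G x = 0 := by
    rw [← hG0]
    apply setIntegral_eq_integral_of_forall_compl_eq_zero
    intro x hx
    by_cases hxV : x ∈ V
    · obtain ⟨e1, e2⟩ := hout x hxV hx
      have d1 : gx X1 x = 0 := by simp [gx, e1.fderiv_eq]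
      have d2 : gy X2 x = 0 := by simp [gy, e2.fderiv_eq]
      have d3 : X1 x = 0 := e1.eq_of_nhds
      have d4 : X2 x = 0 := e2.eq_of_nhds
      rw [hG]; simp [d1, d2, d3, d4]
    · have h3 : x ∉ tsupport v := fun h => hxV (hv.supp h)
      rw [hG]; simp [zero_of_notMem h3]
  have hfin : 0 ≤ ∫ x in B, (W x + G x - Q x * v x ^ 2) := by
    apply setIntegral_nonneg hB
    intro x hx
    by_cases hxV : x ∈ V
    · have := hpt x hxV hx
      have e : W x + G x - Q x * v x ^ 2 = W x + 2 * v x * (X1 x * gx v x + X2 x * gy v x)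
        + (gx X1 x + gy X2 x - Q x) * v x ^ 2 := by rw [hG]; ring
      rw [e]; exact this
    · have h3 : x ∉ tsupport v := fun h => hxV (hv.supp h)
      rw [hG]; simp [zero_of_notMem h3]; exact hW0 x hx
  have h7 := integral_sub (hW.add hGi.integrableOn) hQ
  have h8 : ∫ x in B, (W x + G x) = (∫ x in B, W x) + ∫ x in B, G x :=
    integral_add hW hGi.integrableOn
  simp only [Pi.add_apply] at h7
  rw [h7, h8, hGB] at hfin
  linarith

lemma IsT.cont_norm_sq (hu : IsT V u) : Continuous (fun x => ‖fderiv ℝ u x‖ ^ 2) := by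
  have := hu.smooth.continuous_fderiv one_ne_zero
  fun_prop

lemma IsT.int_norm_sq (hu : IsT V u) : Integrable (fun x => ‖fderiv ℝ u x‖ ^ 2) := by
  apply hu.cont_norm_sq.integrable_of_hasCompactSupport
  apply hu.cpt.mono'
  intro x hx
  by_contra h
  apply hx
  simp [fderiv_zero_of_notMem h]

lemma IsT.int_sq (hu : IsT V u) : Integrable (fun x => u x ^ 2) :=
  hu.sq.continuous.integrable_of_hasCompactSupport hu.sq.cpt

lemma IsT.int_mul (hu : IsT V u) (hv : IsT V v) : Integrable (fun x => u x * v x) :=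
  (hu.continuous.mul hv.continuous).integrable_of_hasCompactSupport hu.cpt.mul_right

/-- localized vector field inequality with the full energy -/
lemma IsT.field_local {X1 X2 Q : ℂ → ℝ} {B : Set ℂ} (hv : IsT V v) (hV : IsOpen V)
    (h1 : ContDiffOn ℝ 1 X1 V) (h2 : ContDiffOn ℝ 1 X2 V) (hB : MeasurableSet B)
    (hQ : ∀ x ∈ V, x ∈ B → v x ≠ 0 → Q x ≤ gx X1 x + gy X2 x - X1 x ^ 2 - X2 x ^ 2)
    (hout : ∀ x ∈ V, x ∉ B → X1 =ᶠ[𝓝 x] 0 ∧ X2 =ᶠ[𝓝 x] 0) :
    ∫ x in B, Q x * v x ^ 2 ≤ ∫ x in B, ‖fderiv ℝ v x‖ ^ 2 := by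
  apply hv.field_general hV h1 h2 hB hv.int_norm_sq.integrableOn (fun x _ => by positivity) _ hout
  intro x hx hxB
  rw [norm_fderiv_sq]
  by_cases h0 : v x = 0
  · rw [h0]; ring_nf; positivity
  have h3 := hQ x hx hxB h0
  nlinarith [sq_nonneg (gx v x + v x * X1 x), sq_nonneg (gy v x + v x * X2 x),
    mul_le_mul_of_nonneg_right h3 (sq_nonneg (v x))]

lemma IsT.field_global {X1 X2 Q : ℂ → ℝ} (hv : IsT V v) (hV : IsOpen V)
    (h1 : ContDiffOn ℝ 1 X1 V) (h2 : ContDiffOn ℝ 1 X2 V)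
    (hQ : ∀ x ∈ V, v x ≠ 0 → Q x ≤ gx X1 x + gy X2 x - X1 x ^ 2 - X2 x ^ 2) :
    ∫ x, Q x * v x ^ 2 ≤ En v := by
  have := hv.field_local (B := univ) hV h1 h2 MeasurableSet.univ (fun x hx _ h => hQ x hx h)
    (fun x _ h => absurd (mem_univ x) h)
  simpa [En] using this

end IsT

end Pool.Agent.MP0c2
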