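import Pool.Agent.Lib.MP_0c2aee_an.Basic

/-! Explicit `C¹` cutoff functions. -/

set_option autoImplicit false

open MeasureTheory Set Metric Topology Filter

namespace Pool.Agent.MP0c2

/-- square of the positive part -/
noncomputable def p2 (z : ℝ) : ℝ := (max z 0) ^ 2

lemma p2_hasDerivAt (z : ℝ) : HasDerivAt p2 (2 * max z 0) z := by
  rcases lt_trichotomy z 0 with h | h | h
  · have h1 : p2 =ᶠ[𝓝 z] fun _ => 0 := by
      filter_upwards [Iio_mem_nhds h] with y hy
      simp [p2, max_eq_right (le_of_lt (mem_Iio.1 hy))]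
    rw [max_eq_right h.le, mul_zero]
    exact (hasDerivAt_const z (0 : ℝ)).congr_of_eventuallyEq h1
  · subst h
    simp only [max_self, mul_zero]
    rw [hasDerivAt_iff_isLittleO_nhds_zero]
    simp only [zero_add, p2, max_self, smul_zero, sub_zero]
    rw [Asymptotics.isLittleO_iff]
    intro c hc
    filter_upwards [Metric.ball_mem_nhds (0 : ℝ) hc] with y hy
    rw [mem_ball_zero_iff, Real.norm_eq_abs] at hy
    rw [Real.norm_eq_abs, Real.norm_eq_abs]
    rw [zero_pow two_ne_zero, sub_zero, abs_of_nonneg (sq_nonneg _)]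
    have h1 : max y 0 ≤ |y| := max_le (le_abs_self _) (abs_nonneg _)
    have h2 : 0 ≤ max y 0 := le_max_right _ _
    nlinarith [abs_nonneg y]
  · have h1 : p2 =ᶠ[𝓝 z] fun y => y ^ 2 := by
      filter_upwards [Ioi_mem_nhds h] with y hy
      simp [p2, max_eq_left (le_of_lt (mem_Ioi.1 hy))]
    rw [max_eq_left h.le]
    have := (hasDerivAt_pow 2 z)
    simp at this
    exact this.congr_of_eventuallyEq h1

lemma p2_contDiff : ContDiff ℝ 1 p2 := by
  rw [contDiff_one_iff_deriv]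
  refine ⟨fun z => (p2_hasDerivAt z).differentiableAt, ?_⟩
  have : deriv p2 = fun z => 2 * max z 0 := by ext z; exact (p2_hasDerivAt z).deriv
  rw [this]; fun_prop

lemma p2_nonneg (z : ℝ) : 0 ≤ p2 z := sq_nonneg _
lemma p2_of_nonpos {z : ℝ} (h : z ≤ 0) : p2 z = 0 := by simp [p2, max_eq_right h]
lemma p2_of_nonneg {z : ℝ} (h : 0 ≤ z) : p2 z = z ^ 2 := by simp [p2, max_eq_left h]
lemma p2_mono : Monotone p2 := by
  intro a b h
  unfold p2
  have : max a 0 ≤ max b 0 := max_le_max h le_rfl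
  have h2 : 0 ≤ max a 0 := le_max_right _ _
  gcongr

/-- `C¹` ramp: `0` for `y ≤ 0`, `1` for `1 ≤ y`. -/
noncomputable def sg (y : ℝ) : ℝ := 1 - p2 (1 - p2 y)

/-- derivative of the ramp -/
noncomputable def dsg (y : ℝ) : ℝ := (2 * max (1 - p2 y) 0) * (2 * max y 0)

lemma sg_hasDerivAt (y : ℝ) : HasDerivAt sg (dsg y) y := by
  have h1 : HasDerivAt (fun y => 1 - p2 y) (-(2 * max y 0)) y := (p2_hasDerivAt y).const_sub 1
  have h2 := ((p2_hasDerivAt (1 - p2 y)).comp y h1).const_sub 1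
  have e : dsg y = -(2 * max (1 - p2 y) 0 * -(2 * max y 0)) := by simp only [dsg]; ring
  rw [e]; exact h2

lemma sg_contDiff : ContDiff ℝ 1 sg :=
  contDiff_const.sub (p2_contDiff.comp (contDiff_const.sub p2_contDiff))

lemma cont_sg : Continuous sg := sg_contDiff.continuous

lemma sg_of_nonpos {y : ℝ} (h : y ≤ 0) : sg y = 0 := by
  have h1 : p2 1 = 1 := by norm_num [p2]
  simp [sg, p2_of_nonpos h, h1]

lemma sg_of_one_le {y : ℝ} (h : 1 ≤ y) : sg y = 1 := by
  have h1 : p2 y = y ^ 2 := p2_of_nonneg (by linarith)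
  have h2 : 1 - p2 y ≤ 0 := by rw [h1]; nlinarith
  simp [sg, p2_of_nonpos h2]

lemma sg_nonneg (y : ℝ) : 0 ≤ sg y := by
  have h1 := p2_nonneg y
  have h2 : p2 (1 - p2 y) ≤ p2 1 := p2_mono (by linarith)
  have h3 : p2 1 = 1 := by norm_num [p2]
  unfold sg; linarith

lemma sg_le_one (y : ℝ) : sg y ≤ 1 := by
  have := p2_nonneg (1 - p2 y)
  unfold sg; linarith

lemma sg_mono : Monotone sg := by
  intro a b h
  have := p2_mono h
  have h2 : p2 (1 - p2 b) ≤ p2 (1 - p2 a) := p2_mono (by linarith)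
  unfold sg; linarith

lemma dsg_nonneg (y : ℝ) : 0 ≤ dsg y := by
  unfold dsg
  have h1 : 0 ≤ max y 0 := le_max_right _ _
  have h2 : 0 ≤ max (1 - p2 y) 0 := le_max_right _ _
  positivity

lemma dsg_of_nonpos {y : ℝ} (h : y ≤ 0) : dsg y = 0 := by simp [dsg, max_eq_right h]

lemma dsg_of_one_le {y : ℝ} (h : 1 ≤ y) : dsg y = 0 := by
  have h1 : p2 y = y ^ 2 := p2_of_nonneg (by linarith)
  have h2 : 1 - p2 y ≤ 0 := by rw [h1]; nlinarith
  simp [dsg, max_eq_right h2]

lemma dsg_le (y : ℝ) : dsg y ≤ 8 / 5 := by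
  by_cases h : y ≤ 0
  · rw [dsg_of_nonpos h]; norm_num
  by_cases h' : 1 ≤ y
  · rw [dsg_of_one_le h']; norm_num
  push Not at h h'
  unfold dsg
  rw [p2_of_nonneg h.le, max_eq_left (by nlinarith : 0 ≤ 1 - y ^ 2), max_eq_left h.le]
  nlinarith [mul_nonneg h.le (sq_nonneg (y - 0.577)), sq_nonneg (y - 0.577)]

lemma cont_dsg : Continuous dsg := by
  have : Continuous p2 := p2_contDiff.continuous
  unfold dsg; fun_prop

/-- squared norm as a real function -/
noncomputable def N2 (x : ℂ) : ℝ := x.re ^ 2 + x.im ^ 2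

lemma N2_eq (x : ℂ) : N2 x = ‖x‖ ^ 2 := by
  rw [Complex.sq_norm, Complex.normSq_apply]; unfold N2; ring

lemma N2_nonneg (x : ℂ) : 0 ≤ N2 x := by unfold N2; positivity

lemma re_contDiff : ContDiff ℝ 1 (fun x : ℂ => x.re) := Complex.reCLM.contDiff
lemma im_contDiff : ContDiff ℝ 1 (fun x : ℂ => x.im) := Complex.imCLM.contDiff

lemma N2_contDiff : ContDiff ℝ 1 N2 := (re_contDiff.pow 2).add (im_contDiff.pow 2)

lemma hasFDerivAt_re (x : ℂ) : HasFDerivAt (fun x : ℂ => x.re) Complex.reCLM x :=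
  Complex.reCLM.hasFDerivAt
lemma hasFDerivAt_im (x : ℂ) : HasFDerivAt (fun x : ℂ => x.im) Complex.imCLM x :=
  Complex.imCLM.hasFDerivAt

lemma N2_hasFDerivAt (x : ℂ) :
    HasFDerivAt N2 ((2 * x.re) • Complex.reCLM + (2 * x.im) • Complex.imCLM) x := by
  have h := ((hasFDerivAt_re x).pow 2).add ((hasFDerivAt_im x).pow 2)
  refine (h.congr_fderiv ?_)
  ext <;> simp

lemma gx_N2 (x : ℂ) : gx N2 x = 2 * x.re := by
  simp [gx, (N2_hasFDerivAt x).fderiv]
lemma gy_N2 (x : ℂ) : gy N2 x = 2 * x.im := by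
  simp [gy, (N2_hasFDerivAt x).fderiv]

lemma comp_N2_hasFDerivAt {m : ℝ → ℝ} {d : ℝ} {x : ℂ} (h : HasDerivAt m d (N2 x)) :
    HasFDerivAt (fun x => m (N2 x)) (d • ((2 * x.re) • Complex.reCLM + (2 * x.im) • Complex.imCLM)) x :=
  h.comp_hasFDerivAt x (N2_hasFDerivAt x)

/-! ### logarithmic cutoff, as a function of the squared radius -/

/-- density of the logarithmic cutoff between the radii `a` and `b`. -/
noncomputable def lk (a b t : ℝ) : ℝ :=
  sg ((t - a ^ 2) / a ^ 2) * (1 - sg ((2 * t - b ^ 2) / b ^ 2)) / (2 * max t (a ^ 2))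

/-- logarithmic cutoff between the radii `a` and `b`. -/
noncomputable def lg (a b t : ℝ) : ℝ := ∫ s in (0 : ℝ)..t, lk a b s

variable {a b : ℝ}

lemma lk_cont (ha : 0 < a) : Continuous (lk a b) := by
  unfold lk
  have h1 : Continuous fun t : ℝ => sg ((t - a ^ 2) / a ^ 2) :=
    cont_sg.comp ((continuous_id.sub continuous_const).div_const _)
  have h2 : Continuous fun t : ℝ => 1 - sg ((2 * t - b ^ 2) / b ^ 2) :=
    continuous_const.sub (cont_sg.comp (((continuous_const.mul continuous_id).sub continuous_const).div_const _))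
  refine (h1.mul h2).div (by fun_prop) ?_
  intro t
  have : 0 < max t (a ^ 2) := lt_max_of_lt_right (by positivity)
  positivity

lemma lk_nonneg (ha : 0 < a) (t : ℝ) : 0 ≤ lk a b t := by
  unfold lk
  have h1 : 0 < max t (a ^ 2) := lt_max_of_lt_right (by positivity)
  have h2 := sg_nonneg ((t - a ^ 2) / a ^ 2)
  have h3 := sg_le_one ((2 * t - b ^ 2) / b ^ 2)
  have h4 : 0 ≤ 1 - sg ((2 * t - b ^ 2) / b ^ 2) := by linarith
  positivity

lemma lk_zero (ha : 0 < a) {t : ℝ} (h : t ≤ a ^ 2) : lk a b t = 0 := by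
  unfold lk
  rw [sg_of_nonpos]; · simp
  exact div_nonpos_of_nonpos_of_nonneg (by linarith) (by positivity)

lemma lk_zero' (hb : 0 < b) {t : ℝ} (h : b ^ 2 ≤ t) : lk a b t = 0 := by
  unfold lk
  rw [sg_of_one_le (y := (2 * t - b ^ 2) / b ^ 2)]; · simp
  rw [le_div_iff₀ (by positivity)]; linarith

lemma lk_mul_le (ha : 0 < a) (t : ℝ) (ht : 0 ≤ t) : 2 * t * lk a b t ≤ 1 := by
  unfold lk
  have h1 : 0 < max t (a ^ 2) := lt_max_of_lt_right (by positivity)
  have h2 := sg_nonneg ((t - a ^ 2) / a ^ 2)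
  have h2' := sg_le_one ((t - a ^ 2) / a ^ 2)
  have h3 := sg_le_one ((2 * t - b ^ 2) / b ^ 2)
  have h3' := sg_nonneg ((2 * t - b ^ 2) / b ^ 2)
  have h5 : sg ((t - a ^ 2) / a ^ 2) * (1 - sg ((2 * t - b ^ 2) / b ^ 2)) ≤ 1 := by nlinarith
  have h6 : 0 ≤ sg ((t - a ^ 2) / a ^ 2) * (1 - sg ((2 * t - b ^ 2) / b ^ 2)) :=
    mul_nonneg h2 (by linarith)
  rw [mul_div_assoc', div_le_one (by positivity)]
  have h7 : t ≤ max t (a ^ 2) := le_max_left _ _
  nlinarith

lemma lg_hasDerivAt (ha : 0 < a) (t : ℝ) : HasDerivAt (lg a b) (lk a b t) t :=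
  intervalIntegral.integral_hasDerivAt_right ((lk_cont ha).intervalIntegrable _ _)
    ((lk_cont ha).stronglyMeasurableAtFilter _ _) (lk_cont ha).continuousAt

lemma lg_contDiff (ha : 0 < a) : ContDiff ℝ 1 (lg a b) := by
  rw [contDiff_one_iff_deriv]
  refine ⟨fun z => (lg_hasDerivAt ha z).differentiableAt, ?_⟩
  have : deriv (lg a b) = lk a b := by ext z; exact (lg_hasDerivAt ha z).deriv
  rw [this]; exact lk_cont ha

lemma lg_mono (ha : 0 < a) : Monotone (lg a b) := by
  apply monotone_of_deriv_nonneg (fun z => (lg_hasDerivAt ha z).differentiableAt)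
  intro z
  rw [(lg_hasDerivAt ha z).deriv]; exact lk_nonneg ha z

lemma lg_zero (ha : 0 < a) {t : ℝ} (h : t ≤ a ^ 2) : lg a b t = 0 := by
  unfold lg
  apply intervalIntegral.integral_zero_ae
  filter_upwards with s hs
  apply lk_zero ha
  rcases le_total 0 t with h0 | h0
  · rw [uIoc_of_le h0] at hs; exact hs.2.trans h
  · rw [uIoc_of_ge h0] at hs; exact hs.2.trans (by positivity)

lemma lg_const (ha : 0 < a) (hb : 0 < b) {t : ℝ} (h : b ^ 2 ≤ t) : lg a b t = lg a b (b ^ 2) := by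
  unfold lg
  rw [← intervalIntegral.integral_add_adjacent_intervals (b := b ^ 2)
    ((lk_cont ha).intervalIntegrable _ _) ((lk_cont ha).intervalIntegrable _ _)]
  have : ∫ s in (b ^ 2)..t, lk a b s = 0 := by
    apply intervalIntegral.integral_zero_ae
    filter_upwards with s hs
    rw [uIoc_of_le h] at hs
    exact lk_zero' hb hs.1.le
  rw [this, add_zero]

lemma lg_nonneg (ha : 0 < a) (t : ℝ) : 0 ≤ lg a b t := by
  rcases le_total t (a ^ 2) with h | h
  · rw [lg_zero ha h]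
  · have := lg_mono (b := b) ha h
    rwa [lg_zero ha le_rfl] at this

lemma lg_le (ha : 0 < a) (hb : 0 < b) (t : ℝ) : lg a b t ≤ lg a b (b ^ 2) := by
  rcases le_total t (b ^ 2) with h | h
  · exact lg_mono ha h
  · rw [lg_const ha hb h]

/-- the total logarithmic height is at least `log (b / (2a))`. -/
lemma lg_ge (ha : 0 < a) (hb : 2 * a ≤ b) : Real.log (b / (2 * a)) ≤ lg a b (b ^ 2) := by
  have hb0 : 0 < b := by linarith
  have h1 : 2 * a ^ 2 ≤ b ^ 2 / 2 := by nlinarith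
  have e : lg a b (b ^ 2) = (∫ s in (0 : ℝ)..(2 * a ^ 2), lk a b s) +
      (∫ s in (2 * a ^ 2)..(b ^ 2 / 2), lk a b s) + ∫ s in (b ^ 2 / 2)..(b ^ 2), lk a b s := by
    unfold lg
    rw [intervalIntegral.integral_add_adjacent_intervals
      ((lk_cont ha).intervalIntegrable _ _) ((lk_cont ha).intervalIntegrable _ _),
      intervalIntegral.integral_add_adjacent_intervals
      ((lk_cont ha).intervalIntegrable _ _) ((lk_cont ha).intervalIntegrable _ _)]
  have p1 : 0 ≤ ∫ s in (0 : ℝ)..(2 * a ^ 2), lk a b s :=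
    intervalIntegral.integral_nonneg (by positivity) (fun s _ => lk_nonneg ha s)
  have p3 : 0 ≤ ∫ s in (b ^ 2 / 2)..(b ^ 2), lk a b s :=
    intervalIntegral.integral_nonneg (by nlinarith [sq_nonneg b]) (fun s _ => lk_nonneg ha s)
  have p2' : ∫ s in (2 * a ^ 2)..(b ^ 2 / 2), lk a b s = Real.log (b / (2 * a)) := by
    have hcongr : ∫ s in (2 * a ^ 2)..(b ^ 2 / 2), lk a b s =
        ∫ s in (2 * a ^ 2)..(b ^ 2 / 2), (1 / 2) * s⁻¹ := by
      apply intervalIntegral.integral_congr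
      intro s hs
      rw [uIcc_of_le h1] at hs
      obtain ⟨hs1, hs2⟩ := hs
      have ha2 : 0 < a ^ 2 := by positivity
      have hs0 : 0 < s := by nlinarith
      simp only [lk]
      rw [sg_of_one_le (y := (s - a ^ 2) / a ^ 2), sg_of_nonpos (y := (2 * s - b ^ 2) / b ^ 2),
        max_eq_left (by nlinarith)]
      · field_simp; norm_num
      · apply div_nonpos_of_nonpos_of_nonneg <;> [linarith; positivity]
      · rw [le_div_iff₀ ha2]; linarith
    rw [hcongr, intervalIntegral.integral_const_mul, integral_inv_of_pos (by positivity) (by positivity)]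
    have : b ^ 2 / 2 / (2 * a ^ 2) = (b / (2 * a)) ^ 2 := by field_simp; try ring
    rw [this, Real.log_pow]; push_cast; ring
  rw [e, p2']; linarith

end Pool.Agent.MP0c2
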