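import Mathlib

/-! Basic definitions for the counterexample to MP_0c2aee_an (planar obstacle problem), in `ℂ`. -/

set_option autoImplicit false

open MeasureTheory Set Metric

namespace Pool.Agent.MP0c2

/-- `u` is a `C¹` function with compact support contained in `U`. -/
structure IsT (U : Set ℂ) (u : ℂ → ℝ) : Prop where
  smooth : ContDiff ℝ 1 u
  cpt : HasCompactSupport u
  supp : tsupport u ⊆ U

/-- Dirichlet energy. -/
noncomputable def En (u : ℂ → ℝ) : ℝ := ∫ x, ‖fderiv ℝ u x‖ ^ 2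

/-- Mass. -/
noncomputable def Ma (u : ℂ → ℝ) : ℝ := ∫ x, u x ^ 2

/-- The Dirichlet eigenvalue of the frozen statement, for subsets of `ℂ`. -/
noncomputable def lam (U : Set ℂ) : ENNReal :=
  ⨅ (u : ℂ → ℝ) (_ : ContDiff ℝ 1 u ∧ HasCompactSupport u ∧ tsupport u ⊆ U ∧ u ≠ 0),
    ENNReal.ofReal ((∫ x, ‖fderiv ℝ u x‖ ^ 2) / (∫ x, u x ^ 2))

/-- Perimeter of the unit circle. -/
noncomputable def circ : ℝ := (μH[1] (sphere (0 : ℂ) 1)).toReal

end Pool.Agent.MP0c2
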