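import Pool.Agent.Lib.MP_0c2aee_an.DomDefs

/-! Elementary facts on the domain `Om E η w`. -/

set_option autoImplicit false

open MeasureTheory Set Metric Filter Topology
open scoped Pointwise

namespace Pool.Agent.MP0c2

theorem exists_goodE (s : ℝ) (hs : 0 < s) : ∃ (E : Finset ℂ) (d : ℝ), 0 < d ∧ GoodE E s d := by
  classical
  obtain ⟨t, htS, htf, hcov⟩ := (isCompact_sphere (0 : ℂ) 1).finite_cover_balls hs
  set E : Finset ℂ := htf.toFinset with hE
  have hunit : ∀ e ∈ E, ‖e‖ = 1 := by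
    intro e he
    have := htS (htf.mem_toFinset.1 he)
    simpa using this
  have hdense : ∀ u : ℂ, ‖u‖ = 1 → ∃ e ∈ E, ‖u - e‖ ≤ s := by
    intro u hu
    have hu' : u ∈ sphere (0 : ℂ) 1 := by simpa using hu
    have := hcov hu'
    simp only [mem_iUnion, mem_ball, dist_eq_norm] at this
    obtain ⟨e, he, hd⟩ := this
    exact ⟨e, htf.mem_toFinset.2 he, hd.le⟩
  by_cases hoff : E.offDiag.Nonempty
  · obtain ⟨p, hp, hmin⟩ := E.offDiag.exists_min_image (fun p => ‖p.1 - p.2‖) hoff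
    rw [Finset.mem_offDiag] at hp
    refine ⟨E, ‖p.1 - p.2‖, norm_pos_iff.2 (sub_ne_zero.2 hp.2.2), hunit, hdense, ?_⟩
    intro e he e' he' hne
    exact hmin (e, e') (Finset.mem_offDiag.2 ⟨he, he', hne⟩)
  · refine ⟨E, 1, one_pos, hunit, hdense, ?_⟩
    intro e he e' he' hne
    exact absurd ⟨(e, e'), Finset.mem_offDiag.2 ⟨he, he', hne⟩⟩ hoff

theorem cont_re (e : ℂ) : Continuous fun x : ℂ => (x * (starRingEnd ℂ) e).re :=
  Complex.continuous_re.comp (continuous_id.mul continuous_const)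

theorem cont_im (e : ℂ) : Continuous fun x : ℂ => (x * (starRingEnd ℂ) e).im :=
  Complex.continuous_im.comp (continuous_id.mul continuous_const)

theorem isOpen_sideA (E : Finset ℂ) : IsOpen (sideA E) := by
  have : sideA E = ⋃ e ∈ E, {x | |(x * (starRingEnd ℂ) e).im| < (x * (starRingEnd ℂ) e).re - 1} := by
    ext x; simp [sideA]
  rw [this]
  exact isOpen_biUnion fun e _ => isOpen_lt (cont_im e).abs ((cont_re e).sub continuous_const)

theorem isOpen_cham (E : Finset ℂ) : IsOpen (cham E) := by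
  have : cham E = ⋂ e ∈ E,
      {x | (x * (starRingEnd ℂ) e).re - |(x * (starRingEnd ℂ) e).im| / 2 < 1} := by
    ext x; simp [cham]
  rw [this]
  exact isOpen_biInter_finset fun e _ =>
    isOpen_lt ((cont_re e).sub ((cont_im e).abs.div_const 2)) continuous_const

theorem isOpen_doors (E : Finset ℂ) (w : ℝ) : IsOpen (doors E w) := by
  have : doors E w = ⋃ e ∈ E, {x | ‖x - e‖ < w} := by
    ext x; simp [doors]
  rw [this]
  exact isOpen_biUnion fun e _ => isOpen_lt (continuous_id.sub continuous_const).norm continuous_const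

theorem isOpen_Om (E : Finset ℂ) (η w : ℝ) : IsOpen (Om E η w) := by
  have : Om E η w = {x : ℂ | ‖x‖ < 1 + η} ∩ (sideA E ∪ (cham E ∪ doors E w)) := by
    ext x; simp [Om]
  rw [this]
  exact (isOpen_lt continuous_norm continuous_const).inter
    ((isOpen_sideA E).union ((isOpen_cham E).union (isOpen_doors E w)))

theorem norm_mul_conj {x e : ℂ} (he : ‖e‖ = 1) : ‖x * (starRingEnd ℂ) e‖ = ‖x‖ := by
  rw [norm_mul, RCLike.norm_conj, he, mul_one]

theorem re_le_norm' {x e : ℂ} (he : ‖e‖ = 1) : (x * (starRingEnd ℂ) e).re ≤ ‖x‖ := by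
  rw [← norm_mul_conj he]
  exact Complex.re_le_norm _

theorem abs_re_le_norm' {x e : ℂ} (he : ‖e‖ = 1) : |(x * (starRingEnd ℂ) e).re| ≤ ‖x‖ := by
  rw [← norm_mul_conj (x := x) he]
  exact Complex.abs_re_le_norm _

theorem abs_im_le_norm' {x e : ℂ} (he : ‖e‖ = 1) : |(x * (starRingEnd ℂ) e).im| ≤ ‖x‖ := by
  rw [← norm_mul_conj (x := x) he]
  exact Complex.abs_im_le_norm _

theorem sq_norm' {x e : ℂ} (he : ‖e‖ = 1) :
    (x * (starRingEnd ℂ) e).re ^ 2 + (x * (starRingEnd ℂ) e).im ^ 2 = ‖x‖ ^ 2 := by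
  rw [← norm_mul_conj (x := x) he, ← Complex.normSq_eq_norm_sq, Complex.normSq_apply]
  ring

theorem self_mul_conj {e : ℂ} (he : ‖e‖ = 1) : e * (starRingEnd ℂ) e = 1 := by
  rw [Complex.mul_conj, Complex.normSq_eq_norm_sq, he]; simp

/-- the coordinates of `x` with respect to a nearby unit vector -/
theorem near_unit {E : Finset ℂ} {s d : ℝ} (hE : GoodE E s d) {x : ℂ} (hx : x ≠ 0) :
    ∃ e ∈ E, ‖x‖ * (1 - s ^ 2 / 2) ≤ (x * (starRingEnd ℂ) e).re ∧
      |(x * (starRingEnd ℂ) e).im| ≤ ‖x‖ * s := by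
  have hn : 0 < ‖x‖ := norm_pos_iff.2 hx
  set u : ℂ := x / (‖x‖ : ℂ) with hu
  have hu1 : ‖u‖ = 1 := by
    rw [hu, norm_div, Complex.norm_real, norm_norm, div_self hn.ne']
  obtain ⟨e, he, hd⟩ := hE.dense u hu1
  have he1 := hE.unit e he
  have hxu : x = (‖x‖ : ℂ) * u := by
    rw [hu]
    have : (‖x‖ : ℂ) ≠ 0 := by exact_mod_cast hn.ne'
    field_simp
  have hs : 0 ≤ s := (norm_nonneg _).trans hd
  set v : ℂ := u * (starRingEnd ℂ) e with hv
  have hv1 : ‖v‖ = 1 := by rw [hv, norm_mul_conj he1, hu1]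
  have hv2 : ‖v - 1‖ ≤ s := by
    have : v - 1 = (u - e) * (starRingEnd ℂ) e := by
      rw [sub_mul, self_mul_conj he1]
    rw [this, norm_mul_conj he1]
    exact hd
  have h1 : v.re ^ 2 + v.im ^ 2 = 1 := by
    have := Complex.normSq_eq_norm_sq v
    rw [Complex.normSq_apply, hv1] at this
    nlinarith
  have h2 : (v.re - 1) ^ 2 + v.im ^ 2 ≤ s ^ 2 := by
    have h3 := Complex.normSq_eq_norm_sq (v - 1)
    rw [Complex.normSq_apply] at h3
    simp only [Complex.sub_re, Complex.sub_im, Complex.one_re, Complex.one_im, sub_zero] at h3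
    have h4 : ‖v - 1‖ ^ 2 ≤ s ^ 2 := by
      have := norm_nonneg (v - 1)
      gcongr
    nlinarith
  have hxe : x * (starRingEnd ℂ) e = (‖x‖ : ℂ) * v := by
    rw [hv, ← mul_assoc, ← hxu]
  refine ⟨e, he, ?_, ?_⟩
  · rw [hxe, Complex.re_ofReal_mul]
    exact mul_le_mul_of_nonneg_left (by nlinarith) hn.le
  · rw [hxe, Complex.im_ofReal_mul, abs_mul, abs_of_pos hn]
    refine mul_le_mul_of_nonneg_left ?_ hn.le
    refine abs_le_of_sq_le_sq ?_ hs
    nlinarith [sq_nonneg (v.re - 1)]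

theorem sideA_norm {E : Finset ℂ} {s d : ℝ} (hE : GoodE E s d) {x : ℂ} (hx : x ∈ sideA E) :
    1 < ‖x‖ := by
  obtain ⟨e, he, h⟩ := hx
  have h1 := re_le_norm' (x := x) (hE.unit e he)
  have h2 := abs_nonneg (x * (starRingEnd ℂ) e).im
  linarith

theorem sideA_of_norm {E : Finset ℂ} {s d : ℝ} (hE : GoodE E s d) (hs : 0 < s) (hs1 : s ≤ 1 / 10) {x : ℂ}
    (hx : 1 + 2 * s < ‖x‖) : x ∈ sideA E := by
  have hx0 : x ≠ 0 := by
    rintro rfl
    rw [norm_zero] at hx
    linarith
  obtain ⟨e, he, h1, h2⟩ := near_unit hE hx0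
  refine ⟨e, he, ?_⟩
  have h3 : 1 < ‖x‖ * (1 - s ^ 2 / 2 - s) := by
    have h4 : 0 < 1 - s ^ 2 / 2 - s := by nlinarith
    have h5 : (1 + 2 * s) * (1 - s ^ 2 / 2 - s) < ‖x‖ * (1 - s ^ 2 / 2 - s) :=
      mul_lt_mul_of_pos_right hx h4
    nlinarith [mul_pos hs hs, mul_pos hs (mul_pos hs hs)]
  linarith

theorem cham_norm {E : Finset ℂ} {s d : ℝ} (hE : GoodE E s d) (hs : 0 < s) (hs1 : s ≤ 1 / 10) {x : ℂ}
    (hx : x ∈ cham E) : ‖x‖ < 1 + s := by
  by_contra hcon
  have hcon := not_lt.1 hcon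
  have hx0 : x ≠ 0 := by
    rintro rfl
    rw [norm_zero] at hcon
    linarith
  obtain ⟨e, he, h1, h2⟩ := near_unit hE hx0
  have h := hx e he
  have h4 : 0 < 1 - s ^ 2 / 2 - s / 2 := by nlinarith
  have h5 : (1 + s) * (1 - s ^ 2 / 2 - s / 2) ≤ ‖x‖ * (1 - s ^ 2 / 2 - s / 2) :=
    mul_le_mul_of_nonneg_right hcon h4.le
  nlinarith [mul_pos hs hs, mul_pos hs (mul_pos hs hs)]

theorem cham_of_norm {E : Finset ℂ} {s d : ℝ} (hE : GoodE E s d) {x : ℂ} (hx : ‖x‖ < 1) :
    x ∈ cham E := by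
  intro e he
  have h1 := re_le_norm' (x := x) (hE.unit e he)
  have h2 := abs_nonneg (x * (starRingEnd ℂ) e).im
  linarith

theorem disj_sideA_cham (E : Finset ℂ) {x : ℂ} (hx : x ∈ sideA E) : x ∉ cham E := by
  intro h
  obtain ⟨e, he, h1⟩ := hx
  have h2 := h e he
  have h3 := abs_nonneg (x * (starRingEnd ℂ) e).im
  linarith

/-- near the tip `e` the sides are decided by the tip `e` alone -/
theorem local_sideA {E : Finset ℂ} {s d : ℝ} (hE : GoodE E s d) (hd : 0 ≤ d) {e x : ℂ} (he : e ∈ E)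
    (hx : 4 * ‖x - e‖ < d ^ 2) :
    x ∈ sideA E ↔ |(x * (starRingEnd ℂ) e).im| < (x * (starRingEnd ℂ) e).re - 1 := by
  constructor
  · rintro ⟨e', he', h⟩
    by_cases hee : e' = e
    · rwa [hee] at h
    · exfalso
      have h1 := hE.sep e he e' he' (Ne.symm hee)
      have he1 := hE.unit e he
      have he1' := hE.unit e' he'
      have h2 : (e * (starRingEnd ℂ) e').re ≤ 1 - d ^ 2 / 2 := by
        have h3 : ‖e - e'‖ ^ 2 = 2 - 2 * (e * (starRingEnd ℂ) e').re := by
          rw [← Complex.normSq_eq_norm_sq, Complex.normSq_sub, Complex.normSq_eq_norm_sq,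
            Complex.normSq_eq_norm_sq, he1, he1']
          ring
        have h4 : d ^ 2 ≤ ‖e - e'‖ ^ 2 := by gcongr
        linarith
      have h5 : (x * (starRingEnd ℂ) e').re ≤ (e * (starRingEnd ℂ) e').re + ‖x - e‖ := by
        have h6 := re_le_norm' (x := x - e) he1'
        rw [sub_mul, Complex.sub_re] at h6
        linarith
      have h7 := abs_nonneg (x * (starRingEnd ℂ) e').im
      have h8 := norm_nonneg (x - e)
      linarith
  · intro h
    exact ⟨e, he, h⟩

theorem isConnected_Om {E : Finset ℂ} {s d : ℝ} (hE : GoodE E s d) (η w : ℝ) (hη : 0 < η) (hw : 0 < w)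
    (hs : 0 < s) (hs1 : s ≤ 1 / 10) (hsη : s ≤ η) (hwη : w ≤ η) : IsConnected (Om E η w) := by
  set B : Set ℂ := {x : ℂ | ‖x‖ < 1 + η} with hB
  have hBball : B = ball (0 : ℂ) (1 + η) := by ext x; simp [hB]
  have hBc : Convex ℝ B := by rw [hBball]; exact convex_ball _ _
  have h0cham : (0 : ℂ) ∈ cham E := cham_of_norm hE (by simp)
  have h0B : (0 : ℂ) ∈ B := by simp [hB]; linarith
  -- the chamber is star shaped
  have hcham : IsPreconnected (cham E ∩ B) := by
    have hstar : StarConvex ℝ (0 : ℂ) (cham E ∩ B) := by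
      refine StarConvex.inter ?_ (hBc.starConvex h0B)
      intro x hx a b ha hb hab
      rw [smul_zero, zero_add]
      intro e he
      have h1 := hx e he
      have h2 : (b • x) * (starRingEnd ℂ) e = (b : ℂ) * (x * (starRingEnd ℂ) e) := by
        rw [Complex.real_smul]; ring
      rw [h2, Complex.re_ofReal_mul, Complex.im_ofReal_mul, abs_mul, abs_of_nonneg hb]
      have hb1 : b ≤ 1 := by linarith
      rcases hb.eq_or_lt with h0 | h0
      · rw [← h0]; simp
      · have := mul_lt_mul_of_pos_left h1 h0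
        linarith
    exact (hstar.isPathConnected ⟨h0cham, h0B⟩).isConnected.isPreconnected
  -- one tip
  set D : ℂ → Set ℂ := fun e =>
    (cham E ∩ B) ∪ (ball e w ∪ ({x | |(x * (starRingEnd ℂ) e).im| < (x * (starRingEnd ℂ) e).re - 1} ∩ B))
    with hD
  have hball : ∀ e ∈ E, ball e w ⊆ B := by
    intro e he x hx
    rw [mem_ball, dist_eq_norm] at hx
    have : ‖x‖ ≤ ‖x - e‖ + ‖e‖ := by
      calc ‖x‖ = ‖(x - e) + e‖ := by ring_nf
        _ ≤ _ := norm_add_le _ _
    rw [hE.unit e he] at this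
    simp only [hB, mem_ofPred_eq]
    linarith
  have hDc : ∀ e ∈ E, IsPreconnected (D e) := by
    intro e he
    have he1 := hE.unit e he
    set W : Set ℂ := {x | |(x * (starRingEnd ℂ) e).im| < (x * (starRingEnd ℂ) e).re - 1} with hW
    have hWc : Convex ℝ W := by
      intro x hx y hy a b ha hb hab
      simp only [hW, mem_ofPred_eq] at hx hy ⊢
      have h2 : (a • x + b • y) * (starRingEnd ℂ) e
          = (a : ℂ) * (x * (starRingEnd ℂ) e) + (b : ℂ) * (y * (starRingEnd ℂ) e) := by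
        rw [Complex.real_smul, Complex.real_smul]; ring
      rw [h2, Complex.add_re, Complex.add_im, Complex.re_ofReal_mul, Complex.re_ofReal_mul,
        Complex.im_ofReal_mul, Complex.im_ofReal_mul]
      set p := (x * (starRingEnd ℂ) e).re
      set p' := (x * (starRingEnd ℂ) e).im
      set q := (y * (starRingEnd ℂ) e).re
      set q' := (y * (starRingEnd ℂ) e).im
      have h3 : |a * p' + b * q'| ≤ a * |p'| + b * |q'| := by
        refine (abs_add_le _ _).trans ?_
        rw [abs_mul, abs_mul, abs_of_nonneg ha, abs_of_nonneg hb]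
      have h4 : a * |p'| + b * |q'| < a * (p - 1) + b * (q - 1) := by
        rcases ha.eq_or_lt with h | h
        · have hb1 : b = 1 := by linarith
          rw [← h, hb1]
          linarith
        · have h5 : a * |p'| < a * (p - 1) := mul_lt_mul_of_pos_left hx h
          have h6 : b * |q'| ≤ b * (q - 1) := mul_le_mul_of_nonneg_left hy.le hb
          linarith
      have h7 : a * (p - 1) + b * (q - 1) = a * p + b * q - 1 := by
        linear_combination -hab
      linarith
    have hWB : IsPreconnected (W ∩ B) := (hWc.inter hBc).isPreconnected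
    have hbl : IsPreconnected (ball e w) := (convex_ball e w).isPreconnected
    set t := min w η / 2 with ht
    have hm : 0 < min w η := lt_min hw hη
    have ht0 : 0 < t := by positivity
    have htw : t < w := by
      have := min_le_left w η
      linarith
    have htη : t < η := by
      have := min_le_right w η
      linarith
    have hp1 : ((1 + t : ℝ) : ℂ) * e ∈ ball e w := by
      rw [mem_ball, dist_eq_norm]
      have : ((1 + t : ℝ) : ℂ) * e - e = ((t : ℝ) : ℂ) * e := by push_cast; ring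
      rw [this, norm_mul, he1, mul_one, Complex.norm_real, Real.norm_of_nonneg ht0.le]
      exact htw
    have hp2 : ((1 + t : ℝ) : ℂ) * e ∈ W ∩ B := by
      constructor
      · simp only [hW, mem_ofPred_eq]
        rw [mul_assoc, self_mul_conj he1, mul_one, Complex.ofReal_im, Complex.ofReal_re, abs_zero]
        linarith
      · exact hball e he hp1
    have hq1 : e ∈ ball e w := mem_ball_self hw
    have hu1 : IsPreconnected (ball e w ∪ (W ∩ B)) :=
      IsPreconnected.union _ hp1 hp2 hbl hWB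
    have hr : t < 1 ∨ 1 ≤ t := lt_or_ge t 1
    -- a point in both the chamber and the door
    set r := min (w / 2) (1 / 2) with hr
    have hr0 : 0 < r := lt_min (by positivity) (by norm_num)
    have hr1 : r ≤ w / 2 := min_le_left _ _
    have hr2 : r ≤ 1 / 2 := min_le_right _ _
    have hq2 : ((1 - r : ℝ) : ℂ) * e ∈ ball e w := by
      rw [mem_ball, dist_eq_norm]
      have : ((1 - r : ℝ) : ℂ) * e - e = ((-r : ℝ) : ℂ) * e := by push_cast; ring
      rw [this, norm_mul, he1, mul_one, Complex.norm_real, norm_neg, Real.norm_of_nonneg hr0.le]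
      linarith
    have hq3 : ((1 - r : ℝ) : ℂ) * e ∈ cham E := by
      apply cham_of_norm hE
      rw [norm_mul, he1, mul_one, Complex.norm_real, Real.norm_of_nonneg (by linarith)]
      linarith
    exact IsPreconnected.union _ ⟨hq3, hball e he hq2⟩ (Or.inl hq2) hcham hu1
  have hOm : Om E η w = ⋃₀ (D '' (E : Set ℂ)) := by
    obtain ⟨e0, he0, -⟩ := hE.dense 1 (by simp)
    ext x
    simp only [mem_sUnion, mem_image, Finset.mem_coe, exists_exists_and_eq_and]
    constructor
    · rintro ⟨hx, h | h | h⟩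
      · obtain ⟨e, he, h'⟩ := h
        exact ⟨e, he, Or.inr (Or.inr ⟨h', hx⟩)⟩
      · exact ⟨e0, he0, Or.inl ⟨h, hx⟩⟩
      · obtain ⟨e, he, h'⟩ := h
        exact ⟨e, he, Or.inr (Or.inl (by rwa [mem_ball, dist_eq_norm]))⟩
    · rintro ⟨e, he, h | h | h⟩
      · exact ⟨h.2, Or.inr (Or.inl h.1)⟩
      · refine ⟨hball e he h, Or.inr (Or.inr ⟨e, he, ?_⟩)⟩
        rwa [mem_ball, dist_eq_norm] at h
      · exact ⟨h.2, Or.inl ⟨e, he, h.1⟩⟩
  refine ⟨⟨0, ?_⟩, ?_⟩
  · exact ⟨h0B, Or.inr (Or.inl h0cham)⟩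
  · rw [hOm]
    refine isPreconnected_sUnion 0 _ ?_ ?_
    · rintro _ ⟨e, he, rfl⟩
      exact Or.inl ⟨h0cham, h0B⟩
    · rintro _ ⟨e, he, rfl⟩
      exact hDc e he

theorem sphere_subset_frontier {E : Finset ℂ} {s d : ℝ} (hE : GoodE E s d) (η w : ℝ) (hη : 0 < η) 
    (hs : 0 < s) (hs1 : s ≤ 1 / 10) (hsη : 2 * s < η) : sphere (0 : ℂ) (1 + η) ⊆ frontier (Om E η w) := by
  intro x hx
  rw [mem_sphere_zero_iff_norm] at hx
  rw [(isOpen_Om E η w).frontier_eq]
  refine ⟨?_, fun h => ?_⟩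
  · have hcont : Continuous (fun t : ℝ => (t : ℂ) * x) := by fun_prop
    set a := (1 + 2 * s) / (1 + η) with ha
    have hη1 : 0 < 1 + η := by linarith
    have ha1 : a < 1 := by rw [ha, div_lt_one hη1]; linarith
    have ha0 : 0 < a := by positivity
    have h1 : (1 : ℝ) ∈ closure (Ioo a 1) := by
      rw [closure_Ioo ha1.ne]; exact ⟨ha1.le, le_rfl⟩
    have h2 : Ioo a 1 ⊆ (fun t : ℝ => (t : ℂ) * x) ⁻¹' (Om E η w) := by
      intro t ht
      have ht0 : 0 < t := ha0.trans ht.1
      have hn : ‖(t : ℂ) * x‖ = t * (1 + η) := by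
        rw [norm_mul, Complex.norm_real, Real.norm_of_nonneg ht0.le, hx]
      refine ⟨?_, Or.inl (sideA_of_norm hE hs hs1 ?_)⟩
      · rw [hn]
        nlinarith [ht.2]
      · rw [hn]
        have := (div_lt_iff₀ hη1).1 ht.1
        exact this
    have h3 := hcont.closure_preimage_subset (Om E η w) (closure_mono h2 h1)
    simpa using h3
  · have := h.1
    rw [hx] at this
    exact lt_irrefl _ this

end Pool.Agent.MP0c2
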