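import Pool.Agent.Lib.MP_0c2aee_an.Perim

/-! Blaschke selection and lower semicontinuity of `lam` : existence of limits of admissible
obstacles staying away from the boundary. -/

set_option autoImplicit false

open MeasureTheory Set Metric Filter Topology
open scoped Pointwise Manifold ContDiff

namespace Pool.Agent.MP0c2

theorem blaschke (R : ℝ) (K : ℕ → Set ℂ) (hcl : ∀ n, IsClosed (K n)) (hcv : ∀ n, Convex ℝ (K n))
    (hne : ∀ n, (K n).Nonempty) (hR : ∀ n, K n ⊆ closedBall 0 R) :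
    ∃ K' : Set ℂ, ∃ φ : ℕ → ℕ, StrictMono φ ∧ IsClosed K' ∧ Convex ℝ K' ∧ K'.Nonempty ∧
      K' ⊆ closedBall 0 R ∧
      ∀ ε > 0, ∀ᶠ n in atTop, (∀ x ∈ K (φ n), ∃ y ∈ K', dist x y ≤ ε) ∧
        (∀ y ∈ K', ∃ x ∈ K (φ n), dist y x ≤ ε) := by
  let x : ℕ → TopologicalSpace.NonemptyCompacts (closedBall (0:ℂ) R) := fun n =>
    ⟨⟨Subtype.val ⁻¹' K n, ((hcl n).preimage continuous_subtype_val).isCompact⟩, by
      obtain ⟨y, hy⟩ := hne n
      exact ⟨⟨y, hR n hy⟩, hy⟩⟩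
  obtain ⟨a, φ, hφ, hlim⟩ := CompactSpace.tendsto_subseq x
  set K' : Set ℂ := Subtype.val '' (a : Set (closedBall (0:ℂ) R)) with hK'
  have hcpt : IsCompact K' := a.isCompact.image continuous_subtype_val
  have hclose : ∀ ε > 0, ∀ᶠ n in atTop, (∀ x ∈ K (φ n), ∃ y ∈ K', dist x y ≤ ε) ∧
        (∀ y ∈ K', ∃ x ∈ K (φ n), dist y x ≤ ε) := by
    intro ε hε
    have h1 := (tendsto_iff_dist_tendsto_zero.1 hlim).eventually (gt_mem_nhds hε)
    filter_upwards [h1] with n hn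
    have h2 : hausdorffDist ((x (φ n) : Set (closedBall (0:ℂ) R))) a < ε := hn
    have hfin : hausdorffEDist ((x (φ n) : Set (closedBall (0:ℂ) R))) a ≠ ⊤ :=
      hausdorffEDist_ne_top_of_nonempty_of_bounded (x (φ n)).nonempty a.nonempty
        (x (φ n)).isCompact.isBounded a.isCompact.isBounded
    constructor
    · intro y hy
      obtain ⟨z, hz, hd⟩ := exists_dist_lt_of_hausdorffDist_lt
        (x := (⟨y, hR _ hy⟩ : closedBall (0:ℂ) R)) (s := (x (φ n) : Set (closedBall (0:ℂ) R)))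
        (t := (a : Set (closedBall (0:ℂ) R))) hy h2 hfin
      exact ⟨z, ⟨z, hz, rfl⟩, hd.le⟩
    · rintro _ ⟨y, hy, rfl⟩
      obtain ⟨z, hz, hd⟩ := exists_dist_lt_of_hausdorffDist_lt' hy h2 hfin
      refine ⟨z, hz, ?_⟩
      rw [dist_comm]
      exact hd.le
  refine ⟨K', φ, hφ, hcpt.isClosed, ?_, a.nonempty.image _, ?_, hclose⟩
  · intro y1 hy1 y2 hy2 α β hα hβ hαβ
    rw [← hcpt.isClosed.closure_eq, Metric.mem_closure_iff]
    intro ε hε
    obtain ⟨n, hn1, hn2⟩ := (hclose (ε / 3) (by positivity)).exists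
    obtain ⟨x1, hx1, hd1⟩ := hn2 y1 hy1
    obtain ⟨x2, hx2, hd2⟩ := hn2 y2 hy2
    obtain ⟨z, hz, hd⟩ := hn1 _ (hcv (φ n) hx1 hx2 hα hβ hαβ)
    refine ⟨z, hz, ?_⟩
    have e : dist (α • y1 + β • y2) (α • x1 + β • x2) ≤ ε / 3 := by
      rw [dist_eq_norm] at hd1 hd2 ⊢
      have : α • y1 + β • y2 - (α • x1 + β • x2) = α • (y1 - x1) + β • (y2 - x2) := by
        simp only [smul_sub]; ring
      rw [this]
      calc ‖α • (y1 - x1) + β • (y2 - x2)‖ ≤ ‖α • (y1 - x1)‖ + ‖β • (y2 - x2)‖ := norm_add_le _ _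
        _ = α * ‖y1 - x1‖ + β * ‖y2 - x2‖ := by
          rw [norm_smul, norm_smul, Real.norm_of_nonneg hα, Real.norm_of_nonneg hβ]
        _ ≤ α * (ε / 3) + β * (ε / 3) := by gcongr
        _ = ε / 3 := by rw [← add_mul, hαβ, one_mul]
    calc dist (α • y1 + β • y2) z ≤ dist (α • y1 + β • y2) (α • x1 + β • x2)
          + dist (α • x1 + β • x2) z := dist_triangle _ _ _
      _ ≤ ε / 3 + ε / 3 := add_le_add e hd
      _ < ε := by linarith
  · rintro _ ⟨y, hy, rfl⟩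
    exact y.2

theorem sandwich {A B : Set ℂ} {h d : ℝ} (hh : 0 < h) (hd : 0 < d) (hB : Convex ℝ B)
    (hcore : closedBall 0 h ⊆ B) (hAB : ∀ x ∈ A, ∃ y ∈ B, dist x y ≤ d) :
    A ⊆ (1 + d / h) • B := by
  intro x hx
  obtain ⟨y, hy, hxy⟩ := hAB x hx
  rw [hB.add_smul zero_le_one (by positivity), one_smul]
  refine ⟨y, hy, x - y, ?_, by ring⟩
  refine ⟨(h / d) • (x - y), hcore ?_, ?_⟩
  · rw [mem_closedBall_zero_iff, norm_smul, Real.norm_of_nonneg (by positivity), ← dist_eq_norm]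
    calc h / d * dist x y ≤ h / d * d := by gcongr
      _ = h := by field_simp
  · simp only
    rw [smul_smul]
    have : d / h * (h / d) = 1 := by field_simp
    rw [this, one_smul]

/-- The key estimate for a change of variables close to the identity. -/
theorem det_near (ε : ℝ) (hε : 0 < ε) : ∃ δ > 0, ∀ A : ℂ →L[ℝ] ℂ,
    ‖A - ContinuousLinearMap.id ℝ ℂ‖ ≤ δ → 1 - ε ≤ |A.det| ∧ |A.det| ≤ 1 + ε := by
  have hc : Continuous (fun A : ℂ →L[ℝ] ℂ => A.det) := ContinuousLinearMap.continuous_det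
  have h1 := Metric.continuous_iff.1 hc (ContinuousLinearMap.id ℝ ℂ) ε hε
  obtain ⟨δ, hδ, h2⟩ := h1
  refine ⟨δ / 2, by positivity, fun A hA => ?_⟩
  have h3 := h2 A (by rw [dist_eq_norm]; linarith)
  rw [Real.dist_eq] at h3
  have h4 : (ContinuousLinearMap.id ℝ ℂ).det = 1 := by
    simp [ContinuousLinearMap.det]
  rw [h4] at h3
  have h5 := abs_lt.1 h3
  have h6 : A.det ≤ |A.det| := le_abs_self _
  constructor
  · linarith
  · have h7 : |A.det| ≤ |A.det - 1| + |(1:ℝ)| := by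
      have := abs_add_le (A.det - 1) 1
      simpa using this
    rw [abs_one] at h7
    linarith

theorem Ma_pos {u : ℂ → ℝ} (h1 : ContDiff ℝ 1 u) (h2 : HasCompactSupport u) (h0 : u ≠ 0) :
    0 < ∫ x, u x ^ 2 := by
  obtain ⟨x, hx⟩ := Function.ne_iff.1 h0
  refine Continuous.integral_pos_of_hasCompactSupport_nonneg_nonzero (f := fun x => u x ^ 2) (x := x)
    (h1.continuous.pow 2) ?_ (fun x => sq_nonneg _) (pow_ne_zero 2 hx)
  exact h2.comp_left (g := fun t : ℝ => t ^ 2) (by norm_num)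

theorem exists_cutoff {Ω K' : Set ℂ} (hΩ : IsOpen Ω) (hK : IsCompact K') (hKΩ : K' ⊆ Ω) :
    ∃ χ : ℂ → ℝ, ContDiff ℝ 1 χ ∧ HasCompactSupport χ ∧ tsupport χ ⊆ Ω ∧ ∀ x ∈ K', χ x = 1 := by
  obtain ⟨L, hL, hKL, hLΩ⟩ := exists_compact_between hK hΩ hKΩ
  obtain ⟨f, hf1, hf0, -⟩ := exists_contMDiffMap_one_nhds_of_subset_interior (n := 1) 𝓘(ℝ, ℂ)
    hK.isClosed hKL
  have hsupp : Function.support f ⊆ L := by
    intro x hx
    by_contra hxL
    exact hx (hf0 x hxL)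
  have hts : tsupport f ⊆ L := closure_minimal hsupp hL.isClosed
  refine ⟨f, f.contMDiff.contDiff, ?_, hts.trans hLΩ, fun x hx => hf1.self_of_nhdsSet x hx⟩
  exact HasCompactSupport.of_support_subset_isCompact hL hsupp

/-- Change of variables close to the identity. -/
theorem change_var {ε C : ℝ} (hε : 0 < ε) (hε1 : ε ≤ 1 / 4) {G : ℂ → ℂ} (hG : ContDiff ℝ 1 G)
    (hGc : HasCompactSupport G) {δ s : ℝ} (hδε : δ ≤ ε) (hs0 : 0 ≤ s)
    (hdet : ∀ A : ℂ →L[ℝ] ℂ, ‖A - ContinuousLinearMap.id ℝ ℂ‖ ≤ δ → 1 - ε ≤ |A.det| ∧ |A.det| ≤ 1 + ε)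
    (hC : ∀ x, ‖fderiv ℝ G x‖ ≤ C) (hsC : s * C ≤ δ) {u : ℂ → ℝ} (h1 : ContDiff ℝ 1 u)
    (h2 : HasCompactSupport u) :
    let F : ℂ → ℂ := fun x => x - s • G x
    let v : ℂ → ℝ := fun x => u (F x)
    ContDiff ℝ 1 v ∧ HasCompactSupport v ∧ tsupport v ⊆ F ⁻¹' tsupport u ∧ Function.Surjective F ∧
      (∫ x, ‖fderiv ℝ v x‖ ^ 2) ≤ (1 + ε) ^ 2 / (1 - ε) * (∫ x, ‖fderiv ℝ u x‖ ^ 2) ∧
      (∫ x, u x ^ 2) ≤ (1 + ε) * (∫ x, v x ^ 2) := by
  intro F v
  have hC0 : 0 ≤ C := (norm_nonneg _).trans (hC 0)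
  have hF1 : ContDiff ℝ 1 F := contDiff_id.sub (hG.const_smul s)
  have hFc : Continuous F := hF1.continuous
  have hGd : ∀ x, HasFDerivAt G (fderiv ℝ G x) x := fun x =>
    (hG.differentiable (by norm_num) x).hasFDerivAt
  have hud : ∀ x, HasFDerivAt u (fderiv ℝ u x) x := fun x =>
    (h1.differentiable (by norm_num) x).hasFDerivAt
  set F' : ℂ → ℂ →L[ℝ] ℂ := fun x => ContinuousLinearMap.id ℝ ℂ - s • fderiv ℝ G x with hF'
  have hFd : ∀ x, HasFDerivAt F (F' x) x := fun x => (hasFDerivAt_id x).sub ((hGd x).const_smul s)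
  have hF'c : Continuous F' := continuous_const.sub ((hG.continuous_fderiv (by norm_num)).const_smul s)
  have hnear : ∀ x, ‖F' x - ContinuousLinearMap.id ℝ ℂ‖ ≤ δ := by
    intro x
    have : F' x - ContinuousLinearMap.id ℝ ℂ = -(s • fderiv ℝ G x) := by rw [hF']; simp
    rw [this, norm_neg, norm_smul, Real.norm_of_nonneg hs0]
    exact (mul_le_mul_of_nonneg_left (hC x) hs0).trans hsC
  have hF'n : ∀ x, ‖F' x‖ ≤ 1 + ε := by
    intro x
    calc ‖F' x‖ = ‖(F' x - ContinuousLinearMap.id ℝ ℂ) + ContinuousLinearMap.id ℝ ℂ‖ := by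
          rw [sub_add_cancel]
      _ ≤ ‖F' x - ContinuousLinearMap.id ℝ ℂ‖ + ‖ContinuousLinearMap.id ℝ ℂ‖ := norm_add_le _ _
      _ ≤ δ + 1 := add_le_add (hnear x) ContinuousLinearMap.norm_id_le
      _ ≤ 1 + ε := by linarith
  -- Lipschitz constant of s • G
  have hlip : LipschitzWith (Real.toNNReal δ) (fun x => s • G x) := by
    refine lipschitzWith_of_nnnorm_fderiv_le (𝕜 := ℝ) (fun x => ((hGd x).const_smul s).differentiableAt)
      (fun x => ?_)
    have hfs : fderiv ℝ (fun x => s • G x) x = s • fderiv ℝ G x := ((hGd x).const_smul s).fderiv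
    rw [hfs]
    rw [← NNReal.coe_le_coe, coe_nnnorm, norm_smul, Real.norm_of_nonneg hs0, Real.coe_toNNReal']
    exact (mul_le_mul_of_nonneg_left (hC x) hs0).trans (hsC.trans (le_max_left _ _))
  have hδ0 : 0 ≤ δ := (mul_nonneg hs0 hC0).trans hsC
  have hδ1 : Real.toNNReal δ < 1 := by
    rw [← NNReal.coe_lt_coe, Real.coe_toNNReal δ hδ0]
    push_cast
    linarith
  have hinj : Function.Injective F := by
    intro x y hxy
    have h3 : x - y = s • G x - s • G y := by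
      have : x - s • G x = y - s • G y := hxy
      linear_combination this
    have h4 := hlip.dist_le_mul x y
    rw [dist_eq_norm, dist_eq_norm, ← h3, Real.coe_toNNReal δ hδ0] at h4
    have h5 : ‖x - y‖ = 0 := by
      have := norm_nonneg (x - y)
      nlinarith
    exact sub_eq_zero.1 (norm_eq_zero.1 h5)
  have hsurj : Function.Surjective F := by
    intro y
    have hcon : ContractingWith (Real.toNNReal δ) (fun x => y + s • G x) := by
      refine ⟨hδ1, ?_⟩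
      refine LipschitzWith.of_dist_le_mul fun a b => ?_
      have := hlip.dist_le_mul a b
      simpa [dist_eq_norm] using this
    refine ⟨hcon.fixedPoint, ?_⟩
    have := hcon.fixedPoint_isFixedPt
    have h3 : y + s • G hcon.fixedPoint = hcon.fixedPoint := this
    change hcon.fixedPoint - s • G hcon.fixedPoint = y
    nth_rewrite 1 [← h3]
    ring
  have hv1 : ContDiff ℝ 1 v := h1.comp hF1
  -- compact support of anything composed with F
  have hcs : ∀ w : ℂ → ℝ, HasCompactSupport w → HasCompactSupport (fun x => w (F x)) := by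
    intro w hw
    refine HasCompactSupport.of_support_subset_isCompact (hw.isCompact.union hGc.isCompact) ?_
    intro x hx
    by_cases hxG : x ∈ tsupport G
    · right; exact hxG
    · left
      have hG0 : G x = 0 := image_eq_zero_of_notMem_tsupport hxG
      have : F x = x := by change x - s • G x = x; rw [hG0]; simp
      rw [Function.mem_support, this] at hx
      exact subset_tsupport _ hx
  have hv2 : HasCompactSupport v := hcs u h2
  have hts : tsupport v ⊆ F ⁻¹' tsupport u := by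
    refine closure_minimal ?_ ((isClosed_tsupport u).preimage hFc)
    intro x hx
    exact subset_tsupport u hx
  -- change of variables
  have hcv : ∀ w : ℂ → ℝ, ∫ x, w x = ∫ x, |(F' x).det| * w (F x) := by
    intro w
    have := integral_image_eq_integral_abs_det_fderiv_smul (μ := volume) MeasurableSet.univ
      (fun x _ => (hFd x).hasFDerivWithinAt) hinj.injOn w
    rw [image_univ, hsurj.range_eq] at this
    simpa using this
  have hdc : Continuous (fun x => |(F' x).det|) :=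
    (ContinuousLinearMap.continuous_det.comp hF'c).abs
  refine ⟨hv1, hv2, hts, hsurj, ?_, ?_⟩
  · set w : ℂ → ℝ := fun x => ‖fderiv ℝ u x‖ ^ 2 with hw
    have hwc : Continuous w := ((h1.continuous_fderiv (by norm_num)).norm).pow 2
    have hws : HasCompactSupport w := (h2.fderiv ℝ).comp_left (g := fun A => ‖A‖ ^ 2) (by simp)
    rw [hcv w, ← integral_const_mul]
    refine integral_mono_of_nonneg (Eventually.of_forall fun x => by positivity) ?_
      (Eventually.of_forall fun x => ?_)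
    · refine Integrable.const_mul ?_ _
      exact (hdc.mul (hwc.comp hFc)).integrable_of_hasCompactSupport ((hcs w hws).mul_left)
    · have hfd : fderiv ℝ v x = (fderiv ℝ u (F x)).comp (F' x) := ((hud (F x)).comp x (hFd x)).fderiv
      simp only
      rw [hfd]
      have hn : ‖(fderiv ℝ u (F x)).comp (F' x)‖ ≤ ‖fderiv ℝ u (F x)‖ * (1 + ε) :=
        (ContinuousLinearMap.opNorm_comp_le _ _).trans (by gcongr; exact hF'n x)
      have hd := (hdet _ (hnear x)).1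
      have hw0 : 0 ≤ w (F x) := by positivity
      calc ‖(fderiv ℝ u (F x)).comp (F' x)‖ ^ 2 ≤ (‖fderiv ℝ u (F x)‖ * (1 + ε)) ^ 2 := by gcongr
        _ = (1 + ε) ^ 2 * w (F x) := by rw [hw]; ring
        _ = (1 + ε) ^ 2 / (1 - ε) * ((1 - ε) * w (F x)) := by
            have : 1 - ε ≠ 0 := by linarith
            field_simp
        _ ≤ (1 + ε) ^ 2 / (1 - ε) * (|(F' x).det| * w (F x)) := by
            have : 0 ≤ (1 + ε) ^ 2 / (1 - ε) := div_nonneg (by positivity) (by linarith)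
            gcongr
  · set w : ℂ → ℝ := fun x => u x ^ 2 with hw
    have hwc : Continuous w := h1.continuous.pow 2
    have hws : HasCompactSupport w := h2.comp_left (g := fun t : ℝ => t ^ 2) (by norm_num)
    rw [hcv w, ← integral_const_mul]
    refine integral_mono_of_nonneg (Eventually.of_forall fun x => by positivity) ?_
      (Eventually.of_forall fun x => ?_)
    · refine Integrable.const_mul ?_ _
      exact (hwc.comp hFc).integrable_of_hasCompactSupport (hcs w hws)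
    · have hd := (hdet _ (hnear x)).2
      have hw0 : 0 ≤ w (F x) := by positivity
      exact mul_le_mul_of_nonneg_right hd hw0

theorem lam_deform {Ω K' : Set ℂ} (hΩ : IsOpen Ω) (hK : IsCompact K') (hKΩ : K' ⊆ Ω) {ε : ℝ}
    (hε : 0 < ε) : ∃ s0 : ℝ, 0 < s0 ∧ ∀ s : ℝ, 0 ≤ s → s ≤ s0 → ∀ N : Set ℂ, (1 - s) • K' ⊆ N →
      lam (Ω \ K') ≤ ENNReal.ofReal (1 + ε) * lam (Ω \ N) := by
  obtain ⟨χ, hχ1, hχ2, hχΩ, hχK⟩ := exists_cutoff hΩ hK hKΩ
  set G : ℂ → ℂ := fun x => χ x • x with hG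
  have hG1 : ContDiff ℝ 1 G := hχ1.smul contDiff_id
  have hG2 : HasCompactSupport G := hχ2.smul_right
  have hGsupp : ∀ x, x ∉ Ω → G x = 0 := by
    intro x hx
    have : χ x = 0 := image_eq_zero_of_notMem_tsupport (fun h => hx (hχΩ h))
    rw [hG]; simp [this]
  obtain ⟨C, hC⟩ := (hG2.fderiv ℝ).exists_bound_of_continuous (hG1.continuous_fderiv (by norm_num))
  have hC0 : 0 ≤ C := (norm_nonneg _).trans (hC 0)
  set e := min (ε / 8) (1 / 4) with he
  have he0 : 0 < e := lt_min (by positivity) (by norm_num)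
  have he1 : e ≤ 1 / 4 := min_le_right _ _
  have he2 : e ≤ ε / 8 := min_le_left _ _
  obtain ⟨δ0, hδ0, hdet0⟩ := det_near e he0
  set δ := min δ0 e with hδ
  have hδpos : 0 < δ := lt_min hδ0 he0
  have hdet : ∀ A : ℂ →L[ℝ] ℂ, ‖A - ContinuousLinearMap.id ℝ ℂ‖ ≤ δ →
      1 - e ≤ |A.det| ∧ |A.det| ≤ 1 + e := fun A hA => hdet0 A (hA.trans (min_le_left _ _))
  refine ⟨δ / (C + 1), by positivity, fun s hs0 hs1 N hN => ?_⟩
  have hsC : s * C ≤ δ := by
    calc s * C ≤ δ / (C + 1) * C := by gcongr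
      _ ≤ δ := by
        rw [div_mul_eq_mul_div, div_le_iff₀ (by positivity)]
        nlinarith
  have hne0 : ENNReal.ofReal (1 + ε) ≠ 0 := by
    rw [Ne, ENNReal.ofReal_eq_zero, not_le]; positivity
  have hnet : ENNReal.ofReal (1 + ε) ≠ ⊤ := ENNReal.ofReal_ne_top
  rw [lam, lam, ENNReal.mul_iInf_of_ne hne0 hnet]
  refine le_iInf fun u => ?_
  rw [ENNReal.mul_iInf_of_ne hne0 hnet]
  refine le_iInf fun hu => ?_
  obtain ⟨h1, h2, h3, h4⟩ := hu
  obtain ⟨v1, v2, v3, v4, v5, v6⟩ := change_var he0 he1 hG1 hG2 (min_le_right _ _) hs0 hdet hC hsC h1 h2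
  set F : ℂ → ℂ := fun x => x - s • G x with hF
  set v : ℂ → ℝ := fun x => u (F x) with hv
  have hvsupp : tsupport v ⊆ Ω \ K' := by
    intro x hx
    have hx' := h3 (v3 hx)
    have hxΩ : x ∈ Ω := by
      by_contra hxn
      have : F x = x := by rw [hF]; simp [hGsupp x hxn]
      rw [this] at hx'
      exact hxn hx'.1
    refine ⟨hxΩ, fun hxK => hx'.2 (hN ?_)⟩
    refine ⟨x, hxK, ?_⟩
    simp only [hF, hG]
    rw [hχK x hxK, one_smul, sub_smul, one_smul]
  have hv0 : v ≠ 0 := by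
    intro h0
    apply h4
    funext y
    obtain ⟨x, rfl⟩ := v4 y
    exact congrFun h0 x
  refine (iInf₂_le v ⟨v1, v2, hvsupp, hv0⟩).trans ?_
  rw [← ENNReal.ofReal_mul (by positivity)]
  apply ENNReal.ofReal_le_ofReal
  have hMu := Ma_pos h1 h2 h4
  have hMv := Ma_pos v1 v2 hv0
  have hEu : 0 ≤ ∫ x, ‖fderiv ℝ u x‖ ^ 2 := integral_nonneg fun x => by positivity
  rw [div_le_iff₀ hMv]
  have hfac : (1 + e) ^ 3 / (1 - e) ≤ 1 + ε := by
    rw [div_le_iff₀ (by linarith)]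
    nlinarith [mul_pos he0 he0, mul_pos he0 (mul_pos he0 he0), mul_pos he0 hε]
  calc (∫ x, ‖fderiv ℝ v x‖ ^ 2) ≤ (1 + e) ^ 2 / (1 - e) * (∫ x, ‖fderiv ℝ u x‖ ^ 2) := v5
    _ = (1 + e) ^ 2 / (1 - e) * ((∫ x, ‖fderiv ℝ u x‖ ^ 2) / (∫ x, u x ^ 2)) * (∫ x, u x ^ 2) := by
        field_simp
    _ ≤ (1 + e) ^ 2 / (1 - e) * ((∫ x, ‖fderiv ℝ u x‖ ^ 2) / (∫ x, u x ^ 2))
          * ((1 + e) * (∫ x, v x ^ 2)) := by
        have : 0 ≤ (1 + e) ^ 2 / (1 - e) := div_nonneg (by positivity) (by linarith)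
        gcongr
    _ = (1 + e) ^ 3 / (1 - e) * (((∫ x, ‖fderiv ℝ u x‖ ^ 2) / (∫ x, u x ^ 2)) * (∫ x, v x ^ 2)) := by
        ring
    _ ≤ (1 + ε) * (((∫ x, ‖fderiv ℝ u x‖ ^ 2) / (∫ x, u x ^ 2)) * (∫ x, v x ^ 2)) := by
        gcongr
    _ = (1 + ε) * ((∫ x, ‖fderiv ℝ u x‖ ^ 2) / (∫ x, u x ^ 2)) * (∫ x, v x ^ 2) := by ring

theorem exists_limit (Ω : Set ℂ) (hΩ : IsOpen Ω) (hb : Bornology.IsBounded Ω) (L h τ : ℝ)
    (hL : 0 < L) (hh : 0 < h) (hτ : 0 < τ) (K : ℕ → Set ℂ) (hcl : ∀ n, IsClosed (K n)) (hcv : ∀ n, Convex ℝ (K n))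
    (hcore : ∀ n, closedBall 0 h ⊆ K n) (hper : ∀ n, μH[1] (frontier (K n)) = ENNReal.ofReal L)
    (hin : ∀ n, ∀ k ∈ K n, ball k τ ⊆ Ω) (m : ENNReal)
    (hm : Tendsto (fun n => lam (Ω \ K n)) atTop (𝓝 m)) :
    ∃ K' : Set ℂ, IsClosed K' ∧ Convex ℝ K' ∧ closedBall 0 h ⊆ K' ∧
      μH[1] (frontier K') = ENNReal.ofReal L ∧ (∀ k ∈ K', ball k τ ⊆ Ω) ∧ lam (Ω \ K') ≤ m := by
  have hKΩ : ∀ n, K n ⊆ Ω := fun n k hk => hin n k hk (mem_ball_self hτ)
  obtain ⟨R, hR⟩ := hb.subset_closedBall 0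
  obtain ⟨K', φ, hφ, hc1, hc2, hne, hKR, hclose⟩ := blaschke R K hcl hcv
    (fun n => ⟨0, hcore n (mem_closedBall_self hh.le)⟩) (fun n => (hKΩ n).trans hR)
  have hcpt : IsCompact K' := (isCompact_closedBall (0:ℂ) R).of_isClosed_subset hc1 hKR
  have hlimK : ∀ y, (∀ᶠ n in atTop, y ∈ K (φ n)) → y ∈ K' := by
    intro y hy
    rw [← hc1.closure_eq, Metric.mem_closure_iff]
    intro ε hε
    obtain ⟨n, hn1, hn2⟩ := (hy.and (hclose (ε / 2) (by positivity))).exists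
    obtain ⟨z, hz, hd⟩ := hn2.1 y hn1
    exact ⟨z, hz, by linarith⟩
  have hcore' : closedBall 0 h ⊆ K' := fun y hy => hlimK y (Eventually.of_forall fun n => hcore _ hy)
  have hin' : ∀ k ∈ K', ball k τ ⊆ Ω := by
    intro k hk y hy
    rw [mem_ball] at hy
    obtain ⟨n, hn⟩ := (hclose ((τ - dist y k) / 2) (by linarith)).exists
    obtain ⟨x, hx, hd⟩ := hn.2 k hk
    apply hin _ x hx
    rw [mem_ball]
    calc dist y x ≤ dist y k + dist k x := dist_triangle _ _ _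
      _ ≤ dist y k + (τ - dist y k) / 2 := by gcongr
      _ < τ := by linarith
  have hK'Ω : K' ⊆ Ω := fun k hk => hin' k hk (mem_ball_self hτ)
  -- sandwich
  have hsand : ∀ ε : ℝ, 0 < ε → ∀ᶠ n in atTop, K (φ n) ⊆ (1 + ε) • K' ∧ K' ⊆ (1 + ε) • K (φ n) := by
    intro ε hε
    filter_upwards [hclose (ε * h) (by positivity)] with n hn
    have e : ε * h / h = ε := by field_simp
    have a := sandwich hh (by positivity : 0 < ε * h) hc2 hcore' hn.1
    have b := sandwich hh (by positivity : 0 < ε * h) (hcv _) (hcore _) hn.2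
    rw [e] at a b
    exact ⟨a, b⟩
  have hint : ∀ {S : Set ℂ}, closedBall 0 h ⊆ S → (interior S).Nonempty := fun {S} hS =>
    ⟨0, interior_maximal (ball_subset_closedBall.trans hS) isOpen_ball (mem_ball_self hh)⟩
  have hsm : ∀ {S : Set ℂ} (r : ℝ), 0 < r → IsClosed S → IsClosed (r • S) := fun r hr hS =>
    hS.smul_of_ne_zero hr.ne'
  have hlimε : ∀ c : ENNReal, Tendsto (fun ε : ℝ => ENNReal.ofReal (1 + ε) * c) (𝓝[>] 0) (𝓝 c) := by
    intro c
    have h1 : Tendsto (fun ε : ℝ => ENNReal.ofReal (1 + ε)) (𝓝[>] 0) (𝓝 1) := by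
      have : Tendsto (fun ε : ℝ => ENNReal.ofReal (1 + ε)) (𝓝 0) (𝓝 (ENNReal.ofReal (1 + 0))) :=
        (ENNReal.continuous_ofReal.comp (by fun_prop : Continuous fun ε : ℝ => 1 + ε)).tendsto 0
      rw [add_zero, ENNReal.ofReal_one] at this
      exact this.mono_left nhdsWithin_le_nhds
    have := ENNReal.Tendsto.mul_const (b := c) h1 (Or.inl one_ne_zero)
    rwa [one_mul] at this
  have hP1 : μH[1] (frontier K') ≤ ENNReal.ofReal L := by
    refine ge_of_tendsto (hlimε _) ?_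
    filter_upwards [self_mem_nhdsWithin] with ε hε
    have hε' : (0:ℝ) < ε := hε
    obtain ⟨n, hn⟩ := (hsand ε hε').exists
    rw [← hper (φ n), ← frontier_smul _ (by positivity)]
    refine frontier_mono hc1 hc2 (hint hcore') ?_ (hsm _ (by positivity) (hcl _)) hn.2
    exact (hb.subset (hKΩ _)).smul₀ _
  have hP2 : ENNReal.ofReal L ≤ μH[1] (frontier K') := by
    refine ge_of_tendsto (hlimε _) ?_
    filter_upwards [self_mem_nhdsWithin] with ε hε
    have hε' : (0:ℝ) < ε := hε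
    obtain ⟨n, hn⟩ := (hsand ε hε').exists
    rw [← hper (φ n), ← frontier_smul _ (by positivity)]
    refine frontier_mono (hcl _) (hcv _) (hint (hcore _)) ?_ (hsm _ (by positivity) hc1) hn.1
    exact (hb.subset hK'Ω).smul₀ _
  refine ⟨K', hc1, hc2, hcore', le_antisymm hP1 hP2, hin', ?_⟩
  -- semicontinuity
  refine ge_of_tendsto (hlimε m) ?_
  filter_upwards [self_mem_nhdsWithin] with ε hε
  obtain ⟨s0, hs0, hdef⟩ := lam_deform hΩ hcpt hK'Ω (hε : (0:ℝ) < ε)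
  have hm' : Tendsto (fun n => ENNReal.ofReal (1 + ε) * lam (Ω \ K (φ n))) atTop
      (𝓝 (ENNReal.ofReal (1 + ε) * m)) :=
    ENNReal.Tendsto.const_mul (hm.comp hφ.tendsto_atTop) (Or.inr ENNReal.ofReal_ne_top)
  refine ge_of_tendsto hm' ?_
  filter_upwards [hsand s0 hs0] with n hn
  set s := 1 - (1 + s0)⁻¹ with hs
  have h1s : (1 + s0)⁻¹ ≤ 1 := inv_le_one_of_one_le₀ (by linarith)
  have hinv : (1 + s0) * (1 + s0)⁻¹ = 1 := mul_inv_cancel₀ (by positivity)
  have hinv0 : 0 < (1 + s0)⁻¹ := by positivity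
  refine hdef s (by linarith) (by nlinarith) _ ?_
  have : 1 - s = (1 + s0)⁻¹ := by rw [hs]; ring
  rw [this]
  rintro _ ⟨x, hx, rfl⟩
  obtain ⟨y, hy, hxy⟩ := hn.2 hx
  simp only at hxy ⊢
  rw [← hxy, smul_smul, inv_mul_cancel₀ (by positivity), one_smul]
  exact hy

end Pool.Agent.MP0c2
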