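import Pool.Agent.Lib.MP_0c2aee_an.Perim
import Pool.Agent.Lib.MP_0c2aee_an.Domain

/-! Geometry of the admissible obstacles. -/

set_option autoImplicit false

open MeasureTheory Set Metric Filter Topology
open scoped Pointwise

namespace Pool.Agent.MP0c2

theorem inner_eq_re (a b : ℂ) : inner ℝ a b = (b * (starRingEnd ℂ) a).re := by
  rw [Complex.inner, mul_comm]

/-- Separation of a point from a closed convex set by a unit vector. -/
theorem sep_unit {K : Set ℂ} (hK : IsClosed K) (hc : Convex ℝ K) (hn : K.Nonempty) {z : ℂ}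
    (hz : z ∉ K) : ∃ u : ℂ, ‖u‖ = 1 ∧ ∀ x ∈ K, (x * (starRingEnd ℂ) u).re ≤ (z * (starRingEnd ℂ) u).re := by
  obtain ⟨p, hp, hp2⟩ := exists_proj hK hc hn z
  have hzp : z - p ≠ 0 := by
    intro h
    rw [sub_eq_zero] at h
    exact hz (h ▸ hp)
  have hn0 : 0 < ‖z - p‖ := norm_pos_iff.2 hzp
  set u : ℂ := ((‖z - p‖⁻¹ : ℝ) : ℂ) * (z - p) with hu
  have hu1 : ‖u‖ = 1 := by
    rw [hu, norm_mul, Complex.norm_real, norm_inv, norm_norm, inv_mul_cancel₀ hn0.ne']
  have hconj : ∀ x : ℂ, (x * (starRingEnd ℂ) u).re = ‖z - p‖⁻¹ * (x * (starRingEnd ℂ) (z - p)).re := by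
    intro x
    rw [hu, map_mul, Complex.conj_ofReal, mul_left_comm, Complex.re_ofReal_mul]
  refine ⟨u, hu1, fun x hx => ?_⟩
  have h1 := hp2 x hx
  rw [inner_eq_re, sub_mul, Complex.sub_re] at h1
  have h2 : ((z - p) * (starRingEnd ℂ) (z - p)).re = ‖z - p‖ ^ 2 := by
    rw [Complex.mul_conj, Complex.ofReal_re, Complex.normSq_eq_norm_sq]
  rw [sub_mul, Complex.sub_re] at h2
  rw [hconj, hconj]
  have h3 : (x * (starRingEnd ℂ) (z - p)).re ≤ (z * (starRingEnd ℂ) (z - p)).re := by
    nlinarith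
  exact mul_le_mul_of_nonneg_left h3 (by positivity)

/-- G2 -/
theorem G2 (ε h R : ℝ) (hε : 0 < ε) (h0 : 0 < h) (hh : h < 1) (hR : 1 < R)
    (hcond : 6.3 * (R - 1 + ε) < (R - h) * √(R - h) / √(2 * R)) (K : Set ℂ) (hK : IsClosed K)
    (hc : Convex ℝ K) (hn : (interior K).Nonempty) (hKR : K ⊆ closedBall 0 R)
    (hper : μH[1] (frontier K) = ENNReal.ofReal ((1 - ε) * circ)) : closedBall 0 h ⊆ K := by
  intro z hz
  by_contra hzK
  obtain ⟨u, hu, hsep⟩ := sep_unit hK hc (hn.mono interior_subset) hzK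
  have hz' : ‖z‖ ≤ h := by simpa using hz
  have hcap := frontier_le_of_subset_cap hK hc hn u hu R h h0 (hh.trans hR) (fun x hx => by
    refine ⟨by simpa using hKR hx, ?_⟩
    exact (hsep x hx).trans ((re_le_norm' hu).trans hz'))
  rw [hper] at hcap
  obtain ⟨hc1, hc2, -⟩ := circ_bounds
  have hRh : 0 < R - h := by linarith
  have hR0 : 0 < R := by linarith
  have hs : √(R - h) ≤ √(2 * R) := Real.sqrt_le_sqrt (by linarith)
  have hs0 : 0 < √(2 * R) := Real.sqrt_pos.2 (by linarith)
  have hq : (R - h) * √(R - h) / √(2 * R) ≤ R := by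
    rw [div_le_iff₀ hs0]
    exact mul_le_mul (by linarith) hs (Real.sqrt_nonneg _) hR0.le
  have hq0 : 0 ≤ R * circ - (R - h) * √(R - h) / √(2 * R) := by nlinarith
  rw [ENNReal.ofReal_le_ofReal_iff hq0] at hcap
  nlinarith

/-- G3: `K` contains `closedBall 0 h` and comes within `τ` of the complement: it swallows a tip. -/
theorem G3 (η w R τ h : ℝ) (hh : 0.98 ≤ h) (hh1 : h < 1) (hw : 0 < w) (hw1 : w ≤ 1 / 100)
    (hτ : 0 < τ) (hτw : τ ≤ w / 100) (hRη : R + τ < 1 + η) (E : Finset ℂ) (hE : ∀ e ∈ E, ‖e‖ = 1)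
    (K : Set ℂ) (hK : IsClosed K) (hc : Convex ℝ K) (hcore : closedBall 0 h ⊆ K) (hKR : K ⊆ closedBall 0 R)
    (k y : ℂ) (hk : k ∈ K) (hy : y ∉ Om E η w) (hky : ‖k - y‖ < τ) :
    ∃ e ∈ E, closedBall e (w / 8) ⊆ K := by
  have hkR : ‖k‖ ≤ R := by simpa using hKR hk
  have hyn : ‖y‖ < 1 + η := by
    calc ‖y‖ = ‖k - (k - y)‖ := by ring_nf
      _ ≤ ‖k‖ + ‖k - y‖ := norm_sub_le _ _
      _ < 1 + η := by linarith
  have hycham : y ∉ cham E := fun hcy => hy ⟨hyn, Or.inr (Or.inl hcy)⟩
  have hydoor : y ∉ doors E w := fun hcy => hy ⟨hyn, Or.inr (Or.inr hcy)⟩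
  simp only [cham, mem_ofPred_eq, not_forall, not_lt] at hycham
  obtain ⟨e, he, hye⟩ := hycham
  have he1 := hE e he
  have hyd : w ≤ ‖y - e‖ := by
    by_contra hcon
    exact hydoor ⟨e, he, not_le.1 hcon⟩
  refine ⟨e, he, fun z hz => ?_⟩
  by_contra hzK
  have hze : ‖z - e‖ ≤ w / 8 := by rwa [mem_closedBall, dist_eq_norm] at hz
  obtain ⟨n, hn1, hsep⟩ := sep_unit hK hc ⟨k, hk⟩ hzK
  set c := (n * (starRingEnd ℂ) e).re with hcdef
  set σ := (n * (starRingEnd ℂ) e).im with hσ
  have hcs : c ^ 2 + σ ^ 2 = 1 := by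
    have := sq_norm' (x := n) he1
    rw [hn1] at this
    rw [hcdef, hσ]; linarith
  -- real part of `x conj n` in coordinates
  have hcoord : ∀ x : ℂ, (x * (starRingEnd ℂ) n).re
      = (x * (starRingEnd ℂ) e).re * c + (x * (starRingEnd ℂ) e).im * σ := by
    intro x
    have h1 : x * (starRingEnd ℂ) n = (x * (starRingEnd ℂ) e) * (starRingEnd ℂ) (n * (starRingEnd ℂ) e) := by
      rw [map_mul, Complex.conj_conj]
      have := self_mul_conj he1
      linear_combination (-(x * (starRingEnd ℂ) n)) * this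
    rw [h1, Complex.mul_re, Complex.conj_re, Complex.conj_im]
    ring
  have hz2 : (z * (starRingEnd ℂ) n).re ≤ c + w / 8 := by
    have h1 : (z * (starRingEnd ℂ) n).re = (e * (starRingEnd ℂ) n).re + ((z - e) * (starRingEnd ℂ) n).re := by
      rw [sub_mul, Complex.sub_re]; ring
    have h2 := re_le_norm' (x := z - e) hn1
    have h3 : (e * (starRingEnd ℂ) n).re = c := by
      rw [hcoord e, self_mul_conj he1]; simp
    linarith
  have hc1 : 0.97875 ≤ c := by
    have h1 : (h : ℂ) * n ∈ K := by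
      apply hcore
      rw [mem_closedBall_zero_iff, norm_mul, hn1, mul_one, Complex.norm_real,
        Real.norm_of_nonneg (by linarith)]
    have h2 := hsep _ h1
    rw [mul_assoc, self_mul_conj hn1, mul_one, Complex.ofReal_re] at h2
    linarith
  have hc2 : c ≤ 1 := by nlinarith [sq_nonneg σ]
  have hσ1 : |σ| ≤ 0.2051 := by
    refine abs_le_of_sq_le_sq ?_ (by norm_num)
    nlinarith
  set a := (k * (starRingEnd ℂ) e).re - 1 with ha
  set b := (k * (starRingEnd ℂ) e).im with hb
  have hk2 : a * c + b * σ ≤ w / 8 := by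
    have h1 := hsep k hk
    rw [hcoord k] at h1
    have h2 : (k * (starRingEnd ℂ) e).re = a + 1 := by rw [ha]; ring
    rw [h2] at h1
    linarith
  have hab : (w - τ) ^ 2 ≤ a ^ 2 + b ^ 2 := by
    have h1 := sq_norm' (x := k - e) he1
    rw [sub_mul, self_mul_conj he1, Complex.sub_re, Complex.sub_im, Complex.one_re,
      Complex.one_im, sub_zero, ← ha, ← hb] at h1
    rw [h1]
    have h2 : w - τ ≤ ‖k - e‖ := by
      have h3 : ‖y - e‖ ≤ ‖k - e‖ + ‖k - y‖ := by
        calc ‖y - e‖ = ‖(k - e) - (k - y)‖ := by ring_nf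
          _ ≤ _ := norm_sub_le _ _
      linarith
    have h4 : 0 ≤ w - τ := by linarith
    gcongr
  have haβ : |b| / 2 - 1.5 * τ ≤ a := by
    have h1 : |((k - y) * (starRingEnd ℂ) e).re| ≤ ‖k - y‖ := abs_re_le_norm' he1
    have h2 : |((k - y) * (starRingEnd ℂ) e).im| ≤ ‖k - y‖ := abs_im_le_norm' he1
    rw [sub_mul, Complex.sub_re] at h1
    rw [sub_mul, Complex.sub_im] at h2
    have h3 := (abs_le.1 h1).1
    have h4 : |b| ≤ |(y * (starRingEnd ℂ) e).im| + ‖k - y‖ := by
      have : b = (y * (starRingEnd ℂ) e).im + (b - (y * (starRingEnd ℂ) e).im) := by ring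
      calc |b| = |(y * (starRingEnd ℂ) e).im + (b - (y * (starRingEnd ℂ) e).im)| := by rw [← this]
        _ ≤ _ := (abs_add_le _ _).trans (by linarith)
    linarith
  have hbσ : -(|b| * 0.2051) ≤ b * σ := by
    have h1 : |b * σ| ≤ |b| * 0.2051 := by
      rw [abs_mul]
      exact mul_le_mul_of_nonneg_left hσ1 (abs_nonneg _)
    exact (abs_le.1 h1).1
  have hb0 := abs_nonneg b
  have hac : |b| * 0.489375 - 0.015 * w ≤ a * c := by
    have h1 : (|b| / 2 - 1.5 * τ) * c ≤ a * c := mul_le_mul_of_nonneg_right haβ (by linarith)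
    have h2 : |b| * 0.489375 ≤ |b| / 2 * c := by nlinarith
    have h3 : 1.5 * τ * c ≤ 0.015 * w := by nlinarith
    linarith
  have hb1 : |b| ≤ 0.4925 * w := by linarith
  have ha1 : a ≤ 0.2311 * w := by
    have h1 : a * c ≤ 0.22602 * w := by linarith
    by_contra hcon
    have hcon := not_le.1 hcon
    have h2 : 0 < a := by nlinarith
    have h3 : a * 0.97875 ≤ a * c := mul_le_mul_of_nonneg_left hc1 h2.le
    linarith
  have ha0 : -(0.015 * w) ≤ a := by linarith
  have hb2 : b ^ 2 ≤ (0.4925 * w) ^ 2 := by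
    rw [← sq_abs b]
    gcongr
  have ha2 : a ^ 2 ≤ (0.2311 * w) ^ 2 := by
    refine sq_le_sq' (by linarith) ha1
  have hwτ : (0.99 * w) ^ 2 ≤ (w - τ) ^ 2 := by
    have : 0.99 * w ≤ w - τ := by linarith
    gcongr
  nlinarith

/-! ### Closures of the pieces of the domain -/

theorem closure_sideA (E : Finset ℂ) {x : ℂ} (hx : x ∈ closure (sideA E)) :
    ∃ e ∈ E, |(x * (starRingEnd ℂ) e).im| ≤ (x * (starRingEnd ℂ) e).re - 1 := by
  set C : Set ℂ := ⋃ e ∈ E, {x | |(x * (starRingEnd ℂ) e).im| ≤ (x * (starRingEnd ℂ) e).re - 1} with hC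
  have hcl : IsClosed C := isClosed_biUnion_finset fun e _ =>
    isClosed_le (cont_im e).abs ((cont_re e).sub continuous_const)
  have hsub : sideA E ⊆ C := by
    rintro y ⟨e, he, h⟩
    exact mem_biUnion he h.le
  have := closure_minimal hsub hcl hx
  rw [hC] at this
  simpa using this

theorem closure_cham (E : Finset ℂ) {x : ℂ} (hx : x ∈ closure (cham E)) :
    ∀ e ∈ E, (x * (starRingEnd ℂ) e).re - |(x * (starRingEnd ℂ) e).im| / 2 ≤ 1 := by
  intro e he
  have hcl : IsClosed {x : ℂ | (x * (starRingEnd ℂ) e).re - |(x * (starRingEnd ℂ) e).im| / 2 ≤ 1} :=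
    isClosed_le ((cont_re e).sub ((cont_im e).abs.div_const 2)) continuous_const
  exact closure_minimal (fun y hy => (hy e he).le) hcl hx

theorem closure_doors (E : Finset ℂ) (w : ℝ) {x : ℂ} (hx : x ∈ closure (doors E w)) :
    ∃ e ∈ E, ‖x - e‖ ≤ w := by
  set C : Set ℂ := ⋃ e ∈ E, {x | ‖x - e‖ ≤ w} with hC
  have hcl : IsClosed C := isClosed_biUnion_finset fun e _ =>
    isClosed_le (continuous_id.sub continuous_const).norm continuous_const
  have hsub : doors E w ⊆ C := by
    rintro y ⟨e, he, h⟩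
    exact mem_biUnion he h.le
  have := closure_minimal hsub hcl hx
  rw [hC] at this
  simpa using this

theorem closure_Om (E : Finset ℂ) (η w : ℝ) {x : ℂ} (hx : x ∈ closure (Om E η w)) :
    ‖x‖ ≤ 1 + η ∧ (x ∈ closure (cham E) ∨ x ∈ closure (sideA E) ∪ closure (doors E w)) := by
  constructor
  · have hcl : IsClosed {x : ℂ | ‖x‖ ≤ 1 + η} := isClosed_le continuous_norm continuous_const
    exact closure_minimal (fun y hy => hy.1.le) hcl hx
  · have hsub : Om E η w ⊆ cham E ∪ (sideA E ∪ doors E w) := by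
      rintro y ⟨-, h | h | h⟩
      · exact Or.inr (Or.inl h)
      · exact Or.inl h
      · exact Or.inr (Or.inr h)
    have := closure_mono hsub hx
    rw [closure_union, closure_union] at this
    exact this

theorem closure_sideA_local {E : Finset ℂ} {s d : ℝ} (hE : GoodE E s d) (hd : 0 ≤ d) {e x : ℂ}
    (he : e ∈ E) (hx : x ∈ closure (sideA E)) (hxe : 4 * ‖x - e‖ < d ^ 2) :
    |(x * (starRingEnd ℂ) e).im| ≤ (x * (starRingEnd ℂ) e).re - 1 := by
  set U : Set ℂ := {x | 4 * ‖x - e‖ < d ^ 2} with hU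
  have hUo : IsOpen U := isOpen_lt (continuous_const.mul (continuous_id.sub continuous_const).norm)
    continuous_const
  have h1 : x ∈ closure (U ∩ sideA E) := hUo.inter_closure ⟨hxe, hx⟩
  have hcl : IsClosed {x : ℂ | |(x * (starRingEnd ℂ) e).im| ≤ (x * (starRingEnd ℂ) e).re - 1} :=
    isClosed_le (cont_im e).abs ((cont_re e).sub continuous_const)
  exact closure_minimal (fun y hy => ((local_sideA hE hd he hy.1).1 hy.2).le) hcl h1

/-- Near a tip, outside of the door and outside of the chamber, one is in the closed wedge. -/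
theorem near_tip {E : Finset ℂ} {s d : ℝ} (hE : GoodE E s d) (hd : 0 < d) {w : ℝ} (hw : 0 < w)
    (hwd : w < d ^ 2 / 100) {e x : ℂ} (he : e ∈ E)
    (hx : x ∈ closure (sideA E) ∪ closure (doors E w)) (h1 : w < ‖x - e‖) (h7 : ‖x - e‖ ≤ 7 * w) :
    |(x * (starRingEnd ℂ) e).im| ≤ (x * (starRingEnd ℂ) e).re - 1 := by
  rcases hx with hx | hx
  · exact closure_sideA_local hE hd.le he hx (by linarith)
  · exfalso
    obtain ⟨e', he', h'⟩ := closure_doors E w hx
    by_cases hee : e' = e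
    · rw [hee] at h'; linarith
    · have h2 := hE.sep e he e' he' (Ne.symm hee)
      have h3 : ‖e - e'‖ ≤ 8 * w := by
        calc ‖e - e'‖ = ‖(x - e') - (x - e)‖ := by ring_nf
          _ ≤ ‖x - e'‖ + ‖x - e‖ := norm_sub_le _ _
          _ ≤ 8 * w := by linarith
      have h4 : ‖e - e'‖ ≤ 2 := by
        have := norm_sub_le e e'
        rw [hE.unit e he, hE.unit e' he'] at this
        linarith
      nlinarith

/-- Points of the closed domain on the line `Re = 1 + 3w` close to the tip. -/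
theorem slit {E : Finset ℂ} {s d η : ℝ} (hE : GoodE E s d) (hd : 0 < d) {w : ℝ} (hw : 0 < w)
    (hwd : w < d ^ 2 / 100) {e x : ℂ} (he : e ∈ E) (hx : x ∈ closure (Om E η w))
    (hre : (x * (starRingEnd ℂ) e).re = 1 + 3 * w) (him : |(x * (starRingEnd ℂ) e).im| ≤ 3.25 * w) :
    |(x * (starRingEnd ℂ) e).im| ≤ 3 * w := by
  have he1 := hE.unit e he
  rcases (closure_Om E η w hx).2 with h | h
  · have := closure_cham E h e he
    rw [hre] at this
    linarith
  · have hsq := sq_norm' (x := x - e) he1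
    rw [sub_mul, self_mul_conj he1, Complex.sub_re, Complex.sub_im, Complex.one_re,
      Complex.one_im, sub_zero, hre] at hsq
    have hn := norm_nonneg (x - e)
    have h1 : w < ‖x - e‖ := by
      by_contra hcon
      have hcon := not_lt.1 hcon
      nlinarith [sq_nonneg (x * (starRingEnd ℂ) e).im]
    have h7 : ‖x - e‖ ≤ 7 * w := by
      have h2 : (x * (starRingEnd ℂ) e).im ^ 2 ≤ (3.25 * w) ^ 2 := by
        rw [← sq_abs]
        gcongr
      refine (abs_le_of_sq_le_sq' ?_ (by positivity)).2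
      nlinarith
    have := near_tip hE hd hw hwd he h h1 h7
    rw [hre] at this
    linarith

/-- G1 -/
theorem G1 (η s d R : ℝ) (hη : 0 < η) (hη1 : η ≤ 1 / 10) (hs : 0 < s) (hs1 : s ≤ 1 / 100) (hd : 0 < d)
    (hR : 1 + 4 * s < R) (E : Finset ℂ) (hE : GoodE E s d) :
    ∃ w0 : ℝ, 0 < w0 ∧ ∀ w : ℝ, 0 < w → w < w0 → ∀ K : Set ℂ, IsClosed K → Convex ℝ K →
      (interior K).Nonempty → K ⊆ closure (Om E η w) → ENNReal.ofReal 5.5 ≤ μH[1] (frontier K) →
      K ⊆ closedBall 0 R := by
  refine ⟨min (d ^ 2 / 100) (min ((R - 1) / 3000) (1 / 1000)),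
    lt_min (by positivity) (lt_min (by linarith) (by norm_num)), ?_⟩
  intro w hw hww K hK hc hn hKOm hper q hq
  have hwd : w < d ^ 2 / 100 := lt_of_lt_of_le hww (min_le_left _ _)
  have hwR : w < (R - 1) / 3000 := lt_of_lt_of_le hww ((min_le_right _ _).trans (min_le_left _ _))
  have hw1 : w < 1 / 1000 := lt_of_lt_of_le hww ((min_le_right _ _).trans (min_le_right _ _))
  have hnorm : ∀ x ∈ K, ‖x‖ ≤ 1.1 := fun x hx => (closure_Om E η w (hKOm hx)).1.trans (by linarith)
  -- Step 1: `K` meets `closedBall 0 (9/10)`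
  have step1 : ∃ p ∈ K, ‖p‖ ≤ 9 / 10 := by
    by_contra hcon
    push Not at hcon
    obtain ⟨p, hp, hp2⟩ := exists_proj hK hc ⟨q, hq⟩ 0
    have hp0 : 0 < ‖p‖ := (by norm_num : (0:ℝ) < 9 / 10).trans (hcon p hp)
    set u : ℂ := ((‖p‖⁻¹ : ℝ) : ℂ) * p with hu
    have hu1 : ‖u‖ = 1 := by
      rw [hu, norm_mul, Complex.norm_real, norm_inv, norm_norm, inv_mul_cancel₀ hp0.ne']
    have hconj : ∀ x : ℂ, (x * (starRingEnd ℂ) u).re = ‖p‖⁻¹ * (x * (starRingEnd ℂ) p).re := by
      intro x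
      rw [hu, map_mul, Complex.conj_ofReal, mul_left_comm, Complex.re_ofReal_mul]
    have hlow : ∀ x ∈ K, 9 / 10 ≤ (x * (starRingEnd ℂ) u).re := by
      intro x hx
      have h1 := hp2 x hx
      rw [inner_eq_re, zero_sub, map_neg, mul_neg, Complex.neg_re, sub_mul, Complex.sub_re] at h1
      have h2 : (p * (starRingEnd ℂ) p).re = ‖p‖ ^ 2 := by
        rw [Complex.mul_conj, Complex.ofReal_re, Complex.normSq_eq_norm_sq]
      rw [hconj]
      have h3 : ‖p‖ ^ 2 ≤ (x * (starRingEnd ℂ) p).re := by linarith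
      have h4 : ‖p‖⁻¹ * ‖p‖ ^ 2 ≤ ‖p‖⁻¹ * (x * (starRingEnd ℂ) p).re :=
        mul_le_mul_of_nonneg_left h3 (by positivity)
      have h5 : ‖p‖⁻¹ * ‖p‖ ^ 2 = ‖p‖ := by field_simp
      have h6 := hcon p hp
      linarith
    have hrect := frontier_le_of_subset_rect hK hc hn u u hu1 (1 / 10) (64 / 100) (fun x hx => by
      rw [sub_mul, self_mul_conj hu1, Complex.sub_re, Complex.sub_im, Complex.one_re,
        Complex.one_im, sub_zero]
      have h1 := hlow x hx
      have h2 := hnorm x hx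
      have h3 := re_le_norm' (x := x) hu1
      have h4 := sq_norm' (x := x) hu1
      have h5 := norm_nonneg x
      constructor
      · rw [abs_le]
        constructor <;> linarith
      · refine abs_le_of_sq_le_sq ?_ (by norm_num)
        nlinarith)
    have h7 := hper.trans hrect
    rw [ENNReal.ofReal_le_ofReal_iff (by norm_num)] at h7
    norm_num at h7
  obtain ⟨p, hp, hp9⟩ := step1
  by_contra hqR
  have hqR : R < ‖q‖ := by simpa using hqR
  have hq11 := hnorm q hq
  -- the segment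
  set m : ℝ → ℂ := fun t => p + (t : ℂ) * (q - p) with hm
  have hmc : Continuous m := by fun_prop
  have hmK : ∀ t ∈ Icc (0:ℝ) 1, m t ∈ K := by
    intro t ht
    have := hc.add_smul_sub_mem hp hq ht
    rw [hm]
    simpa using this
  set C1 : Set ℂ := {x | ∀ e ∈ E, (x * (starRingEnd ℂ) e).re - |(x * (starRingEnd ℂ) e).im| / 2 ≤ 1}
    with hC1
  have hC1cl : IsClosed C1 := by
    have : C1 = ⋂ e ∈ E, {x | (x * (starRingEnd ℂ) e).re - |(x * (starRingEnd ℂ) e).im| / 2 ≤ 1} := by
      ext x; simp [hC1]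
    rw [this]
    exact isClosed_biInter fun e _ =>
      isClosed_le ((cont_re e).sub ((cont_im e).abs.div_const 2)) continuous_const
  set T : Set ℝ := Icc 0 1 ∩ m ⁻¹' C1 with hT
  have hTc : IsCompact T := isCompact_Icc.inter_right (hC1cl.preimage hmc)
  have hm0 : m 0 = p := by simp [hm]
  have hm1 : m 1 = q := by simp [hm]
  have hT0 : (0 : ℝ) ∈ T := by
    refine ⟨⟨le_rfl, zero_le_one⟩, ?_⟩
    rw [mem_preimage, hm0]
    intro e he
    have h1 := re_le_norm' (x := p) (hE.unit e he)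
    have h2 := abs_nonneg (p * (starRingEnd ℂ) e).im
    linarith
  obtain ⟨t0, ht0, hmax⟩ := hTc.exists_isGreatest ⟨0, hT0⟩
  have ht01 : t0 < 1 := by
    rcases lt_or_eq_of_le ht0.1.2 with h | h
    · exact h
    · exfalso
      have h1 := ht0.2
      rw [h, mem_preimage, hm1] at h1
      have hq0 : q ≠ 0 := by
        rintro rfl
        rw [norm_zero] at hqR
        linarith
      obtain ⟨e, he, h2, h3⟩ := near_unit hE hq0
      have h4 := h1 e he
      have h5 : ‖q‖ * (1 - s ^ 2 / 2 - s / 2) ≤ 1 := by linarith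
      have h6 : 0 < 1 - s ^ 2 / 2 - s / 2 := by nlinarith
      have h7 : (1 + 4 * s) * (1 - s ^ 2 / 2 - s / 2) ≤ ‖q‖ * (1 - s ^ 2 / 2 - s / 2) :=
        mul_le_mul_of_nonneg_right (hR.trans hqR).le h6.le
      nlinarith [mul_pos hs hs, mul_pos hs (mul_pos hs hs)]
  set F : Set ℂ := closure (sideA E) ∪ closure (doors E w) with hF
  have hFcl : IsClosed F := isClosed_closure.union isClosed_closure
  have hbeyond : ∀ t, t0 < t → t ≤ 1 → m t ∈ F := by
    intro t h1 h2
    have ht : t ∈ Icc (0:ℝ) 1 := ⟨ht0.1.1.trans h1.le, h2⟩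
    rcases (closure_Om E η w (hKOm (hmK t ht))).2 with h | h
    · exfalso
      have : t ∈ T := ⟨ht, closure_cham E h⟩
      exact absurd (hmax this) (not_le.2 h1)
    · exact h
  have hmt0F : m t0 ∈ F := by
    have h1 : t0 ∈ closure (Ioo t0 1) := by
      rw [closure_Ioo ht01.ne]; exact ⟨le_rfl, ht01.le⟩
    have h2 : Ioo t0 1 ⊆ m ⁻¹' F := fun t ht => hbeyond t ht.1 ht.2.le
    have h3 := closure_minimal h2 (hFcl.preimage hmc) h1
    exact h3
  have hdoor : ∃ e ∈ E, ‖m t0 - e‖ ≤ w := by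
    rcases hmt0F with h | h
    · obtain ⟨e, he, h1⟩ := closure_sideA E h
      refine ⟨e, he, ?_⟩
      have he1 := hE.unit e he
      have h2 := ht0.2 e he
      have h3 := abs_nonneg (m t0 * (starRingEnd ℂ) e).im
      have h4 : |(m t0 * (starRingEnd ℂ) e).im| = 0 := by linarith
      have h5 : (m t0 * (starRingEnd ℂ) e).im = 0 := abs_eq_zero.1 h4
      have h6 : (m t0 * (starRingEnd ℂ) e).re = 1 := by linarith
      have hsq := sq_norm' (x := m t0 - e) he1
      rw [sub_mul, self_mul_conj he1, Complex.sub_re, Complex.sub_im, Complex.one_re,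
        Complex.one_im, sub_zero, h6, h5] at hsq
      have h7 : ‖m t0 - e‖ = 0 := by
        have : ‖m t0 - e‖ ^ 2 = 0 := by rw [← hsq]; ring
        exact pow_eq_zero_iff (two_ne_zero) |>.1 this
      rw [h7]; exact hw.le
    · exact closure_doors E w h
  obtain ⟨e, he, hme⟩ := hdoor
  have he1 := hE.unit e he
  -- Step 4
  have hnc : Continuous (fun t => ‖m t - e‖) := (hmc.sub continuous_const).norm
  have hqe : 5 * w < ‖m 1 - e‖ := by
    rw [hm1]
    have h1 : ‖q‖ ≤ ‖q - e‖ + ‖e‖ := by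
      calc ‖q‖ = ‖(q - e) + e‖ := by ring_nf
        _ ≤ _ := norm_add_le _ _
    rw [he1] at h1
    linarith
  obtain ⟨ts, hts, htse⟩ := intermediate_value_Icc ht01.le hnc.continuousOn
    (show 5 * w ∈ Icc ‖m t0 - e‖ ‖m 1 - e‖ from ⟨by linarith, hqe.le⟩)
  simp only at htse
  have hts0 : t0 < ts := by
    rcases hts.1.eq_or_lt with h | h
    · rw [← h] at htse; linarith
    · exact h
  have hwedge1 := near_tip hE hd hw hwd he (hbeyond ts hts0 hts.2) (by rw [htse]; linarith)
    (by rw [htse]; linarith)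
  have hsqe : ∀ x : ℂ, ((x * (starRingEnd ℂ) e).re - 1) ^ 2 + (x * (starRingEnd ℂ) e).im ^ 2
      = ‖x - e‖ ^ 2 := by
    intro x
    have hsq := sq_norm' (x := x - e) he1
    rw [sub_mul, self_mul_conj he1, Complex.sub_re, Complex.sub_im, Complex.one_re,
      Complex.one_im, sub_zero] at hsq
    exact hsq
  have hre_s : 1 + 3 * w < (m ts * (starRingEnd ℂ) e).re := by
    have h1 := hsqe (m ts)
    rw [htse] at h1
    have h2 : (m ts * (starRingEnd ℂ) e).im ^ 2 ≤ ((m ts * (starRingEnd ℂ) e).re - 1) ^ 2 := by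
      rw [← sq_abs]
      gcongr
    have h3 : 0 ≤ (m ts * (starRingEnd ℂ) e).re - 1 := (abs_nonneg _).trans hwedge1
    nlinarith
  have hre_0 : (m t0 * (starRingEnd ℂ) e).re ≤ 1 + w := by
    have h1 := re_le_norm' (x := m t0 - e) he1
    rw [sub_mul, self_mul_conj he1, Complex.sub_re, Complex.one_re] at h1
    linarith
  -- Step 5
  have hrc : Continuous (fun t => (m t * (starRingEnd ℂ) e).re) := (cont_re e).comp hmc
  obtain ⟨t1, ht1, ht1e⟩ := intermediate_value_Icc hts0.le hrc.continuousOn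
    (show 1 + 3 * w ∈ Icc (m t0 * (starRingEnd ℂ) e).re (m ts * (starRingEnd ℂ) e).re from
      ⟨by linarith, hre_s.le⟩)
  simp only at ht1e
  have ht10 : t0 < t1 := by
    rcases ht1.1.eq_or_lt with h | h
    · rw [← h] at ht1e; linarith
    · exact h
  have ht1s : t1 ≤ 1 := ht1.2.trans hts.2
  have ht1I : t1 ∈ Icc (0:ℝ) 1 := ⟨ht0.1.1.trans ht10.le, ht1s⟩
  have hball5 : ‖m t1 - e‖ ≤ 5 * w := by
    have hconv : Convex ℝ (m ⁻¹' closedBall e (5 * w)) := by
      have h1 : m = AffineMap.lineMap p q := by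
        funext t
        rw [AffineMap.lineMap_apply, hm]
        simp [add_comm]
      rw [h1]
      exact (convex_closedBall e (5 * w)).affine_preimage _
    have h2 : t0 ∈ m ⁻¹' closedBall e (5 * w) := by
      rw [mem_preimage, mem_closedBall, dist_eq_norm]; linarith
    have h3 : ts ∈ m ⁻¹' closedBall e (5 * w) := by
      rw [mem_preimage, mem_closedBall, dist_eq_norm]; exact htse.le
    have h4 := hconv.ordConnected.out h2 h3 ⟨ht10.le, ht1.2⟩
    rwa [mem_preimage, mem_closedBall, dist_eq_norm] at h4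
  have hm1ge : w < ‖m t1 - e‖ := by
    have h1 := hsqe (m t1)
    rw [ht1e] at h1
    by_contra hcon
    have hcon := not_lt.1 hcon
    have := norm_nonneg (m t1 - e)
    nlinarith [sq_nonneg (m t1 * (starRingEnd ℂ) e).im]
  have hwedge2 := near_tip hE hd hw hwd he (hbeyond t1 ht10 ht1s) hm1ge (by linarith)
  rw [ht1e] at hwedge2
  have him1 : |(m t1 * (starRingEnd ℂ) e).im| ≤ 3 * w := by linarith
  set x1 := m t1 with hx1
  have hx1K : x1 ∈ K := hmK t1 ht1I
  -- Step 6
  have hslit : ∀ x ∈ K, (x * (starRingEnd ℂ) e).re = 1 + 3 * w → |(x * (starRingEnd ℂ) e).im| ≤ 3 * w := by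
    intro x hx hxre
    by_contra hcon
    have hcon := not_le.1 hcon
    set f : ℝ → ℂ := fun t => x1 + (t : ℂ) * (x - x1) with hf
    have hfc : Continuous f := by fun_prop
    have hfK : ∀ t ∈ Icc (0:ℝ) 1, f t ∈ K := by
      intro t ht
      have := hc.add_smul_sub_mem hx1K hx ht
      rw [hf]
      simpa using this
    have hfre : ∀ t, (f t * (starRingEnd ℂ) e).re = 1 + 3 * w := by
      intro t
      have : f t * (starRingEnd ℂ) e
          = x1 * (starRingEnd ℂ) e + (t : ℂ) * (x * (starRingEnd ℂ) e - x1 * (starRingEnd ℂ) e) := by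
        rw [hf]; ring
      rw [this, Complex.add_re, Complex.re_ofReal_mul, Complex.sub_re, hxre, ht1e]
      ring
    have hφc : Continuous (fun t => |(f t * (starRingEnd ℂ) e).im|) := ((cont_im e).comp hfc).abs
    have hf0 : f 0 = x1 := by simp [hf]
    have hf1 : f 1 = x := by simp [hf]
    obtain ⟨t, ht, hte⟩ := intermediate_value_Icc zero_le_one hφc.continuousOn
      (show min |(x * (starRingEnd ℂ) e).im| (3.25 * w) ∈
        Icc |(f 0 * (starRingEnd ℂ) e).im| |(f 1 * (starRingEnd ℂ) e).im| from by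
          rw [hf0, hf1]
          exact ⟨le_min (him1.trans hcon.le) (him1.trans (by linarith)), min_le_left _ _⟩)
    simp only at hte
    have h1 := slit hE hd hw hwd he (hKOm (hfK t ht)) (hfre t) (by rw [hte]; exact min_le_right _ _)
    rw [hte] at h1
    rcases min_choice |(x * (starRingEnd ℂ) e).im| (3.25 * w) with h | h
    · rw [h] at h1; linarith
    · rw [h] at h1; linarith
  -- Step 7
  have hqp : 0 < ‖q - p‖ := by
    have := norm_sub_norm_le q p
    linarith
  have hqp2 : ‖q - p‖ ≤ 2 := by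
    have := norm_sub_le q p
    linarith
  set u : ℂ := ((‖q - p‖⁻¹ : ℝ) : ℂ) * (q - p) with hu
  have hu1 : ‖u‖ = 1 := by
    rw [hu, norm_mul, Complex.norm_real, norm_inv, norm_norm, inv_mul_cancel₀ hqp.ne']
  set ℓ : ℂ → ℝ := fun x => ((x - p) * (starRingEnd ℂ) u).im with hℓ
  have hℓp : ℓ p = 0 := by simp [hℓ]
  have hqpu : (q - p) * (starRingEnd ℂ) u = ((‖q - p‖ : ℝ) : ℂ) := by
    rw [hu, map_mul, Complex.conj_ofReal, mul_left_comm, Complex.mul_conj, Complex.normSq_eq_norm_sq,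
      ← Complex.ofReal_mul]
    congr 1
    field_simp
  have hℓq : ℓ q = 0 := by
    rw [hℓ]; simp only; rw [hqpu, Complex.ofReal_im]
  have hℓx1 : ℓ x1 = 0 := by
    rw [hℓ]; simp only
    have : (x1 - p) * (starRingEnd ℂ) u = ((t1 * ‖q - p‖ : ℝ) : ℂ) := by
      rw [hx1, hm]
      simp only
      rw [add_sub_cancel_left, mul_assoc, hqpu]
      push_cast
      ring
    rw [this, Complex.ofReal_im]
  have hℓH : ∀ x ∈ K, (x * (starRingEnd ℂ) e).re = 1 + 3 * w → |ℓ x| ≤ 6 * w := by
    intro x hx hxre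
    have h1 := hslit x hx hxre
    have h2 : ℓ x = ((x - x1) * (starRingEnd ℂ) u).im := by
      have : ℓ x = ℓ x - ℓ x1 := by rw [hℓx1, sub_zero]
      rw [this, hℓ]
      simp only
      rw [← Complex.sub_im]
      congr 1
      ring
    rw [h2]
    refine (abs_im_le_norm' hu1).trans ?_
    have h3 := sq_norm' (x := x - x1) he1
    rw [sub_mul, Complex.sub_re, Complex.sub_im, hxre, ht1e, sub_self] at h3
    have h4 : |(x * (starRingEnd ℂ) e).im - (x1 * (starRingEnd ℂ) e).im| ≤ 6 * w := by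
      rw [abs_le] at h1 him1 ⊢
      constructor <;> linarith
    refine (abs_le_of_sq_le_sq' ?_ (by positivity)).2
    rw [← h3]
    have h5 : ((x * (starRingEnd ℂ) e).im - (x1 * (starRingEnd ℂ) e).im) ^ 2 ≤ (6 * w) ^ 2 := by
      rw [← sq_abs]
      gcongr
    linarith
  -- convex combinations
  have hcomb : ∀ k o : ℂ, ℓ o = 0 → ∀ a b : ℝ, a + b = 1 → ℓ ((a : ℂ) * k + (b : ℂ) * o) = a * ℓ k := by
    intro k o ho a b hab
    have hb : b = 1 - a := by linarith
    have : ((a : ℂ) * k + (b : ℂ) * o - p) * (starRingEnd ℂ) u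
        = (a : ℂ) * ((k - p) * (starRingEnd ℂ) u) + (b : ℂ) * ((o - p) * (starRingEnd ℂ) u) := by
      rw [hb]; push_cast; ring
    rw [hℓ]
    simp only
    rw [this, Complex.add_im, Complex.im_ofReal_mul, Complex.im_ofReal_mul]
    have ho' : ((o - p) * (starRingEnd ℂ) u).im = 0 := ho
    rw [ho']
    ring
  have hcombre : ∀ k o : ℂ, ∀ a b : ℝ, (((a : ℂ) * k + (b : ℂ) * o) * (starRingEnd ℂ) e).re
      = a * (k * (starRingEnd ℂ) e).re + b * (o * (starRingEnd ℂ) e).re := by
    intro k o a b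
    have : ((a : ℂ) * k + (b : ℂ) * o) * (starRingEnd ℂ) e
        = (a : ℂ) * (k * (starRingEnd ℂ) e) + (b : ℂ) * (o * (starRingEnd ℂ) e) := by ring
    rw [this, Complex.add_re, Complex.re_ofReal_mul, Complex.re_ofReal_mul]
  have hgp : (p * (starRingEnd ℂ) e).re ≤ 9 / 10 := (re_le_norm' he1).trans hp9
  -- `q` is well beyond the slit
  have hgq : (R - 1) / 40 ≤ (q * (starRingEnd ℂ) e).re - (1 + 3 * w) := by
    have h1 : x1 * (starRingEnd ℂ) e = p * (starRingEnd ℂ) e + (t1 : ℂ) * ((q - p) * (starRingEnd ℂ) e) := by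
      rw [hx1, hm]; ring
    have h2 : 1 + 3 * w = (p * (starRingEnd ℂ) e).re + t1 * ((q - p) * (starRingEnd ℂ) e).re := by
      rw [← ht1e, h1, Complex.add_re, Complex.re_ofReal_mul]
    have h3 : ((q - p) * (starRingEnd ℂ) e).re = (q * (starRingEnd ℂ) e).re - (p * (starRingEnd ℂ) e).re := by
      rw [sub_mul, Complex.sub_re]
    set D := ((q - p) * (starRingEnd ℂ) e).re with hD
    have h4 : 1 / 10 ≤ t1 * D := by linarith
    have h5 : 1 / 10 ≤ D := by
      have : 0 ≤ t1 := ht1I.1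
      by_contra hcon
      have hcon := not_le.1 hcon
      rcases le_or_gt D 0 with h | h
      · nlinarith
      · nlinarith
    have h6 : (1 - t1) * D = (q * (starRingEnd ℂ) e).re - (1 + 3 * w) := by linarith
    have h7 : (R - 1) / 4 ≤ 1 - t1 := by
      have h8 : ‖q - x1‖ = (1 - t1) * ‖q - p‖ := by
        have : q - x1 = ((1 - t1 : ℝ) : ℂ) * (q - p) := by
          rw [hx1, hm]; push_cast; ring
        rw [this, norm_mul, Complex.norm_real, Real.norm_of_nonneg (by linarith)]
      have h9 : ‖q‖ ≤ ‖q - x1‖ + ‖x1 - e‖ + ‖e‖ := by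
        calc ‖q‖ = ‖(q - x1) + (x1 - e) + e‖ := by ring_nf
          _ ≤ ‖(q - x1) + (x1 - e)‖ + ‖e‖ := norm_add_le _ _
          _ ≤ _ := by gcongr; exact norm_add_le _ _
      rw [he1] at h9
      have h10 : (1 - t1) * ‖q - p‖ ≤ (1 - t1) * 2 :=
        mul_le_mul_of_nonneg_left hqp2 (by linarith)
      linarith
    rw [← h6]
    nlinarith
  have hR1 : 0 < R - 1 := by linarith
  have hℓK : ∀ k ∈ K, |ℓ k| ≤ 1 / 4 := by
    intro k hk
    have hkn := hnorm k hk
    have hkre := abs_le.1 ((abs_re_le_norm' (x := k) he1).trans hkn)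
    rcases le_total (k * (starRingEnd ℂ) e).re (1 + 3 * w) with hle | hle
    · set G := (q * (starRingEnd ℂ) e).re - (k * (starRingEnd ℂ) e).re with hG
      have hG0 : 0 < G := by linarith
      have hG2 : G ≤ 2.2 := by
        have := (re_le_norm' (x := q) he1).trans hq11
        linarith
      set a := ((q * (starRingEnd ℂ) e).re - (1 + 3 * w)) / G with ha
      set b := ((1 + 3 * w) - (k * (starRingEnd ℂ) e).re) / G with hb
      have ha0 : 0 ≤ a := div_nonneg (by linarith) hG0.le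
      have hb0 : 0 ≤ b := div_nonneg (by linarith) hG0.le
      have hab : a + b = 1 := by
        rw [ha, hb, ← add_div, div_eq_one_iff_eq hG0.ne', hG]; ring
      have haG : a * G = (q * (starRingEnd ℂ) e).re - (1 + 3 * w) := by
        rw [ha]; field_simp
      have hbG : b * G = (1 + 3 * w) - (k * (starRingEnd ℂ) e).re := by
        rw [hb]; field_simp
      have hmem : (a : ℂ) * k + (b : ℂ) * q ∈ K := by
        have := hc hk hq ha0 hb0 hab
        simpa using this
      have hre : (((a : ℂ) * k + (b : ℂ) * q) * (starRingEnd ℂ) e).re = 1 + 3 * w := by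
        rw [hcombre]
        have e1 : b = 1 - a := by linarith
        rw [e1]
        rw [hG] at haG
        linear_combination -haG
      have h1 := hℓH _ hmem hre
      rw [hcomb k q hℓq a b hab, abs_mul, abs_of_nonneg ha0] at h1
      -- a ≥ (R-1)/88
      have h2 : (R - 1) / 88 ≤ a := by
        rw [ha, le_div_iff₀ hG0]
        have : (R - 1) / 88 * G ≤ (R - 1) / 88 * 2.2 :=
          mul_le_mul_of_nonneg_left hG2 (by positivity)
        linarith
      have h3 : (R - 1) / 88 * |ℓ k| ≤ 6 * w := (mul_le_mul_of_nonneg_right h2 (abs_nonneg _)).trans h1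
      by_contra hcon
      have hcon := not_le.1 hcon
      have h4 : (R - 1) / 88 * (1 / 4) ≤ (R - 1) / 88 * |ℓ k| :=
        mul_le_mul_of_nonneg_left hcon.le (by positivity)
      linarith
    · set G := (k * (starRingEnd ℂ) e).re - (p * (starRingEnd ℂ) e).re with hG
      have hG0 : 0 < G := by linarith
      have hG2 : G ≤ 2.2 := by
        have := (abs_le.1 ((abs_re_le_norm' (x := p) he1).trans hp9)).1
        linarith
      set a := ((1 + 3 * w) - (p * (starRingEnd ℂ) e).re) / G with ha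
      set b := ((k * (starRingEnd ℂ) e).re - (1 + 3 * w)) / G with hb
      have ha0 : 0 ≤ a := div_nonneg (by linarith) hG0.le
      have hb0 : 0 ≤ b := div_nonneg (by linarith) hG0.le
      have hab : a + b = 1 := by
        rw [ha, hb, ← add_div, div_eq_one_iff_eq hG0.ne', hG]; ring
      have haG : a * G = (1 + 3 * w) - (p * (starRingEnd ℂ) e).re := by
        rw [ha]; field_simp
      have hmem : (a : ℂ) * k + (b : ℂ) * p ∈ K := by
        have := hc hk hp ha0 hb0 hab
        simpa using this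
      have hre : (((a : ℂ) * k + (b : ℂ) * p) * (starRingEnd ℂ) e).re = 1 + 3 * w := by
        rw [hcombre]
        have e1 : b = 1 - a := by linarith
        rw [e1]
        rw [hG] at haG
        linear_combination haG
      have h1 := hℓH _ hmem hre
      rw [hcomb k p hℓp a b hab, abs_mul, abs_of_nonneg ha0] at h1
      have h2 : 1 / 22 ≤ a := by
        rw [ha, le_div_iff₀ hG0]
        linarith
      have h3 : 1 / 22 * |ℓ k| ≤ 6 * w := (mul_le_mul_of_nonneg_right h2 (abs_nonneg _)).trans h1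
      linarith
  -- Step 8
  have hrect := frontier_le_of_subset_rect hK hc hn
    ((((p * (starRingEnd ℂ) u).im : ℝ) : ℂ) * Complex.I * u) u hu1 1.1 (1 / 4) (fun x hx => by
      have h1 : (x - (((p * (starRingEnd ℂ) u).im : ℝ) : ℂ) * Complex.I * u) * (starRingEnd ℂ) u
          = x * (starRingEnd ℂ) u - (((p * (starRingEnd ℂ) u).im : ℝ) : ℂ) * Complex.I := by
        rw [sub_mul, mul_assoc _ u, self_mul_conj hu1, mul_one]
      rw [h1, Complex.sub_re, Complex.sub_im, Complex.re_ofReal_mul, Complex.im_ofReal_mul,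
        Complex.I_re, Complex.I_im, mul_zero, sub_zero, mul_one]
      refine ⟨(abs_re_le_norm' hu1).trans (hnorm x hx), ?_⟩
      have h2 := hℓK x hx
      rw [hℓ] at h2
      simp only at h2
      rwa [sub_mul, Complex.sub_im] at h2)
  have h7 := hper.trans hrect
  rw [ENNReal.ofReal_le_ofReal_iff (by norm_num)] at h7
  norm_num at h7

end Pool.Agent.MP0c2
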