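import Pool.Agent.Lib.MP_0c2aee_an.Form

/-! The number `lam U` for a nonempty open set. -/

set_option autoImplicit false

open MeasureTheory Set Metric Topology Filter

namespace Pool.Agent.MP0c2

variable {U : Set ℂ}

lemma Ma_pos' {u : ℂ → ℝ} (hu : IsT U u) (h0 : u ≠ 0) : 0 < Ma u := by
  unfold Ma
  have hne : ∃ x, u x ≠ 0 := by
    by_contra hcon
    push Not at hcon
    exact h0 (funext hcon)
  obtain ⟨x, hx⟩ := hne
  exact hu.sq.continuous.integral_pos_of_hasCompactSupport_nonneg_nonzero hu.sq.cpt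
    (fun y => sq_nonneg (u y)) (x := x) (pow_ne_zero 2 hx)

lemma lam_le {u : ℂ → ℝ} (hu : IsT U u) (h0 : u ≠ 0) : lam U ≤ ENNReal.ofReal (En u / Ma u) := by
  unfold lam
  exact iInf₂_le u ⟨hu.smooth, hu.cpt, hu.supp, h0⟩

lemma le_lam {X : ℝ} (h : ∀ u, IsT U u → X * Ma u ≤ En u) : ENNReal.ofReal X ≤ lam U := by
  unfold lam
  refine le_iInf₂ fun u hu => ?_
  have hT : IsT U u := ⟨hu.1, hu.2.1, hu.2.2.1⟩
  apply ENNReal.ofReal_le_ofReal
  have := Ma_pos' hT hu.2.2.2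
  change X ≤ En u / Ma u
  rw [le_div_iff₀ this]
  exact h u hT

lemma exists_isT (hU : IsOpen U) (hne : U.Nonempty) : ∃ u, IsT U u ∧ u ≠ 0 := by
  obtain ⟨x, hx⟩ := hne
  obtain ⟨f, hf1, hf2, hf3, hf4, hf5⟩ := exists_contDiff_tsupport_subset (n := 1) (hU.mem_nhds hx)
  refine ⟨f, ⟨hf3, hf2, hf1⟩, ?_⟩
  intro h
  rw [h] at hf5
  simp at hf5

lemma lam_ne_top (hU : IsOpen U) (hne : U.Nonempty) : lam U ≠ ⊤ := by
  obtain ⟨u, hu, h0⟩ := exists_isT hU hne
  exact ne_top_of_le_ne_top ENNReal.ofReal_ne_top (lam_le hu h0)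

lemma lam_form (hU : IsOpen U) (hne : U.Nonempty) {u : ℂ → ℝ} (hu : IsT U u) :
    0 ≤ qf (lam U).toReal u := by
  unfold qf
  by_cases h0 : u = 0
  · subst h0
    have h1 : Ma (0 : ℂ → ℝ) = 0 := by simp [Ma]
    rw [h1, mul_zero, sub_zero]
    exact integral_nonneg fun x => by positivity
  · have hp := Ma_pos' hu h0
    have h1 := lam_le hu h0
    have hE : 0 ≤ En u := integral_nonneg fun x => by positivity
    have h2 : (lam U).toReal ≤ En u / Ma u := by
      have := ENNReal.toReal_mono ENNReal.ofReal_ne_top h1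
      rwa [ENNReal.toReal_ofReal (by positivity)] at this
    rw [le_div_iff₀ hp] at h2
    linarith

lemma lam_inf (hU : IsOpen U) (hne : U.Nonempty) {δ : ℝ} (hδ : 0 < δ) :
    ∃ u, IsT U u ∧ Ma u = 1 ∧ qf (lam U).toReal u ≤ δ := by
  have hlt : lam U < lam U + ENNReal.ofReal δ := by
    apply ENNReal.lt_add_right (lam_ne_top hU hne)
    simp [hδ]
  obtain ⟨u, hu⟩ : ∃ u : ℂ → ℝ, ∃ (_ : ContDiff ℝ 1 u ∧ HasCompactSupport u ∧ tsupport u ⊆ U ∧ u ≠ 0),
      ENNReal.ofReal ((∫ x, ‖fderiv ℝ u x‖ ^ 2) / (∫ x, u x ^ 2)) < lam U + ENNReal.ofReal δ := by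
    have h2 := hlt
    conv_lhs at h2 => unfold lam
    rw [iInf_lt_iff] at h2
    obtain ⟨u, hu⟩ := h2
    rw [iInf_lt_iff] at hu
    exact ⟨u, hu⟩
  obtain ⟨⟨h1, h2, h3, h4⟩, h5⟩ := hu
  have hT : IsT U u := ⟨h1, h2, h3⟩
  have hp := Ma_pos' hT h4
  have hE : 0 ≤ En u := integral_nonneg fun x => by positivity
  have h6 : En u / Ma u ≤ (lam U).toReal + δ := by
    have h7 : ENNReal.ofReal (En u / Ma u) ≤ lam U + ENNReal.ofReal δ := h5.le
    have h8 := ENNReal.toReal_mono (by simp [lam_ne_top hU hne]) h7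
    rw [ENNReal.toReal_ofReal (by positivity), ENNReal.toReal_add (lam_ne_top hU hne)
      ENNReal.ofReal_ne_top, ENNReal.toReal_ofReal hδ.le] at h8
    exact h8
  set c := 1 / √(Ma u) with hc
  have hsp : 0 < √(Ma u) := Real.sqrt_pos.2 hp
  have hsq : √(Ma u) ^ 2 = Ma u := Real.sq_sqrt hp.le
  have hc2 : c ^ 2 * Ma u = 1 := by rw [hc, div_pow, hsq]; field_simp
  have eE : En (fun x => c * u x) = c ^ 2 * En u := by
    unfold En
    rw [← integral_const_mul]
    congr 1; ext x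
    rw [norm_fderiv_sq, norm_fderiv_sq, gx_const_mul c hT.differentiable, gy_const_mul c hT.differentiable]
    ring
  have eM : Ma (fun x => c * u x) = c ^ 2 * Ma u := by
    unfold Ma
    rw [← integral_const_mul]
    congr 1; ext x; ring
  refine ⟨fun x => c * u x, hT.const_mul c, by rw [eM, hc2], ?_⟩
  unfold qf
  rw [eE, eM, hc2]
  rw [div_le_iff₀ hp] at h6
  have : c ^ 2 * En u ≤ c ^ 2 * (((lam U).toReal + δ) * Ma u) := by gcongr
  have e : c ^ 2 * (((lam U).toReal + δ) * Ma u) = (lam U).toReal + δ := by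
    linear_combination ((lam U).toReal + δ) * hc2
  linarith

end Pool.Agent.MP0c2
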