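import Pool.Agent.Lib.MP_0c2aee_an.Defs

/-! Polar coordinates on a thin ring: a lower bound for the mass of a nonnegative function in an
angular window in terms of its mass, radial energy and angular energy. -/

set_option autoImplicit false

open MeasureTheory Set Metric Filter Topology

namespace Pool.Agent.MP0c2

/-- The unit vector of angle `t`. -/
noncomputable def ev (t : ℝ) : ℂ := (Real.cos t : ℂ) + (Real.sin t : ℂ) * Complex.I

theorem norm_ev (t : ℝ) : ‖ev t‖ = 1 := by
  have : ev t = Complex.exp (t * Complex.I) := by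
    rw [Complex.exp_mul_I, ev]; push_cast; rfl
  rw [this, Complex.norm_exp_ofReal_mul_I]

theorem continuous_ev : Continuous ev := by
  unfold ev
  fun_prop

theorem hasDerivAt_ev (t : ℝ) : HasDerivAt ev (Complex.I * ev t) t := by
  have h1 : HasDerivAt (fun s : ℝ => (Real.cos s : ℂ)) ((-Real.sin t : ℝ) : ℂ) t :=
    (Real.hasDerivAt_cos t).ofReal_comp
  have h2 : HasDerivAt (fun s : ℝ => (Real.sin s : ℂ)) ((Real.cos t : ℝ) : ℂ) t :=
    (Real.hasDerivAt_sin t).ofReal_comp
  have h3 := h1.add (h2.mul_const Complex.I)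
  have e : Complex.I * ev t = ((-Real.sin t : ℝ) : ℂ) + ((Real.cos t : ℝ) : ℂ) * Complex.I := by
    unfold ev
    push_cast
    ring_nf
    rw [Complex.I_sq]
    ring
  rw [e]
  exact h3

/-- Integration in polar coordinates over an angular sector. -/
theorem integral_sector {a b α β : ℝ} (ha : 0 ≤ a) (hab : a ≤ b) (hα : -Real.pi ≤ α) (hαβ : α ≤ β)
    (hβ : β ≤ Real.pi) (f : ℂ → ℝ) (g : ℝ → ℝ → ℝ) (hg : Continuous (Function.uncurry g))
    (hfg : ∀ r t : ℝ, 0 < r → -Real.pi < t → t < Real.pi →
      r * f (r * ev t) = indicator (Ioo a b ×ˢ Ioo α β) (Function.uncurry g) (r, t)) :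
    ∫ x, f x = ∫ r in a..b, ∫ t in α..β, g r t := by
  rw [← Complex.integral_comp_polarCoord_symm]
  have htar : polarCoord.target = Ioi (0:ℝ) ×ˢ Ioo (-Real.pi) Real.pi := rfl
  have hmt : MeasurableSet polarCoord.target := by
    rw [htar]; exact measurableSet_Ioi.prod measurableSet_Ioo
  have hmS : MeasurableSet (Ioo a b ×ˢ Ioo α β) := measurableSet_Ioo.prod measurableSet_Ioo
  have h1 : (∫ p in polarCoord.target, p.1 • f (Complex.polarCoord.symm p))
      = ∫ p in polarCoord.target, indicator (Ioo a b ×ˢ Ioo α β) (Function.uncurry g) p := by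
    refine setIntegral_congr_fun hmt fun p hp => ?_
    rw [htar] at hp
    have := hfg p.1 p.2 hp.1 hp.2.1 hp.2.2
    simp only [smul_eq_mul]
    rw [Complex.polarCoord_symm_apply]
    exact this
  have hsub : Ioo a b ×ˢ Ioo α β ⊆ polarCoord.target := by
    rw [htar]
    rintro ⟨r, t⟩ ⟨hr, ht⟩
    exact ⟨lt_of_le_of_lt ha hr.1, lt_of_le_of_lt hα ht.1, lt_of_lt_of_le ht.2 hβ⟩
  rw [h1, setIntegral_indicator hmS, inter_eq_self_of_subset_right hsub]
  have hint : IntegrableOn (Function.uncurry g) (Ioo a b ×ˢ Ioo α β) (volume.prod volume) := by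
    refine IntegrableOn.mono_set (t := Icc a b ×ˢ Icc α β) ?_
      (prod_mono Ioo_subset_Icc_self Ioo_subset_Icc_self)
    exact hg.continuousOn.integrableOn_compact (isCompact_Icc.prod isCompact_Icc)
  rw [Measure.volume_eq_prod, setIntegral_prod _ hint]
  rw [intervalIntegral.integral_of_le hab, integral_Ioc_eq_integral_Ioo]
  refine integral_congr_ae (Eventually.of_forall fun r => ?_)
  simp only
  rw [intervalIntegral.integral_of_le hαβ, integral_Ioc_eq_integral_Ioo]
  rfl

theorem integral_polar {η : ℝ} (hη : 0 < η) (f : ℂ → ℝ) (g : ℝ → ℝ → ℝ)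
    (hg : Continuous (Function.uncurry g)) (hfg : ∀ r t : ℝ, 0 < r → r * f (r * ev t) = g r t)
    (hf0 : ∀ x, f x ≠ 0 → 1 < ‖x‖ ∧ ‖x‖ < 1 + η) :
    ∫ x, f x = ∫ r in (1:ℝ)..(1+η), ∫ t in (-Real.pi)..Real.pi, g r t := by
  have hpi := Real.pi_pos
  refine integral_sector (by norm_num) (by linarith) le_rfl (by linarith) le_rfl f g hg ?_
  intro r t hr ht1 ht2
  by_cases hr2 : r ∈ Ioo 1 (1 + η)
  · have hm : ((r, t) : ℝ × ℝ) ∈ Ioo (1:ℝ) (1 + η) ×ˢ Ioo (-Real.pi) Real.pi := ⟨hr2, ht1, ht2⟩
    rw [indicator_of_mem hm]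
    exact hfg r t hr
  · have hm : ((r, t) : ℝ × ℝ) ∉ Ioo (1:ℝ) (1 + η) ×ˢ Ioo (-Real.pi) Real.pi := fun h => hr2 h.1
    rw [indicator_of_notMem hm]
    have : f (r * ev t) = 0 := by
      by_contra hne
      have := hf0 _ hne
      rw [norm_mul, norm_ev, mul_one, Complex.norm_real, Real.norm_of_nonneg hr.le] at this
      exact hr2 this
    rw [this, mul_zero]

/-- Cauchy-Schwarz against the constant one. -/
theorem cs_interval {a b : ℝ} (hab : a ≤ b) {g : ℝ → ℝ} (hg : Continuous g) :
    (∫ x in a..b, g x) ^ 2 ≤ (b - a) * ∫ x in a..b, g x ^ 2 := by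
  rcases hab.eq_or_lt with h | h
  · subst h; simp
  set I := ∫ x in a..b, g x with hI
  set Q := ∫ x in a..b, g x ^ 2 with hQ
  have hL : 0 < b - a := sub_pos.2 h
  have h0 : 0 ≤ ∫ x in a..b, ((b - a) * g x - I) ^ 2 :=
    intervalIntegral.integral_nonneg hab fun x _ => sq_nonneg _
  have e : ∫ x in a..b, ((b - a) * g x - I) ^ 2 = (b - a) ^ 2 * Q - 2 * (b - a) * I * I + I ^ 2 * (b - a) := by
    have e1 : (fun x => ((b - a) * g x - I) ^ 2)
        = fun x => ((b - a) ^ 2 * g x ^ 2 - 2 * (b - a) * I * g x) + I ^ 2 := by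
      funext x; ring
    rw [e1, intervalIntegral.integral_add, intervalIntegral.integral_sub,
      intervalIntegral.integral_const_mul, intervalIntegral.integral_const_mul,
      intervalIntegral.integral_const, ← hQ, ← hI]
    · simp only [smul_eq_mul]; ring
    · exact ((hg.pow 2).const_mul _).intervalIntegrable _ _ 
    · exact (hg.const_mul _).intervalIntegrable _ _
    · exact (((hg.pow 2).const_mul _).sub (hg.const_mul _)).intervalIntegrable _ _
    · exact continuous_const.intervalIntegrable _ _
  rw [e] at h0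
  have h1 : 0 ≤ (b - a) * ((b - a) * Q - I ^ 2) := by nlinarith
  have h2 := nonneg_of_mul_nonneg_right h1 hL
  linarith

theorem polar_window (η δ : ℝ) (hη : 0 < η) (hη1 : η ≤ 1) (hδ : 0 < δ) (hδ1 : δ ≤ 1) (y : ℂ → ℝ)
    (hy : IsT {x : ℂ | 1 < ‖x‖ ∧ ‖x‖ < 1 + η} y) (hy0 : ∀ x, 0 ≤ y x) (Er Et : ℝ)
    (hEr : Er = ∫ x, (fderiv ℝ y x (x / (‖x‖ : ℂ))) ^ 2)
    (hEt : Et = ∫ x, (fderiv ℝ y x (Complex.I * x / (‖x‖ : ℂ))) ^ 2) (hEr0 : 0 < Er) :
    2 * δ * ((Ma y / (1 + η) - η ^ 2 / 64 * Er) / √(2 * Real.pi * η * Er)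
        - √(2 * Real.pi * η * (1 + η) * Et)) ≤
      ∫ x in {x : ℂ | 1 + η / 8 < ‖x‖ ∧ ‖x‖ < 1 + 7 * η / 8 ∧ |Complex.arg x| < δ}, y x := by
  have hpi := Real.pi_pos
  have hpi3 := Real.pi_gt_three
  have hyc : Continuous y := hy.smooth.continuous
  have hdc : Continuous (fderiv ℝ y) := hy.smooth.continuous_fderiv (by norm_num)
  have hyd : ∀ x, HasFDerivAt y (fderiv ℝ y x) x := fun x =>
    (hy.smooth.differentiable (by norm_num) x).hasFDerivAt
  set J : ℝ → ℝ → ℝ := fun r t => y (r * ev t) with hJ
  set A : ℝ → ℝ → ℝ := fun r t => fderiv ℝ y (r * ev t) (ev t) with hA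
  set T : ℝ → ℝ → ℝ := fun r t => fderiv ℝ y (r * ev t) (Complex.I * ev t) with hT
  have hptc : Continuous (fun p : ℝ × ℝ => (p.1 : ℂ) * ev p.2) :=
    (Complex.continuous_ofReal.comp continuous_fst).mul (continuous_ev.comp continuous_snd)
  have hJc : Continuous (fun p : ℝ × ℝ => J p.1 p.2) := hyc.comp hptc
  have hAc : Continuous (fun p : ℝ × ℝ => A p.1 p.2) :=
    (hdc.comp hptc).clm_apply (continuous_ev.comp continuous_snd)
  have hTc : Continuous (fun p : ℝ × ℝ => T p.1 p.2) :=
    (hdc.comp hptc).clm_apply (continuous_const.mul (continuous_ev.comp continuous_snd))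
  have hJr : ∀ r t, HasDerivAt (fun s => J s t) (A r t) r := by
    intro r t
    have h1 : HasDerivAt (fun s : ℝ => (s : ℂ) * ev t) (ev t) r := by
      have := (HasDerivAt.ofReal_comp (hasDerivAt_id r)).mul_const (ev t)
      simpa using this
    exact (hyd _).comp_hasDerivAt r h1
  have hJt : ∀ r t, HasDerivAt (fun s => J r s) (r * T r t) t := by
    intro r t
    have h1 : HasDerivAt (fun s : ℝ => (r : ℂ) * ev s) ((r : ℂ) * (Complex.I * ev t)) t :=
      (hasDerivAt_ev t).const_mul (r : ℂ)
    have h2 := (hyd _).comp_hasDerivAt t h1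
    have e : fderiv ℝ y ((r : ℂ) * ev t) ((r : ℂ) * (Complex.I * ev t)) = r * T r t := by
      have : (r : ℂ) * (Complex.I * ev t) = r • (Complex.I * ev t) := by simp
      rw [this, map_smul, smul_eq_mul]
    rw [e] at h2
    exact h2
  have hsupp : ∀ x, (fderiv ℝ y x ≠ 0 ∨ y x ≠ 0) → 1 < ‖x‖ ∧ ‖x‖ < 1 + η := by
    intro x hx
    apply hy.supp
    rcases hx with h | h
    · exact tsupport_fderiv_subset ℝ (subset_tsupport _ h)
    · exact subset_tsupport _ h
  have hnorm : ∀ r t : ℝ, 0 < r → ‖(r : ℂ) * ev t‖ = r := by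
    intro r t hr
    rw [norm_mul, norm_ev, mul_one, Complex.norm_real, Real.norm_of_nonneg hr.le]
  -- the three integrals
  have hEr' : Er = ∫ r in (1:ℝ)..(1+η), ∫ t in (-Real.pi)..Real.pi, r * A r t ^ 2 := by
    rw [hEr]
    refine integral_polar hη _ (fun r t => r * A r t ^ 2) ?_ ?_ ?_
    · exact continuous_fst.mul (hAc.pow 2)
    · intro r t hr
      rw [hnorm r t hr]
      have hr' : (r : ℂ) ≠ 0 := by exact_mod_cast hr.ne'
      have : (r : ℂ) * ev t / (r : ℂ) = ev t := by field_simp
      rw [this]
    · intro x hx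
      refine hsupp x (Or.inl fun h => hx ?_)
      simp [h]
  have hEt' : Et = ∫ r in (1:ℝ)..(1+η), ∫ t in (-Real.pi)..Real.pi, r * T r t ^ 2 := by
    rw [hEt]
    refine integral_polar hη _ (fun r t => r * T r t ^ 2) ?_ ?_ ?_
    · exact continuous_fst.mul (hTc.pow 2)
    · intro r t hr
      rw [hnorm r t hr]
      have hr' : (r : ℂ) ≠ 0 := by exact_mod_cast hr.ne'
      have : Complex.I * ((r : ℂ) * ev t) / (r : ℂ) = Complex.I * ev t := by field_simp
      rw [this]
    · intro x hx
      refine hsupp x (Or.inl fun h => hx ?_)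
      simp [h]
  have hMa : Ma y = ∫ r in (1:ℝ)..(1+η), ∫ t in (-Real.pi)..Real.pi, r * J r t ^ 2 := by
    rw [Ma]
    refine integral_polar hη _ (fun r t => r * J r t ^ 2) ?_ ?_ ?_
    · exact continuous_fst.mul (hJc.pow 2)
    · intro r t hr
      rfl
    · intro x hx
      refine hsupp x (Or.inr fun h => hx ?_)
      simp [h]
  set c : ℝ → ℝ := fun r => ∫ t in (-Real.pi)..Real.pi, J r t ^ 2 with hc
  set e : ℝ → ℝ := fun r => ∫ t in (-Real.pi)..Real.pi, (r * T r t) ^ 2 with he
  have hcc : Continuous c := by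
    refine intervalIntegral.continuous_parametric_intervalIntegral_of_continuous' ?_ _ _
    exact hJc.pow 2
  have hec : Continuous e := by
    refine intervalIntegral.continuous_parametric_intervalIntegral_of_continuous' ?_ _ _
    exact (continuous_fst.mul hTc).pow 2
  have hpp : -Real.pi ≤ Real.pi := by linarith
  have hc0 : ∀ r, 0 ≤ c r := fun r => intervalIntegral.integral_nonneg hpp fun t _ => sq_nonneg _
  have he0 : ∀ r, 0 ≤ e r := fun r => intervalIntegral.integral_nonneg hpp fun t _ => sq_nonneg _
  -- slices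
  have hJ1 : ∀ t, J 1 t = 0 := by
    intro t
    by_contra hne
    have h1 := hsupp _ (Or.inr hne)
    have h2 := hnorm 1 t one_pos
    have h3 : ‖((1:ℝ):ℂ) * ev t‖ = 1 := h2
    linarith [h1.1]
  have hJ2 : ∀ t, J (1 + η) t = 0 := by
    intro t
    by_contra hne
    have h1 := hsupp _ (Or.inr hne)
    have h2 := hnorm (1 + η) t (by linarith)
    linarith [h1.2]
  have hAr : ∀ t, Continuous (fun s => A s t) := fun t =>
    hAc.comp (Continuous.prodMk continuous_id continuous_const)
  have hTt : ∀ r, Continuous (fun s => r * T r s) := fun r =>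
    continuous_const.mul (hTc.comp (Continuous.prodMk continuous_const continuous_id))
  have hJt' : ∀ r, Continuous (fun s => J r s) := fun r =>
    hJc.comp (Continuous.prodMk continuous_const continuous_id)
  -- full radial energy on a ray
  set Q : ℝ → ℝ := fun t => ∫ s in (1:ℝ)..(1+η), s * A s t ^ 2 with hQ
  have hQc : Continuous Q := by
    refine intervalIntegral.continuous_parametric_intervalIntegral_of_continuous' ?_ _ _
    exact continuous_snd.mul ((hAc.comp (Continuous.prodMk continuous_snd continuous_fst)).pow 2)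
  have hErQ : Er = ∫ t in (-Real.pi)..Real.pi, Q t := by
    rw [hEr', hQ]
    refine intervalIntegral_intervalIntegral_swap ?_
    have hcont : Continuous (Function.uncurry fun r t => r * A r t ^ 2) :=
      continuous_fst.mul (hAc.pow 2)
    exact (hcont.continuousOn.integrableOn_compact (isCompact_uIcc.prod isCompact_uIcc)).mono_set
      (prod_mono uIoc_subset_uIcc uIoc_subset_uIcc)
  have hray : ∀ a b t, 1 ≤ a → a ≤ b → b ≤ 1 + η → (J b t - J a t) ^ 2 ≤ (b - a) * Q t := by
    intro a b t h1 hab h2
    have hftc : ∫ s in a..b, A s t = J b t - J a t :=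
      intervalIntegral.integral_eq_sub_of_hasDerivAt (fun s _ => hJr s t)
        ((hAr t).intervalIntegrable _ _)
    rw [← hftc]
    refine (cs_interval hab (hAr t)).trans ?_
    refine mul_le_mul_of_nonneg_left ?_ (sub_nonneg.2 hab)
    calc ∫ s in a..b, A s t ^ 2 ≤ ∫ s in a..b, s * A s t ^ 2 := by
          refine intervalIntegral.integral_mono_on hab (((hAr t).pow 2).intervalIntegrable _ _)
            ((continuous_id.mul ((hAr t).pow 2)).intervalIntegrable _ _) fun s hs => ?_
          have : 1 ≤ s := h1.trans hs.1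
          nlinarith [sq_nonneg (A s t)]
      _ ≤ ∫ s in (1:ℝ)..(1+η), s * A s t ^ 2 := by
          refine intervalIntegral.integral_mono_interval h1 hab h2 ?_
            ((continuous_id.mul ((hAr t).pow 2)).intervalIntegrable _ _)
          refine (ae_restrict_iff' measurableSet_Ioc).2 (Eventually.of_forall fun s hs => ?_)
          have : 0 < s := one_pos.trans hs.1
          simp only [Pi.zero_apply]
          positivity
  have hc1 : ∀ r, 1 ≤ r → r ≤ 1 + η → c r ≤ (r - 1) * Er := by
    intro r h1 h2
    rw [hErQ, ← intervalIntegral.integral_const_mul]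
    refine intervalIntegral.integral_mono_on hpp (((hJt' r).pow 2).intervalIntegrable _ _)
      ((hQc.const_mul _).intervalIntegrable _ _) fun t _ => ?_
    have := hray 1 r t le_rfl h1 h2
    rwa [hJ1, sub_zero] at this
  have hc2 : ∀ r, 1 ≤ r → r ≤ 1 + η → c r ≤ (1 + η - r) * Er := by
    intro r h1 h2
    rw [hErQ, ← intervalIntegral.integral_const_mul]
    refine intervalIntegral.integral_mono_on hpp (((hJt' r).pow 2).intervalIntegrable _ _)
      ((hQc.const_mul _).intervalIntegrable _ _) fun t _ => ?_
    have := hray r (1 + η) t h1 h2 le_rfl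
    rwa [hJ2, zero_sub, neg_sq] at this
  have hcη : ∀ r, 1 ≤ r → r ≤ 1 + η → c r ≤ η * Er := fun r h1 h2 =>
    (hc1 r h1 h2).trans (mul_le_mul_of_nonneg_right (by linarith) hEr0.le)
  -- pointwise lower bound
  have hpt : ∀ r t, t ∈ Icc (-Real.pi) Real.pi →
      √(c r / (2 * Real.pi)) - √(2 * Real.pi * e r) ≤ J r t := by
    intro r t ht
    obtain ⟨t0, ht0, hmax⟩ := isCompact_Icc.exists_isMaxOn (nonempty_Icc.2 hpp)
      (hJt' r).continuousOn (s := Icc (-Real.pi) Real.pi)
    have hmax' : ∀ s ∈ Icc (-Real.pi) Real.pi, J r s ≤ J r t0 := fun s hs => hmax hs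
    have hJnn : ∀ s, 0 ≤ J r s := fun s => hy0 _
    have h1 : c r ≤ 2 * Real.pi * J r t0 ^ 2 := by
      calc c r ≤ ∫ t in (-Real.pi)..Real.pi, J r t0 ^ 2 := by
            refine intervalIntegral.integral_mono_on hpp (((hJt' r).pow 2).intervalIntegrable _ _)
              (continuous_const.intervalIntegrable _ _) fun s hs => ?_
            have := hmax' s hs
            have := hJnn s
            gcongr
        _ = 2 * Real.pi * J r t0 ^ 2 := by
            rw [intervalIntegral.integral_const]; simp only [smul_eq_mul]; ring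
    have h2 : √(c r / (2 * Real.pi)) ≤ J r t0 := by
      rw [Real.sqrt_le_left (hJnn t0), div_le_iff₀ (by positivity)]
      linarith
    have hmono : ∀ a b : ℝ, a ≤ b → a ∈ Icc (-Real.pi) Real.pi → b ∈ Icc (-Real.pi) Real.pi →
        (J r b - J r a) ^ 2 ≤ 2 * Real.pi * e r := by
      intro a b hab ha hb
      have hftc : ∫ s in a..b, r * T r s = J r b - J r a :=
        intervalIntegral.integral_eq_sub_of_hasDerivAt (fun s _ => hJt r s)
          ((hTt r).intervalIntegrable _ _)
      rw [← hftc]
      refine (cs_interval hab (hTt r)).trans ?_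
      have h3 : ∫ s in a..b, (r * T r s) ^ 2 ≤ e r := by
        refine intervalIntegral.integral_mono_interval ha.1 hab hb.2 ?_
            (((hTt r).pow 2).intervalIntegrable _ _)
        exact Eventually.of_forall fun s => sq_nonneg _
      have h4 : 0 ≤ ∫ s in a..b, (r * T r s) ^ 2 :=
        intervalIntegral.integral_nonneg hab fun s _ => sq_nonneg _
      have h5 : b - a ≤ 2 * Real.pi := by linarith [ha.1, hb.2]
      exact mul_le_mul h5 h3 h4 (by positivity)
    have h6 : (J r t0 - J r t) ^ 2 ≤ 2 * Real.pi * e r := by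
      rcases le_total t t0 with h | h
      · exact hmono t t0 h ht ht0
      · have := hmono t0 t h ht0 ht
        nlinarith
    have h7 : J r t0 - J r t ≤ √(2 * Real.pi * e r) := Real.le_sqrt_of_sq_le h6
    linarith
  -- the window
  set a := 1 + η / 8 with ha
  set b := 1 + 7 * η / 8 with hb
  have hab : a ≤ b := by rw [ha, hb]; linarith
  have ha1 : 1 ≤ a := by rw [ha]; linarith
  have hb1 : b ≤ 1 + η := by rw [hb]; linarith
  set W : Set ℂ := {x : ℂ | a < ‖x‖ ∧ ‖x‖ < b ∧ |Complex.arg x| < δ} with hW
  have hWm : MeasurableSet W := by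
    have m1 : MeasurableSet {x : ℂ | a < ‖x‖} := measurableSet_lt measurable_const measurable_norm
    have m2 : MeasurableSet {x : ℂ | ‖x‖ < b} := measurableSet_lt measurable_norm measurable_const
    have m3 : MeasurableSet {x : ℂ | |Complex.arg x| < δ} :=
      measurableSet_lt Complex.measurable_arg.abs measurable_const
    exact m1.inter (m2.inter m3)
  have hwin : ∫ x in W, y x = ∫ r in a..b, ∫ t in (-δ)..δ, r * J r t := by
    rw [← integral_indicator hWm]
    refine integral_sector (by linarith) hab (by linarith) (by linarith) (by linarith) _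
      (fun r t => r * J r t) (continuous_fst.mul hJc) ?_
    intro r t hr ht1 ht2
    have harg : Complex.arg ((r : ℂ) * ev t) = t := by
      unfold ev
      rw [Complex.ofReal_cos, Complex.ofReal_sin]
      exact Complex.arg_mul_cos_add_sin_mul_I hr ⟨ht1, ht2.le⟩
    have hiff : (r : ℂ) * ev t ∈ W ↔ ((r, t) : ℝ × ℝ) ∈ Ioo a b ×ˢ Ioo (-δ) δ := by
      rw [hW, mem_ofPred_eq, hnorm r t hr, harg, abs_lt, mem_prod, mem_Ioo, mem_Ioo]
      tauto
    by_cases hm : (r : ℂ) * ev t ∈ W
    · rw [indicator_of_mem hm, indicator_of_mem (hiff.1 hm)]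
      rfl
    · rw [indicator_of_notMem hm, indicator_of_notMem (fun h => hm (hiff.2 h)), mul_zero]
  rw [hwin]
  have hlow : ∫ r in a..b, 2 * δ * (√(c r / (2 * Real.pi)) - √(2 * Real.pi * e r)) ≤
      ∫ r in a..b, ∫ t in (-δ)..δ, r * J r t := by
    refine intervalIntegral.integral_mono_on hab ?_ ?_ fun r hr => ?_
    · refine Continuous.intervalIntegrable ?_ _ _
      exact continuous_const.mul (((hcc.div_const _).sqrt).sub ((hec.const_mul _).sqrt))
    · refine Continuous.intervalIntegrable ?_ _ _
      refine intervalIntegral.continuous_parametric_intervalIntegral_of_continuous' ?_ _ _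
      exact continuous_fst.mul hJc
    · have e1 : 2 * δ * (√(c r / (2 * Real.pi)) - √(2 * Real.pi * e r))
          = ∫ t in (-δ)..δ, (√(c r / (2 * Real.pi)) - √(2 * Real.pi * e r)) := by
        rw [intervalIntegral.integral_const]; simp only [smul_eq_mul]; ring
      rw [e1]
      refine intervalIntegral.integral_mono_on (by linarith) (continuous_const.intervalIntegrable _ _)
        ((continuous_const.mul (hJt' r)).intervalIntegrable _ _) fun t ht => ?_
      have h1 := hpt r t ⟨by linarith [ht.1], by linarith [ht.2]⟩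
      have h2 : 0 ≤ J r t := hy0 _
      have h3 : 1 ≤ r := ha1.trans hr.1
      nlinarith
  refine le_trans ?_ hlow
  rw [intervalIntegral.integral_const_mul]
  refine mul_le_mul_of_nonneg_left ?_ (by positivity)
  rw [intervalIntegral.integral_sub ((hcc.div_const _).sqrt.intervalIntegrable _ _)
    ((hec.const_mul _).sqrt.intervalIntegrable _ _)]
  refine sub_le_sub ?_ ?_
  · -- mass part
    set D := √(2 * Real.pi * η * Er) with hD
    have hD2 : D ^ 2 = 2 * Real.pi * η * Er := Real.sq_sqrt (by positivity)
    have hD0 : 0 < D := Real.sqrt_pos.2 (by positivity)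
    rw [div_le_iff₀ hD0, ← intervalIntegral.integral_mul_const]
    have h1 : ∫ r in a..b, c r ≤ ∫ r in a..b, √(c r / (2 * Real.pi)) * D := by
      refine intervalIntegral.integral_mono_on hab (hcc.intervalIntegrable _ _)
        (((hcc.div_const _).sqrt.mul_const _).intervalIntegrable _ _) fun r hr => ?_
      have h2 := hcη r (ha1.trans hr.1) (hr.2.trans hb1)
      have h3 : √(c r / (2 * Real.pi)) * D = √(c r * (η * Er)) := by
        rw [hD, ← Real.sqrt_mul (div_nonneg (hc0 r) (by positivity))]
        congr 1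
        field_simp
      rw [h3]
      refine Real.le_sqrt_of_sq_le ?_
      rw [sq]
      exact mul_le_mul_of_nonneg_left h2 (hc0 r)
    refine le_trans ?_ h1
    have hi : ∀ p q : ℝ, IntervalIntegrable c volume p q := fun p q => hcc.intervalIntegrable _ _
    have hsplit : ∫ r in (1:ℝ)..(1+η), c r = (∫ r in (1:ℝ)..a, c r) + (∫ r in a..b, c r)
        + ∫ r in b..(1+η), c r := by
      rw [intervalIntegral.integral_add_adjacent_intervals (hi _ _) (hi _ _),
        intervalIntegral.integral_add_adjacent_intervals (hi _ _) (hi _ _)]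
    have hb2 : ∫ r in (1:ℝ)..a, c r ≤ η ^ 2 / 128 * Er := by
      calc ∫ r in (1:ℝ)..a, c r ≤ ∫ r in (1:ℝ)..a, (r - 1) * Er := by
            refine intervalIntegral.integral_mono_on ha1 (hi _ _)
              (((continuous_id.sub continuous_const).mul_const _).intervalIntegrable _ _) fun r hr => ?_
            exact hc1 r hr.1 (hr.2.trans (hab.trans hb1))
        _ = η ^ 2 / 128 * Er := by
            rw [intervalIntegral.integral_mul_const, intervalIntegral.integral_sub
              (continuous_id'.intervalIntegrable _ _) (continuous_const.intervalIntegrable _ _),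
              integral_id, intervalIntegral.integral_const, ha]
            simp only [smul_eq_mul]
            ring
    have hb3 : ∫ r in b..(1+η), c r ≤ η ^ 2 / 128 * Er := by
      calc ∫ r in b..(1+η), c r ≤ ∫ r in b..(1+η), (1 + η - r) * Er := by
            refine intervalIntegral.integral_mono_on hb1 (hi _ _)
              (((continuous_const.sub continuous_id).mul_const _).intervalIntegrable _ _) fun r hr => ?_
            exact hc2 r (ha1.trans (hab.trans hr.1)) hr.2
        _ = η ^ 2 / 128 * Er := by
            rw [intervalIntegral.integral_mul_const, intervalIntegral.integral_sub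
              (continuous_const.intervalIntegrable _ _) (continuous_id'.intervalIntegrable _ _),
              integral_id, intervalIntegral.integral_const, hb]
            simp only [smul_eq_mul]
            ring
    have hM : Ma y / (1 + η) ≤ ∫ r in (1:ℝ)..(1+η), c r := by
      rw [div_le_iff₀ (by linarith), hMa, ← intervalIntegral.integral_mul_const]
      refine intervalIntegral.integral_mono_on (by linarith) ?_
        ((hcc.mul_const _).intervalIntegrable _ _) fun r hr => ?_
      · refine Continuous.intervalIntegrable ?_ _ _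
        refine intervalIntegral.continuous_parametric_intervalIntegral_of_continuous' ?_ _ _
        exact continuous_fst.mul (hJc.pow 2)
      · rw [intervalIntegral.integral_const_mul, mul_comm]
        exact mul_le_mul_of_nonneg_left hr.2 (hc0 r)
    linarith
  · -- angular part
    refine Real.le_sqrt_of_sq_le ?_
    refine (cs_interval hab ((hec.const_mul _).sqrt)).trans ?_
    have h1 : ∫ r in a..b, √(2 * Real.pi * e r) ^ 2 = 2 * Real.pi * ∫ r in a..b, e r := by
      rw [← intervalIntegral.integral_const_mul]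
      refine intervalIntegral.integral_congr fun r _ => ?_
      rw [Real.sq_sqrt (mul_nonneg (by positivity) (he0 r))]
    rw [h1]
    have h2 : ∫ r in a..b, e r ≤ (1 + η) * Et := by
      calc ∫ r in a..b, e r ≤ ∫ r in (1:ℝ)..(1+η), e r :=
            intervalIntegral.integral_mono_interval ha1 hab hb1
              (Eventually.of_forall fun r => he0 r) (hec.intervalIntegrable _ _)
        _ ≤ ∫ r in (1:ℝ)..(1+η), (1 + η) * ∫ t in (-Real.pi)..Real.pi, r * T r t ^ 2 := by
            refine intervalIntegral.integral_mono_on (by linarith) (hec.intervalIntegrable _ _) ?_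
              fun r hr => ?_
            · refine Continuous.intervalIntegrable ?_ _ _
              refine Continuous.const_mul ?_ _
              refine intervalIntegral.continuous_parametric_intervalIntegral_of_continuous' ?_ _ _
              exact continuous_fst.mul (hTc.pow 2)
            · rw [← intervalIntegral.integral_const_mul]
              have hTr : Continuous (fun s => T r s) :=
                hTc.comp (Continuous.prodMk continuous_const continuous_id)
              refine intervalIntegral.integral_mono_on hpp (((hTt r).pow 2).intervalIntegrable _ _)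
                ((((hTr.pow 2).const_mul _).const_mul _).intervalIntegrable _ _) fun t _ => ?_
              have h3 : 0 ≤ r * T r t ^ 2 := mul_nonneg (by linarith [hr.1]) (sq_nonneg _)
              calc (r * T r t) ^ 2 = r * (r * T r t ^ 2) := by ring
                _ ≤ (1 + η) * (r * T r t ^ 2) := mul_le_mul_of_nonneg_right hr.2 h3
        _ = (1 + η) * Et := by rw [intervalIntegral.integral_const_mul, hEt']
    have h3 : 0 ≤ ∫ r in a..b, e r := intervalIntegral.integral_nonneg hab fun r _ => he0 r
    have h4 : b - a ≤ η := by rw [ha, hb]; linarith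
    calc (b - a) * (2 * Real.pi * ∫ r in a..b, e r) ≤ η * (2 * Real.pi * ((1 + η) * Et)) := by
          gcongr
      _ = 2 * Real.pi * η * (1 + η) * Et := by ring

end Pool.Agent.MP0c2
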