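import Pool.Agent.Lib.MP_0c2aee_an.Form
import Pool.Agent.Lib.MP_0c2aee_an.TipSum
import Pool.Agent.Lib.MP_0c2aee_an.Polar

/-! The test function behind a tip: an energy gain for functions vanishing near the tip. -/

set_option autoImplicit false

open MeasureTheory Set Metric Filter Topology
open scoped ComplexConjugate

namespace Pool.Agent.MP0c2

namespace Zt

/-! ### A primitive of the ramp -/

/-- primitive of the ramp -/
noncomputable def PS (t : ℝ) : ℝ := ∫ τ in (0:ℝ)..t, sg τ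

lemma PS_hasDerivAt (t : ℝ) : HasDerivAt PS (sg t) t :=
  intervalIntegral.integral_hasDerivAt_right (cont_sg.intervalIntegrable _ _)
    (cont_sg.stronglyMeasurableAtFilter _ _) cont_sg.continuousAt

lemma PS_contDiff : ContDiff ℝ 1 PS := by
  rw [contDiff_one_iff_deriv]
  refine ⟨fun z => (PS_hasDerivAt z).differentiableAt, ?_⟩
  have : deriv PS = sg := by ext z; exact (PS_hasDerivAt z).deriv
  rw [this]; exact cont_sg

lemma PS_of_nonpos {t : ℝ} (h : t ≤ 0) : PS t = 0 := by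
  unfold PS
  apply intervalIntegral.integral_zero_ae
  filter_upwards with s hs
  apply sg_of_nonpos
  rw [uIoc_of_ge h] at hs; exact hs.2

lemma PS_nonneg (t : ℝ) : 0 ≤ PS t := by
  rcases le_total t 0 with h | h
  · rw [PS_of_nonpos h]
  · exact intervalIntegral.integral_nonneg h fun s _ => sg_nonneg s

lemma PS_le {t : ℝ} (h : 0 ≤ t) : PS t ≤ t := by
  unfold PS
  calc ∫ τ in (0:ℝ)..t, sg τ ≤ ∫ τ in (0:ℝ)..t, (1:ℝ) :=
        intervalIntegral.integral_mono_on h (cont_sg.intervalIntegrable _ _)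
          (continuous_const.intervalIntegrable _ _) fun s _ => sg_le_one s
    _ = t := by simp

lemma PS_ge (t : ℝ) : t - 1 ≤ PS t := by
  rcases le_total t 1 with h | h
  · have := PS_nonneg t
    linarith
  · have e : PS t = PS 1 + ∫ τ in (1:ℝ)..t, sg τ := by
      unfold PS
      rw [intervalIntegral.integral_add_adjacent_intervals
        (cont_sg.intervalIntegrable _ _) (cont_sg.intervalIntegrable _ _)]
    have e2 : ∫ τ in (1:ℝ)..t, sg τ = ∫ τ in (1:ℝ)..t, (1:ℝ) := by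
      apply intervalIntegral.integral_congr
      intro τ hτ
      rw [uIcc_of_le h] at hτ
      simp only
      exact sg_of_one_le hτ.1
    rw [e, e2, intervalIntegral.integral_const, smul_eq_mul, mul_one]
    have := PS_nonneg 1
    linarith

/-! ### The harmonic function `Re ξ⁻²` -/

/-- real part of `ξ⁻²` -/
noncomputable def f0 (ξ : ℂ) : ℝ := ((ξ ^ 2)⁻¹).re
/-- its gradient -/
noncomputable def F1 (ξ : ℂ) : ℝ := (-2 / ξ ^ 3).re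
/-- its gradient -/
noncomputable def F2 (ξ : ℂ) : ℝ := -(-2 / ξ ^ 3).im

lemma re_hasFDerivAt {G : ℂ → ℂ} {c ξ : ℂ} (h : HasDerivAt G c ξ) :
    HasFDerivAt (fun ξ => (G ξ).re) (Complex.reCLM.comp (c • (1 : ℂ →L[ℝ] ℂ))) ξ :=
  Complex.reCLM.hasFDerivAt.comp ξ h.complexToReal_fderiv

lemma im_hasFDerivAt {G : ℂ → ℂ} {c ξ : ℂ} (h : HasDerivAt G c ξ) :
    HasFDerivAt (fun ξ => (G ξ).im) (Complex.imCLM.comp (c • (1 : ℂ →L[ℝ] ℂ))) ξ :=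
  Complex.imCLM.hasFDerivAt.comp ξ h.complexToReal_fderiv

lemma gx_re {G : ℂ → ℂ} {c ξ : ℂ} (h : HasDerivAt G c ξ) : gx (fun ξ => (G ξ).re) ξ = c.re := by
  unfold gx; rw [(re_hasFDerivAt h).fderiv]; simp
lemma gy_re {G : ℂ → ℂ} {c ξ : ℂ} (h : HasDerivAt G c ξ) : gy (fun ξ => (G ξ).re) ξ = -c.im := by
  unfold gy; rw [(re_hasFDerivAt h).fderiv]; simp
lemma gx_im {G : ℂ → ℂ} {c ξ : ℂ} (h : HasDerivAt G c ξ) : gx (fun ξ => (G ξ).im) ξ = c.im := by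
  unfold gx; rw [(im_hasFDerivAt h).fderiv]; simp
lemma gy_im {G : ℂ → ℂ} {c ξ : ℂ} (h : HasDerivAt G c ξ) : gy (fun ξ => (G ξ).im) ξ = c.re := by
  unfold gy; rw [(im_hasFDerivAt h).fderiv]; simp

lemma g_hasDerivAt {ξ : ℂ} (h : ξ ≠ 0) : HasDerivAt (fun ξ : ℂ => (ξ ^ 2)⁻¹) (-2 / ξ ^ 3) ξ := by
  have h1 := (hasDerivAt_pow 2 ξ).inv (pow_ne_zero 2 h)
  refine h1.congr_deriv ?_
  field_simp
  simp
  ring

lemma g'_hasDerivAt {ξ : ℂ} (h : ξ ≠ 0) : HasDerivAt (fun ξ : ℂ => -2 / ξ ^ 3) (6 / ξ ^ 4) ξ := by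
  have h1 := (hasDerivAt_const ξ (-2 : ℂ)).div (hasDerivAt_pow 3 ξ) (pow_ne_zero 3 h)
  refine h1.congr_deriv ?_
  field_simp
  simp
  norm_num
  ring

lemma f0_eq (ξ : ℂ) : f0 ξ = (ξ.re ^ 2 - ξ.im ^ 2) / N2 ξ ^ 2 := by
  unfold f0
  rw [Complex.inv_re]
  have h1 : (ξ ^ 2).re = ξ.re ^ 2 - ξ.im ^ 2 := by rw [sq, Complex.mul_re]; ring
  have h2 : Complex.normSq (ξ ^ 2) = N2 ξ ^ 2 := by
    rw [map_pow, Complex.normSq_apply]; unfold N2; ring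
  rw [h1, h2]

lemma f0_le (ξ : ℂ) : f0 ξ ≤ 1 / N2 ξ := by
  rw [f0_eq]
  rcases (N2_nonneg ξ).eq_or_lt with h | h
  · rw [← h]; simp
  · rw [div_le_div_iff₀ (by positivity) h]
    have : ξ.re ^ 2 - ξ.im ^ 2 ≤ N2 ξ := by unfold N2; nlinarith [sq_nonneg ξ.im]
    nlinarith

lemma N2_pos {ξ : ℂ} (h : ξ ≠ 0) : 0 < N2 ξ := by
  rw [N2_eq]
  have := norm_pos_iff.2 h
  positivity

lemma F_sq {ξ : ℂ} (h : ξ ≠ 0) : F1 ξ ^ 2 + F2 ξ ^ 2 = 4 / N2 ξ ^ 3 := by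
  have h1 : F1 ξ ^ 2 + F2 ξ ^ 2 = ‖-2 / ξ ^ 3‖ ^ 2 := by
    rw [← Complex.normSq_eq_norm_sq, Complex.normSq_apply]
    unfold F1 F2; ring
  rw [h1, norm_div, norm_pow, div_pow, N2_eq]
  have h2 : ‖(-2 : ℂ)‖ = 2 := by simp
  rw [h2]
  ring

lemma f0_contDiffAt {ξ : ℂ} (h : ξ ≠ 0) : ContDiffAt ℝ 1 f0 ξ := by
  have h1 : ContDiffAt ℝ 1 (fun ξ : ℂ => (ξ ^ 2)⁻¹) ξ := (contDiffAt_id.pow 2).inv (pow_ne_zero 2 h)
  exact Complex.reCLM.contDiff.contDiffAt.comp ξ h1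

lemma F1_contDiffAt {ξ : ℂ} (h : ξ ≠ 0) : ContDiffAt ℝ 1 F1 ξ := by
  have h1 : ContDiffAt ℝ 1 (fun ξ : ℂ => -2 / ξ ^ 3) ξ := by
    simp only [div_eq_mul_inv]
    exact contDiffAt_const.mul ((contDiffAt_id.pow 3).inv (pow_ne_zero 3 h))
  exact Complex.reCLM.contDiff.contDiffAt.comp ξ h1

lemma F2_contDiffAt {ξ : ℂ} (h : ξ ≠ 0) : ContDiffAt ℝ 1 F2 ξ := by
  have h1 : ContDiffAt ℝ 1 (fun ξ : ℂ => -2 / ξ ^ 3) ξ := by
    simp only [div_eq_mul_inv]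
    exact contDiffAt_const.mul ((contDiffAt_id.pow 3).inv (pow_ne_zero 3 h))
  exact (Complex.imCLM.contDiff.contDiffAt.comp ξ h1).neg

variable {c1 : ℝ}

/-- truncated function -/
noncomputable def Z0 (c1 : ℝ) (ξ : ℂ) : ℝ := if 0 < ξ.re then PS (f0 ξ - c1) else 0
/-- its gradient -/
noncomputable def Y1 (c1 : ℝ) (ξ : ℂ) : ℝ := if 0 < ξ.re then sg (f0 ξ - c1) * F1 ξ else 0
/-- its gradient -/
noncomputable def Y2 (c1 : ℝ) (ξ : ℂ) : ℝ := if 0 < ξ.re then sg (f0 ξ - c1) * F2 ξ else 0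

lemma ev_pos {ξ : ℂ} (h : 0 < ξ.re) : ∀ᶠ ξ' in 𝓝 ξ, 0 < ξ'.re :=
  Complex.continuous_re.continuousAt.eventually_const_lt h

lemma ev_nonpos (hc : 0 < c1) {ξ : ℂ} (h0 : ξ ≠ 0) (h : ¬ 0 < ξ.re) :
    ∀ᶠ ξ' in 𝓝 ξ, 0 < ξ'.re → f0 ξ' - c1 ≤ 0 := by
  rcases lt_or_eq_of_le (not_lt.1 h) with h1 | h1
  · filter_upwards [Complex.continuous_re.continuousAt.eventually_lt_const h1] with y hy hy2
    exact absurd hy2 (not_lt.2 hy.le)
  · have h2 : f0 ξ < c1 := by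
      rw [f0_eq, h1]
      have : ((0:ℝ) ^ 2 - ξ.im ^ 2) / N2 ξ ^ 2 ≤ 0 := by
        apply div_nonpos_of_nonpos_of_nonneg
        · nlinarith [sq_nonneg ξ.im]
        · positivity
      linarith
    filter_upwards [(f0_contDiffAt h0).continuousAt.eventually_lt_const h2] with y hy _
    linarith

lemma Z0_ev_pos {ξ : ℂ} (h : 0 < ξ.re) : Z0 c1 =ᶠ[𝓝 ξ] fun ξ => PS (f0 ξ - c1) := by
  filter_upwards [ev_pos h] with y hy
  simp [Z0, hy]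
lemma Y1_ev_pos {ξ : ℂ} (h : 0 < ξ.re) : Y1 c1 =ᶠ[𝓝 ξ] fun ξ => sg (f0 ξ - c1) * F1 ξ := by
  filter_upwards [ev_pos h] with y hy
  simp [Y1, hy]
lemma Y2_ev_pos {ξ : ℂ} (h : 0 < ξ.re) : Y2 c1 =ᶠ[𝓝 ξ] fun ξ => sg (f0 ξ - c1) * F2 ξ := by
  filter_upwards [ev_pos h] with y hy
  simp [Y2, hy]
lemma Z0_ev_non (hc : 0 < c1) {ξ : ℂ} (h0 : ξ ≠ 0) (h : ¬ 0 < ξ.re) :
    Z0 c1 =ᶠ[𝓝 ξ] fun _ => 0 := by
  filter_upwards [ev_nonpos hc h0 h] with y hy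
  unfold Z0
  split_ifs with h1
  · exact PS_of_nonpos (hy h1)
  · rfl
lemma Y1_ev_non (hc : 0 < c1) {ξ : ℂ} (h0 : ξ ≠ 0) (h : ¬ 0 < ξ.re) :
    Y1 c1 =ᶠ[𝓝 ξ] fun _ => 0 := by
  filter_upwards [ev_nonpos hc h0 h] with y hy
  unfold Y1
  split_ifs with h1
  · rw [sg_of_nonpos (hy h1), zero_mul]
  · rfl
lemma Y2_ev_non (hc : 0 < c1) {ξ : ℂ} (h0 : ξ ≠ 0) (h : ¬ 0 < ξ.re) :
    Y2 c1 =ᶠ[𝓝 ξ] fun _ => 0 := by
  filter_upwards [ev_nonpos hc h0 h] with y hy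
  unfold Y2
  split_ifs with h1
  · rw [sg_of_nonpos (hy h1), zero_mul]
  · rfl

lemma Z0_contDiffAt (hc : 0 < c1) {ξ : ℂ} (h0 : ξ ≠ 0) : ContDiffAt ℝ 1 (Z0 c1) ξ := by
  by_cases h : 0 < ξ.re
  · exact (PS_contDiff.contDiffAt.comp ξ ((f0_contDiffAt h0).sub contDiffAt_const)).congr_of_eventuallyEq
      (Z0_ev_pos h)
  · exact contDiffAt_const.congr_of_eventuallyEq (Z0_ev_non hc h0 h)

lemma Y1_contDiffAt (hc : 0 < c1) {ξ : ℂ} (h0 : ξ ≠ 0) : ContDiffAt ℝ 1 (Y1 c1) ξ := by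
  by_cases h : 0 < ξ.re
  · exact ((sg_contDiff.contDiffAt.comp ξ ((f0_contDiffAt h0).sub contDiffAt_const)).mul
      (F1_contDiffAt h0)).congr_of_eventuallyEq (Y1_ev_pos h)
  · exact contDiffAt_const.congr_of_eventuallyEq (Y1_ev_non hc h0 h)

lemma Y2_contDiffAt (hc : 0 < c1) {ξ : ℂ} (h0 : ξ ≠ 0) : ContDiffAt ℝ 1 (Y2 c1) ξ := by
  by_cases h : 0 < ξ.re
  · exact ((sg_contDiff.contDiffAt.comp ξ ((f0_contDiffAt h0).sub contDiffAt_const)).mul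
      (F2_contDiffAt h0)).congr_of_eventuallyEq (Y2_ev_pos h)
  · exact contDiffAt_const.congr_of_eventuallyEq (Y2_ev_non hc h0 h)

lemma f0_sub_hasFDerivAt {ξ : ℂ} (h0 : ξ ≠ 0) : HasFDerivAt (fun ξ => f0 ξ - c1)
    (Complex.reCLM.comp ((-2 / ξ ^ 3 : ℂ) • (1 : ℂ →L[ℝ] ℂ))) ξ :=
  (re_hasFDerivAt (g_hasDerivAt h0)).sub_const c1

lemma gx_Z0 (hc : 0 < c1) {ξ : ℂ} (h0 : ξ ≠ 0) : gx (Z0 c1) ξ = Y1 c1 ξ := by
  by_cases h : 0 < ξ.re
  · have h1 := (PS_hasDerivAt (f0 ξ - c1)).comp_hasFDerivAt ξ (f0_sub_hasFDerivAt (c1 := c1) h0)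
    have h2 : fderiv ℝ (Z0 c1) ξ
        = sg (f0 ξ - c1) • Complex.reCLM.comp ((-2 / ξ ^ 3 : ℂ) • (1 : ℂ →L[ℝ] ℂ)) := by
      rw [(Z0_ev_pos h).fderiv_eq]; exact h1.fderiv
    unfold gx
    rw [h2]
    simp [Y1, h, F1]
  · unfold gx
    rw [(Z0_ev_non hc h0 h).fderiv_eq]
    simp [Y1, h]

lemma gy_Z0 (hc : 0 < c1) {ξ : ℂ} (h0 : ξ ≠ 0) : gy (Z0 c1) ξ = Y2 c1 ξ := by
  by_cases h : 0 < ξ.re
  · have h1 := (PS_hasDerivAt (f0 ξ - c1)).comp_hasFDerivAt ξ (f0_sub_hasFDerivAt (c1 := c1) h0)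
    have h2 : fderiv ℝ (Z0 c1) ξ
        = sg (f0 ξ - c1) • Complex.reCLM.comp ((-2 / ξ ^ 3 : ℂ) • (1 : ℂ →L[ℝ] ℂ)) := by
      rw [(Z0_ev_pos h).fderiv_eq]; exact h1.fderiv
    unfold gy
    rw [h2]
    simp [Y2, h, F2]
  · unfold gy
    rw [(Z0_ev_non hc h0 h).fderiv_eq]
    simp [Y2, h]

/-- divergence of the truncated gradient is nonnegative -/
lemma div_Y (hc : 0 < c1) {ξ : ℂ} (h0 : ξ ≠ 0) : 0 ≤ gx (Y1 c1) ξ + gy (Y2 c1) ξ := by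
  by_cases h : 0 < ξ.re
  · have h1 := (sg_hasDerivAt (f0 ξ - c1)).comp_hasFDerivAt ξ (f0_sub_hasFDerivAt (c1 := c1) h0)
    have h2 := re_hasFDerivAt (g'_hasDerivAt h0)
    have h3 := (im_hasFDerivAt (g'_hasDerivAt h0)).neg
    have e1 : gx (Y1 c1) ξ = sg (f0 ξ - c1) * (6 / ξ ^ 4 : ℂ).re
        + F1 ξ * (dsg (f0 ξ - c1) * F1 ξ) := by
      unfold gx
      rw [(Y1_ev_pos h).fderiv_eq]
      have h4 : HasFDerivAt (fun ξ => sg (f0 ξ - c1) * F1 ξ) _ ξ := h1.mul h2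
      rw [h4.fderiv]
      simp [F1]
    have e2 : gy (Y2 c1) ξ = -(sg (f0 ξ - c1) * (6 / ξ ^ 4 : ℂ).re)
        + F2 ξ * (dsg (f0 ξ - c1) * F2 ξ) := by
      unfold gy
      rw [(Y2_ev_pos h).fderiv_eq]
      have h4 : HasFDerivAt (fun ξ => sg (f0 ξ - c1) * F2 ξ) _ ξ := h1.mul h3
      rw [h4.fderiv]
      simp [F2]
    rw [e1, e2]
    have := dsg_nonneg (f0 ξ - c1)
    nlinarith [mul_nonneg this (sq_nonneg (F1 ξ)), mul_nonneg this (sq_nonneg (F2 ξ))]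
  · unfold gx gy
    rw [(Y1_ev_non hc h0 h).fderiv_eq, (Y2_ev_non hc h0 h).fderiv_eq]
    simp

/-! ### Cutoff near the tip -/

/-- cutoff profile -/
noncomputable def ms (ρ t : ℝ) : ℝ := sg ((t - ρ ^ 2) / (3 * ρ ^ 2))
/-- cutoff -/
noncomputable def s1 (ρ : ℝ) (ξ : ℂ) : ℝ := ms ρ (N2 ξ)

lemma ms_hasDerivAt (ρ t : ℝ) :
    HasDerivAt (ms ρ) (dsg ((t - ρ ^ 2) / (3 * ρ ^ 2)) * (1 / (3 * ρ ^ 2))) t := by
  have h1 : HasDerivAt (fun t => (t - ρ ^ 2) / (3 * ρ ^ 2)) (1 / (3 * ρ ^ 2)) t :=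
    ((hasDerivAt_id t).sub_const _).div_const _
  exact (sg_hasDerivAt _).comp t h1

lemma s1_hasFDerivAt (ρ : ℝ) (ξ : ℂ) : HasFDerivAt (s1 ρ)
    ((dsg ((N2 ξ - ρ ^ 2) / (3 * ρ ^ 2)) * (1 / (3 * ρ ^ 2))) •
      ((2 * ξ.re) • Complex.reCLM + (2 * ξ.im) • Complex.imCLM)) ξ :=
  comp_N2_hasFDerivAt (ms_hasDerivAt ρ (N2 ξ))

lemma s1_contDiff (ρ : ℝ) : ContDiff ℝ 1 (s1 ρ) := by
  have h1 : ContDiff ℝ 1 (ms ρ) :=
    sg_contDiff.comp ((contDiff_id.sub contDiff_const).div_const _)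
  exact h1.comp N2_contDiff

lemma gx_s1 (ρ : ℝ) (ξ : ℂ) : gx (s1 ρ) ξ
    = dsg ((N2 ξ - ρ ^ 2) / (3 * ρ ^ 2)) * (1 / (3 * ρ ^ 2)) * (2 * ξ.re) := by
  unfold gx; rw [(s1_hasFDerivAt ρ ξ).fderiv]; simp

lemma gy_s1 (ρ : ℝ) (ξ : ℂ) : gy (s1 ρ) ξ
    = dsg ((N2 ξ - ρ ^ 2) / (3 * ρ ^ 2)) * (1 / (3 * ρ ^ 2)) * (2 * ξ.im) := by
  unfold gy; rw [(s1_hasFDerivAt ρ ξ).fderiv]; simp

lemma s1_low {ρ : ℝ} {ξ : ℂ} (h : N2 ξ ≤ ρ ^ 2) : s1 ρ ξ = 0 := by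
  unfold s1 ms
  apply sg_of_nonpos
  exact div_nonpos_of_nonpos_of_nonneg (by linarith) (by positivity)

lemma s1_high {ρ : ℝ} (hρ : 0 < ρ) {ξ : ℂ} (h : 4 * ρ ^ 2 ≤ N2 ξ) : s1 ρ ξ = 1 := by
  unfold s1 ms
  apply sg_of_one_le
  rw [le_div_iff₀ (by positivity)]
  linarith

lemma dsg_low {ρ : ℝ} {ξ : ℂ} (h : N2 ξ ≤ ρ ^ 2) : dsg ((N2 ξ - ρ ^ 2) / (3 * ρ ^ 2)) = 0 :=
  dsg_of_nonpos (div_nonpos_of_nonpos_of_nonneg (by linarith) (by positivity))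

lemma dsg_high {ρ : ℝ} (hρ : 0 < ρ) {ξ : ℂ} (h : 4 * ρ ^ 2 ≤ N2 ξ) :
    dsg ((N2 ξ - ρ ^ 2) / (3 * ρ ^ 2)) = 0 := by
  apply dsg_of_one_le
  rw [le_div_iff₀ (by positivity)]
  linarith

lemma s1_nonneg (ρ : ℝ) (ξ : ℂ) : 0 ≤ s1 ρ ξ := sg_nonneg _
lemma s1_le (ρ : ℝ) (ξ : ℂ) : s1 ρ ξ ≤ 1 := sg_le_one _

lemma grad_s1 {ρ : ℝ} (hρ : 0 < ρ) {ξ : ℂ} (h0 : ξ ≠ 0) :
    gx (s1 ρ) ξ ^ 2 + gy (s1 ρ) ξ ^ 2 ≤ 18.3 / N2 ξ := by
  have hN := N2_pos h0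
  rw [gx_s1, gy_s1]
  by_cases h1 : N2 ξ ≤ 4 * ρ ^ 2
  · set D := dsg ((N2 ξ - ρ ^ 2) / (3 * ρ ^ 2)) with hD
    have hD0 : 0 ≤ D := dsg_nonneg _
    have hD1 : D ≤ 8 / 5 := dsg_le _
    have e : (D * (1 / (3 * ρ ^ 2)) * (2 * ξ.re)) ^ 2 + (D * (1 / (3 * ρ ^ 2)) * (2 * ξ.im)) ^ 2
        = D ^ 2 * (4 * N2 ξ) / (9 * (ρ ^ 2) ^ 2) := by
      unfold N2
      field_simp
      ring
    rw [e, div_le_div_iff₀ (by positivity) hN]
    have h2 : D ^ 2 ≤ 2.56 := by nlinarith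
    have h3 : N2 ξ ^ 2 ≤ 16 * (ρ ^ 2) ^ 2 := by nlinarith
    have h4 : D ^ 2 * N2 ξ ^ 2 ≤ 2.56 * (16 * (ρ ^ 2) ^ 2) :=
      mul_le_mul h2 h3 (by positivity) (by norm_num)
    nlinarith [sq_nonneg (ρ ^ 2)]
  · rw [dsg_high hρ (by linarith)]
    simp only [zero_mul]
    have : (0:ℝ) ^ 2 + 0 ^ 2 = 0 := by norm_num
    rw [this]
    positivity

/-! ### The test function -/

/-- the test function -/
noncomputable def zt (c1 ρ : ℝ) (ξ : ℂ) : ℝ := s1 ρ ξ * Z0 c1 ξ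

lemma zt_ev_zero {ρ : ℝ} (hρ : 0 < ρ) {ξ : ℂ} (h : N2 ξ < ρ ^ 2) : zt c1 ρ =ᶠ[𝓝 ξ] fun _ => 0 := by
  filter_upwards [N2_contDiff.continuous.continuousAt.eventually_lt_const h] with y hy
  unfold zt
  rw [s1_low hy.le, zero_mul]

lemma zt_contDiff (hc : 0 < c1) {ρ : ℝ} (hρ : 0 < ρ) : ContDiff ℝ 1 (zt c1 ρ) := by
  rw [contDiff_iff_contDiffAt]
  intro ξ
  by_cases h0 : ξ = 0
  · have : N2 ξ < ρ ^ 2 := by rw [h0]; simp [N2]; positivity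
    exact contDiffAt_const.congr_of_eventuallyEq (zt_ev_zero hρ this)
  · exact (s1_contDiff ρ).contDiffAt.mul (Z0_contDiffAt hc h0)

lemma gx_zt (hc : 0 < c1) {ρ : ℝ} {ξ : ℂ} (h0 : ξ ≠ 0) :
    gx (zt c1 ρ) ξ = s1 ρ ξ * Y1 c1 ξ + Z0 c1 ξ * gx (s1 ρ) ξ := by
  have h1 := (s1_contDiff ρ).contDiffAt (x := ξ) |>.differentiableAt (by norm_num)
  have h2 := (Z0_contDiffAt hc h0).differentiableAt (by norm_num)
  have h3 : fderiv ℝ (zt c1 ρ) ξ = _ := fderiv_fun_mul h1 h2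
  rw [← gx_Z0 hc h0]
  unfold gx
  rw [h3]; simp

lemma gy_zt (hc : 0 < c1) {ρ : ℝ} {ξ : ℂ} (h0 : ξ ≠ 0) :
    gy (zt c1 ρ) ξ = s1 ρ ξ * Y2 c1 ξ + Z0 c1 ξ * gy (s1 ρ) ξ := by
  have h1 := (s1_contDiff ρ).contDiffAt (x := ξ) |>.differentiableAt (by norm_num)
  have h2 := (Z0_contDiffAt hc h0).differentiableAt (by norm_num)
  have h3 : fderiv ℝ (zt c1 ρ) ξ = _ := fderiv_fun_mul h1 h2
  rw [← gy_Z0 hc h0]
  unfold gy
  rw [h3]; simp

lemma Z0_nonneg (ξ : ℂ) : 0 ≤ Z0 c1 ξ := by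
  unfold Z0
  split_ifs
  · exact PS_nonneg _
  · exact le_rfl

lemma Z0_le (hc : 0 < c1) {ξ : ℂ} (h0 : ξ ≠ 0) : Z0 c1 ξ ≤ 1 / N2 ξ := by
  have hN := N2_pos h0
  have h1 := f0_le ξ
  unfold Z0
  split_ifs
  · rcases le_total (f0 ξ - c1) 0 with h | h
    · rw [PS_of_nonpos h]; positivity
    · have := PS_le h
      linarith
  · positivity

lemma zt_nonneg (ρ : ℝ) (ξ : ℂ) : 0 ≤ zt c1 ρ ξ := mul_nonneg (s1_nonneg _ _) (Z0_nonneg _)

lemma Y_sq {ξ : ℂ} (h0 : ξ ≠ 0) : Y1 c1 ξ ^ 2 + Y2 c1 ξ ^ 2 ≤ 4 / N2 ξ ^ 3 := by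
  have hN := N2_pos h0
  unfold Y1 Y2
  split_ifs
  · have h1 := sg_nonneg (f0 ξ - c1)
    have h2 := sg_le_one (f0 ξ - c1)
    rw [← F_sq h0, mul_pow, mul_pow, ← mul_add]
    have h3 : sg (f0 ξ - c1) ^ 2 ≤ 1 := by nlinarith
    have h4 : 0 ≤ F1 ξ ^ 2 + F2 ξ ^ 2 := by positivity
    nlinarith
  · have : (0:ℝ) ^ 2 + 0 ^ 2 = 0 := by norm_num
    rw [this]; positivity

/-- pointwise bound of the gradient of the test function -/
lemma grad_zt (hc : 0 < c1) {ρ : ℝ} (hρ : 0 < ρ) {ξ : ℂ} (h0 : ξ ≠ 0) :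
    ‖fderiv ℝ (zt c1 ρ) ξ‖ ^ 2 ≤ 45 / N2 ξ ^ 3 := by
  have hN := N2_pos h0
  rw [norm_fderiv_sq, gx_zt hc h0, gy_zt hc h0]
  have h1 := Y_sq (c1 := c1) h0
  have h2 := grad_s1 hρ h0
  have h3 := Z0_le hc h0
  have h4 := Z0_nonneg (c1 := c1) ξ
  have h5 := s1_nonneg ρ ξ
  have h6 := s1_le ρ ξ
  set s := s1 ρ ξ
  set z := Z0 c1 ξ
  set y1 := Y1 c1 ξ
  set y2 := Y2 c1 ξ
  set p1 := gx (s1 ρ) ξ
  set p2 := gy (s1 ρ) ξ
  set N := N2 ξ
  have e1 : (s * y1 + z * p1) ^ 2 + (s * y2 + z * p2) ^ 2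
      ≤ 2 * (s ^ 2 * (y1 ^ 2 + y2 ^ 2)) + 2 * (z ^ 2 * (p1 ^ 2 + p2 ^ 2)) := by
    nlinarith [sq_nonneg (s * y1 - z * p1), sq_nonneg (s * y2 - z * p2)]
  have e2 : s ^ 2 * (y1 ^ 2 + y2 ^ 2) ≤ 1 * (4 / N ^ 3) := by
    apply mul_le_mul _ h1 (by positivity) (by norm_num)
    nlinarith
  have e3 : z ^ 2 * (p1 ^ 2 + p2 ^ 2) ≤ (1 / N) ^ 2 * (18.3 / N) := by
    apply mul_le_mul _ h2 (by positivity) (by positivity)
    gcongr
  have e4 : 2 * (1 * (4 / N ^ 3)) + 2 * ((1 / N) ^ 2 * (18.3 / N)) ≤ 45 / N ^ 3 := by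
    have : 2 * (1 * (4 / N ^ 3)) + 2 * ((1 / N) ^ 2 * (18.3 / N)) = 44.6 / N ^ 3 := by
      field_simp
      norm_num
    rw [this]
    gcongr
    norm_num
  linarith

/-- the gradient vanishes outside of the ring `ρ < ‖ξ‖ < 1` -/
lemma grad_zt_zero (hc : 1 < c1) {ρ : ℝ} (hρ : 0 < ρ) {ξ : ℂ} (h : ¬ (ρ < ‖ξ‖ ∧ ‖ξ‖ < 1)) :
    ‖fderiv ℝ (zt c1 ρ) ξ‖ ^ 2 = 0 := by
  have hc0 : 0 < c1 := one_pos.trans hc
  rw [norm_fderiv_sq]
  by_cases h0 : ξ = 0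
  · have : N2 ξ < ρ ^ 2 := by rw [h0]; simp [N2]; positivity
    unfold gx gy
    rw [(zt_ev_zero hρ this).fderiv_eq]
    simp
  rw [gx_zt hc0 h0, gy_zt hc0 h0]
  rcases le_or_gt ‖ξ‖ ρ with h1 | h1
  · have h2 : N2 ξ ≤ ρ ^ 2 := by
      rw [N2_eq]
      have := norm_nonneg ξ
      gcongr
    rw [s1_low h2, gx_s1, gy_s1, dsg_low h2]
    ring
  · have h2 : 1 ≤ ‖ξ‖ := by
      by_contra hcon
      exact h ⟨h1, not_le.1 hcon⟩
    have h3 : 1 ≤ N2 ξ := by rw [N2_eq]; nlinarith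
    have h4 : f0 ξ - c1 ≤ 0 := by
      have h5 := f0_le ξ
      have h6 : 1 / N2 ξ ≤ 1 := by rw [div_le_one (by linarith)]; exact h3
      linarith
    have e1 : Y1 c1 ξ = 0 := by unfold Y1; rw [sg_of_nonpos h4]; simp
    have e2 : Y2 c1 ξ = 0 := by unfold Y2; rw [sg_of_nonpos h4]; simp
    have e3 : Z0 c1 ξ = 0 := by unfold Z0; rw [PS_of_nonpos h4]; simp
    rw [e1, e2, e3]
    ring

/-- integral of `‖ξ‖⁻⁶` in a ring -/
lemma int_ring {ρ : ℝ} (hρ : 0 < ρ) (hρ1 : ρ ≤ 1) :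
    ∫ x : ℂ, indicator {x : ℂ | ρ < ‖x‖ ∧ ‖x‖ < 1} (fun x => 45 / N2 x ^ 3) x
      ≤ 45 * (Real.pi / 2) / ρ ^ 4 := by
  have hpi := Real.pi_pos
  have e1 : ∫ x : ℂ, indicator {x : ℂ | ρ < ‖x‖ ∧ ‖x‖ < 1} (fun x => 45 / N2 x ^ 3) x
      = ∫ r in ρ..1, ∫ t in (-Real.pi)..Real.pi, r * (45 / (max r ρ) ^ 6) := by
    refine integral_sector hρ.le hρ1 le_rfl (by linarith) le_rfl _
      (fun r _ => r * (45 / (max r ρ) ^ 6)) ?_ ?_
    · have : Continuous (fun p : ℝ × ℝ => p.1 * (45 / (max p.1 ρ) ^ 6)) := by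
        refine continuous_fst.mul (continuous_const.div ((continuous_fst.max continuous_const).pow 6) ?_)
        intro p
        have : 0 < max p.1 ρ := lt_max_of_lt_right hρ
        positivity
      exact this
    · intro r t hr ht1 ht2
      have hn : ‖(r : ℂ) * ev t‖ = r := by
        rw [norm_mul, norm_ev, mul_one, Complex.norm_real, Real.norm_of_nonneg hr.le]
      by_cases h : ρ < r ∧ r < 1
      · have m1 : (r : ℂ) * ev t ∈ {x : ℂ | ρ < ‖x‖ ∧ ‖x‖ < 1} := by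
          rw [mem_ofPred_eq, hn]; exact h
        have m2 : ((r, t) : ℝ × ℝ) ∈ Ioo ρ 1 ×ˢ Ioo (-Real.pi) Real.pi := ⟨h, ht1, ht2⟩
        rw [indicator_of_mem m1, indicator_of_mem m2]
        simp only [Function.uncurry]
        rw [N2_eq, hn, max_eq_left h.1.le]
        ring
      · have m1 : (r : ℂ) * ev t ∉ {x : ℂ | ρ < ‖x‖ ∧ ‖x‖ < 1} := by
          rw [mem_ofPred_eq, hn]; exact h
        have m2 : ((r, t) : ℝ × ℝ) ∉ Ioo ρ 1 ×ˢ Ioo (-Real.pi) Real.pi := fun hm => h hm.1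
        rw [indicator_of_notMem m1, indicator_of_notMem m2, mul_zero]
  rw [e1]
  have e2 : ∫ r in ρ..1, ∫ t in (-Real.pi)..Real.pi, r * (45 / (max r ρ) ^ 6)
      = ∫ r in ρ..1, 90 * Real.pi * (r ^ 5)⁻¹ := by
    refine intervalIntegral.integral_congr fun r hr => ?_
    rw [uIcc_of_le hρ1] at hr
    have hr0 : 0 < r := lt_of_lt_of_le hρ hr.1
    simp only [intervalIntegral.integral_const, smul_eq_mul]
    rw [max_eq_left hr.1]
    field_simp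
    ring
  rw [e2]
  have e3 : ∫ r in ρ..1, 90 * Real.pi * (r ^ 5)⁻¹
      = (-(90 * Real.pi / 4) * ((1:ℝ) ^ 4)⁻¹) - (-(90 * Real.pi / 4) * (ρ ^ 4)⁻¹) := by
    apply intervalIntegral.integral_eq_sub_of_hasDerivAt
      (f := fun r => -(90 * Real.pi / 4) * (r ^ 4)⁻¹)
    · intro r hr
      rw [uIcc_of_le hρ1] at hr
      have hr0 : r ≠ 0 := (lt_of_lt_of_le hρ hr.1).ne'
      have h1 := ((hasDerivAt_pow 4 r).inv (pow_ne_zero 4 hr0)).const_mul (-(90 * Real.pi / 4))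
      refine h1.congr_deriv ?_
      field_simp
      norm_num
    · apply ContinuousOn.intervalIntegrable
      intro r hr
      rw [uIcc_of_le hρ1] at hr
      have hr0 : r ≠ 0 := (lt_of_lt_of_le hρ hr.1).ne'
      exact (continuousAt_const.mul ((continuousAt_id.pow 5).inv₀ (pow_ne_zero 5 hr0))).continuousWithinAt
  rw [e3]
  have : 45 * (Real.pi / 2) / ρ ^ 4 = 90 * Real.pi / 4 * (ρ ^ 4)⁻¹ := by ring
  rw [this]
  simp only [one_pow, inv_one, mul_one]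
  linarith

/-- energy of the test function -/
lemma En_zt (hc : 1 < c1) {ρ : ℝ} (hρ : 0 < ρ) (hρ1 : ρ ≤ 1) :
    En (zt c1 ρ) ≤ 45 * (Real.pi / 2) / ρ ^ 4 := by
  have hc0 : 0 < c1 := one_pos.trans hc
  refine le_trans ?_ (int_ring hρ hρ1)
  unfold En
  set R : Set ℂ := {x : ℂ | ρ < ‖x‖ ∧ ‖x‖ < 1} with hR
  have hRm : MeasurableSet R :=
    ((isOpen_lt continuous_const continuous_norm).inter
      (isOpen_lt continuous_norm continuous_const)).measurableSet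
  refine integral_mono_of_nonneg (Eventually.of_forall fun x => by positivity) ?_
    (Eventually.of_forall fun x => ?_)
  · rw [integrable_indicator_iff hRm]
    have hK : IsCompact {x : ℂ | ρ ≤ ‖x‖ ∧ ‖x‖ ≤ 1} := by
      refine Metric.isCompact_of_isClosed_isBounded
        ((isClosed_le continuous_const continuous_norm).inter
          (isClosed_le continuous_norm continuous_const)) ?_
      rw [isBounded_iff_forall_norm_le]
      exact ⟨1, fun x hx => hx.2⟩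
    refine IntegrableOn.mono_set (t := {x : ℂ | ρ ≤ ‖x‖ ∧ ‖x‖ ≤ 1}) ?_
      (fun x hx => ⟨hx.1.le, hx.2.le⟩)
    have hco : ContinuousOn (fun x => 45 / N2 x ^ 3) {x : ℂ | ρ ≤ ‖x‖ ∧ ‖x‖ ≤ 1} := by
      intro x hx
      have hx0 : x ≠ 0 := by
        rw [← norm_pos_iff]; exact lt_of_lt_of_le hρ hx.1
      have := N2_pos hx0
      exact (continuousAt_const.div (N2_contDiff.continuous.continuousAt.pow 3)
        (pow_pos this 3).ne').continuousWithinAt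
    exact hco.integrableOn_compact hK
  · by_cases hx : x ∈ R
    · have hx0 : x ≠ 0 := by
        rw [← norm_pos_iff]; exact hρ.trans hx.1
      rw [indicator_of_mem hx]
      exact grad_zt hc0 hρ hx0
    · rw [indicator_of_notMem hx]
      exact (grad_zt_zero hc hρ hx).le

/-- support of the test function -/
lemma zt_isT {η : ℝ} (hη : 0 < η) {ρ : ℝ} (hρ : 0 < ρ) {V : Set ℂ}
    (hV : {ξ : ℂ | |ξ.im| < ξ.re ∧ ‖ξ‖ < η} ⊆ V) : IsT V (zt (1.1 / η ^ 2) ρ) := by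
  set c1 := 1.1 / η ^ 2 with hc1
  have hc : 0 < c1 := by positivity
  set S : Set ℂ := {ξ : ℂ | ρ ^ 2 ≤ N2 ξ ∧ 0 ≤ ξ.re ∧ c1 * N2 ξ ^ 2 ≤ ξ.re ^ 2 - ξ.im ^ 2} with hS
  have hNc : Continuous N2 := N2_contDiff.continuous
  have hScl : IsClosed S := (isClosed_le continuous_const hNc).inter
    ((isClosed_le continuous_const Complex.continuous_re).inter
      (isClosed_le (continuous_const.mul (hNc.pow 2))
        ((Complex.continuous_re.pow 2).sub (Complex.continuous_im.pow 2))))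
  have hSsub : S ⊆ {ξ : ℂ | |ξ.im| < ξ.re ∧ ‖ξ‖ < η} := by
    rintro ξ ⟨h1, h2, h3⟩
    have hN : 0 < N2 ξ := lt_of_lt_of_le (by positivity) h1
    have h4 : 0 < ξ.re ^ 2 - ξ.im ^ 2 := lt_of_lt_of_le (by positivity) h3
    constructor
    · exact abs_lt_of_sq_lt_sq (by linarith) h2
    · have h5 : ξ.re ^ 2 - ξ.im ^ 2 ≤ N2 ξ := by unfold N2; nlinarith [sq_nonneg ξ.im]
      have h6 : c1 * N2 ξ ^ 2 ≤ N2 ξ := h3.trans h5
      have h7 : c1 * N2 ξ ≤ 1 := by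
        have : c1 * N2 ξ * N2 ξ ≤ 1 * N2 ξ := by nlinarith
        exact le_of_mul_le_mul_right this hN
      have h8 : N2 ξ < η ^ 2 := by
        rw [hc1, div_mul_eq_mul_div, div_le_one (by positivity)] at h7
        nlinarith
      rw [N2_eq] at h8
      exact lt_of_pow_lt_pow_left₀ 2 hη.le h8
  have hsupp : Function.support (zt c1 ρ) ⊆ S := by
    intro ξ hξ
    have h1 : s1 ρ ξ ≠ 0 := left_ne_zero_of_mul hξ
    have h2 : Z0 c1 ξ ≠ 0 := right_ne_zero_of_mul hξ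
    have h3 : ρ ^ 2 ≤ N2 ξ := by
      by_contra hcon
      exact h1 (s1_low (not_le.1 hcon).le)
    have hN : 0 < N2 ξ := lt_of_lt_of_le (by positivity) h3
    have h4 : 0 < ξ.re := by
      by_contra hcon
      apply h2; unfold Z0; simp [hcon]
    have h5 : c1 ≤ f0 ξ := by
      by_contra hcon
      apply h2; unfold Z0
      rw [PS_of_nonpos (by linarith [not_le.1 hcon])]; simp
    refine ⟨h3, h4.le, ?_⟩
    rw [f0_eq, le_div_iff₀ (by positivity)] at h5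
    exact h5
  have hts : tsupport (zt c1 ρ) ⊆ S := closure_minimal hsupp hScl
  refine ⟨zt_contDiff hc hρ, ?_, hts.trans (hSsub.trans hV)⟩
  refine Metric.isCompact_of_isClosed_isBounded (isClosed_tsupport _) ?_
  rw [isBounded_iff_forall_norm_le]
  exact ⟨η, fun x hx => (hSsub (hts hx)).2.le⟩

/-- lower bound of the test function in the window -/
lemma zt_window {η : ℝ} (hη : 0 < η) (hη1 : η ≤ 1 / 10) {ρ : ℝ} (hρ : 0 < ρ) (hρη : 16 * ρ ≤ η)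
    {ξ : ℂ} (h1 : 1 + η / 8 < ‖1 + ξ‖) (h2 : ‖1 + ξ‖ < 1 + 7 * η / 8)
    (h3 : |Complex.arg (1 + ξ)| < η / 100) : 1 ≤ zt (1.1 / η ^ 2) ρ ξ := by
  set r := ‖1 + ξ‖ with hr
  set θ := Complex.arg (1 + ξ) with hθ
  have hre : ξ.re = r * Real.cos θ - 1 := by
    have := Complex.norm_mul_cos_arg (1 + ξ)
    rw [← hr, ← hθ, Complex.add_re, Complex.one_re] at this
    linarith
  have him : ξ.im = r * Real.sin θ := by
    have := Complex.norm_mul_sin_arg (1 + ξ)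
    rw [← hr, ← hθ, Complex.add_im, Complex.one_im] at this
    linarith
  have hr0 : 0 < r := by linarith
  have hr2 : r ≤ 1.0875 := by linarith
  have hsin : |Real.sin θ| ≤ |θ| := Real.abs_sin_le_abs
  have hb : |ξ.im| ≤ 0.0109 * η := by
    rw [him, abs_mul, abs_of_pos hr0]
    calc r * |Real.sin θ| ≤ 1.0875 * (η / 100) :=
          mul_le_mul hr2 (hsin.trans h3.le) (abs_nonneg _) (by norm_num)
      _ ≤ 0.0109 * η := by linarith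
  have hcos : 1 - θ ^ 2 / 2 ≤ Real.cos θ := Real.one_sub_sq_div_two_le_cos
  have hθ2 : θ ^ 2 ≤ (η / 100) ^ 2 := by
    rw [← sq_abs]
    gcongr
  have ha1 : 0.1249 * η ≤ ξ.re := by
    rw [hre]
    have h4 : 1 - (η / 100) ^ 2 / 2 ≤ Real.cos θ := by linarith
    have h5 : r * (1 - (η / 100) ^ 2 / 2) ≤ r * Real.cos θ := mul_le_mul_of_nonneg_left h4 hr0.le
    have h6 : 0 < 1 - (η / 100) ^ 2 / 2 := by nlinarith
    have h7 : (1 + η / 8) * (1 - (η / 100) ^ 2 / 2) ≤ r * (1 - (η / 100) ^ 2 / 2) :=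
      mul_le_mul_of_nonneg_right h1.le h6.le
    nlinarith [mul_pos hη hη, mul_pos hη (mul_pos hη hη)]
  have ha2 : ξ.re ≤ 0.875 * η := by
    rw [hre]
    have : r * Real.cos θ ≤ r * 1 := mul_le_mul_of_nonneg_left (Real.cos_le_one _) hr0.le
    linarith
  have ha0 : 0 < ξ.re := lt_of_lt_of_le (by positivity) ha1
  -- N2 ξ ≥ 4 ρ²
  have hN : 4 * ρ ^ 2 ≤ N2 ξ := by
    rw [N2_eq]
    have h4 : η / 8 ≤ ‖ξ‖ := by
      have : r ≤ 1 + ‖ξ‖ := by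
        rw [hr]
        calc ‖1 + ξ‖ ≤ ‖(1:ℂ)‖ + ‖ξ‖ := norm_add_le _ _
          _ = 1 + ‖ξ‖ := by simp
      linarith
    have h5 : 2 * ρ ≤ ‖ξ‖ := by linarith
    nlinarith
  have hNpos : 0 < N2 ξ := lt_of_lt_of_le (by positivity) hN
  -- f0 ≥ c1 + 2
  have hf : 1.12 / η ^ 2 ≤ f0 ξ := by
    rw [f0_eq, div_le_div_iff₀ (by positivity) (by positivity)]
    set A := ξ.re ^ 2 with hA
    set B := ξ.im ^ 2 with hB
    have hN' : N2 ξ = A + B := rfl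
    rw [hN']
    have hA1 : 0.0155 * η ^ 2 ≤ A := by
      have : (0.1249 * η) ^ 2 ≤ ξ.re ^ 2 := by gcongr
      nlinarith
    have hA2 : A ≤ 0.76563 * η ^ 2 := by
      have : ξ.re ^ 2 ≤ (0.875 * η) ^ 2 := by gcongr
      nlinarith
    have hB1 : B ≤ 0.00012 * η ^ 2 := by
      have : ξ.im ^ 2 ≤ (0.0109 * η) ^ 2 := by
        rw [← sq_abs]
        gcongr
      nlinarith
    have hB0 : 0 ≤ B := sq_nonneg _
    have hA0 : 0 ≤ A := sq_nonneg _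
    have hη2 : 0 < η ^ 2 := by positivity
    set H := η ^ 2 with hH
    -- 1.12 (A+B)^2 ≤ (A-B) H
    have h6 : (A + B) * (A + B) ≤ (A + B) * (0.7658 * H) :=
      mul_le_mul_of_nonneg_left (by linarith) (by linarith)
    nlinarith
  have h4 : 2 ≤ f0 ξ - 1.1 / η ^ 2 := by
    have h5 : 2 ≤ 0.02 / η ^ 2 := by
      rw [le_div_iff₀ (by positivity)]
      nlinarith
    have h6 : (1.12 : ℝ) / η ^ 2 = 1.1 / η ^ 2 + 0.02 / η ^ 2 := by
      rw [← add_div]; norm_num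
    linarith
  unfold zt
  rw [s1_high hρ hN, one_mul]
  unfold Z0
  rw [if_pos ha0]
  have := PS_ge (f0 ξ - 1.1 / η ^ 2)
  linarith

/-- the gain in tip coordinates -/
theorem core {η : ℝ} (hη : 0 < η) (hη1 : η ≤ 1 / 10) {Λ : ℝ} (hΛ : 1 ≤ Λ) {w : ℝ} (hw : 0 < w)
    (hwη : w ≤ η) {V : Set ℂ} (hVo : IsOpen V) (hV : {ξ : ℂ | |ξ.im| < ξ.re ∧ ‖ξ‖ < η} ⊆ V)
    (hpos : ∀ u : ℂ → ℝ, IsT V u → 0 ≤ qf Λ u) {z : ℂ → ℝ} (hz : IsT V z) (hz0 : ∀ x, 0 ≤ z x)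
    (hzs : ∀ x ∈ closedBall (0:ℂ) (w / 8), x ∉ tsupport z) {B : Set ℂ} (hB : MeasurableSet B)
    (hBw : ∀ ξ ∈ B, 1 + η / 8 < ‖1 + ξ‖ ∧ ‖1 + ξ‖ < 1 + 7 * η / 8 ∧ |Complex.arg (1 + ξ)| < η / 100) :
    1 / 5000000 * w ^ 4 * (∫ x in B, z x) ^ 2 ≤ qf Λ z := by
  set ρ := w / 16 with hρ
  have hρ0 : 0 < ρ := by positivity
  set c1 := 1.1 / η ^ 2 with hc1
  have hc0 : 0 < c1 := by positivity
  have hc : 1 < c1 := by
    rw [hc1, lt_div_iff₀ (by positivity)]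
    nlinarith
  have hζ : IsT V (zt c1 ρ) := zt_isT hη hρ0 hV
  -- away from the tip
  set V' : Set ℂ := V ∩ {ξ : ℂ | w / 8 < ‖ξ‖} with hV'
  have hV'o : IsOpen V' := hVo.inter (isOpen_lt continuous_const continuous_norm)
  have hz' : IsT V' z := by
    refine ⟨hz.smooth, hz.cpt, fun x hx => ⟨hz.supp hx, ?_⟩⟩
    by_contra hcon
    refine hzs x ?_ hx
    rw [mem_closedBall_zero_iff]
    exact not_lt.1 hcon
  have hne : ∀ x ∈ V', x ≠ 0 := by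
    intro x hx
    rw [← norm_pos_iff]
    exact lt_trans (by positivity) hx.2
  have hN4 : ∀ x ∈ V', 4 * ρ ^ 2 ≤ N2 x := by
    intro x hx
    rw [N2_eq]
    have h1 : w / 8 < ‖x‖ := hx.2
    have h2 : 2 * ρ ≤ ‖x‖ := by rw [hρ]; linarith
    nlinarith
  have hibp := hz'.ibp hV'o (X1 := Y1 c1) (X2 := Y2 c1)
    (fun x hx => (Y1_contDiffAt hc0 (hne x hx)).contDiffWithinAt)
    (fun x hx => (Y2_contDiffAt hc0 (hne x hx)).contDiffWithinAt)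
  have hgrad : ∫ x, (gx z x * gx (zt c1 ρ) x + gy z x * gy (zt c1 ρ) x)
      = ∫ x, (Y1 c1 x * gx z x + Y2 c1 x * gy z x) := by
    congr 1
    ext x
    by_cases hx : x ∈ tsupport z
    · have hxV := hz'.supp hx
      have h0 := hne x hxV
      have h4 := hN4 x hxV
      rw [gx_zt hc0 h0, gy_zt hc0 h0, gx_s1, gy_s1, dsg_high hρ0 h4, s1_high hρ0 h4]
      ring
    · rw [gx_zero_of_notMem hx, gy_zero_of_notMem hx]
      ring
  have hdiv : 0 ≤ ∫ x, (gx (Y1 c1) x + gy (Y2 c1) x) * z x := by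
    apply integral_nonneg
    intro x
    simp only [Pi.zero_apply]
    by_cases hx : x ∈ tsupport z
    · exact mul_nonneg (div_Y hc0 (hne x (hz'.supp hx))) (hz0 x)
    · rw [zero_of_notMem hx, mul_zero]
  have hmass : ∫ x in B, z x ≤ ∫ x, z x * zt c1 ρ x := by
    have hint : Integrable (fun x => z x * zt c1 ρ x) := hz.int_mul hζ
    calc ∫ x in B, z x ≤ ∫ x in B, z x * zt c1 ρ x := by
          refine setIntegral_mono_on ?_ hint.integrableOn hB fun x hx => ?_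
          · exact (hz.continuous.integrable_of_hasCompactSupport hz.cpt).integrableOn
          · obtain ⟨a1, a2, a3⟩ := hBw x hx
            have h1 : 1 ≤ zt c1 ρ x := zt_window hη hη1 hρ0 (by rw [hρ]; linarith) a1 a2 a3
            have h2 := hz0 x
            nlinarith
      _ ≤ ∫ x, z x * zt c1 ρ x :=
          setIntegral_le_integral hint (Eventually.of_forall fun x =>
            mul_nonneg (hz0 x) (zt_nonneg _ _))
  have hB0 : 0 ≤ ∫ x in B, z x := setIntegral_nonneg hB fun x _ => hz0 x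
  have hbil : bil Λ z (zt c1 ρ) ≤ -(∫ x in B, z x) := by
    unfold bil
    rw [hgrad, hibp]
    have : (∫ x in B, z x) ≤ Λ * ∫ x, z x * zt c1 ρ x := by
      have h1 : 0 ≤ ∫ x, z x * zt c1 ρ x := hB0.trans hmass
      nlinarith
    linarith
  have hsq : (∫ x in B, z x) ^ 2 ≤ bil Λ z (zt c1 ρ) ^ 2 := by
    nlinarith
  have hcs := bil_sq_le hpos hz hζ
  have hqz : qf Λ (zt c1 ρ) ≤ 5000000 / w ^ 4 := by
    have h1 : En (zt c1 ρ) ≤ 45 * (Real.pi / 2) / ρ ^ 4 := En_zt hc hρ0 (by rw [hρ]; linarith)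
    have h2 : 0 ≤ Ma (zt c1 ρ) := integral_nonneg fun x => sq_nonneg _
    have h3 : qf Λ (zt c1 ρ) ≤ En (zt c1 ρ) := by
      unfold qf
      nlinarith
    have h4 : 45 * (Real.pi / 2) / ρ ^ 4 ≤ 5000000 / w ^ 4 := by
      have hpi := Real.pi_lt_d2
      rw [hρ, div_pow, div_div_eq_mul_div]
      gcongr
      nlinarith
    linarith
  have hq0 := hpos z hz
  have hw4 : 0 < w ^ 4 := by positivity
  have h5 : (∫ x in B, z x) ^ 2 ≤ qf Λ z * (5000000 / w ^ 4) :=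
    (hsq.trans hcs).trans (mul_le_mul_of_nonneg_left hqz hq0)
  rw [mul_div_assoc', le_div_iff₀ hw4] at h5
  linarith

end Zt

open Zt

lemma qf_comp_tipH {U : Set ℂ} {v : ℂ → ℝ} (hv : IsT U v) (e : ℂ) (he : ‖e‖ = 1) (Λ : ℝ) :
    qf Λ (fun ξ => v (tipH e he ξ)) = qf Λ v := by
  unfold qf En Ma
  have h1 := tipH_integral e he (fun x => ‖fderiv ℝ v x‖ ^ 2) univ
  have h2 := tipH_integral e he (fun x => v x ^ 2) univ
  simp only [preimage_univ, Measure.restrict_univ] at h1 h2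
  rw [← h1, ← h2]
  congr 1
  refine integral_congr_ae (Eventually.of_forall fun ξ => ?_)
  exact hv.norm_fderiv_comp_tipH e he ξ

/-- Module Z -/
theorem zeta_gain (η : ℝ) (hη : 0 < η) (hη1 : η ≤ 1 / 10) :
    ∃ c : ℝ, 0 < c ∧ ∀ Λ : ℝ, 1 ≤ Λ → ∀ w : ℝ, 0 < w → w ≤ η → ∀ e : ℂ, ‖e‖ = 1 → ∀ V : Set ℂ, IsOpen V →
      {x : ℂ | |(x * conj e).im| < (x * conj e).re - 1 ∧ ‖x - e‖ < η} ⊆ V →
      (∀ u : ℂ → ℝ, IsT V u → 0 ≤ qf Λ u) → ∀ z : ℂ → ℝ, IsT V z → (∀ x, 0 ≤ z x) →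
      (∀ x ∈ closedBall e (w / 8), x ∉ tsupport z) →
      c * w ^ 4 * (∫ x in {x : ℂ | 1 + η / 8 < ‖x‖ ∧ ‖x‖ < 1 + 7 * η / 8 ∧ |Complex.arg (x * conj e)| < η / 100}, z x) ^ 2
        ≤ qf Λ z := by
  refine ⟨1 / 5000000, by norm_num, ?_⟩
  intro Λ hΛ w hw hwη e he V hVo hV hpos z hz hz0 hzs
  set T := tipH e he with hT
  set B : Set ℂ := {x : ℂ | 1 + η / 8 < ‖x‖ ∧ ‖x‖ < 1 + 7 * η / 8 ∧ |Complex.arg (x * conj e)| < η / 100}
    with hB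
  have hBm : MeasurableSet B := by
    have m1 : MeasurableSet {x : ℂ | 1 + η / 8 < ‖x‖} := measurableSet_lt measurable_const measurable_norm
    have m2 : MeasurableSet {x : ℂ | ‖x‖ < 1 + 7 * η / 8} :=
      measurableSet_lt measurable_norm measurable_const
    have m3 : MeasurableSet {x : ℂ | |Complex.arg (x * conj e)| < η / 100} :=
      measurableSet_lt (Complex.measurable_arg.comp (measurable_id.mul_const _)).abs measurable_const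
    exact m1.inter (m2.inter m3)
  have hTc : ∀ ξ, T ξ * conj e = 1 + ξ := by
    intro ξ
    have := tipH_coord e he ξ
    linear_combination this
  have hTn : ∀ ξ, ‖T ξ‖ = ‖1 + ξ‖ := by
    intro ξ
    rw [hT, tipH_apply, norm_mul, he, one_mul]
  have hsymm : ∀ x, T.symm x = x * conj e - 1 := by
    intro x
    rw [Homeomorph.symm_apply_eq]
    exact (tipH_symm e he x).symm
  have hz' := hz.comp_tipH e he
  have hVo' : IsOpen (T ⁻¹' V) := hVo.preimage T.continuous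
  have key := core hη hη1 hΛ hw hwη hVo' (V := T ⁻¹' V) ?_ ?_ hz' (fun ξ => hz0 _) ?_
    (B := T ⁻¹' B) (T.continuous.measurable hBm) ?_
  · have e1 : ∫ ξ in T ⁻¹' B, z (T ξ) = ∫ x in B, z x := tipH_integral e he z B
    rw [e1, qf_comp_tipH hz e he] at key
    exact key
  · intro ξ hξ
    apply hV
    have h1 : (T ξ * conj e).re - 1 = ξ.re := by rw [hTc]; simp
    have h2 : (T ξ * conj e).im = ξ.im := by rw [hTc]; simp
    refine ⟨?_, ?_⟩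
    · rw [h1, h2]; exact hξ.1
    · rw [hT, tipH_sub]; exact hξ.2
  · intro u hu
    set v : ℂ → ℝ := fun x => u (T.symm x) with hv
    have hvT : IsT V v := by
      refine ⟨?_, ?_, ?_⟩
      · refine hu.smooth.comp ?_
        have : (fun x => T.symm x) = fun x => x * conj e - 1 := funext hsymm
        have h2 : ContDiff ℝ 1 (fun x : ℂ => x * conj e - 1) := by fun_prop
        rw [← this] at h2
        exact h2
      · exact hu.cpt.comp_homeomorph T.symm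
      · have h1 : tsupport v = T.symm ⁻¹' tsupport u := tsupport_comp_eq_preimage u T.symm
        rw [h1]
        intro x hx
        have h2 := hu.supp hx
        rw [mem_preimage, T.apply_symm_apply] at h2
        exact h2
    have h1 := qf_comp_tipH hvT e he Λ
    have h2 : (fun ξ => v (tipH e he ξ)) = u := by
      funext ξ
      simp only [hv]
      rw [← hT, T.symm_apply_apply]
    rw [h2] at h1
    rw [h1]
    exact hpos v hvT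
  · intro ξ hξ hmem
    have h1 : tsupport (fun ξ => z (T ξ)) = T ⁻¹' tsupport z := tsupport_comp_eq_preimage z T
    have h2 : T ξ ∈ tsupport z := by
      have h3 : ξ ∈ tsupport (fun ξ => z (T ξ)) := hmem
      rw [h1] at h3
      exact h3
    refine hzs (T ξ) ?_ h2
    rw [mem_closedBall, dist_eq_norm, hT, tipH_sub]
    rwa [mem_closedBall_zero_iff] at hξ
  · intro ξ hξ
    have h1 : T ξ ∈ B := hξ
    obtain ⟨a1, a2, a3⟩ := h1
    rw [hTn] at a1 a2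
    rw [hTc] at a3
    exact ⟨a1, a2, a3⟩

end Pool.Agent.MP0c2
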