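import Pool.Agent.Lib.MP_0c2aee_an.Window
import Pool.Agent.Lib.MP_0c2aee_an.Zeta

/-! Lower bound for obstacles swallowing a tip. -/

set_option autoImplicit false

open MeasureTheory Set Metric Topology Filter
open scoped ComplexConjugate

namespace Pool.Agent.MP0c2

variable {E : Finset ℂ} {η s d w r h ρ a1 a2 Λ ε : ℝ}

/-- smooth absolute value -/
noncomputable def sab (δ t : ℝ) : ℝ := √(t ^ 2 + δ ^ 2) - δ

lemma sab_contDiff {δ : ℝ} (hδ : 0 < δ) : ContDiff ℝ 1 (sab δ) := by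
  unfold sab
  apply ContDiff.sub _ contDiff_const
  apply ContDiff.sqrt (by fun_prop)
  intro t; positivity

lemma sab_hasDerivAt {δ : ℝ} (hδ : 0 < δ) (t : ℝ) : HasDerivAt (sab δ) (t / √(t ^ 2 + δ ^ 2)) t := by
  have h1 : HasDerivAt (fun t : ℝ => t ^ 2 + δ ^ 2) (2 * t) t := by
    simpa using (hasDerivAt_pow 2 t).add_const (δ ^ 2)
  have h2 := (h1.sqrt (by positivity)).sub_const δ
  refine h2.congr_deriv ?_
  field_simp

lemma sab_nonneg {δ : ℝ} (hδ : 0 < δ) (t : ℝ) : 0 ≤ sab δ t := by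
  unfold sab
  have : δ ≤ √(t ^ 2 + δ ^ 2) := Real.le_sqrt_of_sq_le (by nlinarith [sq_nonneg t])
  linarith

lemma sab_zero {δ : ℝ} (hδ : 0 < δ) : sab δ 0 = 0 := by
  unfold sab; simp [Real.sqrt_sq hδ.le]

lemma sab_sq_ge {δ : ℝ} (hδ : 0 < δ) (t : ℝ) : t ^ 2 - 2 * δ * |t| ≤ sab δ t ^ 2 := by
  have h0 := sab_nonneg hδ t
  have h1 : |t| - δ ≤ sab δ t := by
    unfold sab
    have : |t| ≤ √(t ^ 2 + δ ^ 2) := Real.abs_le_sqrt (by nlinarith [sq_nonneg δ])
    linarith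
  have h2 : t ^ 2 = |t| ^ 2 := (sq_abs t).symm
  rw [h2]
  by_cases h3 : δ ≤ |t|
  · nlinarith [abs_nonneg t]
  · push Not at h3
    nlinarith [abs_nonneg t, sq_nonneg (sab δ t)]

lemma IsT.sab {U : Set ℂ} {u : ℂ → ℝ} (hu : IsT U u) {δ : ℝ} (hδ : 0 < δ) :
    IsT U (fun x => sab δ (u x)) := by
  have hsup : tsupport (fun x => MP0c2.sab δ (u x)) ⊆ tsupport u := by
    apply closure_minimal _ (isClosed_tsupport u)
    intro x hx
    apply subset_tsupport
    intro h0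
    apply hx
    simp only
    rw [h0, sab_zero hδ]
  exact ⟨(sab_contDiff hδ).comp hu.smooth, hu.cpt.mono' (subset_closure.trans hsup),
    hsup.trans hu.supp⟩

lemma IsT.sab_En {U : Set ℂ} {u : ℂ → ℝ} (hu : IsT U u) {δ : ℝ} (hδ : 0 < δ) :
    En (fun x => MP0c2.sab δ (u x)) ≤ En u := by
  unfold En
  apply integral_mono (hu.sab hδ).int_norm_sq hu.int_norm_sq
  intro x
  simp only
  have h1 := ((sab_hasDerivAt hδ (u x)).comp_hasFDerivAt x (hu.differentiable x).hasFDerivAt).fderiv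
  have h2 : fderiv ℝ (fun x => MP0c2.sab δ (u x)) x = (u x / √(u x ^ 2 + δ ^ 2)) • fderiv ℝ u x := h1
  rw [h2, norm_smul]
  have h3 : ‖u x / √(u x ^ 2 + δ ^ 2)‖ ≤ 1 := by
    rw [norm_div, Real.norm_eq_abs, Real.norm_eq_abs, abs_of_nonneg (Real.sqrt_nonneg _)]
    apply div_le_one_of_le₀ _ (Real.sqrt_nonneg _)
    exact Real.abs_le_sqrt (by nlinarith [sq_nonneg δ])
  have h4 : ‖u x / √(u x ^ 2 + δ ^ 2)‖ * ‖fderiv ℝ u x‖ ≤ ‖fderiv ℝ u x‖ :=
    mul_le_of_le_one_left (norm_nonneg _) h3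
  gcongr

/-- It is enough to treat nonnegative functions. -/
lemma of_nonneg {U : Set ℂ} {X : ℝ} (hX : 0 ≤ X)
    (hpos : ∀ z, IsT U z → (∀ x, 0 ≤ z x) → X * Ma z ≤ En z) {z : ℂ → ℝ} (hz : IsT U z) :
    X * Ma z ≤ En z := by
  have habs : Integrable (fun x => |z x|) :=
    (hz.continuous.integrable_of_hasCompactSupport hz.cpt).abs
  have h1 : ∀ δ : ℝ, 0 < δ → X * (Ma z - 2 * δ * ∫ x, |z x|) ≤ En z := by
    intro δ hδ
    have h2 := hpos _ (hz.sab hδ) (fun x => sab_nonneg hδ _)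
    have h3 : Ma z - 2 * δ * ∫ x, |z x| ≤ Ma (fun x => MP0c2.sab δ (z x)) := by
      unfold Ma
      rw [← integral_const_mul, ← integral_sub hz.int_sq (habs.const_mul _)]
      apply integral_mono (hz.int_sq.sub (habs.const_mul _)) (hz.sab hδ).int_sq
      intro x
      exact sab_sq_ge hδ (z x)
    calc X * (Ma z - 2 * δ * ∫ x, |z x|) ≤ X * Ma (fun x => MP0c2.sab δ (z x)) := by gcongr
      _ ≤ _ := h2
      _ ≤ _ := hz.sab_En hδ
  have t1 : Tendsto (fun δ : ℝ => X * (Ma z - 2 * δ * ∫ x, |z x|)) (𝓝[>] 0) (𝓝 (X * Ma z)) := by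
    have : Tendsto (fun δ : ℝ => X * (Ma z - 2 * δ * ∫ x, |z x|)) (𝓝 0)
        (𝓝 (X * (Ma z - 2 * 0 * ∫ x, |z x|))) := by
      apply Continuous.tendsto
      fun_prop
    simp only [mul_zero, zero_mul, sub_zero] at this
    exact this.mono_left nhdsWithin_le_nhds
  exact le_of_tendsto t1 (by filter_upwards [self_mem_nhdsWithin] with δ hδ; exact h1 δ hδ)

lemma qf_smul {U : Set ℂ} {z : ℂ → ℝ} (hz : IsT U z) (Λ c : ℝ) :
    En (fun x => c * z x) = c ^ 2 * En z ∧ Ma (fun x => c * z x) = c ^ 2 * Ma z := by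
  constructor
  · unfold En
    rw [← integral_const_mul]
    congr 1; ext x
    rw [norm_fderiv_sq, norm_fderiv_sq, gx_const_mul c hz.differentiable, gy_const_mul c hz.differentiable]
    ring
  · unfold Ma
    rw [← integral_const_mul]
    congr 1; ext x; ring

/-- Lower bound for functions vanishing near a tip ball. -/
theorem Hyp.lower {cz : ℝ} (hcz : 0 < cz)
    (hzeta : ∀ Λ : ℝ, 1 ≤ Λ → ∀ w : ℝ, 0 < w → w ≤ (1 / 1000 : ℝ) → ∀ e : ℂ, ‖e‖ = 1 → ∀ V : Set ℂ, IsOpen V →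
      {x : ℂ | |(x * conj e).im| < (x * conj e).re - 1 ∧ ‖x - e‖ < (1 / 1000 : ℝ)} ⊆ V →
      (∀ u : ℂ → ℝ, IsT V u → 0 ≤ qf Λ u) → ∀ z : ℂ → ℝ, IsT V z → (∀ x, 0 ≤ z x) →
      (∀ x ∈ closedBall e (w / 8), x ∉ tsupport z) →
      cz * w ^ 4 * (∫ x in win (1 / 1000) e, z x) ^ 2 ≤ qf Λ z)
    (H : Hyp E (1 / 1000) s d w r h ρ) (hM : 0 < MM w r)
    (hq : Λ + 1 ≤ q0 h ρ / 100) (hΛ1 : 1 ≤ Λ)
    (hΛ : Λ ≤ Real.pi ^ 2 / (1 / 1000) ^ 2 - 1 / 4 + 6 / 10 ^ 4)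
    (hM2 : (Λ + 1) / MM w r ^ 2 ≤ 1 / 10 ^ 4) (hw1 : w ≤ 1 / 1000)
    (hform : ∀ u, IsT (Vs E (1 / 1000) w h) u → 0 ≤ qf Λ u)
    {K : Set ℂ} (hcore : closedBall 0 h ⊆ K) {e : ℂ} (he : e ∈ E) (hKe : closedBall e (w / 8) ⊆ K)
    {z : ℂ → ℝ} (hz : IsT (Om E (1 / 1000) w \ K) z) :
    (Λ + min (1 / 10 ^ 4) (cz * w ^ 4 * (1 / 10 ^ 8) ^ 2)) * Ma z ≤ En z := by
  have hVo := isOpen_Vs E (1 / 1000) w h
  set g := min ((1 : ℝ) / 10 ^ 4) (cz * w ^ 4 * (1 / 10 ^ 8) ^ 2) with hg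
  have hw0 := H.w0
  have hg0 : 0 < g := by rw [hg]; positivity
  refine of_nonneg (by linarith) ?_ hz
  clear hz z
  intro z hz hz0
  have hzV : IsT (Vs E (1 / 1000) w h) z := hz.mono (fun x hx => ⟨hx.1, fun hc => hx.2 (hcore hc)⟩)
  by_cases hm : Ma z = 0
  · rw [hm, mul_zero]; exact En_nonneg z
  have hmp : 0 < Ma z := lt_of_le_of_ne (Ma_nonneg z) (Ne.symm hm)
  -- normalise
  set c := 1 / √(Ma z) with hc
  have hsq : √(Ma z) ^ 2 = Ma z := Real.sq_sqrt hmp.le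
  have hsp : 0 < √(Ma z) := Real.sqrt_pos.2 hmp
  have hc0 : 0 < c := by positivity
  have hc2 : c ^ 2 * Ma z = 1 := by rw [hc, div_pow, hsq]; field_simp
  obtain ⟨eE, eM⟩ := qf_smul hzV Λ c
  have hz' : IsT (Vs E (1 / 1000) w h) (fun x => c * z x) := hzV.const_mul c
  have hz'0 : ∀ x, 0 ≤ c * z x := fun x => mul_nonneg hc0.le (hz0 x)
  have hM1 : Ma (fun x => c * z x) = 1 := by rw [eM, hc2]
  have key : g ≤ qf Λ (fun x => c * z x) := by
    by_cases hcase : (1 : ℝ) / 10 ^ 4 ≤ qf Λ (fun x => c * z x)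
    · exact (min_le_left _ _).trans hcase
    · push Not at hcase
      obtain ⟨y, hy, hy0, hyz, hy1, hy2, hy3⟩ := H.split hM hq hform hz' hz'0 hM1 hcase.le
      have hb : (1 : ℝ) / 10 ^ 4 + (Λ + 1 / 10 ^ 4) / MM w r ^ 2 ≤ 2 / 10 ^ 4 := by
        have : (Λ + 1 / 10 ^ 4) / MM w r ^ 2 ≤ (Λ + 1) / MM w r ^ 2 := by
          gcongr; norm_num
        norm_num at this hM2 ⊢
        linarith
      have hwin := window_lower hy hy0 (δ2 := 2 / 10 ^ 4) (by linarith) hy1 (hy3.trans hb) le_rfl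
        (by linarith) hΛ (H.good.unit e he)
      have hint : ∫ x in win (1 / 1000) e, y x ≤ ∫ x in win (1 / 1000) e, c * z x := by
        apply setIntegral_mono
        · exact (hy.continuous.integrable_of_hasCompactSupport hy.cpt).integrableOn
        · exact (hz'.continuous.integrable_of_hasCompactSupport hz'.cpt).integrableOn
        · exact hyz
      have hgain := hzeta Λ hΛ1 w hw0 hw1 e (H.good.unit e he) (Vs E (1 / 1000) w h) hVo
        (by
          intro x hx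
          obtain ⟨hx1, hx2⟩ := hx
          have hxA : x ∈ sideA E := ⟨e, he, hx1⟩
          have hn := sideA_norm H.good hxA
          refine ⟨⟨?_, Or.inl hxA⟩, ?_⟩
          · have h3 := H.good.unit e he
            have h4 : ‖x‖ ≤ ‖x - e‖ + ‖e‖ := by
              have := norm_add_le (x - e) e; simpa using this
            linarith
          · rw [mem_closedBall_zero_iff, not_le]
            linarith [H.h1])
        hform (fun x => c * z x) hz' hz'0
        (by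
          intro x hx hxs
          have h5 : x ∈ tsupport z := tsupport_mul_subset_right hxs
          exact (hz.supp h5).2 (hKe hx))
      refine (min_le_right _ _).trans (le_trans ?_ hgain)
      have h6 : (1 : ℝ) / 10 ^ 8 ≤ ∫ x in win (1 / 1000) e, c * z x := hwin.trans hint
      gcongr
  have h7 : qf Λ (fun x => c * z x) = c ^ 2 * En z - Λ * 1 := by
    unfold qf; rw [eE, hM1]
  rw [h7] at key
  have h8 : (Λ + g) * (c ^ 2 * Ma z) ≤ c ^ 2 * En z := by rw [hc2]; linarith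
  have h9 : c ^ 2 * ((Λ + g) * Ma z) ≤ c ^ 2 * En z := by linarith
  exact le_of_mul_le_mul_left h9 (by positivity)

end Pool.Agent.MP0c2
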