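import Pool.Agent.Lib.MP_0c2aee_an.Polar
import Pool.Agent.Lib.MP_0c2aee_an.Cut

/-! Upper bound for the first eigenvalue of a thin ring, by a radial test function. -/

set_option autoImplicit false

open MeasureTheory Set Metric Filter Topology

namespace Pool.Agent.MP0c2

/-- `C²` truncation at height `δ`. -/
noncomputable def FF (δ t : ℝ) : ℝ := ∫ τ in (0:ℝ)..t, sg ((τ - δ) / δ)

lemma FF_cont_int (δ : ℝ) : Continuous fun τ : ℝ => sg ((τ - δ) / δ) :=
  cont_sg.comp ((continuous_id.sub continuous_const).div_const _)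

lemma FF_hasDerivAt (δ t : ℝ) : HasDerivAt (FF δ) (sg ((t - δ) / δ)) t :=
  intervalIntegral.integral_hasDerivAt_right ((FF_cont_int δ).intervalIntegrable _ _)
    ((FF_cont_int δ).stronglyMeasurableAtFilter _ _) (FF_cont_int δ).continuousAt

lemma FF_cont (δ : ℝ) : Continuous (FF δ) :=
  continuous_iff_continuousAt.2 fun t => (FF_hasDerivAt δ t).continuousAt

lemma FF_mono (δ : ℝ) : Monotone (FF δ) := by
  apply monotone_of_deriv_nonneg (fun z => (FF_hasDerivAt δ z).differentiableAt)
  intro z
  rw [(FF_hasDerivAt δ z).deriv]; exact sg_nonneg _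

lemma FF_zero {δ : ℝ} (hδ : 0 < δ) {t : ℝ} (h : t ≤ δ) : FF δ t = 0 := by
  unfold FF
  apply intervalIntegral.integral_zero_ae
  filter_upwards with s hs
  apply sg_of_nonpos
  apply div_nonpos_of_nonpos_of_nonneg _ hδ.le
  rcases le_total 0 t with h0 | h0
  · rw [uIoc_of_le h0] at hs; linarith [hs.2]
  · rw [uIoc_of_ge h0] at hs; linarith [hs.2]

lemma FF_nonneg {δ : ℝ} (hδ : 0 < δ) (t : ℝ) : 0 ≤ FF δ t := by
  rcases le_total t δ with h | h
  · rw [FF_zero hδ h]
  · have := FF_mono δ h
    rwa [FF_zero hδ le_rfl] at this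

lemma FF_ge {δ : ℝ} (hδ : 0 < δ) (t : ℝ) : t - 2 * δ ≤ FF δ t := by
  rcases le_total t (2 * δ) with h | h
  · have := FF_nonneg hδ t
    linarith
  · have e : FF δ t = FF δ (2 * δ) + ∫ τ in (2 * δ)..t, sg ((τ - δ) / δ) := by
      unfold FF
      rw [intervalIntegral.integral_add_adjacent_intervals
        ((FF_cont_int δ).intervalIntegrable _ _) ((FF_cont_int δ).intervalIntegrable _ _)]
    have e2 : ∫ τ in (2 * δ)..t, sg ((τ - δ) / δ) = ∫ τ in (2 * δ)..t, (1:ℝ) := by
      apply intervalIntegral.integral_congr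
      intro τ hτ
      rw [uIcc_of_le h] at hτ
      simp only
      apply sg_of_one_le
      rw [le_div_iff₀ hδ]
      linarith [hτ.1]
    rw [e, e2, intervalIntegral.integral_const, smul_eq_mul, mul_one]
    have := FF_nonneg hδ (2 * δ)
    linarith

theorem ring_upper (η s : ℝ) (hs : 0 < s) (hsη : s < η) (hη : η ≤ 1) (Λ : ℝ)
    (h : ∀ u : ℂ → ℝ, IsT {x : ℂ | 1 + s < ‖x‖ ∧ ‖x‖ < 1 + η} u → Λ * Ma u ≤ En u) :
    Λ ≤ Real.pi ^ 2 / (η - s) ^ 2 - 1 / (4 * (1 + η) ^ 2) := by
  have hpi := Real.pi_pos
  set a := 1 + s with ha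
  set L := η - s with hL
  have hL0 : 0 < L := by rw [hL]; linarith
  have hη0 : 0 < η := hs.trans hsη
  set ω := Real.pi / L with hω
  have hω0 : 0 < ω := by positivity
  have hωL : ω * L = Real.pi := by rw [hω]; field_simp
  set κ := 1 / (4 * (1 + η) ^ 2) with hκ
  have hκ0 : 0 < κ := by positivity
  have hω2 : Real.pi ^ 2 / L ^ 2 = ω ^ 2 := by rw [hω, div_pow]
  rw [hω2]
  -- the main inequality for every δ
  have main : ∀ δ : ℝ, 0 < δ → 0 ≤ Λ + κ → (Λ + κ) * (L / 2 - 4 * δ * L) ≤ ω ^ 2 * (L / 2) := by
    intro δ hδ hΛκ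
    set cl : ℝ → ℝ := fun r => min (max (r - a) 0) L with hcl
    have hclc : Continuous cl := by fun_prop
    set S : ℝ → ℝ := fun r => Real.sin (ω * cl r) with hS
    have hSc : Continuous S := Real.continuous_sin.comp (continuous_const.mul hclc)
    have hcl_in : ∀ r, a ≤ r → r ≤ a + L → cl r = r - a := by
      intro r h1 h2
      simp only [hcl]
      rw [max_eq_left (by linarith), min_eq_left (by linarith)]
    have hS_out : ∀ r, ¬ (a < r ∧ r < a + L) → S r = 0 := by
      intro r hr
      rcases le_or_gt r a with h1 | h1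
      · have : cl r = 0 := by
          simp only [hcl]; rw [max_eq_right (by linarith), min_eq_left hL0.le]
        simp only [hS]; rw [this]; simp
      · have h2 : a + L ≤ r := by
          by_contra hcon
          exact hr ⟨h1, not_le.1 hcon⟩
        have : cl r = L := by
          simp only [hcl]; rw [max_eq_left (by linarith), min_eq_right (by linarith)]
        simp only [hS]; rw [this, hωL]; simp
    have hS0 : ∀ r, 0 ≤ S r := by
      intro r
      have h1 : 0 ≤ cl r := le_min (le_max_right _ _) hL0.le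
      have h2 : cl r ≤ L := min_le_right _ _
      apply Real.sin_nonneg_of_nonneg_of_le_pi (by positivity)
      rw [← hωL]
      exact mul_le_mul_of_nonneg_left h2 hω0.le
    have hS1 : ∀ r, S r ≤ 1 := fun r => Real.sin_le_one _
    set ψ : ℝ → ℝ := fun r => FF δ (S r) with hψ
    set D : ℝ → ℝ := fun r => sg ((S r - δ) / δ) * (ω * Real.cos (ω * cl r)) with hD
    have hψc : Continuous ψ := (FF_cont δ).comp hSc
    have hDc : Continuous D := ((FF_cont_int δ).comp hSc).mul
      (continuous_const.mul (Real.continuous_cos.comp (continuous_const.mul hclc)))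
    have hsg0 : sg ((0 - δ) / δ) = 0 := sg_of_nonpos (by
      apply div_nonpos_of_nonpos_of_nonneg _ hδ.le; linarith)
    have hψ_out : ∀ r, ¬ (a < r ∧ r < a + L) → ψ =ᶠ[𝓝 r] fun _ => 0 := by
      intro r hr
      have h1 : S r < δ := by rw [hS_out r hr]; exact hδ
      filter_upwards [hSc.continuousAt.eventually_lt_const h1] with y hy
      exact FF_zero hδ hy.le
    have hD_out : ∀ r, ¬ (a < r ∧ r < a + L) → D r = 0 := by
      intro r hr
      simp only [hD]
      rw [hS_out r hr, hsg0, zero_mul]
    have hψD : ∀ r, HasDerivAt ψ (D r) r := by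
      intro r
      by_cases hr : a < r ∧ r < a + L
      · have h1 : HasDerivAt S (ω * Real.cos (ω * cl r)) r := by
          have h2 : HasDerivAt (fun r => Real.sin (ω * (r - a))) (ω * Real.cos (ω * cl r)) r := by
            have h3 := ((((hasDerivAt_id r).sub_const a).const_mul ω)).sin
            rw [hcl_in r hr.1.le hr.2.le]
            refine h3.congr_deriv ?_
            simp only [id]
            ring
          refine h2.congr_of_eventuallyEq ?_
          filter_upwards [Ioo_mem_nhds hr.1 hr.2] with y hy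
          simp only [hS]
          rw [hcl_in y hy.1.le hy.2.le]
        exact (FF_hasDerivAt δ (S r)).comp r h1
      · rw [hD_out r hr]
        exact (hasDerivAt_const r (0:ℝ)).congr_of_eventuallyEq (hψ_out r hr)
    have ha1 : 1 < a := by rw [ha]; linarith
    have hψ_low : ∀ r, r < a → ψ =ᶠ[𝓝 r] fun _ => 0 := fun r hr =>
      hψ_out r (fun h => absurd h.1 (not_lt.2 hr.le))
    set G : ℝ → ℝ := fun r => ψ r / √r with hG
    set G' : ℝ → ℝ := fun r => D r / √r - ψ r / (2 * (r * √r)) with hG'
    have hGG' : ∀ r, HasDerivAt G (G' r) r := by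
      intro r
      by_cases hr : 0 < r
      · have hsq : 0 < √r := Real.sqrt_pos.2 hr
        have h1 := (hψD r).div (Real.hasDerivAt_sqrt hr.ne') hsq.ne'
        refine h1.congr_deriv ?_
        simp only [hG']
        have h2 : √r ^ 2 = r := Real.sq_sqrt hr.le
        rw [h2]
        have hr' : r ≠ 0 := hr.ne'
        have hs' : √r ≠ 0 := hsq.ne'
        field_simp
        rw [h2]
        ring
      · have hr' : r < a := lt_of_le_of_lt (not_lt.1 hr) (by linarith)
        have h1 : G =ᶠ[𝓝 r] fun _ => 0 := by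
          filter_upwards [hψ_low r hr'] with y hy
          simp only [hG]; rw [hy]; simp
        have h2 : G' r = 0 := by
          simp only [hG']
          rw [(hψ_low r hr').eq_of_nhds, hD_out r (fun h => absurd h.1 (not_lt.2 hr'.le))]
          simp
        rw [h2]
        exact (hasDerivAt_const r (0:ℝ)).congr_of_eventuallyEq h1
    have hG'c : Continuous G' := by
      rw [continuous_iff_continuousAt]
      intro r
      by_cases hr : 0 < r
      · have hsq : 0 < √r := Real.sqrt_pos.2 hr
        exact (hDc.continuousAt.div Real.continuous_sqrt.continuousAt hsq.ne').sub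
          (hψc.continuousAt.div (continuousAt_const.mul
            (continuousAt_id.mul Real.continuous_sqrt.continuousAt))
            (mul_pos two_pos (mul_pos hr hsq)).ne')
      · have hr' : r < a := lt_of_le_of_lt (not_lt.1 hr) (by linarith)
        have h1 : G' =ᶠ[𝓝 r] fun _ => 0 := by
          filter_upwards [hψ_low r hr', Iio_mem_nhds hr'] with y hy hy2
          simp only [hG']
          rw [hy, hD_out y (fun h => absurd h.1 (not_lt.2 (mem_Iio.1 hy2).le))]
          simp
        exact continuousAt_const.congr h1.symm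
    have hG1 : ContDiff ℝ 1 G := by
      rw [contDiff_one_iff_deriv]
      refine ⟨fun r => (hGG' r).differentiableAt, ?_⟩
      have : deriv G = G' := by funext r; exact (hGG' r).deriv
      rw [this]; exact hG'c
    set u : ℂ → ℝ := fun x => G ‖x‖ with hu
    have hG_low : ∀ r, r < a → G r = 0 := by
      intro r hr
      simp only [hG]; rw [(hψ_low r hr).eq_of_nhds]; simp
    have hu1 : ContDiff ℝ 1 u := by
      rw [contDiff_iff_contDiffAt]
      intro x
      by_cases hx : x = 0
      · have h1 : u =ᶠ[𝓝 x] fun _ => 0 := by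
          have h2 : ‖x‖ < a := by rw [hx, norm_zero]; linarith
          filter_upwards [continuous_norm.continuousAt.eventually_lt_const h2] with y hy
          exact hG_low _ hy
        exact contDiffAt_const.congr_of_eventuallyEq h1
      · exact hG1.contDiffAt.comp x (contDiffAt_norm ℝ hx)
    have hsupp : tsupport u ⊆ {x : ℂ | δ ≤ S ‖x‖} := by
      refine closure_minimal ?_ (isClosed_le continuous_const (hSc.comp continuous_norm))
      intro x hx
      by_contra hcon
      have hcon : S ‖x‖ < δ := not_le.1 hcon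
      apply hx
      simp only [hu, hG, hψ]
      rw [FF_zero hδ hcon.le]; simp
    have hsub : {x : ℂ | δ ≤ S ‖x‖} ⊆ {x : ℂ | a < ‖x‖ ∧ ‖x‖ < 1 + η} := by
      intro x hx
      by_contra hcon
      have h1 : S ‖x‖ = 0 := hS_out _ (fun h => hcon ⟨h.1, by have := h.2; rw [ha, hL] at this; linarith⟩)
      have h2 : δ ≤ S ‖x‖ := hx
      linarith
    have huT : IsT {x : ℂ | a < ‖x‖ ∧ ‖x‖ < 1 + η} u := by
      refine ⟨hu1, ?_, hsupp.trans hsub⟩
      refine Metric.isCompact_of_isClosed_isBounded (isClosed_tsupport u) ?_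
      rw [isBounded_iff_forall_norm_le]
      exact ⟨1 + η, fun x hx => ((hsupp.trans hsub) hx).2.le⟩
    have hfd : ∀ x : ℂ, x ≠ 0 → ‖fderiv ℝ u x‖ ^ 2 = G' ‖x‖ ^ 2 := by
      intro x hx
      have hn : DifferentiableAt ℝ (fun x : ℂ => ‖x‖) x :=
        (contDiffAt_norm ℝ (n := 1) hx).differentiableAt (by norm_num)
      have h1 : HasFDerivAt u (G' ‖x‖ • fderiv ℝ (fun x : ℂ => ‖x‖) x) x :=
        (hGG' ‖x‖).comp_hasFDerivAt x hn.hasFDerivAt
      rw [h1.fderiv, norm_smul, norm_fderiv_norm hn, mul_one, Real.norm_eq_abs, sq_abs]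
    have hfzero : ∀ x : ℂ, (fderiv ℝ u x ≠ 0 ∨ u x ≠ 0) → 1 < ‖x‖ ∧ ‖x‖ < 1 + η := by
      intro x hx
      have h1 : x ∈ tsupport u := by
        rcases hx with hx | hx
        · exact tsupport_fderiv_subset ℝ (subset_tsupport _ hx)
        · exact subset_tsupport _ hx
      have h2 := (hsupp.trans hsub) h1
      exact ⟨ha1.trans h2.1, h2.2⟩
    have hevn : ∀ r t : ℝ, 0 < r → ‖(r : ℂ) * ev t‖ = r := by
      intro r t hr
      rw [norm_mul, norm_ev, mul_one, Complex.norm_real, Real.norm_of_nonneg hr.le]
    have hEn : En u = ∫ r in (1:ℝ)..(1+η), ∫ t in (-Real.pi)..Real.pi, r * G' r ^ 2 := by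
      unfold En
      refine integral_polar hη0 _ (fun r _ => r * G' r ^ 2) ?_ ?_ ?_
      · exact continuous_fst.mul ((hG'c.comp continuous_fst).pow 2)
      · intro r t hr
        have hne : (r : ℂ) * ev t ≠ 0 := by
          rw [← norm_pos_iff, hevn r t hr]; exact hr
        rw [hfd _ hne, hevn r t hr]
      · intro x hx
        refine hfzero x (Or.inl fun h0 => hx ?_)
        simp [h0]
    have hMa : Ma u = ∫ r in (1:ℝ)..(1+η), ∫ t in (-Real.pi)..Real.pi, r * G r ^ 2 := by
      unfold Ma
      refine integral_polar hη0 _ (fun r _ => r * G r ^ 2) ?_ ?_ ?_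
      · exact continuous_fst.mul ((hG1.continuous.comp continuous_fst).pow 2)
      · intro r t hr
        simp only [hu]
        rw [hevn r t hr]
      · intro x hx
        refine hfzero x (Or.inr fun h0 => hx ?_)
        simp [h0]
    have hconst : ∀ f : ℝ → ℝ, (∫ r in (1:ℝ)..(1+η), ∫ t in (-Real.pi)..Real.pi, f r)
        = 2 * Real.pi * ∫ r in (1:ℝ)..(1+η), f r := by
      intro f
      rw [← intervalIntegral.integral_const_mul]
      refine intervalIntegral.integral_congr fun r _ => ?_
      simp only [intervalIntegral.integral_const, smul_eq_mul]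
      ring
    rw [hconst] at hEn hMa
    -- the radial integrals
    have h1η : (1:ℝ) ≤ 1 + η := by linarith
    have hMa2 : ∫ r in (1:ℝ)..(1+η), r * G r ^ 2 = ∫ r in (1:ℝ)..(1+η), ψ r ^ 2 := by
      refine intervalIntegral.integral_congr fun r hr => ?_
      rw [uIcc_of_le h1η] at hr
      have hr0 : 0 < r := lt_of_lt_of_le one_pos hr.1
      simp only [hG]
      rw [div_pow, Real.sq_sqrt hr0.le]
      field_simp
    set P : ℝ → ℝ := fun r => ψ r ^ 2 / (2 * r) with hP
    set P' : ℝ → ℝ := fun r => ψ r * D r / r - ψ r ^ 2 / (2 * r ^ 2) with hP'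
    have hPD : ∀ r, 0 < r → HasDerivAt P (P' r) r := by
      intro r hr
      have h1 := ((hψD r).pow 2).div ((hasDerivAt_id r).const_mul 2) (by simp only [id]; positivity)
      refine h1.congr_deriv ?_
      simp only [hP', id]
      field_simp
      simp
      try ring
    have hP'c : ContinuousOn P' (uIcc 1 (1 + η)) := by
      intro r hr
      rw [uIcc_of_le h1η] at hr
      have hr0 : 0 < r := lt_of_lt_of_le one_pos hr.1
      refine ContinuousAt.continuousWithinAt ?_
      exact ((hψc.continuousAt.mul hDc.continuousAt).div continuousAt_id hr0.ne').sub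
        ((hψc.continuousAt.pow 2).div (continuousAt_const.mul (continuousAt_id.pow 2))
          (mul_pos two_pos (pow_pos hr0 2)).ne')
    have hP0 : ∫ r in (1:ℝ)..(1+η), P' r = 0 := by
      rw [intervalIntegral.integral_eq_sub_of_hasDerivAt (f := P)]
      · have h1 : ψ (1 + η) = 0 := by
          have := (hψ_out (1 + η) (fun h => by have := h.2; rw [ha, hL] at this; linarith)).eq_of_nhds
          exact this
        have h2 : ψ 1 = 0 := (hψ_low 1 ha1).eq_of_nhds
        simp only [hP]; rw [h1, h2]; simp
      · intro r hr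
        rw [uIcc_of_le h1η] at hr
        exact hPD r (lt_of_lt_of_le one_pos hr.1)
      · exact hP'c.intervalIntegrable
    have hQc : ContinuousOn (fun r => ψ r ^ 2 / (4 * r ^ 2)) (uIcc 1 (1 + η)) := by
      intro r hr
      rw [uIcc_of_le h1η] at hr
      have hr0 : 0 < r := lt_of_lt_of_le one_pos hr.1
      refine ContinuousAt.continuousWithinAt ?_
      exact (hψc.continuousAt.pow 2).div (continuousAt_const.mul (continuousAt_id.pow 2))
          (mul_pos (by norm_num) (pow_pos hr0 2)).ne'
    have hEn2 : ∫ r in (1:ℝ)..(1+η), r * G' r ^ 2 = (∫ r in (1:ℝ)..(1+η), D r ^ 2)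
        - ∫ r in (1:ℝ)..(1+η), ψ r ^ 2 / (4 * r ^ 2) := by
      have e1 : ∫ r in (1:ℝ)..(1+η), r * G' r ^ 2
          = ∫ r in (1:ℝ)..(1+η), (D r ^ 2 - ψ r ^ 2 / (4 * r ^ 2) - P' r) := by
        refine intervalIntegral.integral_congr fun r hr => ?_
        rw [uIcc_of_le h1η] at hr
        have hr0 : 0 < r := lt_of_lt_of_le one_pos hr.1
        have hsq : 0 < √r := Real.sqrt_pos.2 hr0
        have h2 : √r ^ 2 = r := Real.sq_sqrt hr0.le
        simp only [hG', hP']
        have e2 : r * (D r / √r - ψ r / (2 * (r * √r))) ^ 2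
            = r / √r ^ 2 * (D r - ψ r / (2 * r)) ^ 2 := by
          field_simp
        rw [e2, h2]
        field_simp
        ring
      rw [e1, intervalIntegral.integral_sub, intervalIntegral.integral_sub, hP0, sub_zero]
      · exact (hDc.pow 2).intervalIntegrable _ _
      · exact hQc.intervalIntegrable
      · exact ((hDc.pow 2).intervalIntegrable _ _).sub hQc.intervalIntegrable
      · exact hP'c.intervalIntegrable
    have hQ : κ * ∫ r in (1:ℝ)..(1+η), ψ r ^ 2 ≤ ∫ r in (1:ℝ)..(1+η), ψ r ^ 2 / (4 * r ^ 2) := by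
      rw [← intervalIntegral.integral_const_mul]
      refine intervalIntegral.integral_mono_on h1η (((hψc.pow 2).const_mul _).intervalIntegrable _ _)
        hQc.intervalIntegrable fun r hr => ?_
      have hr0 : 0 < r := lt_of_lt_of_le one_pos hr.1
      rw [hκ, div_mul_eq_mul_div, one_mul]
      have : r ^ 2 ≤ (1 + η) ^ 2 := by
        have := hr.2
        gcongr
      gcongr
    have haη : a ≤ 1 + η := by rw [ha]; linarith
    have haL : 1 + η = a + L := by rw [ha, hL]; ring
    -- ∫ D^2
    have hcosint : ∫ r in a..(a + L), Real.cos (ω * (r - a)) ^ 2 = L / 2 := by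
      rw [intervalIntegral.integral_eq_sub_of_hasDerivAt
        (f := fun r => (r - a) / 2 + Real.sin (2 * (ω * (r - a))) / (4 * ω))]
      · simp only [add_sub_cancel_left, sub_self, mul_zero, Real.sin_zero, zero_div, add_zero]
        rw [hωL, Real.sin_two_pi]
        simp
      · intro r _
        have h1 : HasDerivAt (fun r => 2 * (ω * (r - a))) (2 * ω) r := by
          have := ((((hasDerivAt_id r).sub_const a).const_mul ω)).const_mul 2
          simpa using this
        have h2 := (((hasDerivAt_id r).sub_const a).div_const 2).add ((h1.sin).div_const (4 * ω))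
        refine h2.congr_deriv ?_
        rw [Real.cos_two_mul]
        field_simp
        ring
      · exact Continuous.intervalIntegrable (by fun_prop) _ _
    have hsinint : ∫ r in a..(a + L), Real.sin (ω * (r - a)) ^ 2 = L / 2 := by
      have e1 : ∫ r in a..(a + L), Real.sin (ω * (r - a)) ^ 2
          = ∫ r in a..(a + L), (1 - Real.cos (ω * (r - a)) ^ 2) := by
        refine intervalIntegral.integral_congr fun r _ => ?_
        have := Real.sin_sq_add_cos_sq (ω * (r - a))
        linarith
      rw [e1, intervalIntegral.integral_sub (continuous_const.intervalIntegrable _ _)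
        (Continuous.intervalIntegrable (by fun_prop) _ _), hcosint, intervalIntegral.integral_const]
      simp only [smul_eq_mul, mul_one, add_sub_cancel_left]
      ring
    have hD2 : ∫ r in (1:ℝ)..(1+η), D r ^ 2 ≤ ω ^ 2 * (L / 2) := by
      have hi : ∀ p q : ℝ, IntervalIntegrable (fun r => D r ^ 2) volume p q :=
        fun p q => (hDc.pow 2).intervalIntegrable p q
      have e1 : ∫ r in (1:ℝ)..a, D r ^ 2 = 0 := by
        have : ∫ r in (1:ℝ)..a, D r ^ 2 = ∫ r in (1:ℝ)..a, (0:ℝ) := by
          refine intervalIntegral.integral_congr fun r hr => ?_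
          rw [uIcc_of_le ha1.le] at hr
          rw [hD_out r (fun h => absurd h.1 (not_lt.2 hr.2))]
          simp
        rw [this]; simp
      rw [← intervalIntegral.integral_add_adjacent_intervals (b := a) (hi _ _) (hi _ _), e1, zero_add,
        ← hcosint, haL, ← intervalIntegral.integral_const_mul]
      refine intervalIntegral.integral_mono_on (by linarith) ((hDc.pow 2).intervalIntegrable _ _)
        (Continuous.intervalIntegrable (by fun_prop) _ _) fun r hr => ?_
      simp only [hD]
      rw [hcl_in r hr.1 hr.2, mul_pow, mul_pow]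
      have h1 := sg_nonneg ((S r - δ) / δ)
      have h2 := sg_le_one ((S r - δ) / δ)
      have h3 : sg ((S r - δ) / δ) ^ 2 ≤ 1 := by nlinarith
      have h4 : 0 ≤ ω ^ 2 * Real.cos (ω * (r - a)) ^ 2 := by positivity
      nlinarith
    have hψ2 : L / 2 - 4 * δ * L ≤ ∫ r in (1:ℝ)..(1+η), ψ r ^ 2 := by
      have e1 : ∫ r in a..(1+η), ψ r ^ 2 ≤ ∫ r in (1:ℝ)..(1+η), ψ r ^ 2 := by
        refine intervalIntegral.integral_mono_interval ha1.le haη le_rfl
          (Eventually.of_forall fun r => sq_nonneg _) ((hψc.pow 2).intervalIntegrable _ _)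
      refine le_trans ?_ e1
      rw [haL]
      have e2 : L / 2 - 4 * δ * L = ∫ r in a..(a + L), (Real.sin (ω * (r - a)) ^ 2 - 4 * δ) := by
        rw [intervalIntegral.integral_sub (Continuous.intervalIntegrable (by fun_prop) _ _)
          (continuous_const.intervalIntegrable _ _), hsinint, intervalIntegral.integral_const]
        simp only [smul_eq_mul, add_sub_cancel_left]
        ring
      rw [e2]
      refine intervalIntegral.integral_mono_on (by linarith)
        (Continuous.intervalIntegrable (by fun_prop) _ _) ((hψc.pow 2).intervalIntegrable _ _)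
        fun r hr => ?_
      have h1 : Real.sin (ω * (r - a)) = S r := by
        simp only [hS]; rw [hcl_in r hr.1 hr.2]
      rw [h1]
      have h2 : S r - 2 * δ ≤ ψ r := FF_ge hδ (S r)
      have h3 : 0 ≤ ψ r := FF_nonneg hδ (S r)
      have h4 := hS0 r
      have h5 := hS1 r
      rcases le_total (S r) (2 * δ) with h6 | h6
      · nlinarith
      · nlinarith
    have hfin := h u huT
    rw [hEn, hMa, hMa2, hEn2] at hfin
    set I := ∫ r in (1:ℝ)..(1+η), ψ r ^ 2 with hI
    have h2pi : 0 < 2 * Real.pi := by positivity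
    have h7 : Λ * I ≤ (∫ r in (1:ℝ)..(1+η), D r ^ 2) - ∫ r in (1:ℝ)..(1+η), ψ r ^ 2 / (4 * r ^ 2) := by
      have : 2 * Real.pi * (Λ * I) ≤ 2 * Real.pi * ((∫ r in (1:ℝ)..(1+η), D r ^ 2)
        - ∫ r in (1:ℝ)..(1+η), ψ r ^ 2 / (4 * r ^ 2)) := by linarith
      exact le_of_mul_le_mul_left this h2pi
    calc (Λ + κ) * (L / 2 - 4 * δ * L) ≤ (Λ + κ) * I := mul_le_mul_of_nonneg_left hψ2 hΛκ
      _ ≤ ω ^ 2 * (L / 2) := by linarith
  by_contra hcon
  have hcon := not_le.1 hcon
  set X := Λ + κ with hX
  have hXω : ω ^ 2 < X := by linarith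
  have hX0 : 0 < X := lt_of_le_of_lt (sq_nonneg _) hXω
  have h1 := main ((X - ω ^ 2) / (16 * X)) (div_pos (by linarith) (by positivity)) hX0.le
  have h2 : X * (L / 2 - 4 * ((X - ω ^ 2) / (16 * X)) * L) = L / 2 * ((X + ω ^ 2) / 2) := by
    field_simp
    ring
  rw [h2] at h1
  nlinarith

end Pool.Agent.MP0c2
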