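import Pool.Agent.Lib.MP_0c2aee_an.Lower
import Pool.Agent.Lib.MP_0c2aee_an.LamSpec
import Pool.Agent.Lib.MP_0c2aee_an.RingUpper
import Pool.Agent.Lib.MP_0c2aee_an.Geom
import Pool.Agent.Lib.MP_0c2aee_an.Exist

/-! Assembly in `ℂ`. -/

set_option autoImplicit false

open MeasureTheory Set Metric Topology Filter
open scoped ComplexConjugate

namespace Pool.Agent.MP0c2

/-- crude Poincaré inequality -/
lemma crude {u : ℂ → ℝ} (hu : IsT (ball 0 (1 + 1 / 1000)) u) : 1 * Ma u ≤ En u := by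
  set U : Set ℂ := ball 0 (1 + 1 / 1000) with hU
  have hUo : IsOpen U := isOpen_ball
  have hN : ∀ x ∈ U, N2 x ≤ 1.003 := by
    intro x hx
    rw [hU, mem_ball_zero_iff] at hx
    rw [N2_eq]
    have := norm_nonneg x
    norm_num at hx ⊢
    nlinarith
  have hd : ∀ x ∈ U, HasDerivAt (fun t : ℝ => 2 / (1.01 - t)) (2 / (1.01 - N2 x) ^ 2) (N2 x) := by
    intro x hx
    have h1 := hN x hx
    have h2 : (1.01 : ℝ) - N2 x ≠ 0 := by
      have : 0 < (1.01 : ℝ) - N2 x := by norm_num at h1 ⊢; linarith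
      exact this.ne'
    have h3 : HasDerivAt (fun t : ℝ => (1.01 : ℝ) - t) (-1) (N2 x) := by
      simpa using (hasDerivAt_id' (N2 x)).const_sub (1.01 : ℝ)
    have h4 := (hasDerivAt_const (N2 x) (2 : ℝ)).div h3 h2
    refine h4.congr_deriv ?_
    ring
  have hc : ∀ x ∈ U, ContDiffAt ℝ 1 (fun x => (2 : ℝ) / (1.01 - N2 x)) x := by
    intro x hx
    have h1 := hN x hx
    have h2 : (1.01 : ℝ) - N2 x ≠ 0 := by
      have : 0 < (1.01 : ℝ) - N2 x := by norm_num at h1 ⊢; linarith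
      exact this.ne'
    exact contDiffAt_const.div (contDiffAt_const.sub N2_contDiff.contDiffAt) h2
  have key := hu.field_global hUo (X1 := fun x => (2 : ℝ) / (1.01 - N2 x) * x.re)
    (X2 := fun x => (2 : ℝ) / (1.01 - N2 x) * x.im) (Q := fun _ => 1)
    (fun x hx => ((hc x hx).mul re_contDiff.contDiffAt).contDiffWithinAt)
    (fun x hx => ((hc x hx).mul im_contDiff.contDiffAt).contDiffWithinAt) (by
      intro x hx _
      have h1 := hN x hx
      have h2 : 0 < (1.01 : ℝ) - N2 x := by norm_num at h1 ⊢; linarith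
      have e0 := radial_div (b := fun t : ℝ => 2 / (1.01 - t)) (hd x hx)
      rw [e0]
      have h3 := N2_nonneg x
      have e1 : (2 / (1.01 - N2 x) * x.re) ^ 2 + (2 / (1.01 - N2 x) * x.im) ^ 2 =
          (2 / (1.01 - N2 x)) ^ 2 * N2 x := by
        have : N2 x = x.re ^ 2 + x.im ^ 2 := rfl
        generalize (2 : ℝ) / (1.01 - N2 x) = k
        rw [this]; ring
      have e2 : 2 * (2 / (1.01 - N2 x)) + 2 * N2 x * (2 / (1.01 - N2 x) ^ 2)
          - (2 / (1.01 - N2 x) * x.re) ^ 2 - (2 / (1.01 - N2 x) * x.im) ^ 2 = 4 / (1.01 - N2 x) := by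
        have e3 : 2 * (2 / (1.01 - N2 x)) + 2 * N2 x * (2 / (1.01 - N2 x) ^ 2)
          - (2 / (1.01 - N2 x) * x.re) ^ 2 - (2 / (1.01 - N2 x) * x.im) ^ 2 =
          2 * (2 / (1.01 - N2 x)) + 2 * N2 x * (2 / (1.01 - N2 x) ^ 2)
          - ((2 / (1.01 - N2 x) * x.re) ^ 2 + (2 / (1.01 - N2 x) * x.im) ^ 2) := by ring
        rw [e3, e1, div_pow]
        field_simp
        ring
      rw [e2, le_div_iff₀ h2]
      norm_num
      linarith)
  unfold Ma
  rw [← integral_const_mul]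
  exact key

lemma Om_subset_ball (E : Finset ℂ) (η w : ℝ) : Om E η w ⊆ ball 0 (1 + η) := fun x hx => by
  rw [mem_ball_zero_iff]; exact hx.1

/-- The choice of the parameters. -/
theorem choose_params : ∃ (E : Finset ℂ) (d r w cz : ℝ),
    Hyp E (1 / 1000) (1 / 10 ^ 15) d w r (1 - 1 / 10 ^ 6) (1 + 1 / 10 ^ 6) ∧ 0 < cz ∧
    w ≤ 1 / 1000 ∧ r ≤ 1 / 10 ^ 11 / 2 ∧ 0 < MM w r ∧
    (9869703 : ℝ) / MM w r ^ 2 ≤ 1 / 10 ^ 4 ∧
    (9869703 : ℝ) * Real.exp (-(41 / 10 * MM w r)) ≤ 1 / 2 ∧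
    2 * (401 / (1 / 10 ^ 11) ^ 2 * (9869703 * Real.exp (-(41 / 10 * MM w r)))) ≤
      min (1 / 10 ^ 4) (cz * w ^ 4 * (1 / 10 ^ 8) ^ 2) ∧
    (∀ Λ : ℝ, 1 ≤ Λ → ∀ w : ℝ, 0 < w → w ≤ (1 / 1000 : ℝ) → ∀ e : ℂ, ‖e‖ = 1 → ∀ V : Set ℂ, IsOpen V →
      {x : ℂ | |(x * conj e).im| < (x * conj e).re - 1 ∧ ‖x - e‖ < (1 / 1000 : ℝ)} ⊆ V →
      (∀ u : ℂ → ℝ, IsT V u → 0 ≤ qf Λ u) → ∀ z : ℂ → ℝ, IsT V z → (∀ x, 0 ≤ z x) →
      (∀ x ∈ closedBall e (w / 8), x ∉ tsupport z) →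
      cz * w ^ 4 * (∫ x in win (1 / 1000) e, z x) ^ 2 ≤ qf Λ z) ∧
    (∀ K : Set ℂ, IsClosed K → Convex ℝ K →
      (interior K).Nonempty → K ⊆ closure (Om E (1 / 1000) w) → ENNReal.ofReal 5.5 ≤ μH[1] (frontier K) →
      K ⊆ closedBall 0 (1 + 5 / 10 ^ 15)) := by
  obtain ⟨E, d, hd, hE⟩ := exists_goodE (1 / 10 ^ 15) (by positivity)
  obtain ⟨w0, hw0, hG1⟩ := G1 (1 / 1000) (1 / 10 ^ 15) d (1 + 5 / 10 ^ 15) (by norm_num) (by norm_num)
    (by norm_num) (by norm_num) hd (by norm_num) E hE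
  obtain ⟨cz, hcz, hzeta⟩ := zeta_gain (1 / 1000) (by norm_num) (by norm_num)
  set r : ℝ := min (min (d / 4) (d ^ 2 / 8)) (1 / 10 ^ 11 / 2) with hr
  have hr0 : 0 < r := by rw [hr]; positivity
  have hr1 : r ≤ d / 4 := (min_le_left _ _).trans (min_le_left _ _)
  have hr2 : r ≤ d ^ 2 / 8 := (min_le_left _ _).trans (min_le_right _ _)
  have hr3 : r ≤ 1 / 10 ^ 11 / 2 := min_le_right _ _
  -- thresholds
  set A : ℝ := 2 * (401 / (1 / 10 ^ 11) ^ 2 * 9869703) with hA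
  have hA0 : 0 < A := by rw [hA]; norm_num
  set θ : ℝ := min (min ((1 / 10 ^ 4) / A) (cz * (1 / 10 ^ 8) ^ 2 / (A * (4 / r) ^ 4))) (1 / (2 * 9869703)) with hθ
  have hθ0 : 0 < θ := by rw [hθ]; positivity
  have hθ1 : θ ≤ (1 / 10 ^ 4) / A := (min_le_left _ _).trans (min_le_left _ _)
  have hθ2 : θ ≤ cz * (1 / 10 ^ 8) ^ 2 / (A * (4 / r) ^ 4) := (min_le_left _ _).trans (min_le_right _ _)
  have hθ3 : θ ≤ 1 / (2 * 9869703) := min_le_right _ _
  have t1 : Tendsto (fun L : ℝ => r / 4 * Real.exp (-L)) atTop (𝓝 0) := by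
    have := (Real.tendsto_exp_neg_atTop_nhds_zero).const_mul (r / 4)
    simpa using this
  have t2 : Tendsto (fun L : ℝ => Real.exp (-(L / 10))) atTop (𝓝 0) :=
    Real.tendsto_exp_neg_atTop_nhds_zero.comp (tendsto_id.atTop_div_const (by norm_num))
  obtain ⟨L, hL⟩ := (((t1.eventually_lt_const hw0).and (t1.eventually_lt_const
    (by norm_num : (0 : ℝ) < 1 / 1000))).and ((t2.eventually_le_const hθ0).and
      (eventually_ge_atTop (10 ^ 6 : ℝ)))).exists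
  obtain ⟨⟨hL1, hL2⟩, hL3, hL4⟩ := hL
  set w : ℝ := r / 4 * Real.exp (-L) with hw
  have hwp : 0 < w := by rw [hw]; positivity
  have hexpL : Real.exp (-L) ≤ 1 := Real.exp_le_one_iff.2 (by linarith)
  have hwr : w ≤ r / 4 := by rw [hw]; nlinarith
  have hMM : L ≤ MM w r := by
    have h1 := lg_ge (a := 2 * w) (b := r) (by linarith) (by linarith)
    have h2 : r / (2 * (2 * w)) = Real.exp L := by
      rw [hw, Real.exp_neg]
      have := Real.exp_pos L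
      field_simp
      norm_num
    rw [h2, Real.log_exp] at h1
    exact h1
  have hMM0 : 0 < MM w r := by linarith
  have hexp : Real.exp (-(41 / 10 * MM w r)) ≤ (4 / r) ^ 4 * w ^ 4 * θ ∧
      Real.exp (-(41 / 10 * MM w r)) ≤ θ := by
    have h1 : Real.exp (-(41 / 10 * MM w r)) ≤ Real.exp (-(41 / 10 * L)) := by
      apply Real.exp_le_exp.2; linarith
    have h2 : Real.exp (-(41 / 10 * L)) = Real.exp (-L) ^ 4 * Real.exp (-(L / 10)) := by
      rw [← Real.exp_nat_mul, ← Real.exp_add]; congr 1; push_cast; ring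
    have h3 : (4 / r) ^ 4 * w ^ 4 = Real.exp (-L) ^ 4 := by
      rw [hw]; field_simp
    have h4 : 0 < Real.exp (-L) ^ 4 := by positivity
    have h5 : Real.exp (-L) ^ 4 ≤ 1 := pow_le_one₀ (Real.exp_pos _).le hexpL
    rw [h3]
    rw [h2] at h1
    constructor
    · exact h1.trans (by gcongr)
    · refine h1.trans ?_
      nlinarith [Real.exp_pos (-(L / 10))]
  refine ⟨E, d, r, w, cz, ⟨hE, by norm_num, by norm_num, hwp, by linarith, by linarith, by linarith,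
    by norm_num, by norm_num, by norm_num, by norm_num at hr3 ⊢; linarith, by norm_num⟩, hcz, hL2.le, hr3, hMM0,
    ?_, ?_, ?_, hzeta, ?_⟩
  · rw [div_le_iff₀ (by positivity)]
    have : (10 ^ 6 : ℝ) ^ 2 ≤ MM w r ^ 2 := by
      have : (10 ^ 6 : ℝ) ≤ MM w r := hL4.trans hMM
      gcongr
    norm_num at this ⊢
    linarith
  · have h1 := hexp.2.trans hθ3
    rw [le_div_iff₀ (by norm_num)] at h1
    norm_num at h1 ⊢
    linarith
  · apply le_min
    · have h1 := hexp.2.trans hθ1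
      rw [le_div_iff₀ hA0] at h1
      calc _ = Real.exp (-(41 / 10 * MM w r)) * A := by rw [hA]; ring
        _ ≤ _ := h1
    · have h1 : Real.exp (-(41 / 10 * MM w r)) ≤
          (4 / r) ^ 4 * w ^ 4 * (cz * (1 / 10 ^ 8) ^ 2 / (A * (4 / r) ^ 4)) :=
        hexp.1.trans (by gcongr)
      calc _ = A * Real.exp (-(41 / 10 * MM w r)) := by rw [hA]; ring
        _ ≤ A * ((4 / r) ^ 4 * w ^ 4 * (cz * (1 / 10 ^ 8) ^ 2 / (A * (4 / r) ^ 4))) := by gcongr
        _ = _ := by field_simp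
  · exact fun K h1 h2 h3 h4 h5 => hG1 w hwp hL1 K h1 h2 h3 h4 h5

/-- The counterexample in `ℂ`. -/
theorem exists_example : ∃ (Ω : Set ℂ) (L : ℝ) (K : Set ℂ),
    IsOpen Ω ∧ IsConnected Ω ∧ Bornology.IsBounded Ω ∧ 0 < L ∧
    ENNReal.ofReal L < μH[1] (frontier Ω) ∧ IsClosed K ∧ Convex ℝ K ∧ (interior K).Nonempty ∧
    K ⊆ closure Ω ∧ μH[1] (frontier K) = ENNReal.ofReal L ∧
    (∀ K' : Set ℂ, IsClosed K' → Convex ℝ K' → (interior K').Nonempty → K' ⊆ closure Ω →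
      μH[1] (frontier K') = ENNReal.ofReal L → lam (Ω \ K) ≤ lam (Ω \ K')) ∧
    ¬ (K ∩ frontier Ω).Nonempty := by
  obtain ⟨E, d, r, w, cz, H, hcz, hw1, hrε, hMM, hM2, hMh, hMg, hzeta, hG1⟩ := choose_params
  set s : ℝ := 1 / 10 ^ 15 with hs
  set h : ℝ := 1 - 1 / 10 ^ 6 with hh
  set ρ : ℝ := 1 + 1 / 10 ^ 6 with hρ
  set ε : ℝ := 1 / 10 ^ 11 with hε
  set R : ℝ := 1 + 5 / 10 ^ 15 with hR
  set Ω := Om E (1 / 1000) w with hΩ
  set V := Vs E (1 / 1000) w h with hV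
  have hw0 := H.w0
  have hΩo : IsOpen Ω := isOpen_Om E _ w
  have hVo : IsOpen V := isOpen_Vs E _ w h
  have hε0 : 0 < ε := by norm_num [hε]
  obtain ⟨hc1, hc2, hcr⟩ := circ_bounds
  -- the ring is inside V
  have hring : {x : ℂ | 1 + 2 * s < ‖x‖ ∧ ‖x‖ < 1 + 1 / 1000} ⊆ V := by
    intro x hx
    refine ⟨⟨hx.2, Or.inl (sideA_of_norm H.good H.s0 H.s1 hx.1)⟩, ?_⟩
    rw [mem_closedBall_zero_iff, not_le]
    have := hx.1
    have := H.s0
    have := H.h1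
    linarith
  have hVne : V.Nonempty := by
    refine ⟨((1 + 1 / 2000 : ℝ) : ℂ), hring ?_⟩
    change 1 + 2 * s < ‖((1 + 1 / 2000 : ℝ) : ℂ)‖ ∧ ‖((1 + 1 / 2000 : ℝ) : ℂ)‖ < 1 + 1 / 1000
    rw [Complex.norm_real, Real.norm_eq_abs, abs_of_pos (by norm_num), hs]
    norm_num
  set Λ := (lam V).toReal with hΛ
  have hform : ∀ u, IsT V u → 0 ≤ qf Λ u := fun u hu => lam_form hVo hVne hu
  have hinf : ∀ δ : ℝ, 0 < δ → ∃ u, IsT V u ∧ Ma u = 1 ∧ qf Λ u ≤ δ := fun δ hδ => lam_inf hVo hVne hδ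
  -- bounds on Λ
  have hΛ1 : 1 ≤ Λ := by
    have h1 : ENNReal.ofReal 1 ≤ lam V := le_lam (fun u hu => crude (hu.mono (fun x hx =>
      Om_subset_ball E (1 / 1000) w hx.1)))
    have h2 := ENNReal.toReal_mono (lam_ne_top hVo hVne) h1
    rwa [ENNReal.toReal_ofReal zero_le_one] at h2
  have hΛ2 : Λ ≤ Real.pi ^ 2 / (1 / 1000) ^ 2 - 1 / 4 + 6 / 10 ^ 4 := by
    have h1 := ring_upper (1 / 1000) (2 * s) (by norm_num [hs]) (by norm_num [hs]) (by norm_num) Λ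
      (fun u hu => by
        have := hform u (hu.mono hring)
        unfold qf at this; linarith)
    refine h1.trans ?_
    have hpi : Real.pi ^ 2 ≤ 9.87 := by
      have h2 := Real.pi_lt_d4
      have h3 := Real.pi_pos
      norm_num at h2 ⊢; nlinarith
    have h3 : Real.pi ^ 2 / (1 / 1000 - 2 * s) ^ 2 ≤ Real.pi ^ 2 / (1 / 1000) ^ 2 + 1 / 10 ^ 4 := by
      rw [hs, div_le_iff₀ (by norm_num)]
      have h4 : 0 ≤ Real.pi ^ 2 := by positivity
      norm_num at hpi ⊢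
      nlinarith
    norm_num at h3 ⊢
    linarith
  have hΛ3 : Λ + 1 ≤ 9869703 := by
    have hpi : Real.pi ^ 2 ≤ 9.8697 := by
      have h2 := Real.pi_lt_d4
      have h3 := Real.pi_pos
      norm_num at h2 ⊢; nlinarith
    norm_num at hΛ2 hpi ⊢
    linarith
  have hq : Λ + 1 ≤ q0 h ρ / 100 := by
    refine hΛ3.trans ?_
    rw [hh, hρ]; unfold q0; norm_num
  have hM2' : (Λ + 1) / MM w r ^ 2 ≤ 1 / 10 ^ 4 := le_trans (by gcongr) hM2
  have hexp0 := Real.exp_pos (-(41 / 10 * MM w r))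
  set g : ℝ := min (1 / 10 ^ 4) (cz * w ^ 4 * (1 / 10 ^ 8) ^ 2) with hg
  have hg0 : 0 < g := by rw [hg]; positivity
  -- the centred disc
  set K0 : Set ℂ := closedBall 0 (1 - ε) with hK0
  have h1ε : 0 < 1 - ε := by norm_num [hε]
  have hK0Ω : K0 ⊆ Ω := by
    intro x hx
    rw [hK0, mem_closedBall_zero_iff] at hx
    have hx1 : ‖x‖ < 1 := by linarith
    exact ⟨by linarith, Or.inr (Or.inl (cham_of_norm H.good hx1))⟩
  set L : ℝ := (1 - ε) * circ with hL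
  have hL0 : 0 < L := by rw [hL]; positivity
  have hperK0 : μH[1] (frontier K0) = ENNReal.ofReal L := (hcr (1 - ε) h1ε).2
  -- upper bound
  have hupper : lam (Ω \ K0) ≤ ENNReal.ofReal (Λ + g) := by
    obtain ⟨z, hz, hz1, hz2⟩ := H.upper (Λ := Λ) (ε := ε) (by linarith) hq hform hinf hε0
      (by norm_num [hε]) hrε (le_trans (by gcongr) hMh)
    have hz0 : z ≠ 0 := by
      intro h0; rw [h0] at hz1; simp [Ma] at hz1; norm_num at hz1
    refine (lam_le hz hz0).trans (ENNReal.ofReal_le_ofReal ?_)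
    have hp : 0 < Ma z := by linarith
    rw [div_le_iff₀ hp]
    have h1 : 401 / ε ^ 2 * ((Λ + 1) * Real.exp (-(41 / 10 * MM w r))) ≤
        401 / ε ^ 2 * (9869703 * Real.exp (-(41 / 10 * MM w r))) := by gcongr
    have h2 : qf Λ z ≤ g / 2 := by
      refine hz2.trans (h1.trans ?_)
      linarith
    have h3 : qf Λ z = En z - Λ * Ma z := rfl
    nlinarith
  -- lower bound for bad sets
  set τ : ℝ := w / 100 with hτ
  have hper : ∀ K : Set ℂ, IsClosed K → Convex ℝ K → (interior K).Nonempty → K ⊆ closure Ω →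
      μH[1] (frontier K) = ENNReal.ofReal L → K ⊆ closedBall 0 R ∧ closedBall 0 h ⊆ K := by
    intro K k1 k2 k3 k4 k5
    have hKR : K ⊆ closedBall 0 R := hG1 K k1 k2 k3 k4 (by
      rw [k5]; apply ENNReal.ofReal_le_ofReal
      rw [hL, hε]; norm_num at hc1 ⊢; linarith)
    refine ⟨hKR, G2 ε h R hε0 (by norm_num [hh]) (by norm_num [hh]) (by norm_num [hR]) ?_ K k1 k2 k3 hKR
      (by rw [k5])⟩
    have hRh : (1 : ℝ) / 10 ^ 6 ≤ R - h := by rw [hR, hh]; norm_num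
    have hs1 : (1 : ℝ) / 10 ^ 3 ≤ √(R - h) := by
      apply Real.le_sqrt_of_sq_le
      refine le_trans (by norm_num) hRh
    have hs2 : √(2 * R) ≤ 2 := by
      rw [Real.sqrt_le_left (by norm_num), hR]; norm_num
    have hs3 : 0 < √(2 * R) := Real.sqrt_pos.2 (by rw [hR]; norm_num)
    calc 6.3 * (R - 1 + ε) < 1 / 10 ^ 6 * (1 / 10 ^ 3) / 2 := by rw [hR, hε]; norm_num
      _ ≤ (R - h) * √(R - h) / √(2 * R) := by gcongr
  have hbad : ∀ K : Set ℂ, IsClosed K → Convex ℝ K → (interior K).Nonempty → K ⊆ closure Ω →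
      μH[1] (frontier K) = ENNReal.ofReal L → (∃ k ∈ K, ¬ ball k τ ⊆ Ω) →
      lam (Ω \ K0) ≤ lam (Ω \ K) := by
    intro K k1 k2 k3 k4 k5 hk
    obtain ⟨hKR, hcore⟩ := hper K k1 k2 k3 k4 k5
    obtain ⟨k, hkK, hkb⟩ := hk
    rw [not_subset] at hkb
    obtain ⟨y, hy1, hy2⟩ := hkb
    rw [mem_ball_iff_norm, norm_sub_rev] at hy1
    obtain ⟨e, he, hKe⟩ := G3 (1 / 1000) w R τ h (by rw [hh]; norm_num) (by rw [hh]; norm_num) hw0
      (by linarith) (by positivity) (by rw [hτ]) (by rw [hR, hτ]; norm_num at hw1 ⊢; linarith) E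
      H.good.unit K k1 k2 hcore hKR k y hkK hy2 hy1
    refine hupper.trans (le_lam fun u hu => ?_)
    exact H.lower hcz hzeta hMM hq hΛ1 hΛ2 hM2' hw1 hform hcore he hKe hu
  -- frontier length
  have hfr : ENNReal.ofReal L < μH[1] (frontier Ω) := by
    have h1 := measure_mono (μ := μH[1]) (sphere_subset_frontier H.good (1 / 1000) w (by norm_num) H.s0 H.s1
      (by rw [hs]; norm_num))
    rw [(hcr (1 + 1 / 1000) (by norm_num)).1] at h1
    refine lt_of_lt_of_le ?_ h1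
    apply (ENNReal.ofReal_lt_ofReal_iff (by positivity)).2
    rw [hL]
    have : 0 < circ := by linarith
    nlinarith
  have hconn : IsConnected Ω := isConnected_Om H.good (1 / 1000) w (by norm_num) hw0 H.s0 H.s1
    (by rw [hs]; norm_num) hw1
  have hbdd : Bornology.IsBounded Ω := isBounded_ball.subset (Om_subset_ball E (1 / 1000) w)
  have hsubfr : ∀ K : Set ℂ, K ⊆ Ω → ¬ (K ∩ frontier Ω).Nonempty := by
    rintro K hK ⟨x, hx1, hx2⟩
    rw [hΩo.frontier_eq] at hx2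
    exact hx2.2 (hK hx1)
  -- the class
  set C : Set (Set ℂ) := {K | IsClosed K ∧ Convex ℝ K ∧ (interior K).Nonempty ∧ K ⊆ closure Ω ∧
    μH[1] (frontier K) = ENNReal.ofReal L} with hC
  have hK0C : K0 ∈ C := by
    refine ⟨isClosed_closedBall, convex_closedBall _ _, ?_, hK0Ω.trans subset_closure, hperK0⟩
    rw [hK0, interior_closedBall _ h1ε.ne']
    exact ⟨0, mem_ball_self h1ε⟩
  set m := sInf ((fun K => lam (Ω \ K)) '' C) with hm
  by_cases hcase : lam (Ω \ K0) ≤ m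
  · refine ⟨Ω, L, K0, hΩo, hconn, hbdd, hL0, hfr, hK0C.1, hK0C.2.1, hK0C.2.2.1, hK0C.2.2.2.1,
      hperK0, ?_, hsubfr K0 hK0Ω⟩
    intro K' k1 k2 k3 k4 k5
    exact hcase.trans (sInf_le ⟨K', ⟨k1, k2, k3, k4, k5⟩, rfl⟩)
  push Not at hcase
  -- minimising sequence
  obtain ⟨v, hv1, hv2, hv3⟩ := exists_seq_tendsto_sInf (S := (fun K => lam (Ω \ K)) '' C)
    ⟨_, K0, hK0C, rfl⟩ (OrderBot.bddBelow _)
  obtain ⟨N, hN⟩ := eventually_atTop.1 (hv2.eventually_lt_const hcase)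
  have hch : ∀ n, ∃ K ∈ C, lam (Ω \ K) = v (n + N) := fun n => hv3 (n + N)
  choose Kn hKn1 hKn2 using hch
  have hgood : ∀ n, ∀ k ∈ Kn n, ball k τ ⊆ Ω := by
    intro n k hk
    by_contra hcon
    obtain ⟨k1, k2, k3, k4, k5⟩ := hKn1 n
    have h1 := hbad (Kn n) k1 k2 k3 k4 k5 ⟨k, hk, hcon⟩
    rw [hKn2 n] at h1
    exact absurd (hN (n + N) (Nat.le_add_left _ _)) (not_lt.2 h1)
  have htend : Tendsto (fun n => lam (Ω \ Kn n)) atTop (𝓝 m) := by
    have h1 : (fun n => lam (Ω \ Kn n)) = fun n => v (n + N) := funext hKn2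
    rw [h1]
    exact (tendsto_add_atTop_iff_nat N).2 hv2
  have hh0 : 0 < h := by rw [hh]; norm_num
  have hτ0 : 0 < τ := by rw [hτ]; positivity
  obtain ⟨K', c1, c2, c3, c4, c5, c6⟩ := exists_limit Ω hΩo hbdd L h τ hL0 hh0 hτ0 Kn
    (fun n => (hKn1 n).1) (fun n => (hKn1 n).2.1)
    (fun n => (hper (Kn n) (hKn1 n).1 (hKn1 n).2.1 (hKn1 n).2.2.1 (hKn1 n).2.2.2.1 (hKn1 n).2.2.2.2).2)
    (fun n => (hKn1 n).2.2.2.2) hgood m htend
  have hK'Ω : K' ⊆ Ω := fun k hk => c5 k hk (mem_ball_self hτ0)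
  refine ⟨Ω, L, K', hΩo, hconn, hbdd, hL0, hfr, c1, c2, ?_, hK'Ω.trans subset_closure, c4, ?_,
    hsubfr K' hK'Ω⟩
  · exact ⟨0, mem_interior.2 ⟨ball 0 h, ball_subset_closedBall.trans c3, isOpen_ball, mem_ball_self hh0⟩⟩
  · intro K'' k1 k2 k3 k4 k5
    exact c6.trans (sInf_le ⟨K'', ⟨k1, k2, k3, k4, k5⟩, rfl⟩)

end Pool.Agent.MP0c2
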