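import Pool.Agent.Lib.MP_0c2aee_an.Defs

/-! Perimeter (one-dimensional Hausdorff measure of the frontier) of planar convex sets. -/

set_option autoImplicit false

open MeasureTheory Set Metric Filter Topology
open scoped Pointwise

namespace Pool.Agent.MP0c2

/-- Nearest point in a closed convex set, with the variational inequality. -/
theorem exists_proj {K : Set ℂ} (hK : IsClosed K) (hc : Convex ℝ K) (hn : K.Nonempty) (y : ℂ) :
    ∃ v ∈ K, ∀ w ∈ K, inner ℝ (y - v) (w - v) ≤ 0 := by
  obtain ⟨v, hv, h⟩ := exists_norm_eq_iInf_of_complete_convex hn hK.isComplete hc y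
  exact ⟨v, hv, (norm_eq_iInf_iff_real_inner_le_zero hc hv).1 h⟩

theorem proj_lip {K : Set ℂ} {y z p q : ℂ} (hp : p ∈ K) (hq : q ∈ K)
    (h1 : ∀ w ∈ K, inner ℝ (y - p) (w - p) ≤ 0) (h2 : ∀ w ∈ K, inner ℝ (z - q) (w - q) ≤ 0) :
    ‖p - q‖ ≤ ‖y - z‖ := by
  have a := h1 q hq
  have b := h2 p hp
  have e : inner ℝ (y - p) (q - p) + inner ℝ (z - q) (p - q)
      = ‖p - q‖ ^ 2 - inner ℝ (y - z) (p - q) := by
    have e1 : q - p = -(p - q) := by ring
    have e2 : (y - p) = (y - z) + (z - q) - (p - q) := by ring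
    rw [e1, inner_neg_right, e2, inner_sub_left, inner_add_left, real_inner_self_eq_norm_sq]
    ring
  have c : ‖p - q‖ ^ 2 ≤ inner ℝ (y - z) (p - q) := by linarith
  have d : inner ℝ (y - z) (p - q) ≤ ‖y - z‖ * ‖p - q‖ := real_inner_le_norm _ _
  by_cases h0 : ‖p - q‖ = 0
  · rw [h0]; exact norm_nonneg _
  · have h0' : 0 < ‖p - q‖ := lt_of_le_of_ne (norm_nonneg _) (Ne.symm h0)
    have : ‖p - q‖ * ‖p - q‖ ≤ ‖y - z‖ * ‖p - q‖ := by nlinarith
    exact le_of_mul_le_mul_right this h0'

/-- A ray from a point of a bounded closed set hits the frontier. -/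
theorem ray_hits {K' : Set ℂ} (hb : Bornology.IsBounded K') (hc' : IsClosed K') {x n : ℂ}
    (hx : x ∈ K') (hn : n ≠ 0) : ∃ t : ℝ, 0 ≤ t ∧ x + (t : ℂ) * n ∈ frontier K' := by
  by_contra hcon
  push Not at hcon
  -- the set of t ≥ 0 with x + t n ∈ K' is clopen in [0,∞)
  set S : Set ℝ := {t | 0 ≤ t ∧ ∀ s ∈ Icc 0 t, x + (s : ℂ) * n ∈ K'} with hS
  have h0 : (0 : ℝ) ∈ S := by
    refine ⟨le_refl _, fun s hs => ?_⟩
    have : s = 0 := le_antisymm hs.2 hs.1
    simpa [this] using hx
  obtain ⟨R, hR⟩ := hb.exists_norm_le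
  have hbd : ∀ t ∈ S, t ≤ (R + ‖x‖) / ‖n‖ := by
    intro t ht
    have h1 := hR _ (ht.2 t ⟨ht.1, le_refl _⟩)
    have hn' : 0 < ‖n‖ := norm_pos_iff.2 hn
    rw [le_div_iff₀ hn']
    have h2 : ‖(t : ℂ) * n‖ ≤ ‖x + (t : ℂ) * n‖ + ‖x‖ := by
      calc ‖(t : ℂ) * n‖ = ‖(x + (t : ℂ) * n) - x‖ := by ring_nf
        _ ≤ _ := norm_sub_le _ _
    rw [norm_mul, Complex.norm_real, Real.norm_eq_abs, abs_of_nonneg ht.1] at h2
    linarith
  have hbdd : BddAbove S := ⟨_, hbd⟩
  set T := sSup S with hT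
  have hT0 : 0 ≤ T := le_csSup hbdd h0
  have hcont : Continuous (fun t : ℝ => x + (t : ℂ) * n) := by fun_prop
  -- all s < T are in K'
  have hlt : ∀ s, 0 ≤ s → s < T → x + (s : ℂ) * n ∈ K' := by
    intro s hs0 hsT
    obtain ⟨t, ht, hst⟩ := exists_lt_of_lt_csSup ⟨0, h0⟩ hsT
    exact ht.2 s ⟨hs0, hst.le⟩
  have hTK : x + (T : ℂ) * n ∈ K' := by
    rcases hT0.eq_or_lt with h | h
    · rw [← h]; simpa using hx
    · have hcl : x + (T : ℂ) * n ∈ closure K' := by
        have hT' : T ∈ closure (Ico 0 T) := by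
          rw [closure_Ico h.ne]; exact ⟨hT0, le_refl _⟩
        have := hcont.closure_preimage_subset K' (closure_mono (s := Ico 0 T)
          (fun s hs => hlt s hs.1 hs.2) hT')
        exact this
      rwa [hc'.closure_eq] at hcl
  have hTint : x + (T : ℂ) * n ∈ interior K' := by
    by_contra hne
    exact hcon T hT0 ⟨subset_closure hTK, hne⟩
  have hopen : IsOpen ((fun t : ℝ => x + (t : ℂ) * n) ⁻¹' interior K') :=
    isOpen_interior.preimage hcont
  obtain ⟨ε, hε, hball⟩ := Metric.isOpen_iff.1 hopen T hTint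
  have hmem : T + ε / 2 ∈ S := by
    refine ⟨by positivity, fun s hs => ?_⟩
    rcases lt_or_ge s T with h | h
    · exact hlt s hs.1 h
    · have : s ∈ ball T ε := by
        rw [Metric.mem_ball, Real.dist_eq, abs_of_nonneg (by linarith)]
        linarith [hs.2]
      exact interior_subset (hball this)
  have := le_csSup hbdd hmem
  linarith

theorem frontier_mono {K K' : Set ℂ} (hK : IsClosed K) (hc : Convex ℝ K) (hn : (interior K).Nonempty)
    (hb : Bornology.IsBounded K') (hc' : IsClosed K') (h : K ⊆ K') :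
    μH[1] (frontier K) ≤ μH[1] (frontier K') := by
  classical
  have hne : K.Nonempty := hn.mono interior_subset
  choose π hπ hπ2 using exists_proj hK hc hne
  have hlip : LipschitzWith 1 π := by
    refine LipschitzWith.of_dist_le_mul fun y z => ?_
    rw [dist_eq_norm, dist_eq_norm, NNReal.coe_one, one_mul]
    exact proj_lip (hπ y) (hπ z) (hπ2 y) (hπ2 z)
  have hsub : frontier K ⊆ π '' (frontier K') := by
    intro x hx
    have hxK : x ∈ K := hK.frontier_subset hx
    obtain ⟨f, hf, hfx⟩ := geometric_hahn_banach_of_nonempty_interior_point hc hx.2 hn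
    set n := (InnerProductSpace.toDual ℝ ℂ).symm f with hndef
    have hfn : ∀ w, f w = inner ℝ n w := fun w => by
      rw [hndef, InnerProductSpace.toDual_symm_apply]
    have hn0 : n ≠ 0 := by
      intro h0
      apply hf
      ext w
      all_goals simp [hfn, h0]
    obtain ⟨t, ht0, ht⟩ := ray_hits hb hc' (h hxK) hn0
    refine ⟨_, ht, ?_⟩
    -- π (x + t n) = x
    set y := x + (t : ℂ) * n with hy
    have hyx : y - x = t • n := by rw [hy]; simp
    have hvx : ∀ w ∈ K, inner ℝ (y - x) (w - x) ≤ 0 := by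
      intro w hw
      rw [hyx, inner_smul_left, ← hfn, map_sub]
      have := hfx w hw
      simp only [conj_trivial]
      nlinarith
    have := proj_lip (hπ y) hxK (hπ2 y) hvx
    rw [sub_self, norm_zero] at this
    exact sub_eq_zero.1 (norm_le_zero_iff.1 this)
  calc μH[1] (frontier K) ≤ μH[1] (π '' (frontier K')) := measure_mono hsub
    _ ≤ ((1 : NNReal) : ENNReal) ^ (1 : ℝ) * μH[1] (frontier K') :=
        hlip.hausdorffMeasure_image_le (by norm_num) _
    _ = μH[1] (frontier K') := by simp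

theorem frontier_smul (r : ℝ) (hr : 0 < r) (K : Set ℂ) :
    μH[1] (frontier (r • K)) = ENNReal.ofReal r * μH[1] (frontier K) := by
  have h1 : frontier (r • K) = r • frontier K := by
    have := (Homeomorph.smulOfNeZero r hr.ne' : ℂ ≃ₜ ℂ).image_frontier K
    simpa [← image_smul] using this.symm
  rw [h1, Measure.hausdorffMeasure_smul₀ (by norm_num) hr.ne']
  rw [NNReal.rpow_one, Real.nnnorm_of_nonneg hr.le, ENNReal.smul_def, smul_eq_mul]
  congr 1
  rw [ENNReal.ofReal, Real.toNNReal_of_nonneg hr.le]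

/-- The length of a curve is at least the distance of its end points. -/
theorem chord_le {γ : ℝ → ℂ} {a b : ℝ} (hab : a ≤ b) (hγ : ContinuousOn γ (Icc a b)) {S : Set ℂ}
    (hS : γ '' Ioo a b ⊆ S) : ENNReal.ofReal ‖γ b - γ a‖ ≤ μH[1] S := by
  by_cases h0 : γ b = γ a
  · simp [h0]
  have hL : 0 < ‖γ b - γ a‖ := norm_pos_iff.2 (sub_ne_zero.2 h0)
  set w : ℂ := ((‖γ b - γ a‖⁻¹ : ℝ) : ℂ) * (γ b - γ a) with hw
  have hw1 : ‖w‖ = 1 := by
    rw [hw, norm_mul, Complex.norm_real, norm_inv, norm_norm, inv_mul_cancel₀ hL.ne']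
  set f : ℂ → ℝ := fun x => inner ℝ w (x - γ a) with hf
  have hlip : LipschitzWith 1 f := by
    refine LipschitzWith.of_dist_le_mul fun y z => ?_
    rw [dist_eq_norm, dist_eq_norm, NNReal.coe_one, one_mul, hf]
    simp only
    rw [← inner_sub_right, Real.norm_eq_abs]
    calc |inner ℝ w (y - γ a - (z - γ a))| ≤ ‖w‖ * ‖y - γ a - (z - γ a)‖ := abs_real_inner_le_norm _ _
      _ = ‖y - z‖ := by rw [hw1, one_mul]; congr 1; ring
  have hfa : f (γ a) = 0 := by simp [hf]
  have hfb : f (γ b) = ‖γ b - γ a‖ := by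
    have e : w = (‖γ b - γ a‖⁻¹ : ℝ) • (γ b - γ a) := by rw [hw]; simp
    rw [hf]
    simp only
    rw [e, inner_smul_left, real_inner_self_eq_norm_sq]
    simp only [conj_trivial]
    field_simp
  have hcont : ContinuousOn (f ∘ γ) (Icc a b) := hlip.continuous.comp_continuousOn hγ
  have hiv := intermediate_value_Ioo hab hcont
  rw [Function.comp_apply, Function.comp_apply, hfa, hfb] at hiv
  have hsub : Ioo 0 ‖γ b - γ a‖ ⊆ f '' S := by
    refine hiv.trans ?_
    rw [image_comp]
    exact image_mono hS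
  calc ENNReal.ofReal ‖γ b - γ a‖ = volume (Ioo 0 ‖γ b - γ a‖) := by simp
    _ = μH[1] (Ioo 0 ‖γ b - γ a‖) := by rw [hausdorffMeasure_real]
    _ ≤ μH[1] (f '' S) := measure_mono hsub
    _ ≤ ((1 : NNReal) : ENNReal) ^ (1 : ℝ) * μH[1] S :=
        hlip.hausdorffMeasure_image_le (by norm_num) _
    _ = μH[1] S := by simp

/-- The length of the image of an interval under a 1-Lipschitz curve. -/
theorem curve_le {γ : ℝ → ℂ} {a b : ℝ} (hγ : LipschitzWith 1 γ) {S : Set ℂ}
    (hS : S ⊆ γ '' Icc a b) : μH[1] S ≤ ENNReal.ofReal (b - a) := by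
  calc μH[1] S ≤ μH[1] (γ '' Icc a b) := measure_mono hS
    _ ≤ ((1 : NNReal) : ENNReal) ^ (1 : ℝ) * μH[1] (Icc a b) :=
        hγ.hausdorffMeasure_image_le (by norm_num) _
    _ = ENNReal.ofReal (b - a) := by rw [hausdorffMeasure_real]; simp

theorem circleMap_re (R t : ℝ) : (circleMap 0 R t).re = R * Real.cos t := by
  simp [circleMap, Complex.exp_re]

theorem circleMap_im (R t : ℝ) : (circleMap 0 R t).im = R * Real.sin t := by
  simp [circleMap, Complex.exp_im]

theorem norm_circleMap_zero' (R t : ℝ) (hR : 0 ≤ R) : ‖circleMap 0 R t‖ = R := by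
  have := circleMap_mem_sphere 0 hR t
  simpa using this

theorem sphere_upper : μH[1] (sphere (0 : ℂ) 1) ≤ ENNReal.ofReal (2 * Real.pi) := by
  have h1 : LipschitzWith 1 (circleMap 0 1) := by
    have := lipschitzWith_circleMap 0 1
    simpa using this
  have h2 : sphere (0 : ℂ) 1 ⊆ circleMap 0 1 '' Icc 0 (2 * Real.pi) := by
    have := image_circleMap_Ioc 0 1
    rw [abs_one] at this
    rw [← this]
    exact image_mono Ioc_subset_Icc_self
  have := curve_le h1 h2
  simpa using this

theorem arc_le {a b : ℝ} (hab : a ≤ b) {S : Set ℂ} (c : ℝ) (hc : c ^ 2 = (Real.cos b - Real.cos a) ^ 2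
    + (Real.sin b - Real.sin a) ^ 2) (h0 : 0 ≤ c) (hS : ∀ t ∈ Ioo a b, circleMap 0 1 t ∈ S) :
    ENNReal.ofReal c ≤ μH[1] S := by
  have h := chord_le (γ := circleMap 0 1) hab (continuous_circleMap 0 1).continuousOn
    (S := S) (by rintro _ ⟨t, ht, rfl⟩; exact hS t ht)
  have e : ‖circleMap 0 1 b - circleMap 0 1 a‖ = c := by
    rw [← abs_of_nonneg h0, ← Real.sqrt_sq_eq_abs, Complex.norm_def, Complex.normSq_apply]
    rw [Complex.sub_re, Complex.sub_im, circleMap_re, circleMap_re, circleMap_im, circleMap_im, hc]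
    congr 1
    ring
  rwa [e] at h

theorem sphere_lower : ENNReal.ofReal 5.6 ≤ μH[1] (sphere (0 : ℂ) 1) := by
  set S := sphere (0 : ℂ) 1 with hS
  have hmem : ∀ t, circleMap 0 1 t ∈ S := fun t => circleMap_mem_sphere 0 zero_le_one t
  have hm1 : MeasurableSet {x : ℂ | 0 < x.im} :=
    (isOpen_lt continuous_const Complex.continuous_im).measurableSet
  have hm2 : MeasurableSet {x : ℂ | 0 < x.re} :=
    (isOpen_lt continuous_const Complex.continuous_re).measurableSet
  have e0 := measure_inter_add_sdiff (μ := μH[1]) S hm1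
  have e1 := measure_inter_add_sdiff (μ := μH[1]) (S ∩ {x : ℂ | 0 < x.im}) hm2
  have e2 := measure_inter_add_sdiff (μ := μH[1]) (S \ {x : ℂ | 0 < x.im}) hm2
  have hs2 : (√2 : ℝ) ^ 2 = 2 := Real.sq_sqrt (by norm_num)
  have hpi := Real.pi_pos
  have a1 : ENNReal.ofReal (√2) ≤ μH[1] ((S ∩ {x : ℂ | 0 < x.im}) ∩ {x : ℂ | 0 < x.re}) := by
    refine arc_le (a := 0) (b := Real.pi / 2) (by positivity) _ ?_ (by positivity) ?_
    · rw [hs2]; simp; norm_num
    · intro t ht
      refine ⟨⟨hmem t, ?_⟩, ?_⟩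
      · simp only [mem_ofPred_eq, circleMap_im, one_mul]
        exact Real.sin_pos_of_pos_of_lt_pi ht.1 (by linarith [ht.2])
      · simp only [mem_ofPred_eq, circleMap_re, one_mul]
        exact Real.cos_pos_of_mem_Ioo ⟨by linarith [ht.1], ht.2⟩
  have a2 : ENNReal.ofReal (√2) ≤ μH[1] ((S ∩ {x : ℂ | 0 < x.im}) \ {x : ℂ | 0 < x.re}) := by
    refine arc_le (a := Real.pi / 2) (b := Real.pi) (by linarith) _ ?_ (by positivity) ?_
    · rw [hs2]; simp; norm_num
    · intro t ht
      refine ⟨⟨hmem t, ?_⟩, ?_⟩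
      · simp only [mem_ofPred_eq, circleMap_im, one_mul]
        exact Real.sin_pos_of_pos_of_lt_pi (by linarith [ht.1]) ht.2
      · simp only [mem_ofPred_eq, circleMap_re, one_mul, not_lt]
        exact Real.cos_nonpos_of_pi_div_two_le_of_le ht.1.le (by linarith [ht.2])
  have a3 : ENNReal.ofReal (√2) ≤ μH[1] ((S \ {x : ℂ | 0 < x.im}) \ {x : ℂ | 0 < x.re}) := by
    refine arc_le (a := -Real.pi) (b := -(Real.pi / 2)) (by linarith) _ ?_ (by positivity) ?_
    · rw [hs2]; simp; norm_num
    · intro t ht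
      refine ⟨⟨hmem t, ?_⟩, ?_⟩
      · simp only [mem_ofPred_eq, circleMap_im, one_mul, not_lt]
        exact (Real.sin_neg_of_neg_of_neg_pi_lt (by linarith [ht.2]) ht.1).le
      · simp only [mem_ofPred_eq, circleMap_re, one_mul, not_lt]
        rw [← Real.cos_neg]
        exact Real.cos_nonpos_of_pi_div_two_le_of_le (by linarith [ht.2]) (by linarith [ht.1])
  have a4 : ENNReal.ofReal (√2) ≤ μH[1] ((S \ {x : ℂ | 0 < x.im}) ∩ {x : ℂ | 0 < x.re}) := by
    refine arc_le (a := -(Real.pi / 2)) (b := 0) (by linarith) _ ?_ (by positivity) ?_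
    · rw [hs2]; simp; norm_num
    · intro t ht
      refine ⟨⟨hmem t, ?_⟩, ?_⟩
      · simp only [mem_ofPred_eq, circleMap_im, one_mul, not_lt]
        exact (Real.sin_neg_of_neg_of_neg_pi_lt ht.2 (by linarith [ht.1])).le
      · simp only [mem_ofPred_eq, circleMap_re, one_mul]
        exact Real.cos_pos_of_mem_Ioo ⟨by linarith [ht.1], by linarith [ht.2]⟩
  have hsqrt : (1.4 : ℝ) ≤ √2 := by
    rw [Real.le_sqrt (by norm_num) (by norm_num)]; norm_num
  have key : ENNReal.ofReal (√2) + ENNReal.ofReal (√2) + (ENNReal.ofReal (√2) + ENNReal.ofReal (√2))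
      ≤ μH[1] S := by
    rw [← e0, ← e1, ← e2]
    gcongr
  refine le_trans ?_ key
  rw [← ENNReal.ofReal_add (by positivity) (by positivity),
    ← ENNReal.ofReal_add (by positivity) (by positivity)]
  apply ENNReal.ofReal_le_ofReal
  linarith

theorem circ_bounds : 5.6 ≤ circ ∧ circ ≤ 6.3 ∧ ∀ r : ℝ, 0 < r →
    μH[1] (sphere (0 : ℂ) r) = ENNReal.ofReal (r * circ) ∧
    μH[1] (frontier (closedBall (0 : ℂ) r)) = ENNReal.ofReal (r * circ) := by
  have hpi : 2 * Real.pi ≤ 6.3 := by
    have := Real.pi_lt_d2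
    linarith
  have hfin : μH[1] (sphere (0 : ℂ) 1) ≠ ⊤ := ne_top_of_le_ne_top ENNReal.ofReal_ne_top sphere_upper
  refine ⟨?_, ?_, ?_⟩
  · unfold circ
    rw [← ENNReal.ofReal_le_iff_le_toReal hfin]
    exact sphere_lower
  · unfold circ
    refine le_trans ?_ hpi
    exact ENNReal.toReal_le_of_le_ofReal (by positivity) sphere_upper
  · intro r hr
    have h1 : μH[1] (sphere (0 : ℂ) r) = ENNReal.ofReal (r * circ) := by
      have e : sphere (0 : ℂ) r = r • sphere (0 : ℂ) 1 := by
        rw [smul_sphere' hr.ne']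
        simp [abs_of_pos hr]
      rw [e, Measure.hausdorffMeasure_smul₀ (by norm_num) hr.ne']
      rw [NNReal.rpow_one, Real.nnnorm_of_nonneg hr.le, ENNReal.smul_def, smul_eq_mul,
        ENNReal.ofReal_mul hr.le, circ, ENNReal.ofReal_toReal hfin]
      congr 1
      rw [ENNReal.ofReal, Real.toNNReal_of_nonneg hr.le]
    exact ⟨h1, by rw [frontier_closedBall _ hr.ne']; exact h1⟩

theorem line_lip (p v : ℂ) (hv : ‖v‖ = 1) : LipschitzWith 1 (fun t : ℝ => p + (t : ℂ) * v) := by
  refine LipschitzWith.of_dist_le_mul fun y z => ?_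
  rw [dist_eq_norm, dist_eq_norm, NNReal.coe_one, one_mul]
  have : p + (y : ℂ) * v - (p + (z : ℂ) * v) = ((y - z : ℝ) : ℂ) * v := by push_cast; ring
  rw [this, norm_mul, hv, mul_one, Complex.norm_real]

theorem mul_conj_one {u : ℂ} (hu : ‖u‖ = 1) : (starRingEnd ℂ) u * u = 1 := by
  rw [mul_comm, Complex.mul_conj, Complex.normSq_eq_norm_sq, hu]; simp

theorem frontier_le_of_subset_rect {K : Set ℂ} (hK : IsClosed K) (hc : Convex ℝ K)
    (hn : (interior K).Nonempty) (z u : ℂ) (hu : ‖u‖ = 1) (α β : ℝ)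
    (h : ∀ x ∈ K, |((x - z) * (starRingEnd ℂ) u).re| ≤ α ∧ |((x - z) * (starRingEnd ℂ) u).im| ≤ β) :
    μH[1] (frontier K) ≤ ENNReal.ofReal (4 * α + 4 * β) := by
  set g : ℂ → ℂ := fun x => (x - z) * (starRingEnd ℂ) u with hg
  have hgc : Continuous g := by fun_prop
  set R' : Set ℂ := {x | |(g x).re| ≤ α ∧ |(g x).im| ≤ β} with hR'
  obtain ⟨x0, hx0⟩ := hn.mono interior_subset
  have hα : 0 ≤ α := (abs_nonneg _).trans (h x0 hx0).1
  have hβ : 0 ≤ β := (abs_nonneg _).trans (h x0 hx0).2
  have hre : Continuous (fun x => |(g x).re|) := (Complex.continuous_re.comp hgc).abs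
  have him : Continuous (fun x => |(g x).im|) := (Complex.continuous_im.comp hgc).abs
  have hcl : IsClosed R' := (isClosed_le hre continuous_const).inter (isClosed_le him continuous_const)
  have hxg : ∀ x, x = z + g x * u := by
    intro x
    rw [hg]
    simp only
    rw [mul_assoc, mul_conj_one hu]
    ring
  have hbd : Bornology.IsBounded R' := by
    rw [isBounded_iff_forall_norm_le]
    refine ⟨‖z‖ + (α + β), fun x hx => ?_⟩
    rw [hxg x]
    refine (norm_add_le _ _).trans ?_
    rw [norm_mul, hu, mul_one]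
    have := Complex.norm_le_abs_re_add_abs_im (g x)
    linarith [hx.1, hx.2]
  have hmono := frontier_mono hK hc hn hbd hcl (fun x hx => h x hx)
  refine hmono.trans ?_
  -- four sides
  set s1 : Set ℂ := (fun t : ℝ => (z + α * u) + (t : ℂ) * (Complex.I * u)) '' Icc (-β) β with hs1
  set s2 : Set ℂ := (fun t : ℝ => (z - α * u) + (t : ℂ) * (Complex.I * u)) '' Icc (-β) β with hs2
  set s3 : Set ℂ := (fun t : ℝ => (z + β * Complex.I * u) + (t : ℂ) * u) '' Icc (-α) α with hs3
  set s4 : Set ℂ := (fun t : ℝ => (z - β * Complex.I * u) + (t : ℂ) * u) '' Icc (-α) α with hs4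
  have hiu : ‖Complex.I * u‖ = 1 := by rw [norm_mul, hu, Complex.norm_I, mul_one]
  have hfr : frontier R' ⊆ s1 ∪ s2 ∪ s3 ∪ s4 := by
    intro x hx
    have hxR : x ∈ R' := hcl.frontier_subset hx
    have hgx : g x = (g x).re + (g x).im * Complex.I := (Complex.re_add_im _).symm
    have hx' := hxg x
    by_cases h1 : |(g x).re| < α
    · by_cases h2 : |(g x).im| < β
      · exfalso
        apply hx.2
        have hop : IsOpen {x | |(g x).re| < α ∧ |(g x).im| < β} :=
          (isOpen_lt hre continuous_const).inter (isOpen_lt him continuous_const)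
        have hsub : {x | |(g x).re| < α ∧ |(g x).im| < β} ⊆ R' := fun y hy => ⟨hy.1.le, hy.2.le⟩
        exact interior_maximal hsub hop ⟨h1, h2⟩
      · have h3 : |(g x).im| = β := le_antisymm hxR.2 (not_lt.1 h2)
        rcases abs_cases (g x).im with h4 | h4
        · left; right
          refine ⟨(g x).re, abs_le.1 hxR.1, ?_⟩
          simp only
          nth_rewrite 2 [hx']
          rw [hgx]
          have : ((g x).im : ℂ) = (β : ℂ) := by rw [← h3, h4.1]
          simp only [Complex.add_re, Complex.ofReal_re, Complex.mul_re, Complex.I_re, Complex.I_im,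
            Complex.ofReal_im, mul_zero, mul_one, sub_self, add_zero]
          rw [this]
          ring
        · right
          refine ⟨(g x).re, abs_le.1 hxR.1, ?_⟩
          simp only
          nth_rewrite 2 [hx']
          rw [hgx]
          have : ((g x).im : ℂ) = -(β : ℂ) := by rw [← h3, h4.1]; simp
          simp only [Complex.add_re, Complex.ofReal_re, Complex.mul_re, Complex.I_re, Complex.I_im,
            Complex.ofReal_im, mul_zero, mul_one, sub_self, add_zero]
          rw [this]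
          ring
    · have h3 : |(g x).re| = α := le_antisymm hxR.1 (not_lt.1 h1)
      rcases abs_cases (g x).re with h4 | h4
      · left; left; left
        refine ⟨(g x).im, abs_le.1 hxR.2, ?_⟩
        simp only
        nth_rewrite 2 [hx']
        rw [hgx]
        have : ((g x).re : ℂ) = (α : ℂ) := by rw [← h3, h4.1]
        simp only [Complex.add_im, Complex.ofReal_im, Complex.mul_im, Complex.I_re, Complex.I_im,
            Complex.ofReal_re, mul_zero, mul_one, add_zero, zero_add]
        rw [this]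
        ring
      · left; left; right
        refine ⟨(g x).im, abs_le.1 hxR.2, ?_⟩
        simp only
        nth_rewrite 2 [hx']
        rw [hgx]
        have : ((g x).re : ℂ) = -(α : ℂ) := by rw [← h3, h4.1]; simp
        simp only [Complex.add_im, Complex.ofReal_im, Complex.mul_im, Complex.I_re, Complex.I_im,
            Complex.ofReal_re, mul_zero, mul_one, add_zero, zero_add]
        rw [this]
        ring
  have b1 : μH[1] s1 ≤ ENNReal.ofReal (β - -β) := curve_le (line_lip _ _ hiu) (subset_refl _)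
  have b2 : μH[1] s2 ≤ ENNReal.ofReal (β - -β) := curve_le (line_lip _ _ hiu) (subset_refl _)
  have b3 : μH[1] s3 ≤ ENNReal.ofReal (α - -α) := curve_le (line_lip _ _ hu) (subset_refl _)
  have b4 : μH[1] s4 ≤ ENNReal.ofReal (α - -α) := curve_le (line_lip _ _ hu) (subset_refl _)
  calc μH[1] (frontier R') ≤ μH[1] (s1 ∪ s2 ∪ s3 ∪ s4) := measure_mono hfr
    _ ≤ μH[1] s1 + μH[1] s2 + μH[1] s3 + μH[1] s4 :=
        (measure_union_le _ _).trans (add_le_add ((measure_union_le _ _).trans
          (add_le_add (measure_union_le _ _) le_rfl)) le_rfl)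
    _ ≤ ENNReal.ofReal (β - -β) + ENNReal.ofReal (β - -β) + ENNReal.ofReal (α - -α)
        + ENNReal.ofReal (α - -α) := by gcongr
    _ = ENNReal.ofReal (4 * α + 4 * β) := by
        rw [← ENNReal.ofReal_add (by linarith) (by linarith),
          ← ENNReal.ofReal_add (by linarith) (by linarith),
          ← ENNReal.ofReal_add (by linarith) (by linarith)]
        congr 1
        ring

theorem frontier_le_of_subset_cap {K : Set ℂ} (hK : IsClosed K) (hc : Convex ℝ K)
    (hn : (interior K).Nonempty) (u : ℂ) (hu : ‖u‖ = 1) (R h : ℝ) (hh : 0 < h) (hR : h < R)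
    (hKR : ∀ x ∈ K, ‖x‖ ≤ R ∧ (x * (starRingEnd ℂ) u).re ≤ h) :
    μH[1] (frontier K) ≤ ENNReal.ofReal (R * circ - (R - h) * √(R - h) / √(2 * R)) := by
  have hR0 : 0 < R := hh.trans hR
  set g : ℂ → ℂ := fun x => x * (starRingEnd ℂ) u with hg
  have hgc : Continuous g := by fun_prop
  have hre : Continuous (fun x => (g x).re) := Complex.continuous_re.comp hgc
  have him : Continuous (fun x => (g x).im) := Complex.continuous_im.comp hgc
  have hxg : ∀ x, x = g x * u := by
    intro x
    rw [hg]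
    simp only
    rw [mul_assoc, mul_conj_one hu]
    ring
  have hng : ∀ x, ‖g x‖ = ‖x‖ := by
    intro x
    rw [hg]
    simp only
    rw [norm_mul, RCLike.norm_conj, hu, mul_one]
  have hgu : ∀ w : ℂ, g (w * u) = w := by
    intro w
    rw [hg]
    simp only
    rw [mul_assoc, mul_comm u, mul_conj_one hu, mul_one]
  set D : Set ℂ := {x | ‖x‖ ≤ R ∧ (g x).re ≤ h} with hD
  have hcl : IsClosed D := (isClosed_le continuous_norm continuous_const).inter
    (isClosed_le hre continuous_const)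
  have hbd : Bornology.IsBounded D := by
    rw [isBounded_iff_forall_norm_le]
    exact ⟨R, fun x hx => hx.1⟩
  refine (frontier_mono hK hc hn hbd hcl (fun x hx => hKR x hx)).trans ?_
  set b := √(R ^ 2 - h ^ 2) with hb
  have hb2 : b ^ 2 = R ^ 2 - h ^ 2 := Real.sq_sqrt (by nlinarith)
  have hb0 : 0 ≤ b := Real.sqrt_nonneg _
  set S := sphere (0 : ℂ) R with hS
  set C : Set ℂ := (fun t : ℝ => (h * u) + (t : ℂ) * (Complex.I * u)) '' Icc (-b) b with hC
  have hiu : ‖Complex.I * u‖ = 1 := by rw [norm_mul, hu, Complex.norm_I, mul_one]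
  set P : Set ℂ := {x | h < (g x).re} with hP
  have hPm : MeasurableSet P := (isOpen_lt continuous_const hre).measurableSet
  have hfr : frontier D ⊆ (S \ P) ∪ C := by
    intro x hx
    have hxD : x ∈ D := hcl.frontier_subset hx
    by_cases h1 : ‖x‖ < R
    · right
      have h2 : (g x).re = h := by
        by_contra hne
        have h3 : (g x).re < h := lt_of_le_of_ne hxD.2 hne
        apply hx.2
        have hop : IsOpen {x | ‖x‖ < R ∧ (g x).re < h} :=
          (isOpen_lt continuous_norm continuous_const).inter (isOpen_lt hre continuous_const)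
        have hsub : {x | ‖x‖ < R ∧ (g x).re < h} ⊆ D := fun y hy => ⟨hy.1.le, hy.2.le⟩
        exact interior_maximal hsub hop ⟨h1, h3⟩
      refine ⟨(g x).im, ?_, ?_⟩
      · have : (g x).im ^ 2 ≤ b ^ 2 := by
          have e1 : (g x).re ^ 2 + (g x).im ^ 2 = ‖x‖ ^ 2 := by
            rw [← hng x, ← Complex.normSq_eq_norm_sq, Complex.normSq_apply]; ring
          rw [h2] at e1
          have : ‖x‖ ^ 2 ≤ R ^ 2 := by
            have := norm_nonneg x
            nlinarith
          nlinarith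
        exact abs_le.1 (abs_le_of_sq_le_sq this hb0)
      · simp only
        nth_rewrite 2 [hxg x]
        nth_rewrite 2 [← Complex.re_add_im (g x)]
        rw [h2]
        ring
    · left
      refine ⟨?_, ?_⟩
      · rw [hS, mem_sphere_zero_iff_norm]
        exact le_antisymm hxD.1 (not_lt.1 h1)
      · simp only [hP, mem_ofPred_eq, not_lt]
        exact hxD.2
  have hCle : μH[1] C ≤ ENNReal.ofReal (b - -b) := curve_le (line_lip _ _ hiu) (subset_refl _)
  -- lower bound for the cap
  set θ := Real.arccos (h / R) with hθ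
  have hq0 : 0 < h / R := div_pos hh hR0
  have hq1 : h / R < 1 := (div_lt_one hR0).2 hR
  have hcos : Real.cos θ = h / R := Real.cos_arccos (by linarith) hq1.le
  have hθ0 : 0 < θ := Real.arccos_pos.2 hq1
  have hθ1 : θ < Real.pi / 2 := Real.arccos_lt_pi_div_two.2 hq0
  have hpi := Real.pi_pos
  set γ : ℝ → ℂ := fun t => circleMap 0 R t * u with hγ
  have hγc : Continuous γ := (continuous_circleMap 0 R).mul continuous_const
  have hγS : ∀ t, γ t ∈ S := by
    intro t
    rw [hS, mem_sphere_zero_iff_norm, hγ]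
    simp only
    rw [norm_mul, hu, mul_one, norm_circleMap_zero' R t hR0.le]
  have hγg : ∀ t, g (γ t) = circleMap 0 R t := fun t => hgu _
  have hcg : ∀ t, |t| < θ → γ t ∈ P := by
    intro t ht
    simp only [hP, mem_ofPred_eq]
    rw [hγg, circleMap_re]
    have h1 : Real.cos θ < Real.cos |t| :=
      Real.cos_lt_cos_of_nonneg_of_le_pi (abs_nonneg _) (by linarith) ht
    rw [Real.cos_abs, hcos] at h1
    rw [div_lt_iff₀ hR0] at h1
    linarith
  set Q : Set ℂ := {x | 0 < (g x).im} with hQ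
  have hQm : MeasurableSet Q := (isOpen_lt continuous_const him).measurableSet
  set c := √(2 * R * (R - h)) with hcdef
  have hc2 : c ^ 2 = 2 * R * (R - h) := Real.sq_sqrt (by nlinarith)
  have hc0 : 0 ≤ c := Real.sqrt_nonneg _
  have hdist : ∀ s : ℝ, (s = θ ∨ s = -θ) → ‖γ s - γ 0‖ = c := by
    intro s hs
    have hcs : Real.cos s = h / R := by
      rcases hs with rfl | rfl
      · exact hcos
      · rw [Real.cos_neg]; exact hcos
    have e1 : γ s - γ 0 = (circleMap 0 R s - circleMap 0 R 0) * u := by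
      rw [hγ]; ring
    rw [e1, norm_mul, hu, mul_one, ← abs_of_nonneg (norm_nonneg (circleMap 0 R s - circleMap 0 R 0)),
      ← abs_of_nonneg hc0]
    refine (sq_eq_sq_iff_abs_eq_abs _ _).1 ?_
    rw [← Complex.normSq_eq_norm_sq, Complex.normSq_apply, Complex.sub_re, Complex.sub_im,
      circleMap_re, circleMap_re, circleMap_im, circleMap_im, hc2, hcs]
    have hsc := Real.sin_sq_add_cos_sq s
    rw [hcs] at hsc
    simp only [Real.cos_zero, Real.sin_zero, mul_zero, sub_zero, mul_one]
    have hRne : R ≠ 0 := hR0.ne'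
    have e2 : R * (h / R) = h := by field_simp
    rw [e2]
    have e3 : R ^ 2 * (Real.sin s ^ 2 + (h / R) ^ 2) = R ^ 2 := by rw [hsc]; ring
    have e4 : R ^ 2 * (h / R) ^ 2 = h ^ 2 := by field_simp
    nlinarith
  have harc1 : ENNReal.ofReal c ≤ μH[1] ((S ∩ P) ∩ Q) := by
    have := chord_le (γ := γ) (a := 0) (b := θ) hθ0.le hγc.continuousOn (S := (S ∩ P) ∩ Q) ?_
    · rwa [hdist θ (Or.inl rfl)] at this
    · rintro _ ⟨t, ht, rfl⟩
      refine ⟨⟨hγS t, hcg t ?_⟩, ?_⟩
      · rw [abs_of_pos ht.1]; exact ht.2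
      · simp only [hQ, mem_ofPred_eq]
        rw [hγg, circleMap_im]
        exact mul_pos hR0 (Real.sin_pos_of_pos_of_lt_pi ht.1 (by linarith [ht.2]))
  have harc2 : ENNReal.ofReal c ≤ μH[1] ((S ∩ P) \ Q) := by
    have := chord_le (γ := γ) (a := -θ) (b := 0) (by linarith) hγc.continuousOn (S := (S ∩ P) \ Q) ?_
    · rwa [norm_sub_rev, hdist (-θ) (Or.inr rfl)] at this
    · rintro _ ⟨t, ht, rfl⟩
      refine ⟨⟨hγS t, hcg t ?_⟩, ?_⟩
      · rw [abs_of_neg ht.2]; linarith [ht.1]
      · simp only [hQ, mem_ofPred_eq, not_lt]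
        rw [hγg, circleMap_im]
        have := Real.sin_neg_of_neg_of_neg_pi_lt ht.2 (by linarith [ht.1])
        nlinarith
  have hSP : ENNReal.ofReal (2 * c) ≤ μH[1] (S ∩ P) := by
    rw [← measure_inter_add_sdiff (μ := μH[1]) (S ∩ P) hQm]
    have : ENNReal.ofReal (2 * c) = ENNReal.ofReal c + ENNReal.ofReal c := by
      rw [← ENNReal.ofReal_add hc0 hc0]; congr 1; ring
    rw [this]
    exact add_le_add harc1 harc2
  have hStot : μH[1] S = ENNReal.ofReal (R * circ) := (circ_bounds.2.2 R hR0).1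
  have hcirc : 5.6 ≤ circ := circ_bounds.1
  have hSdiff : μH[1] (S \ P) ≤ ENNReal.ofReal (R * circ - 2 * c) := by
    have e := measure_inter_add_sdiff (μ := μH[1]) S hPm
    rw [hStot] at e
    rw [ENNReal.ofReal_sub _ (by positivity)]
    have h1 : μH[1] (S ∩ P) ≠ ⊤ := ne_top_of_le_ne_top ENNReal.ofReal_ne_top
      (e ▸ le_self_add)
    have h2 : μH[1] (S \ P) = ENNReal.ofReal (R * circ) - μH[1] (S ∩ P) :=
      ENNReal.eq_sub_of_add_eq h1 (by rw [add_comm]; exact e)
    rw [h2]
    exact tsub_le_tsub_left hSP _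
  -- numerical inequality
  set s := √(R - h) with hs
  have hs2 : s ^ 2 = R - h := Real.sq_sqrt (by linarith)
  have hs0 : 0 < s := Real.sqrt_pos.2 (by linarith)
  set r := √(2 * R) with hr
  have hr2 : r ^ 2 = 2 * R := Real.sq_sqrt (by linarith)
  have hr0 : 0 < r := Real.sqrt_pos.2 (by linarith)
  have hcr : c = r * s := by
    rw [hcdef, hr, hs, ← Real.sqrt_mul (by linarith)]
  set r' := √(R + h) with hr'
  have hr'2 : r' ^ 2 = R + h := Real.sq_sqrt (by linarith)
  have hr'0 : 0 < r' := Real.sqrt_pos.2 (by linarith)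
  have hbr : b = r' * s := by
    rw [hb, hr', hs, ← Real.sqrt_mul (by linarith)]
    congr 1
    ring
  have hr'r : r' ≤ r := Real.sqrt_le_sqrt (by linarith)
  have hdiff : (R - h) * s / r ≤ 2 * c - 2 * b := by
    rw [div_le_iff₀ hr0, hcr, hbr, ← hs2]
    have e : s ^ 2 = r ^ 2 - r' ^ 2 := by rw [hs2, hr2, hr'2]; ring
    rw [e]
    have : 0 ≤ (r - r') * s * (2 * r - (r + r')) :=
      mul_nonneg (mul_nonneg (by linarith) hs0.le) (by linarith)
    nlinarith
  have hRc : 2 * c ≤ R * circ := by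
    have hle : ENNReal.ofReal (2 * c) ≤ ENNReal.ofReal (R * circ) :=
      hSP.trans ((measure_mono inter_subset_left).trans hStot.le)
    exact (ENNReal.ofReal_le_ofReal_iff (by positivity)).1 hle
  calc μH[1] (frontier D) ≤ μH[1] (S \ P) + μH[1] C := (measure_mono hfr).trans (measure_union_le _ _)
    _ ≤ ENNReal.ofReal (R * circ - 2 * c) + ENNReal.ofReal (b - -b) := add_le_add hSdiff hCle
    _ = ENNReal.ofReal (R * circ - 2 * c + (b - -b)) := by
        rw [ENNReal.ofReal_add (by linarith) (by linarith)]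
    _ ≤ ENNReal.ofReal (R * circ - (R - h) * s / r) := by
        apply ENNReal.ofReal_le_ofReal
        linarith

end Pool.Agent.MP0c2
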