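import Pool.Agent.Lib.MP_0c2aee_an.Main

/-! Transfer from `ℂ` to `EuclideanSpace ℝ (Fin 2)`. -/

set_option autoImplicit false

open MeasureTheory Set Metric Topology Filter

namespace Pool.Agent.MP0c2

abbrev E2 := EuclideanSpace ℝ (Fin 2)

/-- the isometry `ℂ ≃ E2` -/
noncomputable def Psi : ℂ ≃ₗᵢ[ℝ] E2 := Complex.orthonormalBasisOneI.repr

/-- the eigenvalue on `E2` -/
noncomputable def lamE (U : Set E2) : ENNReal :=
  ⨅ (u : E2 → ℝ) (_ : ContDiff ℝ 1 u ∧ HasCompactSupport u ∧ tsupport u ⊆ U ∧ u ≠ 0),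
    ENNReal.ofReal ((∫ x, ‖fderiv ℝ u x‖ ^ 2) / (∫ x, u x ^ 2))

lemma Psi_integral (f : E2 → ℝ) : ∫ x, f (Psi x) = ∫ y, f y :=
  Psi.measurePreserving.integral_comp Psi.toHomeomorph.measurableEmbedding f

lemma Psi_norm_fderiv (u : E2 → ℝ) (x : ℂ) : ‖fderiv ℝ (u ∘ Psi) x‖ = ‖fderiv ℝ u (Psi x)‖ := by
  have h : fderiv ℝ (u ∘ Psi) x = (fderiv ℝ u (Psi x)).comp (Psi : ℂ →L[ℝ] E2) :=
    Psi.toContinuousLinearEquiv.comp_right_fderiv
  rw [h]
  exact ContinuousLinearMap.opNorm_comp_linearIsometryEquiv _ Psi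

lemma Psi_comp {U : Set E2} {u : E2 → ℝ}
    (h : ContDiff ℝ 1 u ∧ HasCompactSupport u ∧ tsupport u ⊆ U ∧ u ≠ 0) :
    ContDiff ℝ 1 (u ∘ Psi) ∧ HasCompactSupport (u ∘ Psi) ∧ tsupport (u ∘ Psi) ⊆ Psi ⁻¹' U ∧ u ∘ Psi ≠ 0 := by
  obtain ⟨h1, h2, h3, h4⟩ := h
  refine ⟨h1.comp Psi.contDiff, h2.comp_homeomorph Psi.toHomeomorph, ?_, ?_⟩
  · have : tsupport (u ∘ Psi) = Psi ⁻¹' tsupport u := tsupport_comp_eq_preimage u Psi.toHomeomorph
    rw [this]; exact preimage_mono h3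
  · intro h0
    apply h4
    ext y
    have := congrFun h0 (Psi.symm y)
    simpa using this

lemma lam_preimage_le (U : Set E2) : lam (Psi ⁻¹' U) ≤ lamE U := by
  unfold lamE
  refine le_iInf₂ fun u hu => ?_
  have h := Psi_comp hu
  have h1 : lam (Psi ⁻¹' U) ≤ ENNReal.ofReal ((∫ x, ‖fderiv ℝ (u ∘ Psi) x‖ ^ 2) / (∫ x, (u ∘ Psi) x ^ 2)) := by
    unfold lam
    exact iInf₂_le (u ∘ Psi) h
  refine h1.trans (le_of_eq ?_)
  congr 2
  · rw [← Psi_integral (fun y => ‖fderiv ℝ u y‖ ^ 2)]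
    congr 1; ext x
    rw [Psi_norm_fderiv]
  · rw [← Psi_integral (fun y => u y ^ 2)]
    rfl

lemma lamE_le (U : Set E2) : lamE U ≤ lam (Psi ⁻¹' U) := by
  unfold lam
  refine le_iInf₂ fun u hu => ?_
  obtain ⟨h1, h2, h3, h4⟩ := hu
  set v : E2 → ℝ := u ∘ Psi.symm with hv
  have hvu : v ∘ Psi = u := by ext x; simp [hv]
  have hadm : ContDiff ℝ 1 v ∧ HasCompactSupport v ∧ tsupport v ⊆ U ∧ v ≠ 0 := by
    refine ⟨h1.comp Psi.symm.contDiff, h2.comp_homeomorph Psi.symm.toHomeomorph, ?_, ?_⟩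
    · have : tsupport v = Psi.symm ⁻¹' tsupport u :=
        tsupport_comp_eq_preimage u Psi.symm.toHomeomorph
      rw [this]
      intro y hy
      have := h3 hy
      simpa using this
    · intro h0
      apply h4
      rw [← hvu, h0]; rfl
  have h5 : lamE U ≤ ENNReal.ofReal ((∫ x, ‖fderiv ℝ v x‖ ^ 2) / (∫ x, v x ^ 2)) := by
    unfold lamE
    exact iInf₂_le v hadm
  refine h5.trans (le_of_eq ?_)
  congr 2
  · rw [← Psi_integral (fun y => ‖fderiv ℝ v y‖ ^ 2)]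
    congr 1; ext x
    rw [← Psi_norm_fderiv, hvu]
  · rw [← Psi_integral (fun y => v y ^ 2)]
    congr 1; ext x
    have := congrFun hvu x
    simp only [Function.comp] at this
    rw [this]

lemma lamE_eq (U : Set E2) : lamE U = lam (Psi ⁻¹' U) := le_antisymm (lamE_le U) (lam_preimage_le U)

lemma Psi_hausdorff (S : Set E2) : μH[1] (Psi ⁻¹' S) = μH[1] S :=
  Psi.toIsometryEquiv.hausdorffMeasure_preimage 1 S

lemma Psi_frontier (S : Set E2) : Psi ⁻¹' frontier S = frontier (Psi ⁻¹' S) :=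
  Psi.toHomeomorph.preimage_frontier S

lemma Psi_closure (S : Set E2) : Psi ⁻¹' closure S = closure (Psi ⁻¹' S) :=
  Psi.toHomeomorph.preimage_closure S

lemma Psi_interior (S : Set E2) : Psi ⁻¹' interior S = interior (Psi ⁻¹' S) :=
  Psi.toHomeomorph.preimage_interior S

lemma Psi_pre_im (S : Set ℂ) : Psi ⁻¹' (Psi '' S) = S := preimage_image_eq S Psi.injective

/-- the counterexample in `E2` -/
theorem exists_exampleE : ∃ (Ω : Set E2) (L : ℝ) (K : Set E2),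
    IsOpen Ω ∧ IsConnected Ω ∧ Bornology.IsBounded Ω ∧ 0 < L ∧
    ENNReal.ofReal L < μH[1] (frontier Ω) ∧ IsClosed K ∧ Convex ℝ K ∧ (interior K).Nonempty ∧
    K ⊆ closure Ω ∧ μH[1] (frontier K) = ENNReal.ofReal L ∧
    (∀ K' : Set E2, IsClosed K' → Convex ℝ K' → (interior K').Nonempty → K' ⊆ closure Ω →
      μH[1] (frontier K') = ENNReal.ofReal L → lamE (Ω \ K) ≤ lamE (Ω \ K')) ∧
    ¬ (K ∩ frontier Ω).Nonempty := by
  obtain ⟨Ω, L, K, h1, h2, h3, h4, h5, h6, h7, h8, h9, h10, h11, h12⟩ := exists_example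
  have eΩ := Psi_pre_im Ω
  have eK := Psi_pre_im K
  refine ⟨Psi '' Ω, L, Psi '' K, Psi.toHomeomorph.isOpenMap _ h1, h2.image _ Psi.continuous.continuousOn,
    ?_, h4, ?_, Psi.toHomeomorph.isClosedMap _ h6, ?_, ?_, ?_, ?_, ?_, ?_⟩
  · exact Psi.lipschitz.isBounded_image h3
  · rw [← Psi_hausdorff, Psi_frontier, eΩ]; exact h5
  · exact h7.linear_image Psi.toLinearEquiv.toLinearMap
  · obtain ⟨x, hx⟩ := h8
    refine ⟨Psi x, ?_⟩
    have : x ∈ Psi ⁻¹' interior (Psi '' K) := by rw [Psi_interior, eK]; exact hx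
    exact this
  · rintro y ⟨x, hx, rfl⟩
    have : x ∈ Psi ⁻¹' closure (Psi '' Ω) := by rw [Psi_closure, eΩ]; exact h9 hx
    exact this
  · rw [← Psi_hausdorff, Psi_frontier, eK]; exact h10
  · intro K' k1 k2 k3 k4 k5
    rw [lamE_eq, lamE_eq, preimage_sdiff, preimage_sdiff, eΩ, eK]
    apply h11
    · exact k1.preimage Psi.continuous
    · exact k2.linear_preimage Psi.toLinearEquiv.toLinearMap
    · obtain ⟨y, hy⟩ := k3
      refine ⟨Psi.symm y, ?_⟩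
      rw [← Psi_interior]
      simpa using hy
    · have := preimage_mono (f := Psi) k4
      rwa [Psi_closure, eΩ] at this
    · rw [← Psi_frontier, Psi_hausdorff]; exact k5
  · rintro ⟨y, ⟨x, hx, rfl⟩, hy2⟩
    apply h12
    refine ⟨x, hx, ?_⟩
    have : x ∈ Psi ⁻¹' frontier (Psi '' Ω) := hy2
    rwa [Psi_frontier, eΩ] at this

end Pool.Agent.MP0c2
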