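import Pool.Agent.Lib.MP_0c2aee_an.SobDefs
import Pool.Agent.Lib.MP_0c2aee_an.Transfer

/-! `lambda1 U = lamE U` for open sets: the infimum over `H¹₀` is the infimum over `C¹` functions
with compact support. -/

set_option autoImplicit false

open MeasureTheory Filter Topology Set Metric
open scoped ContDiff MeasureTheory Convolution

namespace Pool.Agent.MP0c2

section sq

variable {F : Type*} [NormedAddCommGroup F] [InnerProductSpace ℝ F]

lemma norm_toLp_sq {f : E2 → F} (hf : MemLp f 2 volume) :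
    ‖hf.toLp f‖ ^ 2 = ∫ x, ‖f x‖ ^ 2 := by
  rw [← real_inner_self_eq_norm_sq, L2.inner_def]
  apply integral_congr_ae
  filter_upwards [hf.coeFn_toLp] with x hx
  rw [hx, real_inner_self_eq_norm_sq]

lemma tendsto_sq_norm {f : ℕ → E2 → F} {f0 : E2 → F} (hf : ∀ n, MemLp (f n) 2 volume)
    (h0 : MemLp f0 2 volume) (h : Tendsto (fun n => ∫ x, ‖f n x - f0 x‖ ^ 2) atTop (𝓝 0)) :
    Tendsto (fun n => ∫ x, ‖f n x‖ ^ 2) atTop (𝓝 (∫ x, ‖f0 x‖ ^ 2)) := by
  have h1 : Tendsto (fun n => ‖(hf n).toLp (f n) - h0.toLp f0‖ ^ 2) atTop (𝓝 0) := by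
    refine h.congr fun n => ?_
    rw [← MemLp.toLp_sub (hf n) h0, norm_toLp_sq]
    rfl
  have h2 : Tendsto (fun n => ‖(hf n).toLp (f n) - h0.toLp f0‖) atTop (𝓝 0) := by
    have := h1.sqrt
    rw [Real.sqrt_zero] at this
    refine this.congr fun n => ?_
    rw [Real.sqrt_sq (norm_nonneg _)]
  have h3 : Tendsto (fun n => (hf n).toLp (f n)) atTop (𝓝 (h0.toLp f0)) :=
    tendsto_iff_norm_sub_tendsto_zero.2 h2
  have h4 := (h3.norm).pow 2
  rw [norm_toLp_sq] at h4
  refine h4.congr fun n => ?_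
  rw [norm_toLp_sq]

end sq

lemma norm_gradient (u : E2 → ℝ) (x : E2) : ‖gradient u x‖ = ‖fderiv ℝ u x‖ := by
  unfold gradient
  exact LinearIsometryEquiv.norm_map _ _

lemma gradient_continuous {u : E2 → ℝ} (h : ContDiff ℝ 1 u) : Continuous (gradient u) := by
  unfold gradient
  exact (LinearIsometryEquiv.continuous _).comp (h.continuous_fderiv one_ne_zero)

lemma gradient_hasCompactSupport {u : E2 → ℝ} (h : HasCompactSupport u) :
    HasCompactSupport (gradient u) := by
  have h1 := h.fderiv ℝ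
  have h2 := h1.comp_left (g := (InnerProductSpace.toDual ℝ E2).symm) (map_zero _)
  exact h2

lemma gradient_memLp {u : E2 → ℝ} (h : ContDiff ℝ 1 u) (h2 : HasCompactSupport u) :
    MemLp (gradient u) 2 volume :=
  (gradient_continuous h).memLp_of_hasCompactSupport (gradient_hasCompactSupport h2)

lemma lamE_le_quotient {U : Set E2} {u : E2 → ℝ} {g : E2 → E2} (h : IsH10 U u g)
    (h0 : ¬ u =ᵐ[volume] 0) :
    lamE U ≤ ENNReal.ofReal ((∫ x, ‖g x‖ ^ 2) / (∫ x, u x ^ 2)) := by
  obtain ⟨hu, hg, φ, hφ, c1, c2⟩ := h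
  have hφ1 : ∀ n, ContDiff ℝ 1 (φ n) := fun n => (hφ n).1.of_le (by exact_mod_cast le_top)
  have m1 : ∀ n, MemLp (φ n) 2 volume := fun n =>
    (hφ1 n).continuous.memLp_of_hasCompactSupport (hφ n).2.1
  have m2 : ∀ n, MemLp (gradient (φ n)) 2 volume := fun n => gradient_memLp (hφ1 n) (hφ n).2.1
  have t1 : Tendsto (fun n => ∫ x, (φ n x) ^ 2) atTop (𝓝 (∫ x, u x ^ 2)) := by
    have := tendsto_sq_norm m1 hu (by simpa using c1)
    simpa using this
  have t2 : Tendsto (fun n => ∫ x, ‖gradient (φ n) x‖ ^ 2) atTop (𝓝 (∫ x, ‖g x‖ ^ 2)) :=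
    tendsto_sq_norm m2 hg c2
  have hpos : 0 < ∫ x, u x ^ 2 := by
    have hint : Integrable (fun x => u x ^ 2) volume := hu.integrable_sq
    have hnn : 0 ≤ ∫ x, u x ^ 2 := integral_nonneg fun x => sq_nonneg _
    refine lt_of_le_of_ne hnn fun heq => h0 ?_
    have := (integral_eq_zero_iff_of_nonneg (fun x => sq_nonneg (u x)) hint).1 heq.symm
    filter_upwards [this] with x hx
    simpa using hx
  have t3 : Tendsto (fun n => ENNReal.ofReal ((∫ x, ‖gradient (φ n) x‖ ^ 2) / ∫ x, (φ n x) ^ 2))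
      atTop (𝓝 (ENNReal.ofReal ((∫ x, ‖g x‖ ^ 2) / (∫ x, u x ^ 2)))) :=
    ENNReal.tendsto_ofReal (t2.div t1 hpos.ne')
  refine ge_of_tendsto t3 ?_
  filter_upwards [t1.eventually_const_lt hpos] with n hn
  have hne : φ n ≠ 0 := by
    intro h
    rw [h] at hn
    simp at hn
  unfold lamE
  refine (iInf₂_le (φ n) ⟨hφ1 n, (hφ n).2.1, (hφ n).2.2, hne⟩).trans (le_of_eq ?_)
  simp only [norm_gradient]

lemma exists_mollify {U : Set E2} (hU : IsOpen U) {u : E2 → ℝ} (h1 : ContDiff ℝ 1 u)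
    (h2 : HasCompactSupport u) (h3 : tsupport u ⊆ U) {ε : ℝ} (hε : 0 < ε) :
    ∃ φ : E2 → ℝ, IsTestFunction U φ ∧ tsupport φ ⊆ cthickening 1 (tsupport u) ∧
      (∀ x, ‖φ x - u x‖ ≤ ε) ∧ ∀ x, ‖gradient φ x - gradient u x‖ ≤ ε := by
  obtain ⟨δ0, hδ0, hsub⟩ := h2.isCompact.exists_cthickening_subset_open hU h3
  have hfc : HasCompactSupport (fderiv ℝ u) := h2.fderiv ℝ
  have hcf : Continuous (fderiv ℝ u) := h1.continuous_fderiv one_ne_zero
  obtain ⟨δ1, hδ1, hd1⟩ := Metric.uniformContinuous_iff.1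
    (h2.uniformContinuous_of_continuous h1.continuous) ε hε
  obtain ⟨δ2, hδ2, hd2⟩ := Metric.uniformContinuous_iff.1
    (hfc.uniformContinuous_of_continuous hcf) ε hε
  set δ := min (min δ0 1) (min δ1 δ2) with hδ
  have hδp : 0 < δ := by positivity
  have l0 : δ ≤ δ0 := (min_le_left _ _).trans (min_le_left _ _)
  have l1 : δ ≤ 1 := (min_le_left _ _).trans (min_le_right _ _)
  have l2 : δ ≤ δ1 := (min_le_right _ _).trans (min_le_left _ _)
  have l3 : δ ≤ δ2 := (min_le_right _ _).trans (min_le_right _ _)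
  let b : ContDiffBump (0 : E2) := ⟨δ / 2, δ, by positivity, by linarith⟩
  have hbout : b.rOut = δ := rfl
  set φ : E2 → ℝ := (b.normed volume) ⋆[ContinuousLinearMap.lsmul ℝ ℝ, volume] u with hφ
  have hsmooth : ContDiff ℝ ∞ φ :=
    b.hasCompactSupport_normed.contDiff_convolution_left (n := ⊤) _ b.contDiff_normed
      (h1.continuous.locallyIntegrable (μ := volume))
  have hsupp : tsupport φ ⊆ cthickening δ (tsupport u) := by
    apply closure_minimal _ isClosed_cthickening
    intro x hx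
    have hx' := support_convolution_subset_swap (ContinuousLinearMap.lsmul ℝ ℝ) hx
    rw [b.support_normed_eq] at hx'
    obtain ⟨y, hy, z, hz, rfl⟩ := hx'
    rw [mem_ball_zero_iff, hbout] at hz
    refine mem_cthickening_of_dist_le (y + z) y δ _ (subset_tsupport u hy) ?_
    rw [dist_eq_norm, add_sub_cancel_left]
    exact hz.le
  have hcpt : HasCompactSupport φ := b.hasCompactSupport_normed.convolution _ h2
  have hder : ∀ x, fderiv ℝ φ x = ((b.normed volume) ⋆[ContinuousLinearMap.lsmul ℝ ℝ, volume]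
      (fderiv ℝ u)) x := by
    intro x
    have := (h2.hasFDerivAt_convolution_right (ContinuousLinearMap.lsmul ℝ ℝ)
      ((b.continuous_normed (μ := volume)).locallyIntegrable (μ := volume)) h1 x).fderiv
    rw [hφ, this]
    have e : (ContinuousLinearMap.lsmul ℝ ℝ : ℝ →L[ℝ] ℝ →L[ℝ] ℝ).precompR E2 =
        ContinuousLinearMap.lsmul ℝ ℝ := by
      ext a T
      simp [ContinuousLinearMap.precompR_apply]
    rw [e]
  refine ⟨φ, ⟨hsmooth, hcpt, hsupp.trans ((cthickening_mono l0 _).trans hsub)⟩,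
    hsupp.trans (cthickening_mono l1 _), ?_, ?_⟩
  · intro x
    rw [← dist_eq_norm]
    refine b.dist_normed_convolution_le h1.continuous.aestronglyMeasurable ?_
    intro y hy
    rw [hbout, mem_ball] at hy
    exact (hd1 (hy.trans_le l2)).le
  · intro x
    have e : ‖gradient φ x - gradient u x‖ = ‖fderiv ℝ φ x - fderiv ℝ u x‖ := by
      unfold gradient
      rw [← map_sub]
      exact LinearIsometryEquiv.norm_map _ _
    rw [e, hder, ← dist_eq_norm]
    refine b.dist_normed_convolution_le hcf.aestronglyMeasurable ?_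
    intro y hy
    rw [hbout, mem_ball] at hy
    exact (hd2 (hy.trans_le l3)).le

lemma sq_integral_le {F : Type*} [NormedAddCommGroup F] [InnerProductSpace ℝ F] {f : E2 → F}
    {T : Set E2} (hT : IsCompact T) (hf : ∀ x ∉ T, f x = 0) {ε : ℝ}
    (hb : ∀ x, ‖f x‖ ≤ ε) : ∫ x, ‖f x‖ ^ 2 ≤ ε ^ 2 * (volume T).toReal := by
  have e : ∫ x, ‖f x‖ ^ 2 = ∫ x in T, ‖f x‖ ^ 2 := by
    rw [setIntegral_eq_integral_of_forall_compl_eq_zero]
    intro x hx
    rw [hf x hx]; simp
  rw [e]
  have h1 := norm_setIntegral_le_of_norm_le_const (μ := volume) (s := T) (f := fun x => ‖f x‖ ^ 2)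
    (C := ε ^ 2) hT.measure_lt_top (fun x _ => by
      rw [Real.norm_eq_abs, abs_of_nonneg (by positivity)]
      exact pow_le_pow_left₀ (norm_nonneg _) (hb x) 2)
  exact (le_abs_self _).trans h1

lemma isH10_of_isC1 {U : Set E2} (hU : IsOpen U) {u : E2 → ℝ} (h1 : ContDiff ℝ 1 u)
    (h2 : HasCompactSupport u) (h3 : tsupport u ⊆ U) : IsH10 U u (gradient u) := by
  refine ⟨h1.continuous.memLp_of_hasCompactSupport h2, gradient_memLp h1 h2, ?_⟩
  have hex : ∀ n : ℕ, ∃ φ : E2 → ℝ, IsTestFunction U φ ∧ tsupport φ ⊆ cthickening 1 (tsupport u) ∧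
      (∀ x, ‖φ x - u x‖ ≤ 1 / ((n : ℝ) + 1)) ∧
      ∀ x, ‖gradient φ x - gradient u x‖ ≤ 1 / ((n : ℝ) + 1) :=
    fun n => exists_mollify hU h1 h2 h3 (by positivity)
  choose φ p1 p2 p3 p4 using hex
  have hT : IsCompact (cthickening 1 (tsupport u)) := h2.isCompact.cthickening
  have hsubu : tsupport u ⊆ cthickening 1 (tsupport u) := self_subset_cthickening _
  have hzu : ∀ x ∉ cthickening 1 (tsupport u), u x = 0 := fun x hx =>
    image_eq_zero_of_notMem_tsupport fun h => hx (hsubu h)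
  have hzφ : ∀ n, ∀ x ∉ cthickening 1 (tsupport u), φ n x = 0 := fun n x hx =>
    image_eq_zero_of_notMem_tsupport fun h => hx (p2 n h)
  have hgz : ∀ v : E2 → ℝ, tsupport v ⊆ cthickening 1 (tsupport u) →
      ∀ x ∉ cthickening 1 (tsupport u), gradient v x = 0 := by
    intro v hv x hx
    have : fderiv ℝ v x = 0 := by
      have h := notMem_subset (tsupport_fderiv_subset ℝ (f := v)) (fun h => hx (hv h))
      exact image_eq_zero_of_notMem_tsupport h
    unfold gradient
    rw [this, map_zero]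
  have hlim : Tendsto (fun n : ℕ => (1 / ((n : ℝ) + 1)) ^ 2 *
      (volume (cthickening 1 (tsupport u))).toReal) atTop (𝓝 0) := by
    have h := (tendsto_one_div_add_atTop_nhds_zero_nat (𝕜 := ℝ)).pow 2
    have h' := h.mul_const (volume (cthickening 1 (tsupport u))).toReal
    simpa using h'
  refine ⟨φ, p1, ?_, ?_⟩
  · refine squeeze_zero (fun n => integral_nonneg fun x => sq_nonneg _) (fun n => ?_) hlim
    have := sq_integral_le (f := fun x => φ n x - u x) hT (fun x hx => by
      rw [hzφ n x hx, hzu x hx, sub_zero]) (p3 n)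
    simpa using this
  · refine squeeze_zero (fun n => integral_nonneg fun x => by positivity) (fun n => ?_) hlim
    exact sq_integral_le (f := fun x => gradient (φ n) x - gradient u x) hT (fun x hx => by
      rw [hgz _ (p2 n) x hx, hgz u hsubu x hx, sub_zero]) (p4 n)

/-- the two definitions of the eigenvalue agree -/
theorem lambda1_eq {U : Set E2} (hU : IsOpen U) : lambda1 U = lamE U := by
  apply le_antisymm
  · unfold lamE
    refine le_iInf₂ fun u hu => ?_
    obtain ⟨h1, h2, h3, h4⟩ := hu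
    have hne : ¬ u =ᵐ[volume] 0 := by
      intro h
      apply h4
      exact (Continuous.ae_eq_iff_eq volume h1.continuous continuous_const).1 h
    unfold lambda1
    refine (iInf_le_of_le u (iInf₂_le (gradient u) ⟨isH10_of_isC1 hU h1 h2 h3, hne⟩)).trans
      (le_of_eq ?_)
    simp only [norm_gradient]
  · unfold lambda1
    exact le_iInf fun u => le_iInf₂ fun g h => lamE_le_quotient h.1 h.2

end Pool.Agent.MP0c2
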