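import Mathlib

/-! The first Dirichlet eigenvalue of an open set of the plane through `H¹₀`, and the obstacle
problem with convex obstacles of given perimeter. -/

set_option autoImplicit false

open MeasureTheory Filter Topology
open scoped ContDiff MeasureTheory

namespace Pool.Agent.MP0c2

/-- the Euclidean plane -/
abbrev Plane := EuclideanSpace ℝ (Fin 2)

/-- a smooth function with compact support contained in `U` -/
def IsTestFunction (U : Set Plane) (φ : Plane → ℝ) : Prop :=
  ContDiff ℝ ∞ φ ∧ HasCompactSupport φ ∧ tsupport φ ⊆ U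

/-- `u` belongs to `H¹₀(U)` and `g` is its weak gradient: `(u, g)` is the limit in `L²` of
`(φ n, ∇ φ n)` for smooth functions `φ n` with compact support in `U`. -/
def IsH10 (U : Set Plane) (u : Plane → ℝ) (g : Plane → Plane) : Prop :=
  MemLp u 2 volume ∧ MemLp g 2 volume ∧ ∃ φ : ℕ → Plane → ℝ, (∀ n, IsTestFunction U (φ n)) ∧
    Tendsto (fun n => ∫ x, (φ n x - u x) ^ 2) atTop (𝓝 0) ∧
    Tendsto (fun n => ∫ x, ‖gradient (φ n) x - g x‖ ^ 2) atTop (𝓝 0)

/-- the first eigenvalue of the Dirichlet Laplacian of the open set `U` -/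
noncomputable def lambda1 (U : Set Plane) : ENNReal :=
  ⨅ (u : Plane → ℝ) (g : Plane → Plane) (_ : IsH10 U u g ∧ ¬ u =ᵐ[volume] 0),
    ENNReal.ofReal ((∫ x, ‖g x‖ ^ 2) / (∫ x, u x ^ 2))

/-- `K` is a convex body in the closure of `Ω` with perimeter `L` -/
def IsAdmissible (Ω : Set Plane) (L : ℝ) (K : Set Plane) : Prop :=
  IsClosed K ∧ Convex ℝ K ∧ (interior K).Nonempty ∧ K ⊆ closure Ω ∧
    μH[1] (frontier K) = ENNReal.ofReal L

/-- the infimum of the first eigenvalues of `Ω \ K` over the admissible `K` -/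
noncomputable def optimum (Ω : Set Plane) (L : ℝ) : ENNReal :=
  ⨅ (K : Set Plane) (_ : IsAdmissible Ω L K), lambda1 (Ω \ K)

/-- `K` is a minimizer -/
def IsMinimizer (Ω : Set Plane) (L : ℝ) (K : Set Plane) : Prop :=
  IsAdmissible Ω L K ∧ lambda1 (Ω \ K) = optimum Ω L

end Pool.Agent.MP0c2
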