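import Pool.Agent.Lib.MP_0c2aee_an.Upper

/-! IMS localisation: splitting off the chamber and the tips. -/

set_option autoImplicit false

open MeasureTheory Set Metric Topology Filter
open scoped ComplexConjugate

namespace Pool.Agent.MP0c2

variable {E : Finset ℂ} {η s d w r h ρ a1 a2 Λ ε : ℝ}

lemma bil_add_right {V : Set ℂ} {z u v : ℂ → ℝ} (hz : IsT V z) (hu : IsT V u) (hv : IsT V v) (Λ : ℝ) :
    bil Λ z (fun x => u x + v x) = bil Λ z u + bil Λ z v := by
  unfold bil
  have e1 : ∀ x, gx z x * gx (fun x => u x + v x) x + gy z x * gy (fun x => u x + v x) x =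
      (gx z x * gx u x + gy z x * gy u x) + (gx z x * gx v x + gy z x * gy v x) := fun x => by
    rw [hu.gx_add hv, hu.gy_add hv]; ring
  have e2 : ∀ x, z x * (u x + v x) = z x * u x + z x * v x := fun x => by ring
  simp only [e1, e2]
  rw [integral_add (hz.int_grad hu) (hz.int_grad hv), integral_add (hz.int_mul hu) (hz.int_mul hv)]
  ring

/-- IMS localisation with `cos`, `sin` of a function. -/
theorem ims {V : Set ℂ} {z T : ℂ → ℝ} (hz : IsT V z) (hV : IsOpen V) (hT : ContDiffOn ℝ 1 T V)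
    (Λ : ℝ) :
    qf Λ (fun x => Real.sin (T x) * z x) + qf Λ (fun x => Real.cos (T x) * z x) =
      qf Λ z + ∫ x, (gx T x ^ 2 + gy T x ^ 2) * z x ^ 2 := by
  have hs : ContDiffOn ℝ 1 (fun x => Real.sin (T x)) V := Real.contDiff_sin.comp_contDiffOn hT
  have hc : ContDiffOn ℝ 1 (fun x => Real.cos (T x)) V := Real.contDiff_cos.comp_contDiffOn hT
  rw [qf_mul hz hV hs Λ, qf_mul hz hV hc Λ]
  have e1 : bil Λ z (fun x => Real.sin (T x) ^ 2 * z x) + bil Λ z (fun x => Real.cos (T x) ^ 2 * z x)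
      = qf Λ z := by
    rw [← bil_add_right hz (hz.mul hV (hs.pow 2)) (hz.mul hV (hc.pow 2)), ← bil_self]
    congr 1
    ext x
    have := Real.sin_sq_add_cos_sq (T x)
    linear_combination z x * this
  have i1 : Integrable (fun x => (gx (fun x => Real.sin (T x)) x ^ 2
      + gy (fun x => Real.sin (T x)) x ^ 2) * z x ^ 2) :=
    hz.int_coef hV (((contOn_gx hV hs).pow 2).add ((contOn_gy hV hs).pow 2))
  have i2 : Integrable (fun x => (gx (fun x => Real.cos (T x)) x ^ 2
      + gy (fun x => Real.cos (T x)) x ^ 2) * z x ^ 2) :=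
    hz.int_coef hV (((contOn_gx hV hc).pow 2).add ((contOn_gy hV hc).pow 2))
  have e2 : (∫ x, (gx (fun x => Real.sin (T x)) x ^ 2 + gy (fun x => Real.sin (T x)) x ^ 2) * z x ^ 2)
      + ∫ x, (gx (fun x => Real.cos (T x)) x ^ 2 + gy (fun x => Real.cos (T x)) x ^ 2) * z x ^ 2 =
      ∫ x, (gx T x ^ 2 + gy T x ^ 2) * z x ^ 2 := by
    rw [← integral_add i1 i2]
    apply integral_congr_ae
    filter_upwards with x
    by_cases hx : x ∈ V
    · have hd : DifferentiableAt ℝ T x := (hT.contDiffAt (hV.mem_nhds hx)).differentiableAt one_ne_zero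
      have f1 := hd.hasFDerivAt.sin.fderiv
      have f2 := hd.hasFDerivAt.cos.fderiv
      have g1 : gx (fun x => Real.sin (T x)) x = Real.cos (T x) * gx T x := by
        unfold gx; rw [f1]; simp
      have g2 : gy (fun x => Real.sin (T x)) x = Real.cos (T x) * gy T x := by
        unfold gy; rw [f1]; simp
      have g3 : gx (fun x => Real.cos (T x)) x = -Real.sin (T x) * gx T x := by
        unfold gx; rw [f2]; simp
      have g4 : gy (fun x => Real.cos (T x)) x = -Real.sin (T x) * gy T x := by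
        unfold gy; rw [f2]; simp
      rw [g1, g2, g3, g4]
      have := Real.sin_sq_add_cos_sq (T x)
      linear_combination (gx T x ^ 2 + gy T x ^ 2) * z x ^ 2 * this
    · have hx' : x ∉ tsupport z := fun h => hx (hz.supp h)
      rw [zero_of_notMem hx']; simp
  rw [← e1, ← e2]; ring

open scoped Classical in
/-- the localisation function -/
noncomputable def TT (E : Finset ℂ) (w r : ℝ) (x : ℂ) : ℝ :=
  if x ∈ sideA E then Real.pi / 2 / MM w r * Sf E w r x else Real.pi / 2

lemma TT_rep (hw : 0 < w) (hwr : 2 * w ≤ r) (hs : Sep E r) (hM : 0 < MM w r) {x : ℂ}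
    (hx : x ∈ Om E η w) :
    (x ∈ sideA E ∧ TT E w r =ᶠ[𝓝 x] fun y => Real.pi / 2 / MM w r * Sf E w r y) ∨
    (x ∉ sideA E ∧ TT E w r =ᶠ[𝓝 x] fun _ => Real.pi / 2) := by
  by_cases hA : x ∈ sideA E
  · left
    refine ⟨hA, ?_⟩
    filter_upwards [(isOpen_sideA E).mem_nhds hA] with y hy
    exact if_pos hy
  · right
    refine ⟨hA, ?_⟩
    rcases hx.2 with h | h | h
    · exact absurd h hA
    · filter_upwards [(isOpen_cham E).mem_nhds h] with y hy
      exact if_neg (fun hyA => disj_sideA_cham E hyA hy)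
    · obtain ⟨e, he, hxe⟩ := h
      have : ∀ᶠ y in 𝓝 x, ‖y - e‖ < w :=
        (continuous_id.sub continuous_const).norm.continuousAt.eventually_lt continuousAt_const hxe
      filter_upwards [this] with y hy
      have hMy : Sf E w r y = MM w r := Sf_M hw hwr hs he (by linarith)
      unfold TT
      split_ifs
      · rw [hMy]; field_simp
      · rfl

lemma TT_contDiffOn (hw : 0 < w) (hwr : 2 * w ≤ r) (hs : Sep E r) (hM : 0 < MM w r) :
    ContDiffOn ℝ 1 (TT E w r) (Om E η w) := by
  intro x hx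
  apply ContDiffAt.contDiffWithinAt
  have hS : ContDiffAt ℝ 1 (Sf E w r) x := (Sf_contDiff hw).contDiffAt
  rcases TT_rep hw hwr hs hM hx with ⟨_, h⟩ | ⟨_, h⟩
  · exact (contDiffAt_const.mul hS).congr_of_eventuallyEq h
  · exact contDiffAt_const.congr_of_eventuallyEq h

lemma Hyp.grad_TT (H : Hyp E η s d w r h ρ) (hM : 0 < MM w r) {x : ℂ} (hx : x ∈ Om E η w) :
    gx (TT E w r) x ^ 2 + gy (TT E w r) x ^ 2 ≤ 1 / MM w r ^ 2 * Qtip E w r x := by
  have hr := H.r0
  have hQ0 := Qtip_nonneg E w r x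
  have hS : DifferentiableAt ℝ (Sf E w r) x := (Sf_contDiff H.w0).differentiable one_ne_zero x
  rcases TT_rep H.w0 H.wr H.sep hM hx with ⟨hA, h⟩ | ⟨_, h⟩
  · -- gradient of Sf controlled by the tip weight
    have key : gx (Sf E w r) x ^ 2 + gy (Sf E w r) x ^ 2 ≤ (400 / 1521) * ((99 / 100) * Qtip E w r x) := by
      by_cases hnear : ∃ e ∈ E, ‖x - e‖ < r
      · obtain ⟨e, he, hxe⟩ := hnear
        have h1 := H.near (a1 := 39 / 20) (a2 := 1 / 10) rfl rfl he hxe hx
        obtain ⟨m1, m2⟩ := (grad_Lw (a1 := 39 / 20) (a2 := 1 / 10) H.w0 H.wr H.sep hx).1 hA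
        rw [m1, m2] at h1
        nlinarith
      · push Not at hnear
        have hz : gx (Sf E w r) x = 0 ∧ gy (Sf E w r) x = 0 := by
          by_cases hn2 : ∃ e ∈ E, ‖x - e‖ < 2 * r
          · obtain ⟨e, he, hxe⟩ := hn2
            exact (grad_Sf H.w0 hr H.sep he hxe).2.2 (by
              rw [N2_eq]; have := hnear e he; gcongr)
          · push Not at hn2
            exact grad_Sf_zero (E := E) H.w0 hr (x := x) (fun e he => by
              have := hn2 e he; linarith)
        rw [hz.1, hz.2]; simp; positivity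
    have e1 : gx (TT E w r) x = Real.pi / 2 / MM w r * gx (Sf E w r) x := by
      unfold gx; rw [h.fderiv_eq, fderiv_const_mul hS]; simp
    have e2 : gy (TT E w r) x = Real.pi / 2 / MM w r * gy (Sf E w r) x := by
      unfold gy; rw [h.fderiv_eq, fderiv_const_mul hS]; simp
    rw [e1, e2]
    have e3 : (Real.pi / 2 / MM w r * gx (Sf E w r) x) ^ 2 + (Real.pi / 2 / MM w r * gy (Sf E w r) x) ^ 2
        = 1 / MM w r ^ 2 * (Real.pi ^ 2 / 4 * (gx (Sf E w r) x ^ 2 + gy (Sf E w r) x ^ 2)) := by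
      field_simp
      ring
    rw [e3]
    have hp : Real.pi ^ 2 ≤ 3.15 ^ 2 := by
      have := Real.pi_lt_d2
      have := Real.pi_pos
      gcongr
    have h5 : Real.pi ^ 2 / 4 * (gx (Sf E w r) x ^ 2 + gy (Sf E w r) x ^ 2) ≤ Qtip E w r x := by
      have h6 : 0 ≤ gx (Sf E w r) x ^ 2 + gy (Sf E w r) x ^ 2 := by positivity
      norm_num at hp
      nlinarith
    gcongr
  · unfold gx gy
    rw [h.fderiv_eq]; simp; positivity

/-- Splitting off the chamber and the tips. -/
theorem Hyp.split (H : Hyp E η s d w r h ρ) (hM : 0 < MM w r)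
    (hq : Λ + 1 ≤ q0 h ρ / 100)
    (hform : ∀ u, IsT (Vs E η w h) u → 0 ≤ qf Λ u) {z : ℂ → ℝ} (hz : IsT (Vs E η w h) z)
    (hz0 : ∀ x, 0 ≤ z x) (hz1 : Ma z = 1) {δ1 : ℝ} (hδ : qf Λ z ≤ δ1) :
    ∃ y, IsT (ring η) y ∧ (∀ x, 0 ≤ y x) ∧ (∀ x, y x ≤ z x) ∧ Ma y ≤ 1 ∧
      1 - (δ1 + (Λ + δ1) / MM w r ^ 2) ≤ Ma y ∧ qf Λ y ≤ δ1 + (Λ + δ1) / MM w r ^ 2 := by
  have hVo := isOpen_Vs E η w h
  have hsub : Vs E η w h ⊆ Om E η w := sdiff_subset
  have hT : ContDiffOn ℝ 1 (TT E w r) (Vs E η w h) := (TT_contDiffOn H.w0 H.wr H.sep hM).mono hsub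
  have hs : ContDiffOn ℝ 1 (fun x => Real.sin (TT E w r x)) (Vs E η w h) :=
    Real.contDiff_sin.comp_contDiffOn hT
  have hc : ContDiffOn ℝ 1 (fun x => Real.cos (TT E w r x)) (Vs E η w h) :=
    Real.contDiff_cos.comp_contDiffOn hT
  have hIMS := ims hz hVo hT Λ
  have hv1 := hz.mul hVo hs
  have hv2 := hz.mul hVo hc
  have hr := H.r0
  -- the error
  have herr : ∫ x, (gx (TT E w r) x ^ 2 + gy (TT E w r) x ^ 2) * z x ^ 2 ≤ (Λ + δ1) / MM w r ^ 2 := by
    have i1 : Integrable (fun x => (gx (TT E w r) x ^ 2 + gy (TT E w r) x ^ 2) * z x ^ 2) :=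
      hz.int_coef hVo (((contOn_gx hVo hT).pow 2).add ((contOn_gy hVo hT).pow 2))
    have i2 : Integrable (fun x => Qtip E w r x * z x ^ 2) := by
      refine integrable_bdd_mul hz (measurable_Qtip E w r) (C := E.card * (1 / w ^ 2)) ?_
      intro x
      rw [abs_of_nonneg (Qtip_nonneg E w r x)]
      exact Qtip_le E H.w0 r x
    have h1 : ∫ x, (gx (TT E w r) x ^ 2 + gy (TT E w r) x ^ 2) * z x ^ 2 ≤
        ∫ x, 1 / MM w r ^ 2 * (Qtip E w r x * z x ^ 2) := by
      apply integral_mono i1 (i2.const_mul _)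
      intro x
      simp only
      by_cases hx : x ∈ Vs E η w h
      · have := H.grad_TT hM (hsub hx)
        calc (gx (TT E w r) x ^ 2 + gy (TT E w r) x ^ 2) * z x ^ 2
            ≤ (1 / MM w r ^ 2 * Qtip E w r x) * z x ^ 2 := by gcongr
          _ = _ := by ring
      · have hx' : x ∉ tsupport z := fun h => hx (hz.supp h)
        rw [zero_of_notMem hx']; simp
    rw [integral_const_mul] at h1
    have h2 := tips_hardy H.w0 H.wr H.rd H.good.unit H.good.sep hVo H.wall hz
    have h3 : En z ≤ Λ + δ1 := by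
      have : En z = qf Λ z + Λ * Ma z := by unfold qf; ring
      rw [this, hz1]; linarith
    calc _ ≤ _ := h1
      _ ≤ 1 / MM w r ^ 2 * (Λ + δ1) := by gcongr; linarith
      _ = _ := by ring
  have q1 := hform _ hv1
  have q2 := hform _ hv2
  set δ2 := δ1 + (Λ + δ1) / MM w r ^ 2 with hδ2
  have hsum : qf Λ (fun x => Real.sin (TT E w r x) * z x)
      + qf Λ (fun x => Real.cos (TT E w r x) * z x) ≤ δ2 := by rw [hIMS]; linarith
  -- range of TT
  have hTr : ∀ x, 0 ≤ TT E w r x ∧ TT E w r x ≤ Real.pi / 2 := by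
    intro x
    unfold TT
    have hpi := Real.pi_pos
    split_ifs
    · have h1 := Sf_nonneg (E := E) H.w0 hr x
      have h2 := Sf_le H.w0 hr H.sep x
      constructor
      · positivity
      · calc Real.pi / 2 / MM w r * Sf E w r x ≤ Real.pi / 2 / MM w r * MM w r := by gcongr
          _ = Real.pi / 2 := by field_simp
    · constructor <;> linarith
  -- inner part
  have hin : Ma (fun x => Real.sin (TT E w r x) * z x) ≤ δ2 := by
    have h1 := H.hardy hv1
    have i1 := H.hardy_int hv1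
    have h2 : ∫ x, (Λ + 1) * (Real.sin (TT E w r x) * z x) ^ 2 ≤
        ∫ x, ((1 / 100) * (if ‖x‖ < ρ then q0 h ρ else 0) + (99 / 100) * Qtip E w r x)
          * (Real.sin (TT E w r x) * z x) ^ 2 := by
      apply integral_mono (hv1.int_sq.const_mul _) i1
      intro x
      simp only
      by_cases hzx : z x = 0
      · rw [hzx]; simp
      have hxV : x ∈ Vs E η w h := by
        by_contra hcon
        exact hzx (zero_of_notMem (fun h => hcon (hz.supp h)))
      have hxO := hsub hxV
      by_cases hT0 : TT E w r x = 0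
      · rw [hT0]; simp
      have hρx : ‖x‖ < ρ := by
        by_cases hnear : ∃ e ∈ E, ‖x - e‖ < r
        · obtain ⟨e, he, hxe⟩ := hnear
          have h3 := H.good.unit e he
          have h4 : ‖x‖ ≤ ‖x - e‖ + ‖e‖ := by
            have := norm_add_le (x - e) e; simpa using this
          linarith [H.ρr]
        · push Not at hnear
          have hA : x ∉ sideA E := by
            intro hA
            apply hT0
            unfold TT
            rw [if_pos hA, Sf_zero H.w0 hr hnear, mul_zero]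
          rcases hxO.2 with h' | h' | ⟨e, he, h'⟩
          · exact absurd h' hA
          · have := cham_norm H.good H.s0 H.s1 h'
            linarith [H.ρs]
          · have := hnear e he
            linarith [H.wr, H.w0]
      rw [if_pos hρx]
      have hQ0 := Qtip_nonneg E w r x
      have : Λ + 1 ≤ (1 / 100) * q0 h ρ + (99 / 100) * Qtip E w r x := by linarith
      gcongr
    rw [integral_const_mul] at h2
    have h3 : qf Λ (fun x => Real.sin (TT E w r x) * z x) =
        En (fun x => Real.sin (TT E w r x) * z x) - Λ * Ma (fun x => Real.sin (TT E w r x) * z x) := rfl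
    have h4 : ∫ x, (Real.sin (TT E w r x) * z x) ^ 2 = Ma (fun x => Real.sin (TT E w r x) * z x) := rfl
    rw [h4] at h2
    linarith
  have hmass : Ma (fun x => Real.sin (TT E w r x) * z x) + Ma (fun x => Real.cos (TT E w r x) * z x)
      = 1 := by
    rw [← hz1]
    unfold Ma
    rw [← integral_add hv1.int_sq hv2.int_sq]
    congr 1; ext x
    have := Real.sin_sq_add_cos_sq (TT E w r x)
    linear_combination z x ^ 2 * this
  have hcos : ∀ x, 0 ≤ Real.cos (TT E w r x) ∧ Real.cos (TT E w r x) ≤ 1 := fun x =>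
    ⟨Real.cos_nonneg_of_neg_pi_div_two_le_of_le (by linarith [(hTr x).1, Real.pi_pos]) (hTr x).2,
      Real.cos_le_one _⟩
  refine ⟨fun x => Real.cos (TT E w r x) * z x, ?_, ?_, ?_, ?_, ?_, ?_⟩
  · refine ⟨hv2.smooth, hv2.cpt, fun x hx => ?_⟩
    have hxV := hv2.supp hx
    have hxO := hsub hxV
    have hA : x ∈ sideA E := by
      rcases TT_rep H.w0 H.wr H.sep hM hxO with ⟨hA, _⟩ | ⟨_, h⟩
      · exact hA
      · exfalso
        have hev : (fun x => Real.cos (TT E w r x) * z x) =ᶠ[𝓝 x] 0 := by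
          filter_upwards [h] with y hy
          rw [hy]; simp
        exact (notMem_tsupport_iff_eventuallyEq.2 hev) hx
    exact ⟨sideA_norm H.good hA, hxO.1⟩
  · intro x; exact mul_nonneg (hcos x).1 (hz0 x)
  · intro x; exact mul_le_of_le_one_left (hz0 x) (hcos x).2
  · have := Ma_nonneg (fun x => Real.sin (TT E w r x) * z x); linarith
  · linarith
  · linarith

end Pool.Agent.MP0c2
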