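import Pool.Agent.Lib.MP_0c2aee_an.Strong
import Pool.Agent.Lib.MP_0c2aee_an.Sob

/-! The strong form in the plane, with the eigenvalue defined through `H¹₀`. -/

set_option autoImplicit false

open MeasureTheory Set Metric Topology Filter
open scoped MeasureTheory

namespace Pool.Agent.MP0c2

lemma adm_preimage {Ω : Set ℂ} {L : ℝ} {K' : Set E2} (h : IsAdmissible (Psi '' Ω) L K') :
    AdmC Ω L (Psi ⁻¹' K') := by
  obtain ⟨k1, k2, k3, k4, k5⟩ := h
  refine ⟨k1.preimage Psi.continuous, k2.linear_preimage Psi.toLinearEquiv.toLinearMap, ?_, ?_, ?_⟩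
  · obtain ⟨y, hy⟩ := k3
    refine ⟨Psi.symm y, ?_⟩
    rw [← Psi_interior]
    simpa using hy
  · have := preimage_mono (f := Psi) k4
    rwa [Psi_closure, Psi_pre_im] at this
  · rw [← Psi_frontier, Psi_hausdorff]; exact k5

lemma adm_image {Ω : Set ℂ} {L : ℝ} {K : Set ℂ} (h : AdmC Ω L K) :
    IsAdmissible (Psi '' Ω) L (Psi '' K) := by
  obtain ⟨k1, k2, k3, k4, k5⟩ := h
  have eK := Psi_pre_im K
  have eΩ := Psi_pre_im Ω
  refine ⟨Psi.toHomeomorph.isClosedMap _ k1, k2.linear_image Psi.toLinearEquiv.toLinearMap, ?_, ?_,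
    ?_⟩
  · obtain ⟨x, hx⟩ := k3
    refine ⟨Psi x, ?_⟩
    have : x ∈ Psi ⁻¹' interior (Psi '' K) := by rw [Psi_interior, eK]; exact hx
    exact this
  · rintro y ⟨x, hx, rfl⟩
    have : x ∈ Psi ⁻¹' closure (Psi '' Ω) := by rw [Psi_closure, eΩ]; exact k4 hx
    exact this
  · rw [← Psi_hausdorff, Psi_frontier, eK]; exact k5

lemma lambda1_image {Ω : Set ℂ} (hΩ : IsOpen Ω) {K' : Set E2} (hK : IsClosed K') :
    lambda1 (Psi '' Ω \ K') = lam (Ω \ Psi ⁻¹' K') := by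
  have hΩ' : IsOpen (Psi '' Ω) := Psi.toHomeomorph.isOpenMap _ hΩ
  rw [lambda1_eq (hΩ'.sdiff hK), lamE_eq, preimage_sdiff, Psi_pre_im]

/-- Strong form of the counterexample. -/
theorem exists_strongE : ∃ Ω : Set Plane, IsOpen Ω ∧ IsConnected Ω ∧ Bornology.IsBounded Ω ∧
    ∃ L₁ L₂ τ δ : ℝ, 0 < L₁ ∧ L₁ < L₂ ∧ 0 < τ ∧ 0 < δ ∧ ENNReal.ofReal L₂ < μH[1] (frontier Ω) ∧
      ∀ L ∈ Icc L₁ L₂,
        (∃ K, IsMinimizer Ω L K) ∧ (∀ K, IsMinimizer Ω L K → K ∩ frontier Ω = ∅) ∧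
        (∀ K, IsAdmissible Ω L K → lambda1 (Ω \ K) < optimum Ω L + ENNReal.ofReal δ →
          ∀ x ∈ K, ∀ y ∉ Ω, τ ≤ dist x y) := by
  obtain ⟨Ω, L₁, L₂, τ, δ, h1, h2, h3, h4, h5, h6, h7, h8, h9⟩ := exists_strong
  have eΩ := Psi_pre_im Ω
  have hopen : IsOpen (Psi '' Ω) := Psi.toHomeomorph.isOpenMap _ h1
  refine ⟨Psi '' Ω, hopen, h2.image _ Psi.continuous.continuousOn, Psi.lipschitz.isBounded_image h3,
    L₁, L₂, τ, δ, h4, h5, h6, h7, ?_, ?_⟩
  · rw [← Psi_hausdorff, Psi_frontier, eΩ]; exact h8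
  intro L hL
  obtain ⟨⟨Km, hm1, hm2⟩, ⟨K₀, hk1, hk2, hk3⟩⟩ := h9 L hL
  have hopt : ∀ K : Set ℂ, AdmC Ω L K → optimum (Psi '' Ω) L ≤ lam (Ω \ K) := by
    intro K hK
    unfold optimum
    refine (iInf₂_le (Psi '' K) (adm_image hK)).trans (le_of_eq ?_)
    rw [lambda1_image h1 (adm_image hK).1, Psi_pre_im]
  have hmin : lambda1 (Psi '' Ω \ Psi '' Km) ≤ optimum (Psi '' Ω) L := by
    unfold optimum
    refine le_iInf₂ fun K' hK' => ?_
    rw [lambda1_image h1 (adm_image hm1).1, Psi_pre_im, lambda1_image h1 hK'.1]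
    exact hm2 _ (adm_preimage hK')
  have htop : optimum (Psi '' Ω) L ≠ ⊤ := ne_top_of_le_ne_top hk2 (hopt K₀ hk1)
  have hgap : ∀ K, IsAdmissible (Psi '' Ω) L K →
      lambda1 (Psi '' Ω \ K) < optimum (Psi '' Ω) L + ENNReal.ofReal δ →
      ∀ x ∈ K, ∀ y ∉ Psi '' Ω, τ ≤ dist x y := by
    intro K hK hlt x hx y hy
    by_contra hcon
    rw [not_le] at hcon
    have hbad : ∃ k ∈ Psi ⁻¹' K, ¬ ball k τ ⊆ Ω := by
      refine ⟨Psi.symm x, by simpa using hx, fun hsub => hy ?_⟩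
      have hmem : Psi.symm y ∈ ball (Psi.symm x) τ := by
        rw [mem_ball, dist_comm, LinearIsometryEquiv.dist_map]
        exact hcon
      exact ⟨Psi.symm y, hsub hmem, by simp⟩
    have h10 := hk3 _ (adm_preimage hK) hbad
    rw [← lambda1_image h1 hK.1] at h10
    have h11 : optimum (Psi '' Ω) L + ENNReal.ofReal δ ≤ lambda1 (Psi '' Ω \ K) :=
      (by gcongr; exact hopt K₀ hk1 : optimum (Psi '' Ω) L + ENNReal.ofReal δ ≤
        lam (Ω \ K₀) + ENNReal.ofReal δ).trans h10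
    exact absurd hlt (not_lt.2 h11)
  refine ⟨⟨Psi '' Km, adm_image hm1, le_antisymm hmin ?_⟩, ?_, hgap⟩
  · unfold optimum
    exact iInf₂_le _ (adm_image hm1)
  · rintro K ⟨hK1, hK2⟩
    rw [eq_empty_iff_forall_notMem]
    rintro x ⟨hx1, hx2⟩
    have hlt : lambda1 (Psi '' Ω \ K) < optimum (Psi '' Ω) L + ENNReal.ofReal δ := by
      rw [hK2]
      apply ENNReal.lt_add_right htop
      simpa using h7
    rw [hopen.frontier_eq] at hx2
    have := hgap K hK1 hlt x hx1 x hx2.2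
    rw [dist_self] at this
    linarith

end Pool.Agent.MP0c2
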