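import Pool.Agent.Lib.MP_0c2aee_an.Cut

/-! Local Hardy inequality at a tip (in the coordinate centered at the tip). -/

set_option autoImplicit false

open MeasureTheory Set Metric Topology Filter

namespace Pool.Agent.MP0c2

lemma gx_eq_of_line {X : ℂ → ℝ} {x : ℂ} (h : DifferentiableAt ℝ X x) {φ : ℝ → ℝ} {d : ℝ}
    (he : ∀ s : ℝ, X (x + s) = φ s) (hd : HasDerivAt φ d 0) : gx X x = d := by
  have h1 : HasDerivAt (fun s : ℝ => x + (s : ℂ)) 1 0 := by
    simpa using (Complex.ofRealCLM.hasDerivAt (x := (0 : ℝ))).const_add x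
  have h2 : HasFDerivAt X (fderiv ℝ X x) (x + ((0 : ℝ) : ℂ)) := by simpa using h.hasFDerivAt
  have h3 := h2.comp_hasDerivAt (0 : ℝ) h1
  have h4 : (X ∘ fun s : ℝ => x + (s : ℂ)) = φ := by ext s; exact he s
  rw [h4] at h3
  exact h3.unique hd

lemma gy_eq_of_line {X : ℂ → ℝ} {x : ℂ} (h : DifferentiableAt ℝ X x) {φ : ℝ → ℝ} {d : ℝ}
    (he : ∀ s : ℝ, X (x + s * Complex.I) = φ s) (hd : HasDerivAt φ d 0) : gy X x = d := by
  have h1 : HasDerivAt (fun s : ℝ => x + (s : ℂ) * Complex.I) Complex.I 0 := by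
    simpa using ((Complex.ofRealCLM.hasDerivAt (x := (0 : ℝ))).mul_const Complex.I).const_add x
  have h2 : HasFDerivAt X (fderiv ℝ X x) (x + ((0 : ℝ) : ℂ) * Complex.I) := by
    simpa using h.hasFDerivAt
  have h3 := h2.comp_hasDerivAt (0 : ℝ) h1
  have h4 : (X ∘ fun s : ℝ => x + (s : ℂ) * Complex.I) = φ := by ext s; exact he s
  rw [h4] at h3
  exact h3.unique hd

/-- field on the open wedge `|im| < re` -/
noncomputable def FA1 (x : ℂ) : ℝ := 2 * x.re / N2 x - 2 * x.re / (x.re ^ 2 - x.im ^ 2)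
noncomputable def FA2 (x : ℂ) : ℝ := 2 * x.im / N2 x + 2 * x.im / (x.re ^ 2 - x.im ^ 2)

/-- field on the complement of the positive half-line -/
noncomputable def FC1 (x : ℂ) : ℝ := 1 / (2 * ‖x‖) + x.re / (2 * N2 x)
noncomputable def FC2 (x : ℂ) : ℝ := x.im / (2 * N2 x) - x.im / (2 * (‖x‖ * (‖x‖ - x.re)))

lemma FA_contDiffAt {x : ℂ} (h : |x.im| < x.re) :
    ContDiffAt ℝ 1 FA1 x ∧ ContDiffAt ℝ 1 FA2 x := by
  have h1 : x.re ^ 2 - x.im ^ 2 ≠ 0 := by
    have : x.im ^ 2 < x.re ^ 2 := sq_lt_sq' (by linarith [neg_abs_le x.im]) (by linarith [le_abs_self x.im])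
    exact ne_of_gt (sub_pos.2 this)
  have h2 : N2 x ≠ 0 := by
    have : 0 < x.re := lt_of_le_of_lt (abs_nonneg _) h
    unfold N2; positivity
  have hre := re_contDiff.contDiffAt (x := x)
  have him := im_contDiff.contDiffAt (x := x)
  have hN := N2_contDiff.contDiffAt (x := x)
  constructor
  · exact ((contDiffAt_const.mul hre).div hN h2).sub
      ((contDiffAt_const.mul hre).div ((hre.pow 2).sub (him.pow 2)) h1)
  · exact ((contDiffAt_const.mul him).div hN h2).add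
      ((contDiffAt_const.mul him).div ((hre.pow 2).sub (him.pow 2)) h1)

lemma hd_lin (a : ℝ) : HasDerivAt (fun s : ℝ => 2 * (a + s)) 2 0 := by
  simpa using ((hasDerivAt_id' (0 : ℝ)).const_add a).const_mul 2

lemma hd_lin' (a : ℝ) : HasDerivAt (fun s : ℝ => a + s) 1 0 := by
  simpa using ((hasDerivAt_id' (0 : ℝ)).const_add a)

lemma hd_sq (a c : ℝ) : HasDerivAt (fun s : ℝ => (a + s) ^ 2 + c) (2 * a) 0 := by
  have := ((hd_lin' a).pow 2).add_const c
  simpa using this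

lemma FA_div {x : ℂ} (h : |x.im| < x.re) :
    gx FA1 x + gy FA2 x = 4 * N2 x / (x.re ^ 2 - x.im ^ 2) ^ 2 := by
  obtain ⟨c1, c2⟩ := FA_contDiffAt h
  have h1 : x.re ^ 2 - x.im ^ 2 ≠ 0 := by
    have : x.im ^ 2 < x.re ^ 2 := sq_lt_sq' (by linarith [neg_abs_le x.im]) (by linarith [le_abs_self x.im])
    exact ne_of_gt (sub_pos.2 this)
  have h2 : N2 x ≠ 0 := by
    have : 0 < x.re := lt_of_le_of_lt (abs_nonneg _) h
    unfold N2; positivity
  have e1 : gx FA1 x = (2 * N2 x - 2 * x.re * (2 * x.re)) / N2 x ^ 2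
      - (2 * (x.re ^ 2 - x.im ^ 2) - 2 * x.re * (2 * x.re)) / (x.re ^ 2 - x.im ^ 2) ^ 2 := by
    apply gx_eq_of_line (c1.differentiableAt one_ne_zero)
      (φ := fun s => 2 * (x.re + s) / ((x.re + s) ^ 2 + x.im ^ 2)
        - 2 * (x.re + s) / ((x.re + s) ^ 2 + -(x.im ^ 2)))
    · intro s; simp [FA1, N2]; ring
    · have d1 := (hd_lin x.re).div (hd_sq x.re (x.im ^ 2)) (by simpa [N2] using h2)
      have d2 := (hd_lin x.re).div (hd_sq x.re (-(x.im ^ 2))) (by simpa [sub_eq_add_neg] using h1)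
      have := d1.sub d2
      refine this.congr_deriv ?_
      simp [N2, sub_eq_add_neg]
  have e2 : gy FA2 x = (2 * N2 x - 2 * x.im * (2 * x.im)) / N2 x ^ 2
      + (2 * (x.re ^ 2 - x.im ^ 2) + 2 * x.im * (2 * x.im)) / (x.re ^ 2 - x.im ^ 2) ^ 2 := by
    apply gy_eq_of_line (c2.differentiableAt one_ne_zero)
      (φ := fun s => 2 * (x.im + s) / ((x.im + s) ^ 2 + x.re ^ 2)
        - 2 * (x.im + s) / ((x.im + s) ^ 2 + -(x.re ^ 2)))
    · intro s
      have : x.re ^ 2 - (x.im + s) ^ 2 = -((x.im + s) ^ 2 + -(x.re ^ 2)) := by ring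
      simp only [FA2, N2, Complex.add_re, Complex.add_im, Complex.mul_re, Complex.mul_im,
        Complex.ofReal_re, Complex.ofReal_im, Complex.I_re, Complex.I_im]
      simp only [mul_zero, sub_zero, add_zero, mul_one]
      rw [this, div_neg, add_comm (x.re ^ 2)]
      ring
    · have d1 := (hd_lin x.im).div (hd_sq x.im (x.re ^ 2)) (by
        have : x.im ^ 2 + x.re ^ 2 ≠ 0 := by rw [add_comm]; exact h2
        simpa using this)
      have d2 := (hd_lin x.im).div (hd_sq x.im (-(x.re ^ 2))) (by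
        have : x.im ^ 2 + -(x.re ^ 2) ≠ 0 := by
          intro h; apply h1; linarith
        simpa using this)
      have := d1.sub d2
      refine this.congr_deriv ?_
      have e3 : x.im ^ 2 + x.re ^ 2 = N2 x := by unfold N2; ring
      have e4 : x.im ^ 2 + -(x.re ^ 2) = -(x.re ^ 2 - x.im ^ 2) := by ring
      simp only [add_zero, e3, e4]
      field_simp
      ring
  rw [e1, e2]
  have hN : N2 x = x.re ^ 2 + x.im ^ 2 := rfl
  field_simp
  rw [hN]
  ring

lemma FA_sq {x : ℂ} (h : |x.im| < x.re) :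
    FA1 x ^ 2 + FA2 x ^ 2 = 4 * N2 x / (x.re ^ 2 - x.im ^ 2) ^ 2 - 4 / N2 x := by
  have h1 : x.re ^ 2 - x.im ^ 2 ≠ 0 := by
    have : x.im ^ 2 < x.re ^ 2 := sq_lt_sq' (by linarith [neg_abs_le x.im]) (by linarith [le_abs_self x.im])
    exact ne_of_gt (sub_pos.2 this)
  have h2 : N2 x ≠ 0 := by
    have : 0 < x.re := lt_of_le_of_lt (abs_nonneg _) h
    unfold N2; positivity
  have hN : N2 x = x.re ^ 2 + x.im ^ 2 := rfl
  unfold FA1 FA2
  field_simp
  rw [hN]
  ring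

lemma FA_tang {x : ℂ} (h : |x.im| < x.re) : x.re * FA1 x + x.im * FA2 x = 0 := by
  have h1 : x.re ^ 2 - x.im ^ 2 ≠ 0 := by
    have : x.im ^ 2 < x.re ^ 2 := sq_lt_sq' (by linarith [neg_abs_le x.im]) (by linarith [le_abs_self x.im])
    exact ne_of_gt (sub_pos.2 this)
  have h2 : N2 x ≠ 0 := by
    have : 0 < x.re := lt_of_le_of_lt (abs_nonneg _) h
    unfold N2; positivity
  have hN : N2 x = x.re ^ 2 + x.im ^ 2 := rfl
  unfold FA1 FA2
  field_simp
  rw [hN]
  ring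

/-! the chamber-side field -/

lemma norm_contDiffAt {x : ℂ} (h : x ≠ 0) : ContDiffAt ℝ 1 (fun x : ℂ => ‖x‖) x :=
  contDiffAt_norm ℝ h

lemma norm_sq_eq (x : ℂ) : ‖x‖ ^ 2 = x.re ^ 2 + x.im ^ 2 := (N2_eq x).symm

lemma FC_pos {x : ℂ} (h : x.re < |x.im|) : x ≠ 0 ∧ 0 < ‖x‖ ∧ 0 < ‖x‖ - x.re := by
  have h0 : x ≠ 0 := by rintro rfl; simp at h
  refine ⟨h0, norm_pos_iff.2 h0, ?_⟩
  by_contra h2
  push Not at h2
  have h3 : ‖x‖ ≤ x.re := by linarith
  have h4 : ‖x‖ ^ 2 ≤ x.re ^ 2 := by gcongr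
  rw [norm_sq_eq] at h4
  have h5 : x.im = 0 := by nlinarith [sq_nonneg x.im]
  rw [h5] at h
  simp at h
  linarith [norm_nonneg x]

lemma FC_contDiffAt {x : ℂ} (h : x.re < |x.im|) :
    ContDiffAt ℝ 1 FC1 x ∧ ContDiffAt ℝ 1 FC2 x := by
  obtain ⟨h0, hp, hq⟩ := FC_pos h
  have hre := re_contDiff.contDiffAt (x := x)
  have him := im_contDiff.contDiffAt (x := x)
  have hN := N2_contDiff.contDiffAt (x := x)
  have hn := norm_contDiffAt h0
  have hN0 : N2 x ≠ 0 := by rw [N2_eq]; positivity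
  constructor
  · exact (contDiffAt_const.div (contDiffAt_const.mul hn) (by positivity)).add
      (hre.div (contDiffAt_const.mul hN) (by positivity))
  · exact (him.div (contDiffAt_const.mul hN) (by positivity)).sub
      (him.div (contDiffAt_const.mul (hn.mul (hn.sub hre))) (by positivity))

lemma norm_line_x {x : ℂ} (s : ℝ) : ‖x + s‖ = √((x.re + s) ^ 2 + x.im ^ 2) := by
  rw [Complex.norm_def, Complex.normSq_apply]; simp; congr 1; ring

lemma norm_line_y {x : ℂ} (s : ℝ) : ‖x + s * Complex.I‖ = √((x.im + s) ^ 2 + x.re ^ 2) := by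
  rw [Complex.norm_def, Complex.normSq_apply]; simp; congr 1; ring

lemma hd_sqrt {a c r : ℝ} (hr : 0 < r) (h : r ^ 2 = a ^ 2 + c) :
    HasDerivAt (fun s : ℝ => √((a + s) ^ 2 + c)) (a / r) 0 := by
  have h1 := (hd_sq a c)
  have h2 : (a + 0) ^ 2 + c ≠ 0 := by rw [add_zero, ← h]; positivity
  have h3 := h1.sqrt h2
  refine h3.congr_deriv ?_
  rw [add_zero, ← h, Real.sqrt_sq hr.le]
  field_simp

lemma FC_div {x : ℂ} (h : x.re < |x.im|) :
    gx FC1 x + gy FC2 x = FC1 x ^ 2 + FC2 x ^ 2 + 1 / (4 * N2 x) := by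
  obtain ⟨c1, c2⟩ := FC_contDiffAt h
  obtain ⟨h0, hp, hq⟩ := FC_pos h
  set r := ‖x‖ with hr
  have hr2 : r ^ 2 = x.re ^ 2 + x.im ^ 2 := norm_sq_eq x
  have hr2' : r ^ 2 = x.im ^ 2 + x.re ^ 2 := by rw [hr2]; ring
  have hN : N2 x = r ^ 2 := N2_eq x
  have hs0 : √((x.re + 0) ^ 2 + x.im ^ 2) = r := by
    rw [add_zero, ← hr2, Real.sqrt_sq hp.le]
  have hs0' : √((x.im + 0) ^ 2 + x.re ^ 2) = r := by
    rw [add_zero, ← hr2', Real.sqrt_sq hp.le]
  have e1 : gx FC1 x = -(2 * (x.re / r)) / (2 * r) ^ 2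
      + (2 * r ^ 2 - x.re * (2 * (2 * x.re))) / (2 * r ^ 2) ^ 2 := by
    apply gx_eq_of_line (c1.differentiableAt one_ne_zero)
      (φ := fun s => 1 / (2 * √((x.re + s) ^ 2 + x.im ^ 2))
        + (x.re + s) / (2 * ((x.re + s) ^ 2 + x.im ^ 2)))
    · intro s; simp only [FC1, norm_line_x, N2]; simp
    · have d0 := (hd_sqrt hp hr2).const_mul 2
      have d1 := (hasDerivAt_const (0 : ℝ) (1 : ℝ)).div d0 (by rw [hs0]; positivity)
      have d2 := (hd_lin' x.re).div ((hd_sq x.re (x.im ^ 2)).const_mul 2)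
        (by rw [add_zero, ← hr2]; positivity)
      have := d1.add d2
      refine this.congr_deriv ?_
      simp only [hs0]
      rw [add_zero, ← hr2]
      ring
  have e2 : gy FC2 x = (2 * r ^ 2 - x.im * (2 * (2 * x.im))) / (2 * r ^ 2) ^ 2
      - (2 * (r * (r - x.re)) - x.im * (2 * (x.im / r * (r - x.re) + r * (x.im / r))))
        / (2 * (r * (r - x.re))) ^ 2 := by
    apply gy_eq_of_line (c2.differentiableAt one_ne_zero)
      (φ := fun s => (x.im + s) / (2 * ((x.im + s) ^ 2 + x.re ^ 2))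
        - (x.im + s) / (2 * (√((x.im + s) ^ 2 + x.re ^ 2) * (√((x.im + s) ^ 2 + x.re ^ 2) - x.re))))
    · intro s
      simp only [FC2, norm_line_y, N2, Complex.add_re, Complex.add_im, Complex.mul_re,
        Complex.mul_im, Complex.ofReal_re, Complex.ofReal_im, Complex.I_re, Complex.I_im]
      simp only [mul_zero, sub_zero, add_zero, mul_one]
      rw [add_comm (x.re ^ 2)]
    · have d0 := (hd_sqrt hp hr2')
      have d1 := (hd_lin' x.im).div ((hd_sq x.im (x.re ^ 2)).const_mul 2)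
        (by rw [add_zero, ← hr2']; positivity)
      have d2 := (hd_lin' x.im).div ((d0.mul (d0.sub_const x.re)).const_mul 2)
        (by simp only [Pi.mul_apply, hs0']; positivity)
      have := d1.sub d2
      refine this.congr_deriv ?_
      simp only [Pi.mul_apply, hs0']
      rw [add_zero, ← hr2']
      ring
  rw [e1, e2]
  unfold FC1 FC2
  rw [hN, ← hr]
  have hq' : r - x.re ≠ 0 := hq.ne'
  have him : x.im ^ 2 = r ^ 2 - x.re ^ 2 := by rw [hr2]; ring
  field_simp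
  ring_nf
  simp only [him]
  ring

lemma FC_tang {x : ℂ} (h : x.re < |x.im|) : x.re * FC1 x + x.im * FC2 x = 0 := by
  obtain ⟨h0, hp, hq⟩ := FC_pos h
  have hN : N2 x = ‖x‖ ^ 2 := N2_eq x
  have him : x.im ^ 2 = ‖x‖ ^ 2 - x.re ^ 2 := by rw [norm_sq_eq]; ring
  have hq' : ‖x‖ - x.re ≠ 0 := hq.ne'
  unfold FC1 FC2
  rw [hN]
  field_simp
  ring_nf
  simp only [him]
  ring

/-- A radial multiple of a tangential field plus a radial field. -/
lemma tang_div {F1 F2 : ℂ → ℝ} {m b : ℝ → ℝ} {m' b' : ℝ} {x : ℂ}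
    (h1 : DifferentiableAt ℝ F1 x) (h2 : DifferentiableAt ℝ F2 x)
    (hm : HasDerivAt m m' (N2 x)) (hb : HasDerivAt b b' (N2 x))
    (ht : x.re * F1 x + x.im * F2 x = 0) :
    gx (fun x => m (N2 x) * F1 x + b (N2 x) * x.re) x
      + gy (fun x => m (N2 x) * F2 x + b (N2 x) * x.im) x
      - (m (N2 x) * F1 x + b (N2 x) * x.re) ^ 2 - (m (N2 x) * F2 x + b (N2 x) * x.im) ^ 2
    = m (N2 x) * (gx F1 x + gy F2 x) - m (N2 x) ^ 2 * (F1 x ^ 2 + F2 x ^ 2)
      + (2 * b (N2 x) + 2 * N2 x * b' - b (N2 x) ^ 2 * N2 x) := by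
  have hmN := comp_N2_hasFDerivAt hm
  have hbN := comp_N2_hasFDerivAt hb
  have e1 : gx (fun x => m (N2 x) * F1 x + b (N2 x) * x.re) x =
      m (N2 x) * gx F1 x + F1 x * (m' * (2 * x.re)) + (b (N2 x) + x.re * (b' * (2 * x.re))) := by
    have := (hmN.mul h1.hasFDerivAt).add (hbN.mul (hasFDerivAt_re x))
    unfold gx
    erw [this.fderiv]; simp
  have e2 : gy (fun x => m (N2 x) * F2 x + b (N2 x) * x.im) x =
      m (N2 x) * gy F2 x + F2 x * (m' * (2 * x.im)) + (b (N2 x) + x.im * (b' * (2 * x.im))) := by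
    have := (hmN.mul h2.hasFDerivAt).add (hbN.mul (hasFDerivAt_im x))
    unfold gy
    erw [this.fderiv]; simp
  rw [e1, e2]
  have hN : N2 x = x.re ^ 2 + x.im ^ 2 := rfl
  linear_combination (2 * m' - 2 * m (N2 x) * b (N2 x)) * ht + (2 * b' - b (N2 x) ^ 2) * (- hN)

end Pool.Agent.MP0c2
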