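import Pool.Agent.Lib.MP_0c2aee_an.Tip

/-! The combined field at a tip, and the local Hardy inequality. -/

set_option autoImplicit false

open MeasureTheory Set Metric Topology Filter

namespace Pool.Agent.MP0c2

variable {w r : ℝ}

noncomputable def tm (w r t : ℝ) : ℝ := sg ((t - w ^ 2) / w ^ 2) * (1 - sg ((t - r ^ 2) / r ^ 2))
noncomputable def tb (w t : ℝ) : ℝ := (1 / 200) * (1 - sg ((t / w ^ 2 - 2) / 2)) / w ^ 2
noncomputable def dtb (w t : ℝ) : ℝ := - (1 / 200) * (dsg ((t / w ^ 2 - 2) / 2) * (1 / w ^ 2 / 2)) / w ^ 2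

lemma tm_contDiff : ContDiff ℝ 1 (tm w r) := by
  unfold tm
  exact (sg_contDiff.comp ((contDiff_id.sub contDiff_const).div_const _)).mul
    (contDiff_const.sub (sg_contDiff.comp ((contDiff_id.sub contDiff_const).div_const _)))

lemma tb_contDiff : ContDiff ℝ 1 (tb w) := by
  unfold tb
  exact (contDiff_const.mul (contDiff_const.sub (sg_contDiff.comp
    (((contDiff_id.div_const _).sub contDiff_const).div_const _)))).div_const _

lemma tb_hasDerivAt (t : ℝ) : HasDerivAt (tb w) (dtb w t) t := by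
  have h1 : HasDerivAt (fun t : ℝ => (t / w ^ 2 - 2) / 2) (1 / w ^ 2 / 2) t :=
    (((hasDerivAt_id' t).div_const _).sub_const _).div_const _
  have h2 := ((((sg_hasDerivAt ((t / w ^ 2 - 2) / 2)).comp t h1).const_sub 1).const_mul (1 / 200)).div_const (w ^ 2)
  refine h2.congr_deriv ?_
  unfold dtb; ring

lemma tm_nonneg (t : ℝ) : 0 ≤ tm w r t :=
  mul_nonneg (sg_nonneg _) (by linarith [sg_le_one ((t - r ^ 2) / r ^ 2)])

lemma tm_le_one (t : ℝ) : tm w r t ≤ 1 := by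
  have h1 := sg_nonneg ((t - w ^ 2) / w ^ 2)
  have h2 := sg_le_one ((t - w ^ 2) / w ^ 2)
  have h3 := sg_nonneg ((t - r ^ 2) / r ^ 2)
  have h4 := sg_le_one ((t - r ^ 2) / r ^ 2)
  unfold tm; nlinarith

lemma tm_zero (hw : 0 < w) {t : ℝ} (h : t ≤ w ^ 2) : tm w r t = 0 := by
  unfold tm; rw [sg_of_nonpos, zero_mul]
  exact div_nonpos_of_nonpos_of_nonneg (by linarith) (by positivity)

lemma tm_zero' (hr : 0 < r) {t : ℝ} (h : 2 * r ^ 2 ≤ t) : tm w r t = 0 := by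
  unfold tm; rw [sg_of_one_le (y := (t - r ^ 2) / r ^ 2)]; · simp
  rw [le_div_iff₀ (by positivity)]; linarith

lemma tm_one (hw : 0 < w) {t : ℝ} (h : 2 * w ^ 2 ≤ t) (h' : t ≤ r ^ 2) : tm w r t = 1 := by
  unfold tm; rw [sg_of_one_le (y := (t - w ^ 2) / w ^ 2), sg_of_nonpos]; · simp
  · exact div_nonpos_of_nonpos_of_nonneg (by linarith) (by positivity)
  · rw [le_div_iff₀ (by positivity)]; linarith

lemma tb_zero (hw : 0 < w) {t : ℝ} (h : 4 * w ^ 2 ≤ t) : tb w t = 0 := by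
  unfold tb; rw [sg_of_one_le]; · simp
  have : 4 ≤ t / w ^ 2 := by rw [le_div_iff₀ (by positivity)]; exact h
  linarith

lemma dtb_zero (hw : 0 < w) {t : ℝ} (h : 4 * w ^ 2 ≤ t) : dtb w t = 0 := by
  unfold dtb; rw [dsg_of_one_le]; · simp
  have : 4 ≤ t / w ^ 2 := by rw [le_div_iff₀ (by positivity)]; exact h
  linarith

lemma tb_low (hw : 0 < w) {t : ℝ} (h : t ≤ 2 * w ^ 2) : tb w t = 1 / 200 / w ^ 2 := by
  unfold tb; rw [sg_of_nonpos]; · simp
  have : t / w ^ 2 ≤ 2 := by rw [div_le_iff₀ (by positivity)]; exact h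
  linarith

lemma dtb_low (hw : 0 < w) {t : ℝ} (h : t ≤ 2 * w ^ 2) : dtb w t = 0 := by
  unfold dtb; rw [dsg_of_nonpos]; · simp
  have : t / w ^ 2 ≤ 2 := by rw [div_le_iff₀ (by positivity)]; exact h
  linarith

lemma tb_bounds (hw : 0 < w) (t : ℝ) : 0 ≤ tb w t ∧ tb w t ≤ 1 / 200 / w ^ 2 := by
  have h3 := sg_nonneg ((t / w ^ 2 - 2) / 2)
  have h4 := sg_le_one ((t / w ^ 2 - 2) / 2)
  unfold tb
  constructor
  · have : 0 ≤ 1 - sg ((t / w ^ 2 - 2) / 2) := by linarith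
    positivity
  · gcongr; linarith

lemma dtb_ge (hw : 0 < w) (t : ℝ) : - (1 / 250) / w ^ 4 ≤ dtb w t := by
  have h1 := dsg_le ((t / w ^ 2 - 2) / 2)
  unfold dtb
  have hw4 : 0 < w ^ 4 := by positivity
  generalize dsg ((t / w ^ 2 - 2) / 2) = d at h1
  have e : -(1 / 200) * (d * (1 / w ^ 2 / 2)) / w ^ 2 = (-(1 / 400) * d) / w ^ 4 := by
    field_simp; ring
  rw [e]
  exact div_le_div_of_nonneg_right (by linarith) hw4.le

/-- door term lower bound -/
lemma door_low (hw : 0 < w) {t : ℝ} (h : t ≤ 2 * w ^ 2) :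
    1 / 128 / w ^ 2 ≤ 2 * tb w t + 2 * t * dtb w t - tb w t ^ 2 * t := by
  rw [tb_low hw h, dtb_low hw h, div_div, div_div]
  have hw2 : 0 < w ^ 2 := by positivity
  have : (1 / (200 * w ^ 2)) ^ 2 * t ≤ (1 / (200 * w ^ 2)) ^ 2 * (2 * w ^ 2) := by gcongr
  have e : (1 / (200 * w ^ 2)) ^ 2 * (2 * w ^ 2) = (1 / 20000) / w ^ 2 := by field_simp; norm_num
  have e2 : 1 / (128 * w ^ 2) = (1 / 128) / w ^ 2 := by field_simp
  have e3 : 2 * (1 / (200 * w ^ 2)) + 2 * t * 0 = (1 / 100) / w ^ 2 := by field_simp; norm_num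
  rw [e3, e2]
  have : (1 / 128) / w ^ 2 + (1 / 20000) / w ^ 2 ≤ (1 / 100) / w ^ 2 := by
    rw [← add_div]; gcongr; norm_num
  linarith

lemma door_mid (hw : 0 < w) {t : ℝ} (h0 : 2 * w ^ 2 ≤ t) (h : t ≤ 4 * w ^ 2) :
    1 / 128 / w ^ 2 ≤ 1 / (4 * t) + (2 * tb w t + 2 * t * dtb w t - tb w t ^ 2 * t) := by
  obtain ⟨b1, b2⟩ := tb_bounds hw t
  have b3 := dtb_ge hw t
  have hw2 : 0 < w ^ 2 := by positivity
  have ht : 0 < t := by nlinarith
  have h1 : 1 / 16 / w ^ 2 ≤ 1 / (4 * t) := by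
    rw [div_div, div_le_div_iff₀ (by positivity) (by positivity)]; linarith
  have h2 : - (4 / 125) / w ^ 2 ≤ 2 * t * dtb w t := by
    have : 2 * t * (- (1 / 250) / w ^ 4) ≤ 2 * t * dtb w t := by gcongr
    refine le_trans ?_ this
    have e : 2 * t * (- (1 / 250) / w ^ 4) = (-(1 / 125) * t) / w ^ 4 := by ring
    have e2 : - (4 / 125) / w ^ 2 = (-(1 / 125) * (4 * w ^ 2)) / w ^ 4 := by field_simp
    rw [e, e2]
    exact div_le_div_of_nonneg_right (by linarith) (by positivity)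
  have h3 : tb w t ^ 2 * t ≤ (1 / 10000) / w ^ 2 := by
    have : tb w t ^ 2 * t ≤ (1 / 200 / w ^ 2) ^ 2 * (4 * w ^ 2) := by gcongr
    refine this.trans (le_of_eq ?_)
    field_simp; norm_num
  have h4 : (1 / 128) / w ^ 2 + 4 / 125 / w ^ 2 + (1 / 10000) / w ^ 2 ≤ 1 / 16 / w ^ 2 := by
    rw [← add_div, ← add_div]; gcongr; norm_num
  have h5 : - (4 / 125) / w ^ 2 = - (4 / 125 / w ^ 2) := by ring
  rw [h5] at h2
  have e6 : 1 / 128 / w ^ 2 = (1 / 128) / w ^ 2 := rfl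
  linarith

noncomputable def F1 (x : ℂ) : ℝ := if |x.im| < x.re then FA1 x else FC1 x
noncomputable def F2 (x : ℂ) : ℝ := if |x.im| < x.re then FA2 x else FC2 x
noncomputable def TX1 (w r : ℝ) (x : ℂ) : ℝ := tm w r (N2 x) * F1 x + tb w (N2 x) * x.re
noncomputable def TX2 (w r : ℝ) (x : ℂ) : ℝ := tm w r (N2 x) * F2 x + tb w (N2 x) * x.im

/-- the local Hardy weight at a tip -/
noncomputable def tq (w r : ℝ) (x : ℂ) : ℝ :=
  if N2 x < 4 * w ^ 2 then 1 / 128 / w ^ 2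
  else if N2 x ≤ r ^ 2 then (if |x.im| < x.re then 4 / N2 x else 1 / (4 * N2 x)) else 0

lemma T_rep (hw : 0 < w) {x : ℂ} (hx : N2 x < w ^ 2 ∨ |x.im| < x.re ∨ x.re < |x.im|) :
    ∃ G1 G2 : ℂ → ℝ, ContDiffAt ℝ 1 G1 x ∧ ContDiffAt ℝ 1 G2 x ∧
      TX1 w r =ᶠ[𝓝 x] (fun x => tm w r (N2 x) * G1 x + tb w (N2 x) * x.re) ∧
      TX2 w r =ᶠ[𝓝 x] (fun x => tm w r (N2 x) * G2 x + tb w (N2 x) * x.im) ∧
      x.re * G1 x + x.im * G2 x = 0 ∧
      (N2 x < w ^ 2 ∨ (|x.im| < x.re ∧ gx G1 x + gy G2 x = (G1 x ^ 2 + G2 x ^ 2) + 4 / N2 x) ∨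
        (x.re < |x.im| ∧ gx G1 x + gy G2 x = (G1 x ^ 2 + G2 x ^ 2) + 1 / (4 * N2 x))) := by
  rcases hx with h | h | h
  · refine ⟨fun _ => 0, fun _ => 0, contDiffAt_const, contDiffAt_const, ?_, ?_, by simp, Or.inl h⟩
    · have : ∀ᶠ y in 𝓝 x, N2 y < w ^ 2 := (N2_contDiff.continuous.continuousAt).eventually_lt
        continuousAt_const h
      filter_upwards [this] with y hy
      simp [TX1, tm_zero hw hy.le]
    · have : ∀ᶠ y in 𝓝 x, N2 y < w ^ 2 := (N2_contDiff.continuous.continuousAt).eventually_lt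
        continuousAt_const h
      filter_upwards [this] with y hy
      simp [TX2, tm_zero hw hy.le]
  · obtain ⟨c1, c2⟩ := FA_contDiffAt h
    have hev : ∀ᶠ y : ℂ in 𝓝 x, |y.im| < y.re :=
      (Complex.continuous_im.abs.continuousAt).eventually_lt Complex.continuous_re.continuousAt h
    refine ⟨FA1, FA2, c1, c2, ?_, ?_, FA_tang h, Or.inr (Or.inl ⟨h, ?_⟩)⟩
    · filter_upwards [hev] with y hy
      simp [TX1, F1, hy]
    · filter_upwards [hev] with y hy
      simp [TX2, F2, hy]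
    · rw [FA_div h, FA_sq h]; ring
  · obtain ⟨c1, c2⟩ := FC_contDiffAt h
    have hev : ∀ᶠ y : ℂ in 𝓝 x, y.re < |y.im| :=
      (Complex.continuous_re.continuousAt).eventually_lt Complex.continuous_im.abs.continuousAt h
    refine ⟨FC1, FC2, c1, c2, ?_, ?_, FC_tang h, Or.inr (Or.inr ⟨h, ?_⟩)⟩
    · filter_upwards [hev] with y hy
      simp [TX1, F1, not_lt.2 hy.le]
    · filter_upwards [hev] with y hy
      simp [TX2, F2, not_lt.2 hy.le]
    · exact FC_div h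

lemma T_far (hw : 0 < w) (hr : 0 < r) (hwr : 2 * w ≤ r) {x : ℂ} (hx : 2 * r ≤ ‖x‖) :
    TX1 w r =ᶠ[𝓝 x] 0 ∧ TX2 w r =ᶠ[𝓝 x] 0 := by
  have h1 : 2 * r ^ 2 < N2 x := by
    rw [N2_eq]
    have : (2 * r) ^ 2 ≤ ‖x‖ ^ 2 := by gcongr
    nlinarith
  have hev : ∀ᶠ y in 𝓝 x, 2 * r ^ 2 < N2 y :=
    continuousAt_const.eventually_lt (N2_contDiff.continuous.continuousAt) h1
  constructor
  · filter_upwards [hev] with y hy
    have h2 : 4 * w ^ 2 ≤ N2 y := by nlinarith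
    simp [TX1, tm_zero' hr hy.le, tb_zero hw h2]
  · filter_upwards [hev] with y hy
    have h2 : 4 * w ^ 2 ≤ N2 y := by nlinarith
    simp [TX2, tm_zero' hr hy.le, tb_zero hw h2]

/-- Local Hardy inequality at a tip located at `0`. -/
theorem tip_local (hw : 0 < w) (hwr : 2 * w ≤ r) {V : Set ℂ} (hV : IsOpen V) {v : ℂ → ℝ}
    (hv : IsT V v)
    (hwall : ∀ x ∈ V, ‖x‖ < 2 * r → N2 x < w ^ 2 ∨ |x.im| < x.re ∨ x.re < |x.im|) :
    ∫ x in ball (0 : ℂ) (2 * r), tq w r x * v x ^ 2 ≤ ∫ x in ball (0 : ℂ) (2 * r), ‖fderiv ℝ v x‖ ^ 2 := by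
  have hr : 0 < r := by linarith
  have hcd : ContDiffOn ℝ 1 (TX1 w r) V ∧ ContDiffOn ℝ 1 (TX2 w r) V := by
    have : ∀ x ∈ V, ContDiffAt ℝ 1 (TX1 w r) x ∧ ContDiffAt ℝ 1 (TX2 w r) x := by
      intro x hx
      by_cases hf : 2 * r ≤ ‖x‖
      · obtain ⟨a1, a2⟩ := T_far hw hr hwr hf
        exact ⟨(contDiffAt_const (c := (0 : ℝ))).congr_of_eventuallyEq a1,
          (contDiffAt_const (c := (0 : ℝ))).congr_of_eventuallyEq a2⟩
      · push Not at hf
        obtain ⟨G1, G2, c1, c2, r1, r2, _, _⟩ := T_rep (r := r) hw (hwall x hx hf)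
        have hm : ContDiffAt ℝ 1 (fun x => tm w r (N2 x)) x := (tm_contDiff.comp N2_contDiff).contDiffAt
        have hb : ContDiffAt ℝ 1 (fun x => tb w (N2 x)) x := (tb_contDiff.comp N2_contDiff).contDiffAt
        exact ⟨((hm.mul c1).add (hb.mul re_contDiff.contDiffAt)).congr_of_eventuallyEq r1,
          ((hm.mul c2).add (hb.mul im_contDiff.contDiffAt)).congr_of_eventuallyEq r2⟩
    exact ⟨fun x hx => (this x hx).1.contDiffWithinAt, fun x hx => (this x hx).2.contDiffWithinAt⟩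
  apply hv.field_local hV hcd.1 hcd.2 measurableSet_ball
  swap
  · intro x _ hxB
    rw [mem_ball_zero_iff, not_lt] at hxB
    exact T_far hw hr hwr hxB
  intro x hx hxB _
  rw [mem_ball_zero_iff] at hxB
  obtain ⟨G1, G2, c1, c2, r1, r2, ht, hc⟩ := T_rep (r := r) hw (hwall x hx hxB)
  have hmd : HasDerivAt (tm w r) (deriv (tm w r) (N2 x)) (N2 x) :=
    ((tm_contDiff.differentiable one_ne_zero) _).hasDerivAt
  have key := tang_div (c1.differentiableAt one_ne_zero) (c2.differentiableAt one_ne_zero) hmd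
    (tb_hasDerivAt (w := w) (N2 x)) ht
  have e1 : gx (TX1 w r) x = gx (fun x => tm w r (N2 x) * G1 x + tb w (N2 x) * x.re) x := by
    unfold gx; rw [r1.fderiv_eq]
  have e2 : gy (TX2 w r) x = gy (fun x => tm w r (N2 x) * G2 x + tb w (N2 x) * x.im) x := by
    unfold gy; rw [r2.fderiv_eq]
  rw [e1, e2, r1.eq_of_nhds, r2.eq_of_nhds, key]
  have ht0 : 0 ≤ N2 x := N2_nonneg x
  have hm0 := tm_nonneg (w := w) (r := r) (N2 x)
  have hm1 := tm_le_one (w := w) (r := r) (N2 x)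
  have hw2 : 0 < w ^ 2 := by positivity
  set m := tm w r (N2 x) with hm
  set D := 2 * tb w (N2 x) + 2 * N2 x * dtb w (N2 x) - tb w (N2 x) ^ 2 * N2 x with hD
  have hGG : 0 ≤ G1 x ^ 2 + G2 x ^ 2 := by positivity
  have hmm : 0 ≤ (m - m ^ 2) * (G1 x ^ 2 + G2 x ^ 2) := by
    apply mul_nonneg _ hGG; nlinarith
  -- general lower bound
  by_cases hcase : N2 x < w ^ 2
  · have hm00 : m = 0 := tm_zero hw hcase.le
    have hd := door_low hw (by linarith : N2 x ≤ 2 * w ^ 2)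
    have : tq w r x = 1 / 128 / w ^ 2 := by
      unfold tq; rw [if_pos (by linarith)]
    rw [this, hm00]
    linarith
  push Not at hcase
  have hN : 0 < N2 x := by linarith
  rcases hc with h | ⟨hA, hdiv⟩ | ⟨hC, hdiv⟩
  · linarith
  · rw [hdiv]
    have e : m * (G1 x ^ 2 + G2 x ^ 2 + 4 / N2 x) - m ^ 2 * (G1 x ^ 2 + G2 x ^ 2) + D =
        (m - m ^ 2) * (G1 x ^ 2 + G2 x ^ 2) + m * (4 / N2 x) + D := by ring
    rw [e]
    by_cases h4 : N2 x < 4 * w ^ 2
    · have : tq w r x = 1 / 128 / w ^ 2 := by unfold tq; rw [if_pos h4]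
      rw [this]
      by_cases h2 : N2 x ≤ 2 * w ^ 2
      · have hd := door_low hw h2
        have : 0 ≤ m * (4 / N2 x) := by positivity
        linarith
      · push Not at h2
        have hd := door_mid hw h2.le h4.le
        have hm11 : m = 1 := tm_one hw h2.le (by nlinarith)
        rw [hm11] at hmm ⊢
        have : 1 / (4 * N2 x) ≤ 4 / N2 x := by
          rw [div_le_div_iff₀ (by positivity) hN]; linarith
        linarith
    · push Not at h4
      have hD0 : D = 0 := by rw [hD, tb_zero hw h4, dtb_zero hw h4]; ring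
      rw [hD0]
      unfold tq
      rw [if_neg (by linarith)]
      by_cases h5 : N2 x ≤ r ^ 2
      · rw [if_pos h5, if_pos hA]
        have hm11 : m = 1 := tm_one hw (by linarith) h5
        rw [hm11] at hmm ⊢
        linarith
      · rw [if_neg h5]
        have : 0 ≤ m * (4 / N2 x) := by positivity
        linarith
  · rw [hdiv]
    have e : m * (G1 x ^ 2 + G2 x ^ 2 + 1 / (4 * N2 x)) - m ^ 2 * (G1 x ^ 2 + G2 x ^ 2) + D =
        (m - m ^ 2) * (G1 x ^ 2 + G2 x ^ 2) + m * (1 / (4 * N2 x)) + D := by ring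
    rw [e]
    by_cases h4 : N2 x < 4 * w ^ 2
    · have : tq w r x = 1 / 128 / w ^ 2 := by unfold tq; rw [if_pos h4]
      rw [this]
      by_cases h2 : N2 x ≤ 2 * w ^ 2
      · have hd := door_low hw h2
        have : 0 ≤ m * (1 / (4 * N2 x)) := by positivity
        linarith
      · push Not at h2
        have hd := door_mid hw h2.le h4.le
        have hm11 : m = 1 := tm_one hw h2.le (by nlinarith)
        rw [hm11] at hmm ⊢
        linarith
    · push Not at h4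
      have hD0 : D = 0 := by rw [hD, tb_zero hw h4, dtb_zero hw h4]; ring
      rw [hD0]
      unfold tq
      rw [if_neg (by linarith)]
      by_cases h5 : N2 x ≤ r ^ 2
      · rw [if_pos h5, if_neg (not_lt.2 hC.le)]
        have hm11 : m = 1 := tm_one hw (by linarith) h5
        rw [hm11] at hmm ⊢
        linarith
      · rw [if_neg h5]
        have : 0 ≤ m * (1 / (4 * N2 x)) := by positivity
        linarith

end Pool.Agent.MP0c2
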