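import Pool.Agent.Lib.MP_0c2aee_an.Agmon

/-! Upper bound for the eigenvalue of the domain minus the centred disc. -/

set_option autoImplicit false

open MeasureTheory Set Metric Topology Filter
open scoped ComplexConjugate

namespace Pool.Agent.MP0c2

variable {E : Finset ℂ} {η s d w r h ρ a1 a2 Λ ε : ℝ}

lemma En_nonneg (u : ℂ → ℝ) : 0 ≤ En u := integral_nonneg fun x => by positivity
lemma Ma_nonneg (u : ℂ → ℝ) : 0 ≤ Ma u := integral_nonneg fun x => by positivity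

lemma En_mul_le {V : Set ℂ} {u g : ℂ → ℝ} (hu : IsT V u) (hV : IsOpen V) (hg : ContDiffOn ℝ 1 g V)
    {A B : ℝ} (hA : ∀ x ∈ V, g x ^ 2 ≤ A) (hB : ∀ x ∈ V, gx g x ^ 2 + gy g x ^ 2 ≤ B) :
    En (fun x => g x * u x) ≤ 2 * A * En u + 2 * B * Ma u := by
  have h1 := hu.mul hV hg
  unfold En Ma
  rw [← integral_const_mul, ← integral_const_mul,
    ← integral_add (hu.int_norm_sq.const_mul _) (hu.int_sq.const_mul _)]
  apply integral_mono h1.int_norm_sq ((hu.int_norm_sq.const_mul _).add (hu.int_sq.const_mul _))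
  intro x
  simp only [Pi.add_apply]
  rw [norm_fderiv_sq, norm_fderiv_sq, hu.gx_mul hV hg, hu.gy_mul hV hg]
  by_cases hx : x ∈ V
  · have e1 := hA x hx
    have e2 := hB x hx
    have f1 : (g x * gx u x + u x * gx g x) ^ 2 + (g x * gy u x + u x * gy g x) ^ 2 ≤
        2 * (g x ^ 2 * (gx u x ^ 2 + gy u x ^ 2)) + 2 * ((gx g x ^ 2 + gy g x ^ 2) * u x ^ 2) := by
      nlinarith [sq_nonneg (g x * gx u x - u x * gx g x), sq_nonneg (g x * gy u x - u x * gy g x)]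
    have f2 : g x ^ 2 * (gx u x ^ 2 + gy u x ^ 2) ≤ A * (gx u x ^ 2 + gy u x ^ 2) := by gcongr
    have f3 : (gx g x ^ 2 + gy g x ^ 2) * u x ^ 2 ≤ B * u x ^ 2 := by gcongr
    linarith
  · have hx' : x ∉ tsupport u := fun h => hx (hu.supp h)
    rw [zero_of_notMem hx', gx_zero_of_notMem hx', gy_zero_of_notMem hx']; simp

lemma abs_bil_le {V : Set ℂ} {u v : ℂ → ℝ} (hΛ : ∀ z, IsT V z → 0 ≤ qf Λ z) (hu : IsT V u)
    (hv : IsT V v) {δ C : ℝ} (hδ : 0 ≤ δ) (h1 : qf Λ u ≤ δ) (h2 : qf Λ v ≤ C) :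
    bil Λ u v ≤ √δ * √C := by
  have hC : 0 ≤ C := (hΛ v hv).trans h2
  have h3 := bil_sq_le hΛ hu hv
  have h4 : bil Λ u v ^ 2 ≤ δ * C := h3.trans (mul_le_mul h1 h2 (hΛ v hv) hδ)
  rw [← Real.sqrt_mul hδ]
  exact Real.le_sqrt_of_sq_le h4

lemma qf_le_En {u : ℂ → ℝ} (hΛ : 0 ≤ Λ) : qf Λ u ≤ En u := by
  unfold qf
  have := Ma_nonneg u
  nlinarith

/-- the radial cutoff near `K₀` -/
noncomputable def chi0 (ε : ℝ) (x : ℂ) : ℝ :=
  sg ((N2 x - (1 - 3 * ε / 4) ^ 2) / ((1 - ε / 2) ^ 2 - (1 - 3 * ε / 4) ^ 2))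

lemma chi0_contDiff : ContDiff ℝ 1 (chi0 ε) :=
  sg_contDiff.comp ((N2_contDiff.sub contDiff_const).div_const _)

lemma den_pos (hε : 0 < ε) (hε1 : ε ≤ 1) : ε / 6 ≤ (1 - ε / 2) ^ 2 - (1 - 3 * ε / 4) ^ 2 := by
  nlinarith

lemma chi0_nonneg (x : ℂ) : 0 ≤ chi0 ε x := sg_nonneg _
lemma chi0_le_one (x : ℂ) : chi0 ε x ≤ 1 := sg_le_one _

lemma chi0_zero (hε : 0 < ε) (hε1 : ε ≤ 1) {x : ℂ} (hx : ‖x‖ ≤ 1 - 3 * ε / 4) : chi0 ε x = 0 := by
  have hd := den_pos hε hε1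
  apply sg_of_nonpos
  apply div_nonpos_of_nonpos_of_nonneg _ (by linarith)
  rw [N2_eq]
  have : ‖x‖ ^ 2 ≤ (1 - 3 * ε / 4) ^ 2 := by gcongr
  linarith

lemma chi0_one (hε : 0 < ε) (hε1 : ε ≤ 1) {x : ℂ} (hx : 1 - ε / 2 ≤ ‖x‖) : chi0 ε x = 1 := by
  have hd := den_pos hε hε1
  apply sg_of_one_le
  rw [le_div_iff₀ (by linarith), N2_eq]
  have : (1 - ε / 2) ^ 2 ≤ ‖x‖ ^ 2 := by
    apply pow_le_pow_left₀ (by linarith) hx
  linarith

lemma chi0_grad (hε : 0 < ε) (hε1 : ε ≤ 1) (x : ℂ) :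
    gx (chi0 ε) x ^ 2 + gy (chi0 ε) x ^ 2 ≤
      (ball (0 : ℂ) (1 - ε / 2)).indicator (fun _ => 400 / ε ^ 2) x := by
  have hd := den_pos hε hε1
  set D := (1 - ε / 2) ^ 2 - (1 - 3 * ε / 4) ^ 2 with hD
  have hD0 : 0 < D := by linarith
  have h1 : HasDerivAt (fun t : ℝ => sg ((t - (1 - 3 * ε / 4) ^ 2) / D))
      (dsg ((N2 x - (1 - 3 * ε / 4) ^ 2) / D) * (1 / D)) (N2 x) :=
    (sg_hasDerivAt _).comp (N2 x) (((hasDerivAt_id' (N2 x)).sub_const _).div_const D)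
  have h2 := (comp_N2_hasFDerivAt h1).fderiv
  have h3 : fderiv ℝ (chi0 ε) x = (dsg ((N2 x - (1 - 3 * ε / 4) ^ 2) / D) * (1 / D)) •
      ((2 * x.re) • Complex.reCLM + (2 * x.im) • Complex.imCLM) := h2
  have e : gx (chi0 ε) x ^ 2 + gy (chi0 ε) x ^ 2 =
      (dsg ((N2 x - (1 - 3 * ε / 4) ^ 2) / D)) ^ 2 * (4 * N2 x) / D ^ 2 := by
    unfold gx gy
    rw [h3]
    simp
    have hN : N2 x = x.re ^ 2 + x.im ^ 2 := rfl
    field_simp
    rw [hN]
    ring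
  rw [e]
  by_cases hx : x ∈ ball (0 : ℂ) (1 - ε / 2)
  · rw [indicator_of_mem hx]
    rw [mem_ball_zero_iff] at hx
    have hN1 : N2 x ≤ 1 := by
      rw [N2_eq]
      have : ‖x‖ ≤ 1 := by linarith
      have := norm_nonneg x
      nlinarith
    have hN0 := N2_nonneg x
    have k1 := dsg_le ((N2 x - (1 - 3 * ε / 4) ^ 2) / D)
    have k0 := dsg_nonneg ((N2 x - (1 - 3 * ε / 4) ^ 2) / D)
    generalize dsg ((N2 x - (1 - 3 * ε / 4) ^ 2) / D) = k at k1 k0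
    have h5 : k ^ 2 * (4 * N2 x) ≤ (8 / 5) ^ 2 * (4 * 1) := by gcongr
    have h6 : (ε / 6) ^ 2 ≤ D ^ 2 := by gcongr
    calc k ^ 2 * (4 * N2 x) / D ^ 2 ≤ (8 / 5) ^ 2 * (4 * 1) / (ε / 6) ^ 2 := by gcongr
      _ ≤ 400 / ε ^ 2 := by
        rw [div_le_div_iff₀ (by positivity) (by positivity)]
        nlinarith [sq_nonneg ε]
  · rw [indicator_of_notMem hx]
    rw [mem_ball_zero_iff, not_lt] at hx
    have : 1 ≤ (N2 x - (1 - 3 * ε / 4) ^ 2) / D := by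
      rw [le_div_iff₀ hD0, N2_eq]
      have : (1 - ε / 2) ^ 2 ≤ ‖x‖ ^ 2 := pow_le_pow_left₀ (by linarith) hx 2
      linarith
    rw [dsg_of_one_le this]; simp

/-- gradient bound for the exponent -/
lemma Hyp.gradL_le (H : Hyp E η s d w r h ρ) (h1 : a1 = 39 / 20) (h2 : a2 = 1 / 10) {x : ℂ}
    (hx : x ∈ Om E η w) :
    gx (Lw E w r a1 a2) x ^ 2 + gy (Lw E w r a1 a2) x ^ 2 ≤ E.card * (1 / w ^ 2) := by
  have hr := H.r0
  have hQ := Qtip_le E H.w0 r x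
  have hQ0 := Qtip_nonneg E w r x
  by_cases hnear : ∃ e ∈ E, ‖x - e‖ < r
  · obtain ⟨e, he, hxe⟩ := hnear
    have := H.near h1 h2 he hxe hx
    linarith
  · push Not at hnear
    have hz : gx (Sf E w r) x = 0 ∧ gy (Sf E w r) x = 0 := by
      by_cases hn2 : ∃ e ∈ E, ‖x - e‖ < 2 * r
      · obtain ⟨e, he, hxe⟩ := hn2
        exact (grad_Sf H.w0 hr H.sep he hxe).2.2 (by
          rw [N2_eq]; have := hnear e he; gcongr)
      · push Not at hn2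
        exact grad_Sf_zero (E := E) H.w0 hr (x := x) (fun e he => by
          have := hn2 e he; linarith)
    obtain ⟨l1, l2⟩ := grad_Lw (a1 := a1) (a2 := a2) H.w0 H.wr H.sep hx
    have hpos : (0 : ℝ) ≤ E.card * (1 / w ^ 2) := by positivity
    by_cases hA : x ∈ sideA E
    · obtain ⟨m1, m2⟩ := l1 hA
      rw [m1, m2, hz.1, hz.2]; simpa using hpos
    · obtain ⟨m1, m2⟩ := l2 hA
      rw [m1, m2, hz.1, hz.2]; simpa using hpos

/-- upper bound theorem -/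
theorem Hyp.upper (H : Hyp E η s d w r h ρ) (hΛ0 : 0 ≤ Λ) (hq : Λ + 1 ≤ q0 h ρ / 100)
    (hform : ∀ u, IsT (Vs E η w h) u → 0 ≤ qf Λ u)
    (hinf : ∀ δ : ℝ, 0 < δ → ∃ u, IsT (Vs E η w h) u ∧ Ma u = 1 ∧ qf Λ u ≤ δ)
    (hε : 0 < ε) (hε1 : ε ≤ 1) (hrε : r ≤ ε / 2)
    (hsmall : (Λ + 1) * Real.exp (-(41 / 10 * MM w r)) ≤ 1 / 2) :
    ∃ z, IsT (Om E η w \ closedBall 0 (1 - ε)) z ∧ 1 / 2 ≤ Ma z ∧
      qf Λ z ≤ 401 / ε ^ 2 * ((Λ + 1) * Real.exp (-(41 / 10 * MM w r))) := by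
  have hVo := isOpen_Vs E η w h
  have hsub : Vs E η w h ⊆ Om E η w := sdiff_subset
  obtain ⟨a1, ha1⟩ : ∃ a1 : ℝ, a1 = 39 / 20 := ⟨_, rfl⟩
  obtain ⟨a2, ha2⟩ : ∃ a2 : ℝ, a2 = 1 / 10 := ⟨_, rfl⟩
  have ha : 2 * ((a1 + a2) * MM w r) = 41 / 10 * MM w r := by rw [ha1, ha2]; ring
  have hM := MM_nonneg (r := r) H.w0
  have hG : ContDiffOn ℝ 1 (GG E w r a1 a2) (Vs E η w h) := H.contG.mono hsub
  have hG2 : ContDiffOn ℝ 1 (fun x => GG E w r a1 a2 x ^ 2) (Vs E η w h) := hG.pow 2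
  have hχ : ContDiffOn ℝ 1 (chi0 ε) (Vs E η w h) := chi0_contDiff.contDiffOn
  have hχ2 : ContDiffOn ℝ 1 (fun x => chi0 ε x ^ 2) (Vs E η w h) := hχ.pow 2
  -- bounds for G^2
  obtain ⟨B1, hB1⟩ : ∃ B1 : ℝ, ∀ x ∈ Vs E η w h, (GG E w r a1 a2 x ^ 2) ^ 2 ≤ B1 := by
    refine ⟨(Real.exp ((a1 + a2) * MM w r) ^ 2) ^ 2, fun x _ => ?_⟩
    have := (Lw_bounds (a1 := a1) (a2 := a2) H.w0 H.r0 H.sep (by rw [ha1]; norm_num)
      (by rw [ha2]; norm_num) x).2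
    have h3 : GG E w r a1 a2 x ≤ Real.exp ((a1 + a2) * MM w r) := Real.exp_le_exp.2 this
    have h4 : 0 ≤ GG E w r a1 a2 x := (Real.exp_pos _).le
    gcongr
  obtain ⟨B2, hB2⟩ : ∃ B2 : ℝ, ∀ x ∈ Vs E η w h, gx (fun x => GG E w r a1 a2 x ^ 2) x ^ 2
      + gy (fun x => GG E w r a1 a2 x ^ 2) x ^ 2 ≤ B2 := by
    refine ⟨4 * B1 * (E.card * (1 / w ^ 2)), fun x hx => ?_⟩
    have hd : DifferentiableAt ℝ (GG E w r a1 a2) x :=
      (hG.contDiffAt (hVo.mem_nhds hx)).differentiableAt one_ne_zero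
    have hf := (hd.hasFDerivAt.pow 2).fderiv
    obtain ⟨g1, g2⟩ := H.gradG (a1 := a1) (a2 := a2) (hsub hx)
    have e1 : gx (fun x => GG E w r a1 a2 x ^ 2) x =
        2 * GG E w r a1 a2 x ^ 2 * gx (Lw E w r a1 a2) x := by
      have : gx (fun x => GG E w r a1 a2 x ^ 2) x = 2 * GG E w r a1 a2 x * gx (GG E w r a1 a2) x := by
        unfold gx; rw [hf]; simp
      rw [this, g1]; ring
    have e2 : gy (fun x => GG E w r a1 a2 x ^ 2) x =
        2 * GG E w r a1 a2 x ^ 2 * gy (Lw E w r a1 a2) x := by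
      have : gy (fun x => GG E w r a1 a2 x ^ 2) x = 2 * GG E w r a1 a2 x * gy (GG E w r a1 a2) x := by
        unfold gy; rw [hf]; simp
      rw [this, g2]; ring
    rw [e1, e2]
    have h5 := H.gradL_le ha1 ha2 (hsub hx)
    have h6 := hB1 x hx
    have e3 : (2 * GG E w r a1 a2 x ^ 2 * gx (Lw E w r a1 a2) x) ^ 2 +
        (2 * GG E w r a1 a2 x ^ 2 * gy (Lw E w r a1 a2) x) ^ 2 =
        4 * (GG E w r a1 a2 x ^ 2) ^ 2 * (gx (Lw E w r a1 a2) x ^ 2 + gy (Lw E w r a1 a2) x ^ 2) := by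
      ring
    rw [e3]
    have h7 : 0 ≤ gx (Lw E w r a1 a2) x ^ 2 + gy (Lw E w r a1 a2) x ^ 2 := by positivity
    have h8 : 0 ≤ (GG E w r a1 a2 x ^ 2) ^ 2 := by positivity
    have h9 : 0 ≤ B1 := h8.trans h6
    gcongr
  -- bounds for chi^2
  have hχb : ∀ x ∈ Vs E η w h, (chi0 ε x ^ 2) ^ 2 ≤ 1 := by
    intro x _
    have h1 := chi0_nonneg (ε := ε) x
    have h2 := chi0_le_one (ε := ε) x
    have : chi0 ε x ^ 2 ≤ 1 := by nlinarith
    have h0 : 0 ≤ chi0 ε x ^ 2 := by positivity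
    nlinarith
  have hχg : ∀ x ∈ Vs E η w h, gx (fun x => chi0 ε x ^ 2) x ^ 2 + gy (fun x => chi0 ε x ^ 2) x ^ 2
      ≤ 4 * (400 / ε ^ 2) := by
    intro x _
    have hd : DifferentiableAt ℝ (chi0 ε) x := chi0_contDiff.differentiable one_ne_zero x
    have hf := (hd.hasFDerivAt.pow 2).fderiv
    have e1 : gx (fun x => chi0 ε x ^ 2) x = 2 * chi0 ε x * gx (chi0 ε) x := by
      unfold gx; rw [hf]; simp
    have e2 : gy (fun x => chi0 ε x ^ 2) x = 2 * chi0 ε x * gy (chi0 ε) x := by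
      unfold gy; rw [hf]; simp
    rw [e1, e2]
    have h1 := chi0_nonneg (ε := ε) x
    have h2 := chi0_le_one (ε := ε) x
    have h3 := chi0_grad hε hε1 x
    have h4 : (ball (0 : ℂ) (1 - ε / 2)).indicator (fun _ => 400 / ε ^ 2) x ≤ 400 / ε ^ 2 := by
      unfold Set.indicator
      split_ifs
      · exact le_rfl
      · positivity
    have h5 : chi0 ε x ^ 2 ≤ 1 := by nlinarith
    have e3 : (2 * chi0 ε x * gx (chi0 ε) x) ^ 2 + (2 * chi0 ε x * gy (chi0 ε) x) ^ 2 =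
        4 * chi0 ε x ^ 2 * (gx (chi0 ε) x ^ 2 + gy (chi0 ε) x ^ 2) := by ring
    rw [e3]
    have h6 : 0 ≤ gx (chi0 ε) x ^ 2 + gy (chi0 ε) x ^ 2 := by positivity
    calc 4 * chi0 ε x ^ 2 * (gx (chi0 ε) x ^ 2 + gy (chi0 ε) x ^ 2)
        ≤ 4 * 1 * (400 / ε ^ 2) := by gcongr; exact h3.trans h4
      _ = _ := by ring
  -- choose δ
  set C1 := 2 * B1 * (Λ + 1) + 2 * B2 with hC1
  set C2 := 2 * 1 * (Λ + 1) + 2 * (4 * (400 / ε ^ 2)) with hC2
  set m0 := (Λ + 1) * Real.exp (-(41 / 10 * MM w r)) with hm0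
  have hm0pos : 0 < m0 := by positivity
  obtain ⟨δ, hδ0, hδ1, hδ2, hδ3⟩ : ∃ δ : ℝ, 0 < δ ∧ δ ≤ 1 ∧ √δ * √C1 ≤ 1 ∧ √δ * √C2 ≤ m0 / ε ^ 2 := by
    have t1 : Tendsto (fun δ : ℝ => √δ * √C1) (𝓝[>] 0) (𝓝 0) := by
      have : Tendsto (fun δ : ℝ => √δ * √C1) (𝓝 0) (𝓝 (√0 * √C1)) :=
        (Real.continuous_sqrt.tendsto 0).mul_const _
      simp only [Real.sqrt_zero, zero_mul] at this
      exact this.mono_left nhdsWithin_le_nhds
    have t2 : Tendsto (fun δ : ℝ => √δ * √C2) (𝓝[>] 0) (𝓝 0) := by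
      have : Tendsto (fun δ : ℝ => √δ * √C2) (𝓝 0) (𝓝 (√0 * √C2)) :=
        (Real.continuous_sqrt.tendsto 0).mul_const _
      simp only [Real.sqrt_zero, zero_mul] at this
      exact this.mono_left nhdsWithin_le_nhds
    have t3 : ∀ᶠ δ : ℝ in 𝓝[>] 0, δ ≤ 1 :=
      mem_nhdsWithin_of_mem_nhds (Iic_mem_nhds zero_lt_one)
    have t4 : ∀ᶠ δ : ℝ in 𝓝[>] 0, 0 < δ := self_mem_nhdsWithin
    obtain ⟨δ, h⟩ := (((t4.and t3).and (t1.eventually_le_const zero_lt_one)).and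
      (t2.eventually_le_const (div_pos hm0pos (by positivity : 0 < ε ^ 2)))).exists
    exact ⟨δ, h.1.1.1, h.1.1.2, h.1.2, h.2⟩
  obtain ⟨u, hu, hu1, hqu⟩ := hinf δ hδ0
  have hEn : En u ≤ Λ + 1 := by
    have : En u = qf Λ u + Λ * Ma u := by unfold qf; ring
    rw [this, hu1]; linarith
  -- Agmon
  have hGu : qf Λ (fun x => GG E w r a1 a2 x ^ 2 * u x) ≤ C1 := by
    refine (qf_le_En hΛ0).trans ((En_mul_le hu hVo hG2 hB1 hB2).trans ?_)
    rw [hu1, hC1]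
    obtain ⟨x, hx⟩ : (Vs E η w h).Nonempty := by
      by_contra hcon
      rw [not_nonempty_iff_eq_empty] at hcon
      have hz : u = fun _ => 0 := by
        ext x
        apply zero_of_notMem
        intro hx
        have := hu.supp hx
        rw [hcon] at this; exact this
      rw [hz] at hu1
      simp [Ma] at hu1
    have hB10 : 0 ≤ B1 := (by positivity : (0:ℝ) ≤ (GG E w r a1 a2 x ^ 2) ^ 2).trans (hB1 x hx)
    have : 2 * B1 * En u ≤ 2 * B1 * (Λ + 1) := by gcongr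
    linarith
  have hb1 := abs_bil_le hform hu (hu.mul hVo hG2) hδ0.le hqu hGu
  have hag := H.agmon ha1 ha2 hΛ0 hq hu
  rw [ha, hu1] at hag
  set m := ∫ x in ball (0 : ℂ) (1 - r), u x ^ 2 with hm
  have hmle : m ≤ m0 := by
    have h1 : Real.exp (41 / 10 * MM w r) * m ≤ Λ + 1 := by
      have : bil Λ u (fun x => GG E w r a1 a2 x ^ 2 * u x) ≤ 1 := hb1.trans hδ2
      linarith
    have h2 : m = Real.exp (-(41 / 10 * MM w r)) * (Real.exp (41 / 10 * MM w r) * m) := by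
      rw [← mul_assoc, ← Real.exp_add]; simp
    rw [h2, hm0, mul_comm (Λ + 1)]
    have := Real.exp_pos (-(41 / 10 * MM w r))
    gcongr
  -- mass in the smaller ball
  have hball : ∫ x in ball (0 : ℂ) (1 - ε / 2), u x ^ 2 ≤ m := by
    rw [hm]
    apply setIntegral_mono_set hu.int_sq.integrableOn
    · filter_upwards with x; positivity
    · exact (ball_subset_ball (by linarith)).eventuallyLE
  -- the test function
  refine ⟨fun x => chi0 ε x * u x, ?_, ?_, ?_⟩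
  · have hz := hu.mul hVo hχ
    refine ⟨hz.smooth, hz.cpt, fun x hx => ⟨hsub (hz.supp hx), fun hxK => ?_⟩⟩
    rw [mem_closedBall_zero_iff] at hxK
    have hlt : ‖x‖ < 1 - 3 * ε / 4 := by linarith
    have hev : (fun x => chi0 ε x * u x) =ᶠ[𝓝 x] 0 := by
      have : ∀ᶠ y : ℂ in 𝓝 x, ‖y‖ < 1 - 3 * ε / 4 :=
        continuous_norm.continuousAt.eventually_lt continuousAt_const hlt
      filter_upwards [this] with y hy
      rw [chi0_zero hε hε1 hy.le]; simp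
    exact (notMem_tsupport_iff_eventuallyEq.2 hev) hx
  · -- mass
    have h1 : (∫ x, u x ^ 2) - ∫ x, (ball (0 : ℂ) (1 - ε / 2)).indicator (fun x => u x ^ 2) x ≤
        ∫ x, (chi0 ε x * u x) ^ 2 := by
      rw [← integral_sub hu.int_sq (hu.int_sq.indicator measurableSet_ball)]
      apply integral_mono (hu.int_sq.sub (hu.int_sq.indicator measurableSet_ball))
        (hu.mul hVo hχ).int_sq
      intro x
      simp only [Pi.sub_apply]
      by_cases hx : x ∈ ball (0 : ℂ) (1 - ε / 2)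
      · rw [indicator_of_mem hx]; simp only [sub_self]; positivity
      · rw [indicator_of_notMem hx]
        rw [mem_ball_zero_iff, not_lt] at hx
        rw [chi0_one hε hε1 hx]; simp
    rw [integral_indicator measurableSet_ball] at h1
    have h2 : (∫ x, u x ^ 2) = 1 := hu1
    rw [h2] at h1
    unfold Ma
    linarith
  · -- form
    rw [qf_mul hu hVo hχ Λ]
    have hcu : qf Λ (fun x => chi0 ε x ^ 2 * u x) ≤ C2 := by
      refine (qf_le_En hΛ0).trans ((En_mul_le hu hVo hχ2 hχb hχg).trans ?_)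
      rw [hu1, hC2]
      have : 2 * 1 * En u ≤ 2 * 1 * (Λ + 1) := by gcongr
      linarith
    have hb2 := abs_bil_le hform hu (hu.mul hVo hχ2) hδ0.le hqu hcu
    have hgr : ∫ x, (gx (chi0 ε) x ^ 2 + gy (chi0 ε) x ^ 2) * u x ^ 2 ≤ 400 / ε ^ 2 * m0 := by
      have i1 : Integrable (fun x => (gx (chi0 ε) x ^ 2 + gy (chi0 ε) x ^ 2) * u x ^ 2) :=
        hu.int_coef hVo (((contOn_gx hVo hχ).pow 2).add ((contOn_gy hVo hχ).pow 2))
      have i2 : Integrable ((ball (0 : ℂ) (1 - ε / 2)).indicator (fun x => 400 / ε ^ 2 * u x ^ 2)) :=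
        (hu.int_sq.const_mul _).indicator measurableSet_ball
      have : ∫ x, (gx (chi0 ε) x ^ 2 + gy (chi0 ε) x ^ 2) * u x ^ 2 ≤
          ∫ x, (ball (0 : ℂ) (1 - ε / 2)).indicator (fun x => 400 / ε ^ 2 * u x ^ 2) x := by
        apply integral_mono i1 i2
        intro x
        simp only
        have h3 := chi0_grad hε hε1 x
        by_cases hx : x ∈ ball (0 : ℂ) (1 - ε / 2)
        · rw [indicator_of_mem hx] at h3 ⊢
          gcongr
        · rw [indicator_of_notMem hx] at h3 ⊢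
          have h4 : gx (chi0 ε) x ^ 2 + gy (chi0 ε) x ^ 2 = 0 := le_antisymm h3 (by positivity)
          rw [h4]; simp
      rw [integral_indicator measurableSet_ball, integral_const_mul] at this
      refine this.trans ?_
      have : 0 < 400 / ε ^ 2 := by positivity
      exact mul_le_mul_of_nonneg_left (hball.trans hmle) this.le
    have e : 401 / ε ^ 2 * m0 = m0 / ε ^ 2 + 400 / ε ^ 2 * m0 := by ring
    rw [e]
    linarith [hb2.trans hδ3]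

end Pool.Agent.MP0c2
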