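import Pool.Agent.Lib.MP_0c2aee_an.Cut
import Pool.Agent.Lib.MP_0c2aee_an.Domain

/-! The logarithmic cutoff around all the tips and the Agmon weight. -/

set_option autoImplicit false

open MeasureTheory Set Metric Topology Filter
open scoped ComplexConjugate

namespace Pool.Agent.MP0c2

variable {E : Finset ℂ} {w r d : ℝ}

/-- total height -/
noncomputable def MM (w r : ℝ) : ℝ := lg (2 * w) r (r ^ 2)

/-- logarithmic cutoff around the tips: `MM` at the tips, `0` away from them. -/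
noncomputable def Sf (E : Finset ℂ) (w r : ℝ) (x : ℂ) : ℝ :=
  ∑ e ∈ E, (MM w r - lg (2 * w) r (N2 (x - e)))

lemma N2_sub_contDiff (e : ℂ) : ContDiff ℝ 1 (fun x : ℂ => N2 (x - e)) :=
  N2_contDiff.comp (contDiff_id.sub contDiff_const)

lemma Sf_contDiff (hw : 0 < w) : ContDiff ℝ 1 (Sf E w r) := by
  unfold Sf
  apply ContDiff.sum
  intro e _
  exact contDiff_const.sub ((lg_contDiff (by linarith)).comp (N2_sub_contDiff e))

lemma MM_nonneg (hw : 0 < w) : 0 ≤ MM w r := lg_nonneg (by linarith) _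

lemma term_nonneg (hw : 0 < w) (hr : 0 < r) (x e : ℂ) : 0 ≤ MM w r - lg (2 * w) r (N2 (x - e)) := by
  have := lg_le (a := 2 * w) (by linarith) hr (N2 (x - e))
  unfold MM; linarith

lemma term_le (hw : 0 < w) (x e : ℂ) : MM w r - lg (2 * w) r (N2 (x - e)) ≤ MM w r := by
  have := lg_nonneg (a := 2 * w) (b := r) (by linarith) (N2 (x - e))
  linarith

lemma term_zero (hw : 0 < w) (hr : 0 < r) {x e : ℂ} (h : r ≤ ‖x - e‖) :
    MM w r - lg (2 * w) r (N2 (x - e)) = 0 := by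
  have h2 : r ^ 2 ≤ N2 (x - e) := by rw [N2_eq]; gcongr
  rw [lg_const (by linarith) hr h2]; unfold MM; ring

lemma term_M (hw : 0 < w) {x e : ℂ} (h : ‖x - e‖ ≤ 2 * w) :
    MM w r - lg (2 * w) r (N2 (x - e)) = MM w r := by
  have h2 : N2 (x - e) ≤ (2 * w) ^ 2 := by rw [N2_eq]; gcongr
  rw [lg_zero (by linarith) h2]; ring

/-- separation of the tips -/
def Sep (E : Finset ℂ) (r : ℝ) : Prop := ∀ e ∈ E, ∀ e' ∈ E, e ≠ e' → 4 * r ≤ ‖e - e'‖

lemma Sep.far (hs : Sep E r) {e e' x : ℂ} (he : e ∈ E) (he' : e' ∈ E) (hne : e ≠ e')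
    (hx : ‖x - e‖ < 2 * r) : 2 * r < ‖x - e'‖ := by
  have h1 := hs e he e' he' hne
  have h2 : ‖e - e'‖ ≤ ‖x - e‖ + ‖x - e'‖ := by
    have : e - e' = (x - e') - (x - e) := by ring
    rw [this, add_comm]; exact norm_sub_le _ _
  linarith

lemma Sf_near (hw : 0 < w) (hr : 0 < r) (hs : Sep E r) {e x : ℂ} (he : e ∈ E)
    (hx : ‖x - e‖ < 2 * r) : Sf E w r x = MM w r - lg (2 * w) r (N2 (x - e)) := by
  unfold Sf
  rw [Finset.sum_eq_single_of_mem e he]
  intro e' he' hne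
  exact term_zero hw hr (by have := hs.far he he' hne.symm hx; linarith)

lemma Sf_near_ev (hw : 0 < w) (hr : 0 < r) (hs : Sep E r) {e x : ℂ} (he : e ∈ E)
    (hx : ‖x - e‖ < 2 * r) :
    Sf E w r =ᶠ[𝓝 x] fun x => MM w r - lg (2 * w) r (N2 (x - e)) := by
  have : ∀ᶠ y in 𝓝 x, ‖y - e‖ < 2 * r :=
    (continuous_id.sub continuous_const).norm.continuousAt.eventually_lt continuousAt_const hx
  filter_upwards [this] with y hy
  exact Sf_near hw hr hs he hy

lemma Sf_zero (hw : 0 < w) (hr : 0 < r) {x : ℂ} (h : ∀ e ∈ E, r ≤ ‖x - e‖) : Sf E w r x = 0 := by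
  unfold Sf
  exact Finset.sum_eq_zero fun e he => term_zero hw hr (h e he)

lemma Sf_M (hw : 0 < w) (hwr : 2 * w ≤ r) (hs : Sep E r) {e x : ℂ} (he : e ∈ E)
    (hx : ‖x - e‖ ≤ 2 * w) : Sf E w r x = MM w r := by
  rw [Sf_near hw (by linarith) hs he (by linarith), term_M hw hx]

lemma Sf_nonneg (hw : 0 < w) (hr : 0 < r) (x : ℂ) : 0 ≤ Sf E w r x :=
  Finset.sum_nonneg fun e _ => term_nonneg hw hr x e

lemma Sf_le (hw : 0 < w) (hr : 0 < r) (hs : Sep E r) (x : ℂ) : Sf E w r x ≤ MM w r := by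
  by_cases h : ∃ e ∈ E, ‖x - e‖ < 2 * r
  · obtain ⟨e, he, hx⟩ := h
    rw [Sf_near hw hr hs he hx]; exact term_le hw x e
  · push Not at h
    rw [Sf_zero hw hr (fun e he => by have := h e he; linarith)]
    exact MM_nonneg hw

lemma term_hasFDerivAt (hw : 0 < w) (x e : ℂ) :
    HasFDerivAt (fun x => MM w r - lg (2 * w) r (N2 (x - e)))
      (-(lk (2 * w) r (N2 (x - e)) • ((2 * (x - e).re) • Complex.reCLM + (2 * (x - e).im) • Complex.imCLM))) x := by
  have h1 := comp_N2_hasFDerivAt (lg_hasDerivAt (a := 2 * w) (b := r) (by linarith) (N2 (x - e)))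
  have h2 := (h1.comp x ((hasFDerivAt_id x).sub_const e)).const_sub (MM w r)
  simpa using h2

lemma gx_Sf (hw : 0 < w) (hr : 0 < r) (hs : Sep E r) {e x : ℂ} (he : e ∈ E)
    (hx : ‖x - e‖ < 2 * r) :
    gx (Sf E w r) x = -(lk (2 * w) r (N2 (x - e)) * (2 * (x - e).re)) ∧
    gy (Sf E w r) x = -(lk (2 * w) r (N2 (x - e)) * (2 * (x - e).im)) := by
  have h1 := (Sf_near_ev hw hr hs he hx).fderiv_eq (𝕜 := ℝ)
  unfold gx gy
  rw [h1, (term_hasFDerivAt hw x e).fderiv]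
  constructor <;> simp

lemma grad_Sf_zero (hw : 0 < w) (hr : 0 < r) {x : ℂ} (h : ∀ e ∈ E, r < ‖x - e‖) :
    gx (Sf E w r) x = 0 ∧ gy (Sf E w r) x = 0 := by
  have hev : Sf E w r =ᶠ[𝓝 x] fun _ => 0 := by
    have : ∀ᶠ y in 𝓝 x, ∀ e ∈ E, r < ‖y - e‖ := by
      rw [Finset.eventually_all]
      intro e he
      exact continuousAt_const.eventually_lt
        (continuous_id.sub continuous_const).norm.continuousAt (h e he)
    filter_upwards [this] with y hy
    exact Sf_zero hw hr (fun e he => (hy e he).le)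
  unfold gx gy
  rw [hev.fderiv_eq]; simp

/-- gradient bounds for the cutoff -/
lemma grad_Sf (hw : 0 < w) (hr : 0 < r) (hs : Sep E r) {e x : ℂ} (he : e ∈ E)
    (hx : ‖x - e‖ < 2 * r) :
    (gx (Sf E w r) x ^ 2 + gy (Sf E w r) x ^ 2) * N2 (x - e) ≤ 1 ∧
    (N2 (x - e) ≤ 4 * w ^ 2 → gx (Sf E w r) x = 0 ∧ gy (Sf E w r) x = 0) ∧
    (r ^ 2 ≤ N2 (x - e) → gx (Sf E w r) x = 0 ∧ gy (Sf E w r) x = 0) := by
  obtain ⟨h1, h2⟩ := gx_Sf hw hr hs he hx
  rw [h1, h2]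
  refine ⟨?_, ?_, ?_⟩
  · have ht := N2_nonneg (x - e)
    have hk := lk_mul_le (a := 2 * w) (b := r) (by linarith) (N2 (x - e)) ht
    have hk0 := lk_nonneg (a := 2 * w) (b := r) (by linarith) (N2 (x - e))
    have e1 : ((-(lk (2 * w) r (N2 (x - e)) * (2 * (x - e).re))) ^ 2 +
        (-(lk (2 * w) r (N2 (x - e)) * (2 * (x - e).im))) ^ 2) * N2 (x - e) =
        (2 * N2 (x - e) * lk (2 * w) r (N2 (x - e))) ^ 2 := by
      have : N2 (x - e) = (x - e).re ^ 2 + (x - e).im ^ 2 := rfl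
      generalize lk (2 * w) r (N2 (x - e)) = k
      rw [this]; ring
    rw [e1]
    have : 0 ≤ 2 * N2 (x - e) * lk (2 * w) r (N2 (x - e)) := by positivity
    nlinarith
  · intro h
    rw [lk_zero (by linarith) (by linarith)]; simp
  · intro h
    rw [lk_zero' hr h]; simp

open scoped Classical in
/-- exponent of the Agmon weight -/
noncomputable def Lw (E : Finset ℂ) (w r a1 a2 : ℝ) (x : ℂ) : ℝ :=
  if x ∈ sideA E then a1 * Sf E w r x else (a1 + a2) * MM w r - a2 * Sf E w r x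

variable {a1 a2 η : ℝ}

lemma Lw_A {x : ℂ} (h : x ∈ sideA E) : Lw E w r a1 a2 x = a1 * Sf E w r x := if_pos h
lemma Lw_C {x : ℂ} (h : x ∉ sideA E) :
    Lw E w r a1 a2 x = (a1 + a2) * MM w r - a2 * Sf E w r x := if_neg h

/-- local representation of the weight -/
lemma Lw_rep (hw : 0 < w) (hwr : 2 * w ≤ r) (hs : Sep E r) {x : ℂ} (hx : x ∈ Om E η w) :
    (x ∈ sideA E ∧ Lw E w r a1 a2 =ᶠ[𝓝 x] fun y => a1 * Sf E w r y) ∨
    (x ∉ sideA E ∧ Lw E w r a1 a2 =ᶠ[𝓝 x] fun y => (a1 + a2) * MM w r - a2 * Sf E w r y) := by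
  by_cases hA : x ∈ sideA E
  · left
    refine ⟨hA, ?_⟩
    filter_upwards [(isOpen_sideA E).mem_nhds hA] with y hy
    exact Lw_A hy
  · right
    refine ⟨hA, ?_⟩
    rcases hx.2 with h | h | h
    · exact absurd h hA
    · filter_upwards [(isOpen_cham E).mem_nhds h] with y hy
      exact Lw_C (fun hyA => disj_sideA_cham E hyA hy)
    · obtain ⟨e, he, hxe⟩ := h
      have : ∀ᶠ y in 𝓝 x, ‖y - e‖ < w :=
        (continuous_id.sub continuous_const).norm.continuousAt.eventually_lt continuousAt_const hxe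
      filter_upwards [this] with y hy
      have hM : Sf E w r y = MM w r := Sf_M hw hwr hs he (by linarith)
      by_cases hyA : y ∈ sideA E
      · rw [Lw_A hyA, hM]; ring
      · rw [Lw_C hyA]

lemma Lw_contDiffOn (hw : 0 < w) (hwr : 2 * w ≤ r) (hs : Sep E r) :
    ContDiffOn ℝ 1 (Lw E w r a1 a2) (Om E η w) := by
  intro x hx
  apply ContDiffAt.contDiffWithinAt
  have hS : ContDiffAt ℝ 1 (Sf E w r) x := (Sf_contDiff hw).contDiffAt
  rcases Lw_rep (a1 := a1) (a2 := a2) hw hwr hs hx with ⟨_, h⟩ | ⟨_, h⟩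
  · exact (contDiffAt_const.mul hS).congr_of_eventuallyEq h
  · exact (contDiffAt_const.sub (contDiffAt_const.mul hS)).congr_of_eventuallyEq h

lemma grad_Lw (hw : 0 < w) (hwr : 2 * w ≤ r) (hs : Sep E r) {x : ℂ} (hx : x ∈ Om E η w) :
    (x ∈ sideA E → gx (Lw E w r a1 a2) x = a1 * gx (Sf E w r) x ∧
      gy (Lw E w r a1 a2) x = a1 * gy (Sf E w r) x) ∧
    (x ∉ sideA E → gx (Lw E w r a1 a2) x = - (a2 * gx (Sf E w r) x) ∧
      gy (Lw E w r a1 a2) x = - (a2 * gy (Sf E w r) x)) := by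
  have hS : DifferentiableAt ℝ (Sf E w r) x := (Sf_contDiff hw).differentiable one_ne_zero x
  rcases Lw_rep (a1 := a1) (a2 := a2) hw hwr hs hx with ⟨hA, h⟩ | ⟨hA, h⟩
  · refine ⟨fun _ => ?_, fun h' => absurd hA h'⟩
    unfold gx gy
    rw [h.fderiv_eq, fderiv_const_mul hS]; simp
  · refine ⟨fun h' => absurd h' hA, fun _ => ?_⟩
    unfold gx gy
    rw [h.fderiv_eq, fderiv_const_sub, fderiv_const_mul hS]; simp

lemma Lw_bounds (hw : 0 < w) (hr : 0 < r) (hs : Sep E r) (h1 : 0 ≤ a1) (h2 : 0 ≤ a2) (x : ℂ) :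
    0 ≤ Lw E w r a1 a2 x ∧ Lw E w r a1 a2 x ≤ (a1 + a2) * MM w r := by
  have hS0 := Sf_nonneg (E := E) hw hr x
  have hS1 := Sf_le hw hr hs x
  have hM := MM_nonneg (r := r) hw
  by_cases hA : x ∈ sideA E
  · rw [Lw_A hA]
    constructor
    · positivity
    · nlinarith
  · rw [Lw_C hA]
    constructor
    · nlinarith
    · nlinarith

end Pool.Agent.MP0c2
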