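import Pool.Agent.Lib.MP_0c2aee_an.Split
import Pool.Agent.Lib.MP_0c2aee_an.Polar

/-! Lower bound for the integral over a window, for near minimisers in the ring. -/

set_option autoImplicit false

open MeasureTheory Set Metric Topology Filter
open scoped ComplexConjugate

namespace Pool.Agent.MP0c2

/-- the rotation `x ↦ e x` -/
noncomputable def rotH (e : ℂ) (he : ‖e‖ = 1) : ℂ ≃ₜ ℂ :=
  Homeomorph.mulLeft₀ e (by intro h; rw [h] at he; simp at he)

lemma rotH_apply (e : ℂ) (he : ‖e‖ = 1) (x : ℂ) : rotH e he x = e * x := rfl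

lemma rotH_norm (e : ℂ) (he : ‖e‖ = 1) (x : ℂ) : ‖rotH e he x‖ = ‖x‖ := by
  rw [rotH_apply, norm_mul, he, one_mul]

lemma rotH_measurePreserving (e : ℂ) (he : ‖e‖ = 1) : MeasurePreserving (rotH e he) :=
  (rotation (⟨e, by rw [Submonoid.unitSphere]; simp [he]⟩ : Circle)).measurePreserving

lemma rotH_set_integral (e : ℂ) (he : ‖e‖ = 1) (f : ℂ → ℝ) (B : Set ℂ) :
    ∫ ξ in rotH e he ⁻¹' B, f (rotH e he ξ) = ∫ x in B, f x :=
  (rotH_measurePreserving e he).setIntegral_preimage_emb (rotH e he).measurableEmbedding f B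

lemma rotH_integral (e : ℂ) (he : ‖e‖ = 1) (f : ℂ → ℝ) :
    ∫ ξ, f (rotH e he ξ) = ∫ x, f x := by
  have := rotH_set_integral e he f univ
  simpa using this

lemma IsT.comp_rotH {U : Set ℂ} {v : ℂ → ℝ} (hv : IsT U v) (e : ℂ) (he : ‖e‖ = 1) :
    IsT (rotH e he ⁻¹' U) (fun ξ => v (rotH e he ξ)) where
  smooth := by
    refine hv.smooth.comp ?_
    have : ContDiff ℝ 1 (fun ξ : ℂ => e * ξ) := by fun_prop
    exact this
  cpt := hv.cpt.comp_homeomorph (rotH e he)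
  supp := by
    have : tsupport (fun ξ => v (rotH e he ξ)) = rotH e he ⁻¹' tsupport v :=
      tsupport_comp_eq_preimage v (rotH e he)
    rw [this]; exact preimage_mono hv.supp

lemma IsT.fderiv_comp_rotH {U : Set ℂ} {v : ℂ → ℝ} (hv : IsT U v) (e : ℂ) (he : ‖e‖ = 1)
    (ξ z : ℂ) : fderiv ℝ (fun ξ => v (rotH e he ξ)) ξ z = fderiv ℝ v (rotH e he ξ) (e * z) := by
  have h1 : HasFDerivAt (fun ξ : ℂ => rotH e he ξ) (ContinuousLinearMap.mul ℝ ℂ e) ξ :=
    (ContinuousLinearMap.mul ℝ ℂ e).hasFDerivAt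
  have h := ((hv.differentiable (rotH e he ξ)).hasFDerivAt.comp ξ h1).fderiv
  have h' : fderiv ℝ (fun ξ => v (rotH e he ξ)) ξ =
      (fderiv ℝ v (rotH e he ξ)).comp (ContinuousLinearMap.mul ℝ ℂ e) := h
  rw [h']; rfl

/-- angular derivative squared -/
noncomputable def Wt (y : ℂ → ℝ) (x : ℂ) : ℝ := (fderiv ℝ y x (Complex.I * x / (‖x‖ : ℂ))) ^ 2

lemma Wr_add_Wt (y : ℂ → ℝ) {x : ℂ} (hx : x ≠ 0) : Wr y x + Wt y x = ‖fderiv ℝ y x‖ ^ 2 := by
  have hn : (‖x‖ : ℂ) ≠ 0 := by simpa using hx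
  have hu : ‖x / (‖x‖ : ℂ)‖ = 1 := by
    rw [norm_div, Complex.norm_real, norm_norm, div_self (by simpa using hx)]
  rw [clm_norm_sq' (fderiv ℝ y x) (x / (‖x‖ : ℂ)) hu, ← mul_div_assoc]; rfl

lemma zero_notMem_ring (η : ℝ) : (0 : ℂ) ∉ ring η := by
  intro h; have := h.1; rw [norm_zero] at this; linarith

lemma ring_split {η : ℝ} {y : ℂ → ℝ} (hy : IsT (ring η) y) :
    (∫ x, Wr y x) + ∫ x, Wt y x = En y := by
  have h0 := zero_notMem_ring η
  have i1 := Wr_int (isOpen_ring η) h0 hy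
  have hpt : ∀ x, Wt y x = ‖fderiv ℝ y x‖ ^ 2 - Wr y x := by
    intro x
    by_cases hx : x = 0
    · have : x ∉ tsupport y := fun h => h0 (by rw [← hx]; exact hy.supp h)
      unfold Wt Wr; rw [fderiv_zero_of_notMem this]; simp
    · have := Wr_add_Wt y hx; linarith
  have e : ∫ x, Wt y x = En y - ∫ x, Wr y x := by
    simp_rw [hpt]
    rw [integral_sub hy.int_norm_sq i1]; rfl
  rw [e]; ring

/-- the window at the tip `e` -/
def win (η : ℝ) (e : ℂ) : Set ℂ :=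
  {x : ℂ | 1 + η / 8 < ‖x‖ ∧ ‖x‖ < 1 + 7 * η / 8 ∧ |Complex.arg (x * conj e)| < η / 100}

/-- numeric window bound, `η = 1/1000` -/
theorem window_lower {y : ℂ → ℝ} (hy : IsT (ring (1 / 1000)) y) (hy0 : ∀ x, 0 ≤ y x) {Λ δ2 : ℝ}
    (h1 : 1 - δ2 ≤ Ma y) (h2 : Ma y ≤ 1) (hq : qf Λ y ≤ δ2) (hδ2 : δ2 ≤ 2 / 10 ^ 4)
    (hΛ0 : 0 ≤ Λ)
    (hΛ : Λ ≤ Real.pi ^ 2 / (1 / 1000) ^ 2 - 1 / 4 + 6 / 10 ^ 4) {e : ℂ} (he : ‖e‖ = 1) :
    1 / 10 ^ 8 ≤ ∫ x in win (1 / 1000) e, y x := by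
  set η : ℝ := 1 / 1000 with hη
  have hη0 : 0 < η := by norm_num [hη]
  -- rotated function
  have hpre : rotH e he ⁻¹' ring η = ring η := by
    ext x; simp only [mem_preimage, ring]
    change (1 < ‖rotH e he x‖ ∧ ‖rotH e he x‖ < 1 + η) ↔ (1 < ‖x‖ ∧ ‖x‖ < 1 + η)
    rw [rotH_norm]
  have hye : IsT (ring η) (fun ξ => y (rotH e he ξ)) := by
    have := hy.comp_rotH e he
    rwa [hpre] at this
  have hEr : (∫ x, Wr y x) = ∫ x, (fderiv ℝ (fun ξ => y (rotH e he ξ)) x (x / (‖x‖ : ℂ))) ^ 2 := by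
    rw [← rotH_integral e he (Wr y)]
    congr 1; ext x
    unfold Wr
    rw [hy.fderiv_comp_rotH e he, rotH_norm, rotH_apply, mul_div_assoc]
  have hEt : (∫ x, Wt y x) =
      ∫ x, (fderiv ℝ (fun ξ => y (rotH e he ξ)) x (Complex.I * x / (‖x‖ : ℂ))) ^ 2 := by
    rw [← rotH_integral e he (Wt y)]
    congr 1; ext x
    unfold Wt
    rw [hy.fderiv_comp_rotH e he, rotH_norm, rotH_apply]
    congr 2
    ring
  have hMa : Ma (fun ξ => y (rotH e he ξ)) = Ma y := rotH_integral e he (fun x => y x ^ 2)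
  have hW : ∫ x in {x : ℂ | 1 + η / 8 < ‖x‖ ∧ ‖x‖ < 1 + 7 * η / 8 ∧ |Complex.arg x| < η / 100},
      y (rotH e he x) = ∫ x in win η e, y x := by
    rw [← rotH_set_integral e he y (win η e)]
    congr 2
    ext x
    simp only [mem_preimage, win]
    change (1 + η / 8 < ‖x‖ ∧ ‖x‖ < 1 + 7 * η / 8 ∧ |Complex.arg x| < η / 100) ↔
      (1 + η / 8 < ‖rotH e he x‖ ∧ ‖rotH e he x‖ < 1 + 7 * η / 8 ∧
        |Complex.arg (rotH e he x * conj e)| < η / 100)
    rw [rotH_norm]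
    have : rotH e he x * conj e = x := by
      rw [rotH_apply]
      have := mul_conj_self' he
      linear_combination x * this
    rw [this]
  -- energies
  set Er := ∫ x, Wr y x with hErd
  set Et := ∫ x, Wt y x with hEtd
  have hsum : Er + Et = En y := ring_split hy
  have hlow := ring_lower hη0 hy
  rw [← hErd] at hlow
  have hqf : En y - Λ * Ma y ≤ δ2 := hq
  have hEt0 : 0 ≤ Et := integral_nonneg fun x => sq_nonneg _
  have hδ20 : 0 ≤ δ2 := by linarith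
  have hpi1 := Real.pi_gt_d4
  have hpi2 := Real.pi_lt_d4
  have hP : Real.pi ^ 2 / η ^ 2 = Real.pi ^ 2 * 10 ^ 6 := by rw [hη]; ring
  have hpisq1 : 9.869 ≤ Real.pi ^ 2 := by norm_num at hpi1 ⊢; nlinarith
  have hpisq2 : Real.pi ^ 2 ≤ 9.8697 := by norm_num at hpi2 ⊢; nlinarith
  rw [hP] at hlow hΛ
  set P := Real.pi ^ 2 * 10 ^ 6 - 1 / 4 with hPd
  have hQ : 0.9998 ≤ Ma y := by norm_num at hδ2 ⊢; linarith
  have hEtle : Et ≤ 8 / 10 ^ 4 := by
    have : (Λ - P) * Ma y ≤ 6 / 10 ^ 4 := by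
      have h3 : Λ - P ≤ 6 / 10 ^ 4 := by rw [hPd]; linarith
      by_cases h4 : 0 ≤ Λ - P
      · nlinarith
      · push Not at h4; nlinarith
    nlinarith
  have hErle : Er ≤ 9869701 := by
    have h3 : Λ * Ma y ≤ Λ := by nlinarith
    norm_num at hδ2 hΛ hpisq2
    linarith
  have hErpos : 0 < Er := by
    have : 0 < P * Ma y := by
      have : 0 < P := by rw [hPd]; norm_num at hpisq1 ⊢; nlinarith
      positivity
    linarith
  have key := polar_window η (η / 100) hη0 (by norm_num [hη]) (by positivity) (by norm_num [hη])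
    (fun ξ => y (rotH e he ξ)) hye (fun x => hy0 _) Er Et hEr hEt hErpos
  rw [hW, hMa] at key
  refine le_trans ?_ key
  -- numerics
  have hnum : 0.84 ≤ Ma y / (1 + η) - η ^ 2 / 64 * Er := by
    have h3 : 0.9985 ≤ Ma y / (1 + η) := by
      rw [le_div_iff₀ (by positivity)]; norm_num [hη] at hQ ⊢; linarith
    have h4 : η ^ 2 / 64 * Er ≤ 0.1543 := by
      norm_num [hη]; linarith
    norm_num at h3 h4 ⊢; linarith
  have hden : √(2 * Real.pi * η * Er) ≤ 250 := by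
    rw [Real.sqrt_le_left (by norm_num)]
    have : 2 * Real.pi * η * Er ≤ 2 * 3.1416 * η * 9869701 := by
      have : Real.pi ≤ 3.1416 := hpi2.le
      gcongr
    refine this.trans ?_
    norm_num [hη]
  have hden0 : 0 < √(2 * Real.pi * η * Er) := by
    apply Real.sqrt_pos.2
    have := Real.pi_pos
    positivity
  have hfirst : 0.00336 ≤ (Ma y / (1 + η) - η ^ 2 / 64 * Er) / √(2 * Real.pi * η * Er) := by
    rw [le_div_iff₀ hden0]
    calc (0.00336 : ℝ) * √(2 * Real.pi * η * Er) ≤ 0.00336 * 250 := by gcongr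
      _ ≤ 0.84 := by norm_num
      _ ≤ _ := hnum
  have hsecond : √(2 * Real.pi * η * (1 + η) * Et) ≤ 0.0023 := by
    rw [Real.sqrt_le_left (by norm_num)]
    have : 2 * Real.pi * η * (1 + η) * Et ≤ 2 * 3.1416 * η * (1 + η) * (8 / 10 ^ 4) := by
      have : Real.pi ≤ 3.1416 := hpi2.le
      gcongr
    refine this.trans ?_
    norm_num [hη]
  have hη100 : 2 * (η / 100) = 2 / 10 ^ 5 := by norm_num [hη]
  rw [hη100]
  norm_num at hfirst hsecond ⊢
  linarith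

end Pool.Agent.MP0c2
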